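import Pool.Agent.Helper39K9.FV.Stm
import Pool.Agent.W497.FS.Thms

set_option autoImplicit false

namespace Pool.Agent.Helper39K9.FV

open Pool.Agent.W497.FS (NP Prm lk lkF nn cl comps Full)
open Pool.Agent.W497

variable {V : Type} [DecidableEq V] {G : SimpleGraph V}

/-- the leaves -/
structure Lv : Prop where
  emp : S_EMP
  mon : S_MON
  jon : S_JON
  sus : S_SUS
  ct2 : S_CT2
  ct3 : S_CT3
  rk1 : S_RK1
  evn : S_EVN
  odd : S_ODD
  typ : S_TYP
  iso : S_ISO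
  pth : S_PTH

theorem pair_cl {W : Finset V} {x y : V} (hx : x ∈ W) (hy : y ∈ W) (h : G.Adj x y) :
    ({x, y} : Finset V) ∈ cl G W := by
  rw [FS.mem_cl]
  refine ⟨fun z hz => ?_, fun a ha b hb hab => ?_⟩
  · rw [Finset.mem_insert, Finset.mem_singleton] at hz
    rcases hz with rfl | rfl
    · exact hx
    · exact hy
  · rw [Finset.mem_insert, Finset.mem_singleton] at ha hb
    rcases ha with rfl | rfl <;> rcases hb with rfl | rfl
    · exact absurd rfl hab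
    · exact h
    · exact h.symm
    · exact absurd rfl hab

/-- rank and defect of the link of an edge -/
theorem edge_link {d : ℕ} {W : Finset V} {x y : V} (h : NP G (d + 2) W) (hx : x ∈ W) (hy : y ∈ W)
    (hxy : G.Adj x y) : NP G d (lkF G W {x, y}) ∧
      (lkF G W {x, y}).card + (comps G (lkF G W {x, y})).card + 6 ≤ W.card + (comps G W).card ∧
      (lkF G W {x, y}).card < W.card := by
  obtain ⟨e, he, hNP, h1, h2⟩ := h.lkF (pair_cl hx hy hxy)
  have hc : ({x, y} : Finset V).card = 2 := Finset.card_pair hxy.ne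
  rw [hc] at he h1 h2
  obtain rfl : e = d := by omega
  exact ⟨hNP, by omega, by omega⟩

/-- two non-neighbours -/
theorem case2 (l : Lv) {d b : ℕ} {W : Finset V} {v : V} (h : NP G (d + 2) W) (hv : v ∈ W)
    (hc : (nn G W v).card = 2)
    (hl : ∀ x y, x ∈ W → y ∈ W → G.Adj x y → QQ (b - 1) G (lkF G W {x, y})) : QQ b G W := by
  obtain ⟨x, y, hxy, hn⟩ := Finset.card_eq_two.1 hc
  have hx : x ∈ nn G W v := by rw [hn]; simp
  have hy : y ∈ nn G W v := by rw [hn]; simp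
  have hadj : G.Adj x y := by
    by_contra hcon
    have := l.iso V G d W v x h hv hx (fun z hz => by
      rw [hn, Finset.mem_insert, Finset.mem_singleton] at hz
      rcases hz with rfl | rfl
      · exact G.loopless.irrefl _
      · exact hcon)
    rw [hn] at this
    have hy' : y ∈ ({x} : Finset V) := by rw [← this]; simp
    exact hxy (Finset.mem_singleton.1 hy').symm
  obtain ⟨x1, x2, x3⟩ := FS.mem_nn.1 hx
  obtain ⟨y1, y2, y3⟩ := FS.mem_nn.1 hy
  obtain ⟨t1, t2⟩ := l.typ V G (d + 2) W v h hv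
  have hnb : ∀ w ∈ W, w ≠ v → w ≠ x → w ≠ y → G.Adj v w := by
    intro w hw h1 h2 h3
    by_contra hcon
    have : w ∈ nn G W v := FS.mem_nn.2 ⟨hw, h1, hcon⟩
    rw [hn, Finset.mem_insert, Finset.mem_singleton] at this
    rcases this with h | h
    · exact h2 h
    · exact h3 h
  refine l.ct2 V G b W v x y hv x1 y1 (Ne.symm x2) (Ne.symm y2) hxy x3 y3 hadj ?_ ?_ (lkF G W {x, y})
    (fun w => ?_) (hl x y x1 y1 hadj)
  · intro w hw h1 h2 h3
    have h4 := hnb w hw h1 h2 h3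
    refine ⟨h4, ?_⟩
    obtain ⟨z, hz, hzw⟩ := t1 w (FS.mem_lk.2 ⟨hw, h4⟩)
    rw [hn, Finset.mem_insert, Finset.mem_singleton] at hz
    rcases hz with rfl | rfl
    · exact Or.inl hzw
    · exact Or.inr hzw
  · intro p hp q hq hvp hvq hpq
    obtain ⟨z, hz, hzp, hzq⟩ := t2 p (FS.mem_lk.2 ⟨hp, hvp⟩) q (FS.mem_lk.2 ⟨hq, hvq⟩) hpq
    rw [hn, Finset.mem_insert, Finset.mem_singleton] at hz
    rcases hz with rfl | rfl
    · exact Or.inl ⟨hzp, hzq⟩
    · exact Or.inr ⟨hzp, hzq⟩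
  · rw [FS.mem_lkF]
    simp

/-- data of three non-neighbours -/
theorem case3 (l : Lv) {d b : ℕ} {W : Finset V} {v x y z : V} (h : NP G (d + 2) W) (hv : v ∈ W)
    (hn : nn G W v = {x, y, z}) (hxy : x ≠ y) (hxz : x ≠ z) (hyz : y ≠ z)
    (axy : G.Adj x y) (ayz : G.Adj y z)
    (hsq : ∀ p ∈ W, ∀ q ∈ W, G.Adj y p → ¬ G.Adj z p → p ≠ z → G.Adj z q → ¬ G.Adj y q → q ≠ y →
      ¬ G.Adj p q) (M : Finset V)
    (hM : ∀ w, w ∈ M ↔ w ∈ W ∧ G.Adj x w ∧ w ≠ y ∧ w ≠ z ∧ (G.Adj y w ∨ G.Adj z w))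
    (hL : QQ (b - 1) G (lkF G W {y, z})) (hMQ : QQ (b - 1) G M) : QQ b G W := by
  have hx : x ∈ nn G W v := by rw [hn]; simp
  have hy : y ∈ nn G W v := by rw [hn]; simp
  have hz : z ∈ nn G W v := by rw [hn]; simp
  obtain ⟨x1, x2, x3⟩ := FS.mem_nn.1 hx
  obtain ⟨y1, y2, y3⟩ := FS.mem_nn.1 hy
  obtain ⟨z1, z2, z3⟩ := FS.mem_nn.1 hz
  obtain ⟨t1, t2⟩ := l.typ V G (d + 2) W v h hv
  have hmem : ∀ u, u ∈ nn G W v → u = x ∨ u = y ∨ u = z := by
    intro u hu
    rw [hn, Finset.mem_insert, Finset.mem_insert, Finset.mem_singleton] at hu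
    exact hu
  have hnb : ∀ w ∈ W, w ≠ v → w ≠ x → w ≠ y → w ≠ z → G.Adj v w := by
    intro w hw h1 h2 h3 h4
    by_contra hcon
    rcases hmem w (FS.mem_nn.2 ⟨hw, h1, hcon⟩) with h | h | h
    · exact h2 h
    · exact h3 h
    · exact h4 h
  refine l.ct3 V G b W v x y z hv x1 y1 z1 (Ne.symm x2) (Ne.symm y2) (Ne.symm z2) hxy hxz hyz x3 y3 z3
    axy ayz ?_ ?_ hsq (lkF G W {y, z}) M (fun w => ?_) hM hL hMQ
  · intro w hw h1 h2 h3 h4
    have h5 := hnb w hw h1 h2 h3 h4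
    refine ⟨h5, ?_⟩
    obtain ⟨u, hu, huw⟩ := t1 w (FS.mem_lk.2 ⟨hw, h5⟩)
    rcases hmem u hu with rfl | rfl | rfl
    · exact Or.inl huw
    · exact Or.inr (Or.inl huw)
    · exact Or.inr (Or.inr huw)
  · intro p hp q hq hvp hvq hpq
    obtain ⟨u, hu, hup, huq⟩ := t2 p (FS.mem_lk.2 ⟨hp, hvp⟩) q (FS.mem_lk.2 ⟨hq, hvq⟩) hpq
    rcases hmem u hu with rfl | rfl | rfl
    · exact Or.inl ⟨hup, huq⟩
    · exact Or.inr (Or.inl ⟨hup, huq⟩)
    · exact Or.inr (Or.inr ⟨hup, huq⟩)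
  · rw [FS.mem_lkF]
    simp

/-- neighbours of a non-neighbour which are not non-neighbours -/
theorem nb_of {W : Finset V} {v x y z p : V} (hn : nn G W v = {x, y, z}) (hp : p ∈ W) (hpv : p ≠ v)
    (hx : p ≠ x) (hy : p ≠ y) (hz : p ≠ z) : p ∈ lk G W v := by
  rw [FS.mem_lk]
  refine ⟨hp, ?_⟩
  by_contra hcon
  have : p ∈ nn G W v := FS.mem_nn.2 ⟨hp, hpv, hcon⟩
  rw [hn, Finset.mem_insert, Finset.mem_insert, Finset.mem_singleton] at this
  rcases this with h | h | h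
  · exact hx h
  · exact hy h
  · exact hz h

/-- three non-neighbours, a path -/
theorem case3p (l : Lv) {d b : ℕ} {W : Finset V} {v x y z : V} (h : NP G (d + 2) W) (hv : v ∈ W)
    (hn : nn G W v = {x, y, z}) (hxy : x ≠ y) (hxz : x ≠ z) (hyz : y ≠ z)
    (axy : G.Adj x y) (ayz : G.Adj y z) (nxz : ¬ G.Adj x z)
    (hl : ∀ x y, x ∈ W → y ∈ W → G.Adj x y → QQ (b - 1) G (lkF G W {x, y})) : QQ b G W := by
  have hx : x ∈ nn G W v := by rw [hn]; simp
  have hy : y ∈ nn G W v := by rw [hn]; simp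
  have hz : z ∈ nn G W v := by rw [hn]; simp
  obtain ⟨x1, x2, x3⟩ := FS.mem_nn.1 hx
  obtain ⟨y1, y2, y3⟩ := FS.mem_nn.1 hy
  obtain ⟨z1, z2, z3⟩ := FS.mem_nn.1 hz
  have hp := l.pth V G d W v x y z h hv hn hxz nxz
  obtain ⟨-, t2⟩ := l.typ V G (d + 2) W v h hv
  have key : ∀ w ∈ W, G.Adj x w → G.Adj z w → w ≠ y → G.Adj y w := by
    intro w hw h1 h2 h3
    refine hp w (nb_of hn hw ?_ h1.ne' h3 h2.ne') h1 h2
    rintro rfl
    exact x3 h1.symm
  refine case3 l h hv hn hxy hxz hyz axy ayz ?_ (lkF G W {x, y}) ?_ (hl y z y1 z1 ayz)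
    (hl x y x1 y1 axy)
  · intro p hpW q hqW h1 h2 h3 h4 h5 h6 hpq
    have hqv : q ≠ v := by rintro rfl; exact z3 h4.symm
    have hpv : p ≠ v := by rintro rfl; exact y3 h1.symm
    by_cases hqx : q = x
    · exact nxz (hqx ▸ h4).symm
    by_cases hpx : p = x
    · exact h5 (key q hqW (hpx ▸ hpq) h4 h6)
    have hpl := nb_of hn hpW hpv hpx h1.ne' h3
    have hql := nb_of hn hqW hqv hqx h6 h4.ne'
    obtain ⟨u, hu, hup, huq⟩ := t2 p hpl q hql hpq
    rw [hn, Finset.mem_insert, Finset.mem_insert, Finset.mem_singleton] at hu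
    rcases hu with rfl | rfl | rfl
    · exact h5 (key q hqW huq h4 h6)
    · exact h5 huq
    · exact h2 hup
  · intro w
    rw [FS.mem_lkF]
    simp only [Finset.mem_insert, Finset.mem_singleton, forall_eq_or_imp, forall_eq]
    constructor
    · rintro ⟨h1, h2, h3⟩
      exact ⟨h1, h2, h3.ne', fun h => nxz (h ▸ h2), Or.inl h3⟩
    · rintro ⟨h1, h2, h3, h4, h5⟩
      refine ⟨h1, h2, ?_⟩
      rcases h5 with h5 | h5
      · exact h5
      · exact key w h1 h2 h5 h3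

/-- the second point of a link of rank one -/
theorem other {W : Finset V} {x y z : V} (h : NP G 3 W) (hx : x ∈ W) (hy : y ∈ W) (hxy : G.Adj x y)
    (hz : z ∈ lkF G W {x, y}) : ∃ s, s ≠ z ∧ ¬ G.Adj s z ∧ lkF G W {x, y} = {z, s} := by
  have h1 : NP G 1 (lkF G W {x, y}) := (edge_link h hx hy hxy).1
  have h' : (lkF G W {x, y}).card = 2 ∧ ∀ a ∈ lkF G W {x, y}, ∀ b ∈ lkF G W {x, y}, ¬ G.Adj a b := h1
  obtain ⟨a, b, hab, he⟩ := Finset.card_eq_two.1 h'.1
  have ha : a ∈ lkF G W {x, y} := by rw [he]; simp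
  have hb : b ∈ lkF G W {x, y} := by rw [he]; simp
  rw [he, Finset.mem_insert, Finset.mem_singleton] at hz
  rcases hz with rfl | rfl
  · exact ⟨b, hab.symm, h'.2 b hb _ ha, he⟩
  · exact ⟨a, hab, h'.2 a ha _ hb, by rw [he, Finset.pair_comm]⟩

/-- three non-neighbours, a triangle, rank three, one of the edges is contractible -/
theorem case3t (l : Lv) {W : Finset V} {v x y z : V} (h : NP G 3 W) (hv : v ∈ W)
    (hn : nn G W v = {x, y, z}) (hxy : x ≠ y) (hxz : x ≠ z) (hyz : y ≠ z)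
    (axy : G.Adj x y) (ayz : G.Adj y z) (axz : G.Adj x z) {s t : V}
    (hs : lkF G W {x, y} = {z, s}) (ht : lkF G W {x, z} = {y, t}) (nst : ¬ G.Adj s t)
    (hsz : s ≠ z) (nsz : ¬ G.Adj s z) (hty : t ≠ y) (nty : ¬ G.Adj t y) : QQ 2 G W := by
  have hx : x ∈ nn G W v := by rw [hn]; simp
  have hy : y ∈ nn G W v := by rw [hn]; simp
  have hz : z ∈ nn G W v := by rw [hn]; simp
  obtain ⟨x1, x2, x3⟩ := FS.mem_nn.1 hx
  obtain ⟨y1, y2, y3⟩ := FS.mem_nn.1 hy
  obtain ⟨z1, z2, z3⟩ := FS.mem_nn.1 hz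
  obtain ⟨-, t2⟩ := l.typ V G 3 W v h hv
  have es : ∀ w, (w ∈ W ∧ G.Adj x w ∧ G.Adj y w) ↔ w = z ∨ w = s := by
    intro w
    have : w ∈ lkF G W {x, y} ↔ w = z ∨ w = s := by rw [hs]; simp
    rw [← this, FS.mem_lkF]; simp
  have et : ∀ w, (w ∈ W ∧ G.Adj x w ∧ G.Adj z w) ↔ w = y ∨ w = t := by
    intro w
    have : w ∈ lkF G W {x, z} ↔ w = y ∨ w = t := by rw [ht]; simp
    rw [← this, FS.mem_lkF]; simp
  obtain ⟨s1, s2, s3⟩ := (es s).2 (Or.inr rfl)
  obtain ⟨u1, u2, u3⟩ := (et t).2 (Or.inr rfl)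
  have hst : s ≠ t := by
    rintro rfl
    exact nsz u3.symm
  refine case3 (d := 1) l h hv hn hxy hxz hyz axy ayz ?_ {s, t} ?_ ?_ ?_
  · intro p hpW q hqW h1 h2 h3 h4 h5 h6 hpq
    have hqv : q ≠ v := by rintro rfl; exact z3 h4.symm
    have hpv : p ≠ v := by rintro rfl; exact y3 h1.symm
    have hqx : q ≠ x := by rintro rfl; exact h5 axy.symm
    have hpx : p ≠ x := by rintro rfl; exact h2 axz.symm
    have hpl := nb_of hn hpW hpv hpx h1.ne' h3
    have hql := nb_of hn hqW hqv hqx h6 h4.ne'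
    obtain ⟨u, hu, hup, huq⟩ := t2 p hpl q hql hpq
    rw [hn, Finset.mem_insert, Finset.mem_insert, Finset.mem_singleton] at hu
    rcases hu with rfl | rfl | rfl
    · have e1 := (es p).1 ⟨hpW, hup, h1⟩
      have e2 := (et q).1 ⟨hqW, huq, h4⟩
      rcases e1 with e1 | rfl
      · exact h3 e1
      rcases e2 with e2 | rfl
      · exact h6 e2
      exact nst hpq
    · exact h5 huq
    · exact h2 hup
  · intro w
    rw [Finset.mem_insert, Finset.mem_singleton]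
    constructor
    · rintro (rfl | rfl)
      · exact ⟨s1, s2, s3.ne', hsz, Or.inl s3⟩
      · exact ⟨u1, u2, hty, u3.ne', Or.inr u3⟩
    · rintro ⟨h1, h2, h3, h4, h5 | h5⟩
      · rcases (es w).1 ⟨h1, h2, h5⟩ with e | e
        · exact absurd e h4
        · exact Or.inl e
      · rcases (et w).1 ⟨h1, h2, h5⟩ with e | e
        · exact absurd e h3
        · exact Or.inr e
  · exact l.rk1 V G _ (edge_link h y1 z1 ayz).1 _ (Finset.Subset.refl _)
  · have h1 : NP G 1 ({s, t} : Finset V) := by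
      refine ⟨Finset.card_pair hst, fun a ha b hb hab => ?_⟩
      rw [Finset.mem_insert, Finset.mem_singleton] at ha hb
      rcases ha with rfl | rfl <;> rcases hb with rfl | rfl
      · exact G.loopless.irrefl _ hab
      · exact nst hab
      · exact nst hab.symm
      · exact G.loopless.irrefl _ hab
    exact l.rk1 V G _ h1 _ (Finset.Subset.refl _)

end Pool.Agent.Helper39K9.FV
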