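import Pool.Agent.Helper39K9.FV.Asm

set_option autoImplicit false

namespace Pool.Agent.Helper39K9.FV

open Pool.Agent.W497.FS (NP Prm lk lkF nn cl comps Full)
open Pool.Agent.W497

variable {V : Type} [DecidableEq V] {G : SimpleGraph V}

/-- three non-neighbours, a triangle, rank three -/
theorem case3tri (l : Lv) {W : Finset V} {v x y z : V} (h : NP G 3 W) (hv : v ∈ W)
    (hn : nn G W v = {x, y, z}) (hxy : x ≠ y) (hxz : x ≠ z) (hyz : y ≠ z)
    (axy : G.Adj x y) (ayz : G.Adj y z) (axz : G.Adj x z) : QQ 2 G W := by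
  have hx : x ∈ nn G W v := by rw [hn]; simp
  have hy : y ∈ nn G W v := by rw [hn]; simp
  have hz : z ∈ nn G W v := by rw [hn]; simp
  obtain ⟨x1, x2, x3⟩ := FS.mem_nn.1 hx
  obtain ⟨y1, y2, y3⟩ := FS.mem_nn.1 hy
  obtain ⟨z1, z2, z3⟩ := FS.mem_nn.1 hz
  have m2 : ∀ {a b c : V}, c ∈ W → G.Adj a c → G.Adj b c → c ∈ lkF G W {a, b} := by
    intro a b c h1 h2 h3
    rw [FS.mem_lkF]
    refine ⟨h1, fun u hu => ?_⟩
    rw [Finset.mem_insert, Finset.mem_singleton] at hu
    rcases hu with rfl | rfl
    · exact h2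
    · exact h3
  obtain ⟨s, hs1, hs2, hs3⟩ := other h x1 y1 axy (m2 z1 axz ayz)
  obtain ⟨t, ht1, ht2, ht3⟩ := other h x1 z1 axz (m2 y1 axy ayz.symm)
  obtain ⟨u, hu1, hu2, hu3⟩ := other h y1 z1 ayz (m2 x1 axy.symm axz.symm)
  have hc2 : ∀ a b : V, ({a, b} : Finset V) = {b, a} := fun a b => Finset.pair_comm a b
  by_cases n1 : G.Adj s t
  · by_cases n2 : G.Adj s u
    · by_cases n3 : G.Adj t u
      · -- the three points `s`, `t`, `u` are a triangle in the link of `v`
        exfalso
        have hsW : s ∈ lkF G W {x, y} := by rw [hs3]; simp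
        have htW : t ∈ lkF G W {x, z} := by rw [ht3]; simp
        have huW : u ∈ lkF G W {y, z} := by rw [hu3]; simp
        obtain ⟨s4, s5⟩ := FS.mem_lkF.1 hsW
        obtain ⟨t4, t5⟩ := FS.mem_lkF.1 htW
        obtain ⟨u4, u5⟩ := FS.mem_lkF.1 huW
        have sx : G.Adj x s := s5 x (by simp)
        have sy : G.Adj y s := s5 y (by simp)
        have tx : G.Adj x t := t5 x (by simp)
        have tz : G.Adj z t := t5 z (by simp)
        have uy : G.Adj y u := u5 y (by simp)
        have uz : G.Adj z u := u5 z (by simp)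
        have sv : s ≠ v := by rintro rfl; exact x3 sx.symm
        have tv : t ≠ v := by rintro rfl; exact x3 tx.symm
        have uv : u ≠ v := by rintro rfl; exact y3 uy.symm
        have sl := nb_of hn s4 sv sx.ne' sy.ne' hs1
        have tl := nb_of hn t4 tv tx.ne' ht1 tz.ne'
        have ul := nb_of hn u4 uv hu1 uy.ne' uz.ne'
        have hcl : ({s, t, u} : Finset V) ∈ cl G (lk G W v) := by
          rw [FS.mem_cl]
          refine ⟨fun w hw => ?_, fun a ha b hb hab => ?_⟩
          · rw [Finset.mem_insert, Finset.mem_insert, Finset.mem_singleton] at hw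
            rcases hw with rfl | rfl | rfl
            · exact sl
            · exact tl
            · exact ul
          · rw [Finset.mem_insert, Finset.mem_insert, Finset.mem_singleton] at ha hb
            rcases ha with rfl | rfl | rfl <;> rcases hb with rfl | rfl | rfl
            · exact absurd rfl hab
            · exact n1
            · exact n2
            · exact n1.symm
            · exact absurd rfl hab
            · exact n3
            · exact n2.symm
            · exact n3.symm
            · exact absurd rfl hab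
        have h2 : NP G 2 (lk G W v) := h.lk hv
        have h3 := h2.card_le hcl
        have h4 : ({s, t, u} : Finset V).card = 3 := by
          rw [Finset.card_insert_of_notMem, Finset.card_pair n3.ne]
          rw [Finset.mem_insert, Finset.mem_singleton, not_or]
          exact ⟨n1.ne, n2.ne⟩
        omega
      · -- edges `zx`, `zy`: centre `z`
        refine case3t (x := z) (y := x) (z := y) l h hv ?_ hxz.symm hyz.symm hxy axz.symm axy ayz.symm
          (s := t) (t := u) ?_ ?_ n3 ht1 ht2 hu1 hu2
        · rw [hn]; ext w; simp only [Finset.mem_insert, Finset.mem_singleton]; tauto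
        · rw [hc2 z x, ht3]
        · rw [hc2 z y, hu3]
    · -- edges `yx`, `yz`: centre `y`
      refine case3t (x := y) (y := x) (z := z) l h hv ?_ hxy.symm hyz hxz axy.symm axz ayz
        (s := s) (t := u) ?_ ?_ n2 hs1 hs2 hu1 hu2
      · rw [hn]; ext w; simp only [Finset.mem_insert, Finset.mem_singleton]; tauto
      · rw [hc2 y x, hs3]
      · rw [hu3]
  · exact case3t l h hv hn hxy hxz hyz axy ayz axz hs3 ht3 n1 hs1 hs2 ht1 ht2

/-- three non-neighbours in rank three -/
theorem case3all (l : Lv) {W : Finset V} {v : V} (h : NP G 3 W) (hv : v ∈ W)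
    (hc : (nn G W v).card = 3) : QQ 2 G W := by
  obtain ⟨x, y, z, hxy, hxz, hyz, hn⟩ := Finset.card_eq_three.1 hc
  have hl : ∀ x y, x ∈ W → y ∈ W → G.Adj x y → QQ (2 - 1) G (lkF G W {x, y}) :=
    fun x y hx hy hxy => l.rk1 V G _ (edge_link h hx hy hxy).1 _ (Finset.Subset.refl _)
  have hiso : ∀ a b c, nn G W v = {a, b, c} → a ≠ b → ¬ G.Adj a b → ¬ G.Adj a c → False := by
    intro a b c hn hab h1 h2
    have ha : a ∈ nn G W v := by rw [hn]; simp
    have hb : b ∈ nn G W v := by rw [hn]; simp
    have := l.iso V G 1 W v a h hv ha (fun w hw => by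
      rw [hn, Finset.mem_insert, Finset.mem_insert, Finset.mem_singleton] at hw
      rcases hw with rfl | rfl | rfl
      · exact G.loopless.irrefl _
      · exact h1
      · exact h2)
    rw [this, Finset.mem_singleton] at hb
    exact hab hb.symm
  have p1 : ({x, y, z} : Finset V) = {y, x, z} := by
    ext w; simp only [Finset.mem_insert, Finset.mem_singleton]; tauto
  have p2 : ({x, y, z} : Finset V) = {z, x, y} := by
    ext w; simp only [Finset.mem_insert, Finset.mem_singleton]; tauto
  have p3 : ({x, y, z} : Finset V) = {x, z, y} := by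
    ext w; simp only [Finset.mem_insert, Finset.mem_singleton]; tauto
  by_cases a1 : G.Adj x y
  · by_cases a2 : G.Adj y z
    · by_cases a3 : G.Adj x z
      · exact case3tri l h hv hn hxy hxz hyz a1 a2 a3
      · exact case3p (d := 1) l h hv hn hxy hxz hyz a1 a2 a3 hl
    · by_cases a3 : G.Adj x z
      · exact case3p (d := 1) l h hv (hn.trans p1) hxy.symm hyz hxz a1.symm a3 a2 hl
      · exact (hiso z x y (hn.trans p2) hxz.symm (fun h => a3 h.symm) (fun h => a2 h.symm)).elim
  · by_cases a2 : G.Adj y z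
    · by_cases a3 : G.Adj x z
      · exact case3p (d := 1) l h hv (hn.trans p3) hxz hxy hyz.symm a3 a2.symm a1 hl
      · exact (hiso x y z hn hxy a1 a3).elim
    · exact (hiso y x z (hn.trans p1) hxy.symm (fun h => a1 h.symm) a2).elim

/-- prime of rank three, at most nine vertices -/
theorem r3 (l : Lv) : S_R3 := by
  intro V _ G W h hp hW
  obtain ⟨v, hv, -, hm⟩ := FS.exists_small (k := 1) (d := 1) h hp (by omega)
  have h2 := Prm.two_le_nn h hp hv
  rcases (show (nn G W v).card = 2 ∨ (nn G W v).card = 3 by omega) with hc | hc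
  · exact case2 (d := 1) l h hv hc
      (fun x y hx hy hxy => l.rk1 V G _ (edge_link h hx hy hxy).1 _ (Finset.Subset.refl _))
  · exact case3all l h hv hc

/-- defect zero -/
theorem d0 (l : Lv) : S_D0 := by
  intro V _ G d W h hδ
  revert hδ
  refine FS.join_induction (H := G) (P := fun d W => W.card + (comps G W).card ≤ 3 * d →
    QQ (d / 2 + 1) G W) ?_ ?_ ?_ h
  · intro _
    exact (l.emp V G).1
  · intro d W hW hp ih hδ
    rcases d with _ | d
    · exact l.rk1 V G W hW W (Finset.Subset.refl _)
    · rw [FS.comps_prm hp, Finset.card_singleton] at hδ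
      obtain ⟨v, hv, -, hm⟩ := FS.exists_small (k := 0) hW hp (by omega)
      have h2 := Prm.two_le_nn hW hp hv
      refine case2 l hW hv (by omega) (fun x y hx hy hxy => ?_)
      obtain ⟨k1, k2, k3⟩ := edge_link hW hx hy hxy
      rw [FS.comps_prm hp, Finset.card_singleton] at k2
      have := ih d _ k1 k3 (by omega)
      have e : (d + 1 + 1) / 2 + 1 - 1 = d / 2 + 1 := by omega
      rw [e]
      exact this
  · intro d₁ d₂ A B hA hB _ hAB h1 h2 hδ
    rw [FS.card_comps_union hAB, Finset.card_union_of_disjoint hAB.disjoint] at hδ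
    have k1 := hA.three_mul_le
    have k2 := hB.three_mul_le
    have j1 := h1 (by omega)
    have j2 := h2 (by omega)
    exact l.mon V G _ _ _ (by omega) (l.jon V G _ _ A B hAB j1 j2)

/-- rank two -/
theorem r2 (l : Lv) {W : Finset V} (h : NP G 2 W) : ∀ A ⊆ W, QQ 2 G A :=
  l.evn V G 1 W (fun v hv A hA => l.rk1 V G _ (h.lk hv) A hA)

/-- rank three and at most one in excess -/
theorem r3' (l : Lv) {W : Finset V} (h : NP G 3 W) (hc : W.card + (comps G W).card ≤ 10) :
    QQ 2 G W := by
  by_cases hp : Prm G W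
  · rw [FS.comps_prm hp, Finset.card_singleton] at hc
    exact r3 l V G W h hp (by omega)
  · obtain ⟨A, B, hA, hB, hAB, rfl⟩ := FS.split_of_not_prm h.nonempty hp
    obtain ⟨d₁, d₂, hd, h1, h2⟩ := h.split hAB
    obtain ⟨a, ha⟩ := hA
    obtain ⟨b, hb⟩ := hB
    obtain ⟨e₁, rfl⟩ := h1.rank_pos ha
    obtain ⟨e₂, rfl⟩ := h2.rank_pos hb
    rcases (show (e₁ = 0 ∧ e₂ = 1) ∨ (e₁ = 1 ∧ e₂ = 0) by omega) with ⟨rfl, rfl⟩ | ⟨rfl, rfl⟩
    · exact l.jon V G 1 1 A B hAB (l.rk1 V G A h1 A (Finset.Subset.refl _))
        (r2 l h2 B (Finset.Subset.refl _))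
    · exact l.jon V G 2 0 A B hAB (r2 l h1 A (Finset.Subset.refl _))
        (l.rk1 V G B h2 B (Finset.Subset.refl _))

/-- rank four -/
theorem r4 (l : Lv) : S_R4 := by
  intro V _ G W h hp hW
  refine l.evn V G 2 W (fun v hv => ?_) W (Finset.Subset.refl _)
  have h1 : NP G 3 (lk G W v) := h.lk hv
  have h2 := h.defect_lk v hv
  rw [FS.comps_prm hp, Finset.card_singleton] at h2
  exact l.odd V G 2 _ (r3' l h1 (by omega)) (fun u hu => r2 l (h1.lk hu))

end Pool.Agent.Helper39K9.FV
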