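import Pool.Agent.Helper39K9.FV.Asm2

set_option autoImplicit false

namespace Pool.Agent.Helper39K9.FV

open Pool.Agent.W497.FS (NP Prm lk lkF nn cl comps Full)
open Pool.Agent.W497

variable {V : Type} [DecidableEq V] {G : SimpleGraph V}

/-- all full subcomplexes in defect zero -/
theorem full0 (l : Lv) {r : ℕ} : ∀ {K : Finset V}, NP G r K → K.card + (comps G K).card ≤ 3 * r →
    ∀ A ⊆ K, QQ (r / 2 + 1) G A := by
  induction r with
  | zero =>
    intro K hK _ A hA
    have h0 : K = ∅ := hK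
    rw [h0, Finset.subset_empty] at hA
    rw [hA]
    exact (l.emp V G).1
  | succ r ih =>
    intro K hK hc
    have hlk : ∀ v ∈ K, ∀ A ⊆ lk G K v, QQ (r / 2 + 1) G A := by
      intro v hv
      have h1 := hK.defect_lk v hv
      exact ih (hK.lk hv) (by omega)
    rcases Nat.even_or_odd' r with ⟨m, hm | hm⟩
    · have e : (r + 1) / 2 + 1 = r / 2 + 1 := by omega
      rw [e]
      refine l.odd V G _ K ?_ hlk
      rw [← e]
      exact d0 l V G _ K hK hc
    · have e : (r + 1) / 2 + 1 = r / 2 + 1 + 1 := by omega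
      rw [e]
      exact l.evn V G _ K hlk

/-- the condition on a prime complex of rank `d` -/
def Pc (G : SimpleGraph V) (d : ℕ) (W : Finset V) : Prop :=
  d ≤ 2 ∨ W.card + 1 ≤ 3 * d ∨ (d ≤ 4 ∧ W.card ≤ 3 * d) ∨
    (Even d ∧ ∀ v ∈ W, (lk G W v).card + (comps G (lk G W v)).card + 3 ≤ 3 * d)

/-- prime case -/
theorem prime (l : Lv) {d : ℕ} {W : Finset V} (h : NP G d W) (hp : Prm G W) (hc : Pc G d W) :
    QQ (d / 2 + 1) G W := by
  rcases hc with hc | hc | ⟨hc, hc2⟩ | ⟨hc, hc2⟩
  · rcases (show d = 0 ∨ d = 1 ∨ d = 2 by omega) with rfl | rfl | rfl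
    · have : W = ∅ := h
      exact absurd this hp.1.ne_empty
    · exact l.rk1 V G W h W (Finset.Subset.refl _)
    · exact r2 l h W (Finset.Subset.refl _)
  · refine d0 l V G d W h ?_
    rw [FS.comps_prm hp, Finset.card_singleton]
    exact hc
  · rcases (show d = 0 ∨ d = 1 ∨ d = 2 ∨ d = 3 ∨ d = 4 by omega) with rfl | rfl | rfl | rfl | rfl
    · have : W = ∅ := h
      exact absurd this hp.1.ne_empty
    · exact l.rk1 V G W h W (Finset.Subset.refl _)
    · exact r2 l h W (Finset.Subset.refl _)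
    · exact r3 l V G W h hp (by omega)
    · exact r4 l V G W h hp (by omega)
  · obtain ⟨w, hw⟩ := hp.1
    obtain ⟨e, rfl⟩ := h.rank_pos hw
    rw [Nat.even_iff] at hc
    have e1 : (e + 1) / 2 + 1 = e / 2 + 1 + 1 := by omega
    rw [e1]
    refine l.evn V G _ W (fun v hv => full0 l (h.lk hv) ?_) W (Finset.Subset.refl _)
    have := hc2 v hv
    omega

/-- the join factor `C` is small: all its simplices have at most two vertices; or it contains a
simplex with `e` vertices where `|C| ≤ 3 e - 1`, or `|C| ≤ 3 e` and `|C| ≤ 12`, or `e` is even and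
the links of all vertices (in `C`) have at most `3 (e - 1)` vertices and join factors together -/
def Small (G : SimpleGraph V) (C : Finset V) : Prop :=
  (∀ F ∈ cl G C, F.card ≤ 2) ∨ ∃ F ∈ cl G C, C.card + 1 ≤ 3 * F.card ∨
    (C.card ≤ 3 * F.card ∧ C.card ≤ 12) ∨
    (Even F.card ∧ ∀ v ∈ C, (lk G C v).card + (comps G (lk G C v)).card + 3 ≤ 3 * F.card)

theorem pc_of_small {d : ℕ} {W : Finset V} (h : NP G d W) (hp : Prm G W) (hS : Small G W) :
    Pc G d W := by
  obtain ⟨w, hw⟩ := hp.1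
  obtain ⟨e, rfl⟩ := h.rank_pos hw
  have k1 := Prm.three_mul_le h hp
  rcases hS with hS | ⟨F, hF, hS⟩
  · obtain ⟨β, hβ, hc, -⟩ := h.exists_facet
    have := hS β hβ
    exact Or.inl (by omega)
  · have k2 := h.card_le hF
    rcases hS with hS | ⟨hS, hS2⟩ | ⟨hS, hS2⟩
    · exact Or.inr (Or.inl (by omega))
    · exact Or.inr (Or.inr (Or.inl (by omega)))
    · have k3 := (h.lk hw).three_mul_le
      have k4 := hS2 w hw
      have k5 : F.card = e + 1 := by omega
      rw [k5] at hS hS2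
      exact Or.inr (Or.inr (Or.inr ⟨hS, hS2⟩))

/-- all join factors are small -/
theorem tf (l : Lv) {d : ℕ} {W : Finset V} (h : NP G d W) (hS : ∀ C ∈ comps G W, Small G C) :
    QQ (d / 2 + 1) G W := by
  revert hS
  refine FS.join_induction (H := G) (P := fun d W => (∀ C ∈ comps G W, Small G C) →
    QQ (d / 2 + 1) G W) ?_ ?_ ?_ h
  · intro _
    exact (l.emp V G).1
  · intro d W hW hp _ hS
    exact prime l hW hp (pc_of_small hW hp (hS W (by rw [FS.comps_prm hp]; simp)))
  · intro d₁ d₂ A B hA hB _ hAB h1 h2 hS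
    have j1 := h1 (fun C hC => hS C (by rw [FS.comps_union hAB]; exact Finset.mem_union_left _ hC))
    have j2 := h2 (fun C hC => hS C (by rw [FS.comps_union hAB]; exact Finset.mem_union_right _ hC))
    exact l.mon V G _ _ _ (by omega) (l.jon V G _ _ A B hAB j1 j2)

/-- few vertices, no suspension -/
theorem ta (l : Lv) {d : ℕ} {W : Finset V} (h : NP G d W) :
    (∀ C ∈ comps G W, C.card ≠ 2) →
    5 * d ≤ 2 * W.card ∧ (2 * W.card ≤ 5 * d + 4 → QQ (d / 2 + 1) G W) := by
  refine FS.join_induction (H := G) (P := fun d W => (∀ C ∈ comps G W, C.card ≠ 2) →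
    5 * d ≤ 2 * W.card ∧ (2 * W.card ≤ 5 * d + 4 → QQ (d / 2 + 1) G W)) ?_ ?_ ?_ h
  · intro _
    exact ⟨by simp, fun _ => (l.emp V G).1⟩
  · intro d W hW hp _ hS
    have hS' := hS W (by rw [FS.comps_prm hp]; simp)
    have k1 := Prm.three_mul_le hW hp
    have hd : d ≠ 0 := by
      rintro rfl
      exact hS' hW.1
    refine ⟨by omega, fun h2 => prime l hW hp ?_⟩
    unfold Pc
    by_cases c1 : d + 1 ≤ 2
    · exact Or.inl c1
    by_cases c2 : W.card + 1 ≤ 3 * (d + 1)
    · exact Or.inr (Or.inl c2)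
    exact Or.inr (Or.inr (Or.inl (by omega)))
  · intro d₁ d₂ A B hA hB _ hAB h1 h2 hS
    have hc := Finset.card_union_of_disjoint hAB.disjoint
    obtain ⟨a1, a2⟩ := h1 (fun C hC => hS C (by
      rw [FS.comps_union hAB]; exact Finset.mem_union_left _ hC))
    obtain ⟨b1, b2⟩ := h2 (fun C hC => hS C (by
      rw [FS.comps_union hAB]; exact Finset.mem_union_right _ hC))
    refine ⟨by omega, fun hb => ?_⟩
    exact l.mon V G _ _ _ (by omega) (l.jon V G _ _ A B hAB (a2 (by omega)) (b2 (by omega)))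

/-- suspensions -/
theorem sz (l : Lv) {W C : Finset V} (hC : C ∈ comps G W) (hc : C.card = 2) : QQ 0 G W := by
  obtain ⟨h1, h2, h3⟩ := FS.mem_comps.1 hC
  obtain ⟨x, y, hxy, rfl⟩ := Finset.card_eq_two.1 hc
  have hx : x ∈ W := h1 (by simp)
  have hy : y ∈ W := h1 (by simp)
  have hn : ¬ G.Adj x y := by
    obtain ⟨a, ha, b, hb, hbA, hab⟩ := h2.2 {x} (by simp) (by simp) (by
      intro h
      have : y ∈ ({x} : Finset V) := by rw [h]; simp
      exact hxy (Finset.mem_singleton.1 this).symm)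
    rw [Finset.mem_singleton] at ha
    subst ha
    rw [Finset.mem_insert, Finset.mem_singleton] at hb
    rcases hb with rfl | rfl
    · exact absurd (Finset.mem_singleton_self _) hbA
    · exact hab
  refine l.sus _ (G.induce (W : Set V)) ⟨x, hx⟩ ⟨y, hy⟩ (fun h => hxy (congrArg Subtype.val h)) hn
    (fun w hw1 hw2 => ?_)
  have hw : (w : V) ∉ ({x, y} : Finset V) := by
    rw [Finset.mem_insert, Finset.mem_singleton]
    rintro (h | h)
    · exact hw1 (Subtype.ext h)
    · exact hw2 (Subtype.ext h)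
  exact ⟨h3 x (by simp) w w.2 hw, h3 y (by simp) w w.2 hw⟩

/-- the combinatorial theorem -/
theorem main_qq (l : Lv) {d : ℕ} {W : Finset V} (h : NP G d W)
    (hyp : 2 * W.card ≤ 5 * d + 4 ∨ ∀ C ∈ comps G W, Small G C) : QQ (d / 2 + 1) G W := by
  rcases hyp with hyp | hyp
  · by_cases hC : ∃ C ∈ comps G W, C.card = 2
    · obtain ⟨C, hC, hc⟩ := hC
      exact l.mon V G 0 _ W (Nat.zero_le _) (sz l hC hc)
    · push Not at hC
      exact (ta l h hC).2 hyp
  · exact tf l h hyp

end Pool.Agent.Helper39K9.FV
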