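import Pool.Agent.TH652.QDef
import Pool.Agent.W497.FS.Basic

/-!
# BRG: homology spheres are normal pseudomanifolds
-/

set_option autoImplicit false

namespace Pool.Agent.Helper39K9.FV.BrgL

open Pool.Agent.W907.SG Pool.Agent.TH652.Above
open Pool.Agent.W907.SM (lk)
open Pool.Agent.W497.FS (lkF mem_lkF NP SConn)

variable {V : Type} [Fintype V] [LinearOrder V] {G : SimpleGraph V}

theorem exact_of_beta {ρ : V → ℝ →ₗ[ℝ] ℝ} {A S : Set V} {i : ℕ} (h : beta G ρ A S i = 0) :
    BB G ρ A S i = ZZ G ρ A S i := by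
  refine Submodule.eq_of_le_of_finrank_le (BB_le_ZZ G ρ A S i) ?_
  unfold beta at h
  omega

/-- facets -/
theorem exists_facet {n : ℕ} (hS : HSph n G) (T : Finset V) (hT : G.IsClique (T : Set V)) :
    ∃ S : Finset V, T ⊆ S ∧ G.IsClique (S : Set V) ∧ S.card = n := by
  classical
  obtain ⟨S, hS0, hmax⟩ := Set.Finite.exists_maximalFor Finset.card
    {S : Finset V | T ⊆ S ∧ G.IsClique (S : Set V)} (Set.toFinite _) ⟨T, Finset.Subset.refl T, hT⟩
  obtain ⟨hTS, hSc⟩ := hS0
  refine ⟨S, hTS, hSc, ?_⟩
  have hlk : lk G S = ∅ := by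
    rw [Set.eq_empty_iff_forall_notMem]
    intro v hv
    have hvS : v ∉ S := fun h => (hv v h).ne rfl
    have h1 : G.IsClique ((insert v S : Finset V) : Set V) := by
      rw [Finset.coe_insert]
      exact hSc.insert fun u hu _ => hv u hu
    have h2 := hmax ⟨hTS.trans (Finset.subset_insert v S), h1⟩ (by
      rw [Finset.card_insert_of_notMem hvS]; omega)
    rw [Finset.card_insert_of_notMem hvS] at h2
    omega
  by_contra hcon
  have h1 := hS S hSc 0
  rw [if_neg (by omega)] at h1
  have h2 := exact_of_beta h1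
  set c : Finset V → ℝ := fun T => if T = ∅ then 1 else 0 with hc
  have hcZ : c ∈ ZZ G (fun _ => (- LinearMap.id : ℝ →ₗ[ℝ] ℝ)) (lk G S) ∅ 0 := by
    refine Submodule.mem_inf.2 ⟨?_, ?_⟩
    · rw [mem_KK]
      refine ⟨fun U hU => ?_, fun U t _ => by simp⟩
      rw [hc]
      dsimp only
      rw [if_neg]
      rintro rfl
      exact hU ⟨by simp, by simp, by simp⟩
    · rw [LinearMap.mem_ker]
      funext U
      rw [bd_apply]
      refine Finset.sum_eq_zero fun v _ => ?_
      rw [hc]
      dsimp only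
      rw [if_neg (Finset.insert_ne_empty v U), smul_zero]
  rw [← h2] at hcZ
  obtain ⟨y, hy, hyc⟩ := hcZ
  have hy0 : y = 0 := by
    funext U
    refine (mem_KK.1 hy).1 U ?_
    rintro ⟨-, hU, hU1⟩
    rw [hlk, Set.subset_empty_iff, Finset.coe_eq_empty] at hU
    rw [hU] at hU1
    simp at hU1
  rw [hy0, map_zero] at hyc
  have h3 := congrFun hyc ∅
  rw [hc] at h3
  simp at h3

/-- the size of the cliques -/
theorem card_le_of_hsph {n : ℕ} (hS : HSph n G) (T : Finset V) (hT : G.IsClique (T : Set V)) :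
    T.card ≤ n := by
  obtain ⟨S, h1, -, h2⟩ := exists_facet hS T hT
  exact h2 ▸ Finset.card_le_card h1

omit [Fintype V] in
theorem insert_clique {T : Finset V} (hT : G.IsClique (T : Set V)) {v : V} (hv : v ∈ lk G T) :
    G.IsClique ((insert v T : Finset V) : Set V) ∧ (insert v T).card = T.card + 1 := by
  have hvT : v ∉ T := fun h => (hv v h).ne rfl
  refine ⟨?_, Finset.card_insert_of_notMem hvT⟩
  rw [Finset.coe_insert]
  exact hT.insert fun u hu _ => hv u hu

/-- the difference of two points -/
noncomputable def dif (a b : V) : Finset V → ℝ := fun U =>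
  (if U = {a} then 1 else 0) - (if U = {b} then 1 else 0)

theorem dif_mem {A : Set V} {a b : V} (ha : a ∈ A) (hb : b ∈ A) :
    dif a b ∈ ZZ G (fun _ => (- LinearMap.id : ℝ →ₗ[ℝ] ℝ)) A ∅ 1 := by
  classical
  refine Submodule.mem_inf.2 ⟨?_, ?_⟩
  · rw [mem_KK]
    refine ⟨fun U hU => ?_, fun U t _ => by simp⟩
    unfold dif
    rw [if_neg, if_neg, sub_zero]
    · rintro rfl
      exact hU ⟨by simp, by simpa using hb, by simp⟩
    · rintro rfl
      exact hU ⟨by simp, by simpa using ha, by simp⟩
  · rw [LinearMap.mem_ker]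
    funext U
    rw [bd_apply, Pi.zero_apply]
    by_cases hU : U = ∅
    · subst hU
      have h1 : ∀ v ∈ (∅ : Finset V)ᶜ, sg v ∅ • dif a b (insert v ∅) =
          (if v = a then (1 : ℝ) else 0) - (if v = b then 1 else 0) := by
        intro v _
        have h2 : sg v ∅ = 1 := by unfold sg; simp
        rw [h2, one_smul]
        unfold dif
        simp only [insert_empty_eq, Finset.singleton_inj]
      rw [Finset.sum_congr rfl h1, Finset.sum_sub_distrib]
      simp
    · refine Finset.sum_eq_zero fun v hv => ?_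
      rw [Finset.mem_compl] at hv
      have hne : ∀ x : V, insert v U ≠ {x} := by
        intro x h
        have h1 : (insert v U).card = 1 := by rw [h]; simp
        rw [Finset.card_insert_of_notMem hv] at h1
        exact hU (Finset.card_eq_zero.mp (by omega))
      unfold dif
      rw [if_neg (hne a), if_neg (hne b), sub_zero, smul_zero]

/-- links of dimension at least one are connected -/
theorem sconn {n : ℕ} (hS : HSph n G) {T : Finset V} (hT : G.IsClique (T : Set V))
    (hn : T.card + 1 ≠ n) {B : Finset V} (hB : ∀ v ∈ B, v ∈ lk G T) {b a : V} (hb : b ∈ B)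
    (ha : a ∈ lk G T) (haB : a ∉ B) : ∃ u ∈ B, ∃ v ∈ lk G T, v ∉ B ∧ G.Adj u v := by
  classical
  by_contra hno
  push Not at hno
  have h1 := hS T hT 1
  rw [if_neg (by omega)] at h1
  have h2 := exact_of_beta h1
  have h3 := dif_mem (G := G) (hB b hb) ha
  rw [← h2] at h3
  obtain ⟨y, hy, hyc⟩ := h3
  have hy' : y ∈ KK G (fun _ => (- LinearMap.id : ℝ →ₗ[ℝ] ℝ)) (lk G T) ∅ (1 + 1) := hy
  rw [mem_KK] at hy'
  have hsum : ∑ v ∈ B, dif b a {v} = 1 := by
    have h4 : ∀ v ∈ B, dif b a {v} = if v = b then (1 : ℝ) else 0 := by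
      intro v hv
      unfold dif
      have h5 : v ≠ a := fun h => haB (h ▸ hv)
      simp only [Finset.singleton_inj]
      rw [if_neg h5, sub_zero]
    rw [Finset.sum_congr rfl h4, Finset.sum_ite_eq', if_pos hb]
  rw [← hyc] at hsum
  -- the antisymmetric function
  set f : V → V → ℝ := fun v u => if u = v then 0 else (sg u {v} : ℤ) • y (insert u {v}) with hf
  have hfanti : ∀ u v, f v u = - f u v := by
    intro u v
    rw [hf]
    dsimp only
    by_cases h : u = v
    · rw [if_pos h, if_pos h.symm, neg_zero]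
    · rw [if_neg h, if_neg (Ne.symm h), Finset.pair_comm u v]
      have h6 : sg u {v} = - sg v {u} := by
        have h7 := sg_insert u v ∅ (by simp)
        have h8 := sg_insert v u ∅ (by simp)
        rw [insert_empty_eq] at h7 h8
        have h9 : ∀ x : V, sg x (∅ : Finset V) = 1 := by intro x; unfold sg; simp
        rw [h9] at h7 h8
        rw [h7, h8]
        rcases lt_or_gt_of_ne h with h10 | h10
        · rw [if_neg (not_lt.mpr h10.le), if_pos h10]; norm_num
        · rw [if_pos h10, if_neg (not_lt.mpr (le_of_lt h10))]; norm_num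
      rw [h6, neg_smul]
  have hbd : ∀ v ∈ B, bd ℝ y {v} = ∑ u ∈ B, f v u := by
    intro v hv
    rw [bd_apply]
    have h4 : ∑ u ∈ B, f v u = ∑ u ∈ Finset.univ, f v u := by
      refine Finset.sum_subset (Finset.subset_univ B) ?_
      intro u _ hu
      rw [hf]
      dsimp only
      by_cases h : u = v
      · rw [if_pos h]
      · rw [if_neg h, hy'.1, smul_zero]
        rintro ⟨h5, h6, -⟩
        have h7 : G.Adj v u := by
          apply h5
          · simp
          · simp
          · exact Ne.symm h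
        exact hno v hv u (h6 (by simp)) hu h7
    rw [h4, ← Finset.add_sum_erase Finset.univ (f v) (Finset.mem_univ v)]
    have h5 : f v v = 0 := by rw [hf]; dsimp only; rw [if_pos rfl]
    rw [h5, zero_add]
    have h6 : ({v} : Finset V)ᶜ = Finset.univ.erase v := by
      ext x; simp
    rw [h6]
    refine Finset.sum_congr rfl (fun u hu => ?_)
    rw [hf]
    dsimp only
    rw [if_neg (Finset.ne_of_mem_erase hu)]
  rw [Finset.sum_congr rfl hbd] at hsum
  have h10 : ∑ v ∈ B, ∑ u ∈ B, f v u = - ∑ v ∈ B, ∑ u ∈ B, f v u := by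
    conv_lhs => rw [Finset.sum_comm]
    rw [← Finset.sum_neg_distrib]
    refine Finset.sum_congr rfl (fun u _ => ?_)
    rw [← Finset.sum_neg_distrib]
    exact Finset.sum_congr rfl (fun v _ => hfanti u v)
  linarith

/-- links of dimension zero are two points -/
theorem two_points {n : ℕ} (hS : HSph n G) {T : Finset V} (hT : G.IsClique (T : Set V))
    (hn : T.card + 1 = n) : (∀ x ∈ lk G T, ∀ y ∈ lk G T, ¬ G.Adj x y) ∧
      ∃ a b : V, a ∈ lk G T ∧ b ∈ lk G T ∧ a ≠ b ∧ ∀ x ∈ lk G T, x = a ∨ x = b := by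
  classical
  have hadj : ∀ x ∈ lk G T, ∀ y ∈ lk G T, ¬ G.Adj x y := by
    intro x hx y hy h
    obtain ⟨h1, h2⟩ := insert_clique hT hx
    have h3 : y ∈ lk G (insert x T) := by
      intro u hu
      rw [Finset.mem_insert] at hu
      rcases hu with rfl | hu
      · exact h.symm
      · exact hy u hu
    obtain ⟨h4, h5⟩ := insert_clique h1 h3
    have h6 := card_le_of_hsph hS _ h4
    omega
  refine ⟨hadj, ?_⟩
  have h1 := hS T hT 1
  rw [if_pos (by omega)] at h1
  have hBB : BB G (fun _ => (- LinearMap.id : ℝ →ₗ[ℝ] ℝ)) (lk G T) ∅ 1 = ⊥ := by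
    rw [eq_bot_iff]
    rintro _ ⟨y, hy, rfl⟩
    have hy' : y ∈ KK G (fun _ => (- LinearMap.id : ℝ →ₗ[ℝ] ℝ)) (lk G T) ∅ (1 + 1) := hy
    rw [mem_KK] at hy'
    have hy0 : y = 0 := by
      funext U
      refine hy'.1 U ?_
      rintro ⟨h2, h3, h4⟩
      obtain ⟨p, q, hpq, rfl⟩ := Finset.card_eq_two.mp h4
      exact hadj p (h3 (by simp)) q (h3 (by simp)) (h2 (by simp) (by simp) hpq)
    rw [hy0, map_zero]
    exact Submodule.zero_mem _
  unfold beta at h1
  rw [hBB, finrank_bot, Nat.sub_zero] at h1
  -- nonempty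
  obtain ⟨S, hTS, hSc, hSn⟩ := exists_facet hS T hT
  have hex : ∃ a ∈ S, a ∉ T := by
    by_contra hno
    push Not at hno
    have := Finset.card_le_card (show S ⊆ T from hno)
    omega
  obtain ⟨a, haS, haT⟩ := hex
  have ha : a ∈ lk G T := fun u hu => hSc (Finset.mem_coe.mpr haS) (Finset.mem_coe.mpr (hTS hu))
    (fun h => haT (h ▸ hu))
  have hex2 : ∃ b ∈ lk G T, b ≠ a := by
    by_contra hno
    push Not at hno
    have hZ : ZZ G (fun _ => (- LinearMap.id : ℝ →ₗ[ℝ] ℝ)) (lk G T) ∅ 1 = ⊥ := by
      rw [eq_bot_iff]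
      intro c hc
      obtain ⟨hc1, hc2⟩ := Submodule.mem_inf.1 hc
      rw [mem_KK] at hc1
      rw [LinearMap.mem_ker] at hc2
      have h3 := congrFun hc2 ∅
      rw [bd_apply, Pi.zero_apply, Finset.sum_eq_single a] at h3
      · have h4 : sg a (∅ : Finset V) = 1 := by unfold sg; simp
        rw [h4, one_smul, insert_empty_eq] at h3
        rw [Submodule.mem_bot]
        funext U
        by_cases hU : U = {a}
        · rw [hU, h3]; rfl
        · refine hc1.1 U ?_
          rintro ⟨-, h6, h7⟩
          obtain ⟨p, rfl⟩ := Finset.card_eq_one.mp h7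
          exact hU (by rw [hno p (h6 (by simp))])
      · intro v _ hv
        rw [hc1.1, smul_zero]
        rintro ⟨-, h6, -⟩
        exact hv (hno v (h6 (by simp)))
      · intro h
        exact absurd (by simp) h
    rw [hZ, finrank_bot] at h1
    exact zero_ne_one h1
  obtain ⟨b, hb, hba⟩ := hex2
  refine ⟨a, b, ha, hb, Ne.symm hba, fun x hx => ?_⟩
  by_contra hno
  push Not at hno
  have h3 := dif_mem (G := G) ha hb
  have h4 := dif_mem (G := G) ha hx
  have hne : (⟨dif a b, h3⟩ : ZZ G (fun _ => (- LinearMap.id : ℝ →ₗ[ℝ] ℝ)) (lk G T) ∅ 1) ≠ 0 := by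
    intro h
    have h5 := congrFun (congrArg Subtype.val h) {b}
    unfold dif at h5
    simp [hba] at h5
  obtain ⟨c, hc⟩ := exists_smul_eq_of_finrank_eq_one h1 hne ⟨dif a x, h4⟩
  have hc' : c • dif a b = dif a x := congrArg Subtype.val hc
  have h5 := congrFun hc' {b}
  have h6 := congrFun hc' {x}
  unfold dif at h5 h6
  simp [hba, hno.1, hno.2, Ne.symm hno.2] at h5 h6

theorem main {n : ℕ} (hS : HSph n G) : ∀ (m : ℕ) (T : Finset V), G.IsClique (T : Set V) →
    T.card + m = n → NP G m (lkF G Finset.univ T) := by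
  classical
  have hmem : ∀ (T : Finset V) (x : V), x ∈ lkF G Finset.univ T ↔ x ∈ lk G T := by
    intro T x
    rw [mem_lkF]
    constructor
    · rintro ⟨-, h⟩ u hu
      exact (h u hu).symm
    · intro h
      exact ⟨Finset.mem_univ x, fun u hu => (h u hu).symm⟩
  intro m
  induction m with
  | zero =>
    intro T hT hn
    show lkF G Finset.univ T = ∅
    rw [Finset.eq_empty_iff_forall_notMem]
    intro v hv
    rw [hmem] at hv
    obtain ⟨h1, h2⟩ := insert_clique hT hv
    have h3 := card_le_of_hsph hS _ h1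
    omega
  | succ m ih =>
    intro T hT hn
    match m, ih with
    | 0, _ =>
      obtain ⟨h1, a, b, ha, hb, hab, h2⟩ := two_points hS hT (by omega)
      show (lkF G Finset.univ T).card = 2 ∧ ∀ x ∈ lkF G Finset.univ T, ∀ y ∈ lkF G Finset.univ T,
        ¬ G.Adj x y
      refine ⟨?_, fun x hx y hy => h1 x ((hmem T x).mp hx) y ((hmem T y).mp hy)⟩
      have h3 : lkF G Finset.univ T = {a, b} := by
        ext x
        rw [hmem, Finset.mem_insert, Finset.mem_singleton]
        constructor
        · exact h2 x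
        · rintro (rfl | rfl)
          · exact ha
          · exact hb
      rw [h3, Finset.card_pair hab]
    | d + 1, ih =>
      show (lkF G Finset.univ T).Nonempty ∧ SConn G (lkF G Finset.univ T) ∧
        ∀ v ∈ lkF G Finset.univ T, NP G (d + 1) (Pool.Agent.W497.FS.lk G (lkF G Finset.univ T) v)
      refine ⟨?_, ?_, ?_⟩
      · obtain ⟨S, hTS, hSc, hSn⟩ := exists_facet hS T hT
        have hex : ∃ a ∈ S, a ∉ T := by
          by_contra hno
          push Not at hno
          have := Finset.card_le_card (show S ⊆ T from hno)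
          omega
        obtain ⟨a, haS, haT⟩ := hex
        exact ⟨a, (hmem T a).mpr (fun u hu => hSc (Finset.mem_coe.mpr haS)
          (Finset.mem_coe.mpr (hTS hu)) (fun h => haT (h ▸ hu)))⟩
      · intro A hA hAne hAW
        obtain ⟨b, hb⟩ := hAne
        have hex : ∃ a ∈ lkF G Finset.univ T, a ∉ A := by
          by_contra hno
          push Not at hno
          exact hAW (Finset.Subset.antisymm hA hno)
        obtain ⟨a, ha, haA⟩ := hex
        obtain ⟨u, hu, v, hv, hvA, huv⟩ := sconn hS hT (by omega)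
          (fun v hv => (hmem T v).mp (hA hv)) hb ((hmem T a).mp ha) haA
        exact ⟨u, hu, v, (hmem T v).mpr hv, hvA, huv⟩
      · intro v hv
        rw [hmem] at hv
        obtain ⟨h1, h2⟩ := insert_clique hT hv
        have h3 := ih (insert v T) h1 (by omega)
        have h4 : Pool.Agent.W497.FS.lk G (lkF G Finset.univ T) v = lkF G Finset.univ (insert v T) := by
          ext x
          rw [Pool.Agent.W497.FS.mem_lk, mem_lkF, mem_lkF]
          constructor
          · rintro ⟨⟨h5, h6⟩, h7⟩
            refine ⟨h5, fun y hy => ?_⟩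
            rw [Finset.mem_insert] at hy
            rcases hy with rfl | hy
            · exact h7
            · exact h6 y hy
          · rintro ⟨h5, h6⟩
            exact ⟨⟨h5, fun y hy => h6 y (Finset.mem_insert_of_mem hy)⟩,
              h6 v (Finset.mem_insert_self v T)⟩
        rw [h4]
        exact h3

theorem brg' : ∀ (V : Type) [Fintype V] [LinearOrder V] (G : SimpleGraph V) (n : ℕ),
    Pool.Agent.TH652.Above.HSph n G → NP G n Finset.univ := by
  intro V _ _ G n hS
  have h := main hS n ∅ (by simp) (by simp)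
  have h1 : lkF G Finset.univ (∅ : Finset V) = Finset.univ := by
    ext x
    rw [mem_lkF]
    simp
  rwa [h1] at h

end Pool.Agent.Helper39K9.FV.BrgL
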