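import Pool.Agent.Helper39K9.FV.Stm
import Pool.Agent.Helper39K9.FV.BrgA

/-!
# BRG: homology spheres are normal pseudomanifolds
-/

set_option autoImplicit false

namespace Pool.Agent.Helper39K9.FV

theorem brg : S_BRG := BrgL.brg'

end Pool.Agent.Helper39K9.FV
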