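import Pool.Agent.Helper39K9.FV.StmK

/-!
The leaf CE: the edges of the contraction.
-/

set_option autoImplicit false

namespace Pool.Agent.Helper39K9.FV.K

open Pool.Agent.W497.FS (NP Prm SConn lk lkF nn cl comps Full Eul)
open Pool.Agent.R781.VS (con)

namespace CeL

variable {V : Type} {G : SimpleGraph V}

/-- the link of an edge -/
def Two (P : V → Prop) (R : V → V → Prop) : Prop :=
  ∃ a b, a ≠ b ∧ ¬ R a b ∧ ∀ x, P x ↔ (x = a ∨ x = b)

theorem mem_lk {H : SimpleGraph V} {W : Finset V} {v x : V} : x ∈ lk H W v ↔ x ∈ W ∧ H.Adj v x := by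
  classical
  unfold lk
  rw [Finset.mem_filter]

theorem ed {W : Finset V} (hN : NP G 3 W) {v w : V} (hv : v ∈ W) (hw : w ∈ W) (hvw : G.Adj v w) :
    Two (fun x => x ∈ W ∧ G.Adj v x ∧ G.Adj w x) G.Adj := by
  classical
  obtain ⟨-, -, h⟩ := npe.1 hN
  obtain ⟨-, -, h2⟩ := h v hv
  obtain ⟨h3, h4⟩ := h2 w (mem_lk.2 ⟨hw, hvw⟩)
  obtain ⟨a, b, hab, hK⟩ := Finset.card_eq_two.1 h3
  refine ⟨a, b, hab, h4 a (by rw [hK]; simp) b (by rw [hK]; simp), fun x => ?_⟩
  have h5 : x ∈ lk G (lk G W v) w ↔ x = a ∨ x = b := by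
    rw [hK]
    simp
  rw [← h5, mem_lk, mem_lk, and_assoc]

theorem k4 {W : Finset V} (hN : NP G 3 W) {v w x y : V} (hv : v ∈ W) (hw : w ∈ W) (hx : x ∈ W)
    (hy : y ∈ W) (hvw : G.Adj v w) (h1 : G.Adj v x) (h2 : G.Adj w x) (h3 : G.Adj v y)
    (h4 : G.Adj w y) : ¬ G.Adj x y := by
  obtain ⟨-, -, h⟩ := npe.1 hN
  obtain ⟨-, -, h5⟩ := h v hv
  obtain ⟨-, h6⟩ := h5 w (mem_lk.2 ⟨hw, hvw⟩)
  exact h6 x (mem_lk.2 ⟨mem_lk.2 ⟨hx, h1⟩, h2⟩) y (mem_lk.2 ⟨mem_lk.2 ⟨hy, h3⟩, h4⟩)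

theorem two_swap {P : V → Prop} {R : V → V → Prop} (hR : ∀ x y, R x y → R y x) {a b : V}
    (h : a ≠ b ∧ ¬ R a b ∧ ∀ x, P x ↔ (x = a ∨ x = b)) :
    b ≠ a ∧ ¬ R b a ∧ ∀ x, P x ↔ (x = b ∨ x = a) :=
  ⟨h.1.symm, fun h1 => h.2.1 (hR _ _ h1), fun x => (h.2.2 x).trans or_comm⟩

/-- with a given member -/
theorem two_mem {P : V → Prop} {R : V → V → Prop} (hR : ∀ x y, R x y → R y x) (h : Two P R) {y : V}
    (hy : P y) : ∃ b, y ≠ b ∧ ¬ R y b ∧ ∀ x, P x ↔ (x = y ∨ x = b) := by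
  obtain ⟨a, b, h1⟩ := h
  rcases (h1.2.2 y).1 hy with rfl | rfl
  · exact ⟨b, h1⟩
  · exact ⟨a, two_swap hR h1⟩

theorem gsym (x y : V) (h : G.Adj x y) : G.Adj y x := h.symm

variable {s t : V}

theorem adj1 {x y : V} (hx : x ≠ s) (hy : y ≠ s) :
    (con G s t).Adj x y ↔ x ≠ t ∧ y ≠ t ∧ G.Adj x y := by
  constructor
  · rintro ⟨-, h2, h3, h4 | h4 | h4⟩
    · exact ⟨h2, h3, h4⟩
    · exact absurd h4.1 hx
    · exact absurd h4.1 hy
  · rintro ⟨h1, h2, h3⟩
    exact ⟨h3.ne, h1, h2, Or.inl h3⟩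

theorem adj2 (hst : s ≠ t) {y : V} (hy : y ≠ s) :
    (con G s t).Adj s y ↔ y ≠ t ∧ (G.Adj s y ∨ G.Adj t y) := by
  constructor
  · rintro ⟨-, h2, h3, h4 | h4 | h4⟩
    · exact ⟨h3, Or.inl h4⟩
    · exact ⟨h3, Or.inr h4.2⟩
    · exact absurd h4.1 hy
  · rintro ⟨h1, h2 | h2⟩
    · exact ⟨hy.symm, hst, h1, Or.inl h2⟩
    · exact ⟨hy.symm, hst, h1, Or.inr (Or.inl ⟨rfl, h2⟩)⟩

theorem adj3 (hst : s ≠ t) {y : V} (hy : y ≠ s) :
    (con G s t).Adj y s ↔ y ≠ t ∧ (G.Adj s y ∨ G.Adj t y) := by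
  rw [(con G s t).adj_comm, adj2 hst hy]

/-- both ends different from `s` -/
theorem case1 {W : Finset V} (hN : NP G 3 W) (hs : s ∈ W) (ht : t ∈ W) (hst : G.Adj s t)
    (hNS : NS G W s t) {v w : V} (hv : v ∈ W) (hw : w ∈ W) (hvs : v ≠ s) (hws : w ≠ s) (hvt : v ≠ t)
    (hwt : w ≠ t) (hvw : G.Adj v w) :
    Two (fun x => x ∈ W ∧ x ≠ t ∧ (con G s t).Adj v x ∧ (con G s t).Adj w x) (con G s t).Adj := by
  have hne : s ≠ t := hst.ne
  -- the point `s`
  have hS : ((con G s t).Adj v s ∧ (con G s t).Adj w s) ↔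
      ((G.Adj v s ∧ G.Adj w s) ∨ (G.Adj v t ∧ G.Adj w t)) := by
    rw [adj3 hne hvs, adj3 hne hws]
    constructor
    · rintro ⟨⟨-, h1⟩, -, h2⟩
      by_cases h3 : G.Adj s v
      · by_cases h4 : G.Adj s w
        · exact Or.inl ⟨h3.symm, h4.symm⟩
        · have h5 : G.Adj t w := h2.resolve_left h4
          by_cases h6 : G.Adj t v
          · exact Or.inr ⟨h6.symm, h5.symm⟩
          · exact absurd hvw (hNS v hv w hw h3 h6 hvt h5 h4 hws)
      · have h5 : G.Adj t v := h1.resolve_left h3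
        by_cases h4 : G.Adj t w
        · exact Or.inr ⟨h5.symm, h4.symm⟩
        · have h6 : G.Adj s w := h2.resolve_right h4
          exact absurd hvw.symm (hNS w hw v hv h6 h4 hwt h5 h3 hvs)
    · rintro (⟨h1, h2⟩ | ⟨h1, h2⟩)
      · exact ⟨⟨hvt, Or.inl h1.symm⟩, hwt, Or.inl h2.symm⟩
      · exact ⟨⟨hvt, Or.inr h1.symm⟩, hwt, Or.inr h2.symm⟩
  have hX : ∀ x, x ≠ s → ((x ∈ W ∧ x ≠ t ∧ (con G s t).Adj v x ∧ (con G s t).Adj w x) ↔
      (x ≠ t ∧ (x ∈ W ∧ G.Adj v x ∧ G.Adj w x))) := by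
    intro x hx
    rw [adj1 hvs hx, adj1 hws hx]
    constructor
    · rintro ⟨h1, h2, ⟨-, -, h3⟩, -, -, h4⟩
      exact ⟨h2, h1, h3, h4⟩
    · rintro ⟨h2, h1, h3, h4⟩
      exact ⟨h1, h2, ⟨hvt, h2, h3⟩, hwt, h2, h4⟩
  have hE := ed hN hv hw hvw
  by_cases hsE : G.Adj v s ∧ G.Adj w s
  · -- `s` is one of the two points
    obtain ⟨b, h1, h2, h3⟩ := two_mem gsym hE (y := s) ⟨hs, hsE⟩
    have hbE := (h3 b).2 (Or.inr rfl)
    have hbt : b ≠ t := by
      rintro rfl
      exact h2 hst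
    have htE : ¬ (G.Adj v t ∧ G.Adj w t) := by
      intro h
      rcases (h3 t).1 ⟨ht, h⟩ with h4 | h4
      · exact hne h4.symm
      · exact hbt h4.symm
    refine ⟨s, b, h1, ?_, fun x => ?_⟩
    · rw [adj2 hne h1.symm]
      rintro ⟨-, h4 | h4⟩
      · exact h2 h4
      · apply htE
        constructor
        · by_contra h5
          exact hNS v hv b hbE.1 hsE.1.symm (fun h => h5 h.symm) hvt h4 h2 h1.symm hbE.2.1
        · by_contra h5
          exact hNS w hw b hbE.1 hsE.2.symm (fun h => h5 h.symm) hwt h4 h2 h1.symm hbE.2.2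
    · by_cases hx : x = s
      · subst hx
        simp only [true_or, iff_true]
        exact ⟨hs, hne, hS.2 (Or.inl hsE)⟩
      · show (x ∈ W ∧ x ≠ t ∧ (con G s t).Adj v x ∧ (con G s t).Adj w x) ↔ _
        rw [hX x hx]
        have h4 := h3 x
        constructor
        · rintro ⟨h5, h6⟩
          exact h4.1 h6
        · rintro (h5 | h5)
          · exact absurd h5 hx
          · exact ⟨by rw [h5]; exact hbt, h4.2 (Or.inr h5)⟩
  · by_cases htE : G.Adj v t ∧ G.Adj w t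
    · obtain ⟨b, h1, h2, h3⟩ := two_mem gsym hE (y := t) ⟨ht, htE⟩
      have hbE := (h3 b).2 (Or.inr rfl)
      have hbs : b ≠ s := by
        rintro rfl
        exact h2 hst.symm
      refine ⟨s, b, hbs.symm, ?_, fun x => ?_⟩
      · rw [adj2 hne hbs]
        rintro ⟨-, h4 | h4⟩
        · apply hsE
          constructor
          · by_contra h5
            exact hNS b hbE.1 v hv h4 h2 h1.symm htE.1.symm (fun h => h5 h.symm) hvs hbE.2.1.symm
          · by_contra h5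
            exact hNS b hbE.1 w hw h4 h2 h1.symm htE.2.symm (fun h => h5 h.symm) hws hbE.2.2.symm
        · exact h2 h4
      · by_cases hx : x = s
        · subst hx
          simp only [true_or, iff_true]
          exact ⟨hs, hne, hS.2 (Or.inr htE)⟩
        · show (x ∈ W ∧ x ≠ t ∧ (con G s t).Adj v x ∧ (con G s t).Adj w x) ↔ _
          rw [hX x hx]
          have h4 := h3 x
          constructor
          · rintro ⟨h5, h6⟩
            rcases h4.1 h6 with h7 | h7
            · exact absurd h7 h5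
            · exact Or.inr h7
          · rintro (h5 | h5)
            · exact absurd h5 hx
            · exact ⟨by rw [h5]; exact h1.symm, h4.2 (Or.inr h5)⟩
    · obtain ⟨a, b, h1, h2, h3⟩ := hE
      have haE := (h3 a).2 (Or.inl rfl)
      have hbE := (h3 b).2 (Or.inr rfl)
      have has : a ≠ s := by rintro rfl; exact hsE haE.2
      have hbs : b ≠ s := by rintro rfl; exact hsE hbE.2
      have hat : a ≠ t := by rintro rfl; exact htE haE.2
      have hbt : b ≠ t := by rintro rfl; exact htE hbE.2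
      refine ⟨a, b, h1, ?_, fun x => ?_⟩
      · rw [adj1 has hbs]
        rintro ⟨-, -, h4⟩
        exact h2 h4
      · by_cases hx : x = s
        · subst hx
          constructor
          · rintro ⟨-, -, h4⟩
            rcases hS.1 h4 with h5 | h5
            · exact absurd h5 hsE
            · exact absurd h5 htE
          · rintro (h5 | h5)
            · exact absurd h5.symm has
            · exact absurd h5.symm hbs
        · show (x ∈ W ∧ x ≠ t ∧ (con G s t).Adj v x ∧ (con G s t).Adj w x) ↔ _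
          rw [hX x hx]
          have h4 := h3 x
          constructor
          · rintro ⟨h5, h6⟩
            exact h4.1 h6
          · intro h5
            refine ⟨?_, h4.2 h5⟩
            rcases h5 with h5 | h5
            · rw [h5]; exact hat
            · rw [h5]; exact hbt

/-- one end is `s` -/
theorem case2 {W : Finset V} (hN : NP G 3 W) (hs : s ∈ W) (ht : t ∈ W) (hst : G.Adj s t)
    (hNS : NS G W s t) {w : V} (hw : w ∈ W) (hws : w ≠ s) (hwt : w ≠ t)
    (hsw : G.Adj s w ∨ G.Adj t w) :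
    Two (fun x => x ∈ W ∧ x ≠ t ∧ (con G s t).Adj s x ∧ (con G s t).Adj w x) (con G s t).Adj := by
  have hne : s ≠ t := hst.ne
  have hX : ∀ x, (x ∈ W ∧ x ≠ t ∧ (con G s t).Adj s x ∧ (con G s t).Adj w x) ↔
      (x ∈ W ∧ x ≠ s ∧ x ≠ t ∧ (G.Adj s x ∨ G.Adj t x) ∧ G.Adj w x) := by
    intro x
    by_cases hx : x = s
    · subst hx
      constructor
      · rintro ⟨-, -, h, -⟩
        exact absurd h (con G x t).irrefl
      · rintro ⟨-, h, -⟩
        exact absurd rfl h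
    · rw [adj2 hne hx, adj1 hws hx]
      constructor
      · rintro ⟨h1, h2, ⟨-, h3⟩, -, -, h4⟩
        exact ⟨h1, hx, h2, h3, h4⟩
      · rintro ⟨h1, -, h2, h3, h4⟩
        exact ⟨h1, h2, ⟨h2, h3⟩, hwt, h2, h4⟩
  by_cases h1 : G.Adj s w
  · by_cases h2 : G.Adj t w
    · obtain ⟨x1, a1, a2, a3⟩ := two_mem gsym (ed hN hs hw h1) (y := t) ⟨ht, hst, h2.symm⟩
      obtain ⟨x2, b1, b2, b3⟩ := two_mem gsym (ed hN ht hw h2) (y := s) ⟨hs, hst.symm, h1.symm⟩
      have hx1 := (a3 x1).2 (Or.inr rfl)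
      have hx2 := (b3 x2).2 (Or.inr rfl)
      have hx12 : ¬ G.Adj x1 x2 :=
        hNS x1 hx1.1 x2 hx2.1 hx1.2.1 a2 a1.symm hx2.2.1 b2 b1.symm
      refine ⟨x1, x2, ?_, ?_, fun x => ?_⟩
      · rintro rfl
        exact a2 hx2.2.1
      · rw [adj1 hx1.2.1.ne' b1.symm]
        rintro ⟨-, -, h⟩
        exact hx12 h
      · refine (hX x).trans ?_
        constructor
        · rintro ⟨h3, h4, h5, h6 | h6, h7⟩
          · rcases (a3 x).1 ⟨h3, h6, h7⟩ with h8 | h8
            · exact absurd h8 h5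
            · exact Or.inl h8
          · rcases (b3 x).1 ⟨h3, h6, h7⟩ with h8 | h8
            · exact absurd h8 h4
            · exact Or.inr h8
        · rintro (h3 | h3)
          · rw [h3]
            exact ⟨hx1.1, hx1.2.1.ne', a1.symm, Or.inl hx1.2.1, hx1.2.2⟩
          · rw [h3]
            exact ⟨hx2.1, b1.symm, hx2.2.1.ne', Or.inr hx2.2.1, hx2.2.2⟩
    · obtain ⟨a, b, c1, c2, c3⟩ := ed hN hs hw h1
      have haE := (c3 a).2 (Or.inl rfl)
      have hbE := (c3 b).2 (Or.inr rfl)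
      have hat : a ≠ t := by rintro rfl; exact h2 haE.2.2.symm
      have hbt : b ≠ t := by rintro rfl; exact h2 hbE.2.2.symm
      refine ⟨a, b, c1, ?_, fun x => ?_⟩
      · rw [adj1 haE.2.1.ne' hbE.2.1.ne']
        rintro ⟨-, -, h⟩
        exact c2 h
      · refine (hX x).trans ?_
        constructor
        · rintro ⟨h3, h4, h5, h6, h7⟩
          apply (c3 x).1
          refine ⟨h3, ?_, h7⟩
          by_contra h8
          exact hNS w hw x h3 h1 h2 hwt (h6.resolve_left h8) h8 h4 h7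
        · intro h3
          have h4 := (c3 x).2 h3
          refine ⟨h4.1, h4.2.1.ne', ?_, Or.inl h4.2.1, h4.2.2⟩
          rcases h3 with h5 | h5
          · rw [h5]; exact hat
          · rw [h5]; exact hbt
  · have h2 : G.Adj t w := hsw.resolve_left h1
    obtain ⟨a, b, c1, c2, c3⟩ := ed hN ht hw h2
    have haE := (c3 a).2 (Or.inl rfl)
    have hbE := (c3 b).2 (Or.inr rfl)
    have has : a ≠ s := by rintro rfl; exact h1 haE.2.2.symm
    have hbs : b ≠ s := by rintro rfl; exact h1 hbE.2.2.symm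
    refine ⟨a, b, c1, ?_, fun x => ?_⟩
    · rw [adj1 has hbs]
      rintro ⟨-, -, h⟩
      exact c2 h
    · refine (hX x).trans ?_
      constructor
      · rintro ⟨h3, h4, h5, h6, h7⟩
        apply (c3 x).1
        refine ⟨h3, ?_, h7⟩
        by_contra h8
        exact hNS x h3 w hw (h6.resolve_right h8) h8 h5 h2 h1 hws h7.symm
      · intro h3
        have h4 := (c3 x).2 h3
        refine ⟨h4.1, ?_, h4.2.1.ne', Or.inr h4.2.1, h4.2.2⟩
        rcases h3 with h5 | h5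
        · rw [h5]; exact has
        · rw [h5]; exact hbs

theorem fin_ {W : Finset V} [DecidableEq V] {v w : V}
    (h : Two (fun x => x ∈ W ∧ x ≠ t ∧ (con G s t).Adj v x ∧ (con G s t).Adj w x) (con G s t).Adj) :
    (lk (con G s t) (lk (con G s t) (W.erase t) v) w).card = 2 ∧
      ∀ x ∈ lk (con G s t) (lk (con G s t) (W.erase t) v) w,
        ∀ y ∈ lk (con G s t) (lk (con G s t) (W.erase t) v) w, ¬ (con G s t).Adj x y := by
  obtain ⟨a, b, h1, h2, h3⟩ := h
  have hK : lk (con G s t) (lk (con G s t) (W.erase t) v) w = {a, b} := by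
    ext x
    rw [mem_lk, mem_lk, Finset.mem_erase, Finset.mem_insert, Finset.mem_singleton, ← h3 x]
    tauto
  rw [hK]
  refine ⟨Finset.card_pair h1, ?_⟩
  intro x hx y hy hxy
  simp only [Finset.mem_insert, Finset.mem_singleton] at hx hy
  rcases hx with rfl | rfl <;> rcases hy with rfl | rfl
  · exact (con G s t).irrefl hxy
  · exact h2 hxy
  · exact h2 hxy.symm
  · exact (con G s t).irrefl hxy

end CeL

open CeL in
theorem ce : S_CE := by
  intro V _ G W s t hN hs ht hst hNS v hv w hw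
  rw [mem_lk, Finset.mem_erase] at hw
  rw [Finset.mem_erase] at hv
  obtain ⟨⟨hwt, hwW⟩, hvw⟩ := hw
  obtain ⟨hvt, hvW⟩ := hv
  have hne : s ≠ t := hst.ne
  apply fin_
  by_cases hvs : v = s
  · subst hvs
    have hwv : w ≠ v := by
      rintro rfl
      exact (con G w t).irrefl hvw
    exact case2 hN hs ht hst hNS hwW hwv hwt ((adj2 hne hwv).1 hvw).2
  · by_cases hws : w = s
    · subst hws
      obtain ⟨a, b, h1, h2, h3⟩ := case2 hN hs ht hst hNS hvW hvs hvt ((adj3 hne hvs).1 hvw).2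
      refine ⟨a, b, h1, h2, fun x => ?_⟩
      refine Iff.trans ?_ (h3 x)
      constructor
      · rintro ⟨c1, c2, c3, c4⟩
        exact ⟨c1, c2, c4, c3⟩
      · rintro ⟨c1, c2, c3, c4⟩
        exact ⟨c1, c2, c4, c3⟩
    · exact case1 hN hs ht hst hNS hvW hwW hvs hws hvt hwt ((adj1 hvs hws).1 hvw).2.2

end Pool.Agent.Helper39K9.FV.K
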