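import Pool.Agent.Helper39K9.FV.StmK

/-!
# [CGR] the class depends only on the induced graph
-/

set_option autoImplicit false

namespace Pool.Agent.Helper39K9.FV.K

open Pool.Agent.R782.Bal (SQ)

theorem cgr : S_CGR := by
  intro V G G₁ b W h hq
  let e : G.induce (W : Set V) ≃g G₁.induce (W : Set V) :=
    { toEquiv := Equiv.refl _
      map_rel_iff' := fun {x y} => (h x.1 x.2 y.1 y.2).symm }
  exact SQ.iso _ _ ⟨e⟩ hq

end Pool.Agent.Helper39K9.FV.K
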