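import Pool.Agent.Helper39K9.FV.StmK

/-!
# Contraction of an edge: connectedness ([CL])
-/

set_option autoImplicit false

namespace Pool.Agent.Helper39K9.FV.K

open Pool.Agent.W497.FS (NP SConn lk)
open Pool.Agent.R781.VS (con)

namespace ClL

variable {V : Type}

theorem mem_lk {G : SimpleGraph V} {W : Finset V} {v x : V} :
    x ∈ lk G W v ↔ x ∈ W ∧ G.Adj v x := by
  classical
  unfold lk
  rw [Finset.mem_filter]

/-- connectedness passes to images -/
theorem img [DecidableEq V] {G K : SimpleGraph V} {A B : Finset V} (p : V → V)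
    (hp : ∀ u ∈ A, p u ∈ B) (hs : ∀ x ∈ B, ∃ u ∈ A, p u = x)
    (he : ∀ u ∈ A, ∀ w ∈ A, G.Adj u w → p u ≠ p w → K.Adj (p u) (p w))
    (h : SConn G A) : SConn K B := by
  intro T hT hne hnB
  have h1 : (A.filter (fun u => p u ∈ T)).Nonempty := by
    obtain ⟨x, hx⟩ := hne
    obtain ⟨u, hu, rfl⟩ := hs x (hT hx)
    exact ⟨u, Finset.mem_filter.2 ⟨hu, hx⟩⟩
  have h2 : A.filter (fun u => p u ∈ T) ≠ A := by
    intro hh
    apply hnB
    apply Finset.Subset.antisymm hT
    intro x hx
    obtain ⟨u, hu, rfl⟩ := hs x hx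
    rw [← hh] at hu
    exact (Finset.mem_filter.1 hu).2
  obtain ⟨a, ha, b, hb, hbn, hab⟩ := h _ (Finset.filter_subset _ _) h1 h2
  have ha' := Finset.mem_filter.1 ha
  have hb' : p b ∉ T := fun hh => hbn (Finset.mem_filter.2 ⟨hb, hh⟩)
  refine ⟨p a, ha'.2, p b, hp b hb, hb', he a ha'.1 b hb hab ?_⟩
  intro hh
  exact hb' (hh ▸ ha'.2)

/-- handshake -/
theorem hand [DecidableEq V] (G : SimpleGraph V) (T : Finset V) :
    Even (∑ x ∈ T, (lk G T x).card) := by
  classical
  have h1 : (∑ x ∈ T, (lk G T x).card) =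
      ((T ×ˢ T).filter (fun q : V × V => G.Adj q.1 q.2)).card := by
    rw [Finset.card_filter, Finset.sum_product]
    apply Finset.sum_congr rfl
    intro x _
    unfold lk
    rw [Finset.card_filter]
  rw [h1]
  have h2 : (((T ×ˢ T).filter (fun q : V × V => G.Adj q.1 q.2)).card : ZMod 2) = 0 := by
    rw [Finset.card_eq_sum_ones]
    push_cast
    refine Finset.sum_involution (fun q _ => (q.2, q.1)) ?_ ?_ ?_ ?_
    · intro q _
      decide
    · intro q hq _ hh
      have h3 := (Finset.mem_filter.1 hq).2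
      have h4 : q.2 = q.1 := congrArg Prod.fst hh
      rw [h4] at h3
      exact G.loopless.irrefl _ h3
    · intro q hq
      have h3 := Finset.mem_filter.1 hq
      have h4 := Finset.mem_product.1 h3.1
      exact Finset.mem_filter.2 ⟨Finset.mem_product.2 ⟨h4.2, h4.1⟩, h3.2.symm⟩
    · intro q _
      rfl
  exact (ZMod.natCast_eq_zero_iff_even).1 h2

/-- a cycle without one vertex is connected -/
theorem path [DecidableEq V] {G : SimpleGraph V} {C : Finset V} {t : V} (hC : SConn G C)
    (h2 : ∀ w ∈ C, (lk G C w).card = 2) (ht : t ∈ C) : SConn G (C.erase t) := by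
  classical
  intro T hT hne hnT
  by_contra hcon
  push Not at hcon
  have htT : t ∉ T := fun h => (Finset.mem_erase.1 (hT h)).1 rfl
  have hTC : T ⊆ C := fun x hx => (Finset.mem_erase.1 (hT hx)).2
  set N := lk G C t with hN
  have key : ∀ x ∈ T, (lk G C x).card = (lk G T x).card + (if x ∈ N then 1 else 0) := by
    intro x hx
    by_cases hxN : x ∈ N
    · rw [if_pos hxN]
      have h3 : lk G C x = insert t (lk G T x) := by
        ext y
        rw [Finset.mem_insert, mem_lk, mem_lk]
        constructor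
        · rintro ⟨hy, hxy⟩
          by_cases hyt : y = t
          · exact Or.inl hyt
          · right
            refine ⟨?_, hxy⟩
            by_contra hyT
            exact hcon x hx y (Finset.mem_erase.2 ⟨hyt, hy⟩) hyT hxy
        · rintro (rfl | ⟨hy, hxy⟩)
          · exact ⟨ht, ((mem_lk.1 hxN).2).symm⟩
          · exact ⟨hTC hy, hxy⟩
      rw [h3, Finset.card_insert_of_notMem]
      intro hh
      exact htT (mem_lk.1 hh).1
    · rw [if_neg hxN, Nat.add_zero]
      congr 1
      ext y
      rw [mem_lk, mem_lk]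
      constructor
      · rintro ⟨hy, hxy⟩
        refine ⟨?_, hxy⟩
        by_contra hyT
        by_cases hyt : y = t
        · subst hyt
          exact hxN (mem_lk.2 ⟨hTC hx, hxy.symm⟩)
        · exact hcon x hx y (Finset.mem_erase.2 ⟨hyt, hy⟩) hyT hxy
      · rintro ⟨hy, hxy⟩
        exact ⟨hTC hy, hxy⟩
  have hsum : 2 * T.card = (∑ x ∈ T, (lk G T x).card) + (T.filter (fun x => x ∈ N)).card := by
    rw [Finset.card_filter, ← Finset.sum_add_distrib, ← Finset.sum_congr rfl key]
    rw [Finset.sum_congr rfl (fun x hx => h2 x (hTC hx)), Finset.sum_const, smul_eq_mul, mul_comm]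
  have hpar := hand G T
  have hcase : (T.filter (fun x => x ∈ N)).card = 0 ∨ (T.filter (fun x => x ∈ N)).card = 2 := by
    have hle : (T.filter (fun x => x ∈ N)).card ≤ N.card :=
      Finset.card_le_card (fun x hx => (Finset.mem_filter.1 hx).2)
    rw [h2 t ht] at hle
    obtain ⟨m, hm⟩ := hpar
    omega
  rcases hcase with h0 | h0
  · have h1 : T ≠ C := fun hh => htT (hh ▸ ht)
    obtain ⟨x, hx, y, hy, hyT, hxy⟩ := hC T hTC hne h1
    by_cases hyt : y = t
    · subst hyt
      have : x ∈ T.filter (fun x => x ∈ N) :=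
        Finset.mem_filter.2 ⟨hx, mem_lk.2 ⟨hTC hx, hxy.symm⟩⟩
      rw [Finset.card_eq_zero.1 h0] at this
      exact absurd this (Finset.notMem_empty x)
    · exact hcon x hx y (Finset.mem_erase.2 ⟨hyt, hy⟩) hyT hxy
  · have hNT : ∀ x ∈ N, x ∈ T := by
      have h3 : T.filter (fun x => x ∈ N) = N := by
        apply Finset.eq_of_subset_of_card_le (fun x hx => (Finset.mem_filter.1 hx).2)
        rw [h2 t ht, h0]
      intro x hx
      rw [← h3] at hx
      exact (Finset.mem_filter.1 hx).1
    have hA1 : ((C.erase t) \ T).Nonempty := by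
      rw [Finset.sdiff_nonempty]
      intro hh
      exact hnT (Finset.Subset.antisymm hT hh)
    have hA2 : (C.erase t) \ T ≠ C := by
      intro hh
      have := hh ▸ ht
      exact (Finset.mem_erase.1 (Finset.mem_sdiff.1 this).1).1 rfl
    have hA3 : (C.erase t) \ T ⊆ C := fun x hx =>
      (Finset.mem_erase.1 (Finset.mem_sdiff.1 hx).1).2
    obtain ⟨x, hx, y, hy, hyA, hxy⟩ := hC _ hA3 hA1 hA2
    have hx' := Finset.mem_sdiff.1 hx
    by_cases hyt : y = t
    · subst hyt
      exact hx'.2 (hNT x (mem_lk.2 ⟨hA3 hx, hxy.symm⟩))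
    · have hyT : y ∈ T := by
        by_contra hyT
        exact hyA (Finset.mem_sdiff.2 ⟨Finset.mem_erase.2 ⟨hyt, hy⟩, hyT⟩)
      exact hcon y hyT x hx'.1 hx'.2 hxy.symm

/-- the union of two connected sets with a common vertex -/
theorem uni [DecidableEq V] {G : SimpleGraph V} {A B : Finset V} {a : V} (hA : SConn G A)
    (hB : SConn G B) (haA : a ∈ A) (haB : a ∈ B) : SConn G (A ∪ B) := by
  intro T hT hne hnT
  by_contra hcon
  push Not at hcon
  have gen : ∀ P : Finset V, P ⊆ A ∪ B → SConn G P → (T ∩ P).Nonempty → T ∩ P = P := by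
    intro P hP hs h1
    by_contra h2
    obtain ⟨x, hx, y, hy, hyT, hxy⟩ := hs (T ∩ P) Finset.inter_subset_right h1 h2
    have hx' := Finset.mem_inter.1 hx
    exact hcon x hx'.1 y (hP hy) (fun h => hyT (Finset.mem_inter.2 ⟨h, hy⟩)) hxy
  by_cases haT : a ∈ T
  · apply hnT
    apply Finset.Subset.antisymm hT
    intro x hx
    rcases Finset.mem_union.1 hx with hx | hx
    · have := gen A Finset.subset_union_left hA ⟨a, Finset.mem_inter.2 ⟨haT, haA⟩⟩
      rw [← this] at hx
      exact (Finset.mem_inter.1 hx).1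
    · have := gen B Finset.subset_union_right hB ⟨a, Finset.mem_inter.2 ⟨haT, haB⟩⟩
      rw [← this] at hx
      exact (Finset.mem_inter.1 hx).1
  · obtain ⟨x, hx⟩ := hne
    rcases Finset.mem_union.1 (hT hx) with hxA | hxB
    · have := gen A Finset.subset_union_left hA ⟨x, Finset.mem_inter.2 ⟨hx, hxA⟩⟩
      rw [← this] at haA
      exact haT (Finset.mem_inter.1 haA).1
    · have := gen B Finset.subset_union_right hB ⟨x, Finset.mem_inter.2 ⟨hx, hxB⟩⟩
      rw [← this] at haB
      exact haT (Finset.mem_inter.1 haB).1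

end ClL

open ClL in
theorem cl_ : S_CL := by
  intro V _ G W s t hW hs ht hst _
  obtain ⟨-, hWc, hlk⟩ := npe.1 hW
  have hne : s ≠ t := G.ne_of_adj hst
  -- the projection
  have hadj : ∀ u w : V, G.Adj u w → (if u = t then s else u) ≠ (if w = t then s else w) →
      (con G s t).Adj (if u = t then s else u) (if w = t then s else w) := by
    intro u w huw hn
    refine ⟨hn, ?_, ?_, ?_⟩
    · split_ifs with h
      · exact hne
      · exact h
    · split_ifs with h
      · exact hne
      · exact h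
    · by_cases hu : u = t
      · by_cases hw : w = t
        · rw [hu, hw] at huw
          exact absurd huw (G.loopless.irrefl t)
        · rw [if_pos hu, if_neg hw]
          right; left
          exact ⟨rfl, hu ▸ huw⟩
      · by_cases hw : w = t
        · rw [if_neg hu, if_pos hw]
          right; right
          exact ⟨rfl, (hw ▸ huw).symm⟩
        · rw [if_neg hu, if_neg hw]
          exact Or.inl huw
  refine ⟨⟨s, Finset.mem_erase.2 ⟨hne, hs⟩⟩, ?_, ?_⟩
  · refine img (G := G) (A := W) (fun u => if u = t then s else u) ?_ ?_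
      (fun u _ w _ huw hn => hadj u w huw hn) hWc
    · intro u hu
      show (if u = t then s else u) ∈ W.erase t
      split_ifs with h
      · exact Finset.mem_erase.2 ⟨hne, hs⟩
      · exact Finset.mem_erase.2 ⟨h, hu⟩
    · intro x hx
      have hx' := Finset.mem_erase.1 hx
      exact ⟨x, hx'.2, if_neg hx'.1⟩
  · intro v hv
    have hv' := Finset.mem_erase.1 hv
    by_cases hvs : v = s
    · subst hvs
      obtain ⟨-, hs2, hs3⟩ := hlk v hs
      obtain ⟨-, ht2, ht3⟩ := hlk t ht
      have htC : t ∈ lk G W v := mem_lk.2 ⟨ht, hst⟩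
      have hsC : v ∈ lk G W t := mem_lk.2 ⟨hs, hst.symm⟩
      have hP1 : SConn G ((lk G W v).erase t) := path hs2 (fun w hw => (hs3 w hw).1) htC
      have hP2 : SConn G ((lk G W t).erase v) := path ht2 (fun w hw => (ht3 w hw).1) hsC
      obtain ⟨a, ha⟩ : (lk G (lk G W v) t).Nonempty := by
        rw [← Finset.card_pos, (hs3 t htC).1]
        norm_num
      have ha1 := mem_lk.1 ha
      have ha2 := mem_lk.1 ha1.1
      have haP1 : a ∈ (lk G W v).erase t :=
        Finset.mem_erase.2 ⟨(G.ne_of_adj ha1.2).symm, ha1.1⟩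
      have haP2 : a ∈ (lk G W t).erase v :=
        Finset.mem_erase.2 ⟨(G.ne_of_adj ha2.2).symm, mem_lk.2 ⟨ha2.1, ha1.2⟩⟩
      have hU := uni hP1 hP2 haP1 haP2
      have heq : lk (con G v t) (W.erase t) v = (lk G W v).erase t ∪ (lk G W t).erase v := by
        ext x
        rw [mem_lk, Finset.mem_union, Finset.mem_erase, Finset.mem_erase, Finset.mem_erase,
          mem_lk, mem_lk]
        constructor
        · rintro ⟨⟨hxt, hxW⟩, h1, h2, h3, h4⟩
          rcases h4 with h | ⟨-, h⟩ | ⟨h, -⟩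
          · exact Or.inl ⟨hxt, hxW, h⟩
          · exact Or.inr ⟨h1.symm, hxW, h⟩
          · exact absurd h.symm h1
        · rintro (⟨hxt, hxW, h⟩ | ⟨hxv, hxW, h⟩)
          · exact ⟨⟨hxt, hxW⟩, G.ne_of_adj h, hne, hxt, Or.inl h⟩
          · exact ⟨⟨(G.ne_of_adj h).symm, hxW⟩, hxv.symm, hne, (G.ne_of_adj h).symm,
              Or.inr (Or.inl ⟨rfl, h⟩)⟩
      rw [heq]
      refine ⟨⟨a, Finset.mem_union_left _ haP1⟩, ?_⟩
      have hmem : ∀ x ∈ (lk G W v).erase t ∪ (lk G W t).erase v, x ≠ v ∧ x ≠ t := by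
        intro x hx
        rcases Finset.mem_union.1 hx with hx | hx
        · have h1 := Finset.mem_erase.1 hx
          exact ⟨(G.ne_of_adj (mem_lk.1 h1.2).2).symm, h1.1⟩
        · have h1 := Finset.mem_erase.1 hx
          exact ⟨h1.1, (G.ne_of_adj (mem_lk.1 h1.2).2).symm⟩
      refine img (G := G) (K := con G v t) (fun u => u) (fun u hu => hu) (fun x hx => ⟨x, hx, rfl⟩)
        ?_ hU
      intro u hu w hw huw hn
      exact ⟨hn, (hmem u hu).2, (hmem w hw).2, Or.inl huw⟩
    · obtain ⟨hv1, hv2, hv3⟩ := hlk v hv'.2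
      have hp : ∀ u ∈ lk G W v, (if u = t then s else u) ∈ lk (con G s t) (W.erase t) v := by
        intro u hu
        have hu' := mem_lk.1 hu
        rw [mem_lk]
        split_ifs with h
        · subst h
          exact ⟨Finset.mem_erase.2 ⟨hne, hs⟩, hvs, hv'.1, hne, Or.inr (Or.inr ⟨rfl, hu'.2.symm⟩)⟩
        · exact ⟨Finset.mem_erase.2 ⟨h, hu'.1⟩, G.ne_of_adj hu'.2, hv'.1, h, Or.inl hu'.2⟩
      refine ⟨?_, ?_⟩
      · obtain ⟨u, hu⟩ := hv1
        exact ⟨_, hp u hu⟩
      · refine img (G := G) (A := lk G W v) (fun u => if u = t then s else u) hp ?_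
          (fun u _ w _ huw hn => hadj u w huw hn) hv2
        intro x hx
        obtain ⟨hx1, h1, h2, h3, h4⟩ := mem_lk.1 hx
        have hx' := Finset.mem_erase.1 hx1
        rcases h4 with h | ⟨h, -⟩ | ⟨h, h5⟩
        · exact ⟨x, mem_lk.2 ⟨hx'.2, h⟩, if_neg hx'.1⟩
        · exact absurd h hvs
        · exact ⟨t, mem_lk.2 ⟨ht, h5.symm⟩, by simp [h]⟩

end Pool.Agent.Helper39K9.FV.K
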