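import Pool.Agent.Helper39K9.FV.StmK

/-!
[CS] contraction of an edge: the degrees
-/

set_option autoImplicit false

namespace Pool.Agent.Helper39K9.FV.K

open Pool.Agent.W497.FS (NP Prm SConn lk lkF nn cl comps Full Eul mem_lk)
open Pool.Agent.R781.VS (con)

namespace CsL

variable {V : Type} [DecidableEq V] {G : SimpleGraph V}

omit [DecidableEq V] in
lemma con_adj {s t x y : V} : (con G s t).Adj x y ↔
    x ≠ y ∧ x ≠ t ∧ y ≠ t ∧ (G.Adj x y ∨ (x = s ∧ G.Adj t y) ∨ (y = s ∧ G.Adj t x)) := Iff.rfl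

open Classical in
lemma c1 {W : Finset V} {s t v : V} (hs : s ∈ W) (ht : t ∈ W) (hst : G.Adj s t) (hvs : v ≠ s) (hvt : v ≠ t) :
    (lk (con G s t) (W.erase t) v).card + (if G.Adj s v ∧ G.Adj t v then 1 else 0) =
      (lk G W v).card := by
  have hne := hst.ne
  by_cases h1 : G.Adj t v
  · have htl : t ∈ lk G W v := mem_lk.2 ⟨ht, h1.symm⟩
    by_cases h2 : G.Adj s v
    · rw [if_pos ⟨h2, h1⟩]
      have e : lk (con G s t) (W.erase t) v = (lk G W v).erase t := by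
        ext x
        rw [mem_lk, Finset.mem_erase, Finset.mem_erase, mem_lk, con_adj]
        constructor
        · rintro ⟨⟨hxt, hxW⟩, -, -, -, h | ⟨h, -⟩ | ⟨h, -⟩⟩
          · exact ⟨hxt, hxW, h⟩
          · exact absurd h hvs
          · rw [h]; exact ⟨hne, hs, h2.symm⟩
        · rintro ⟨hxt, hxW, h⟩
          exact ⟨⟨hxt, hxW⟩, h.ne, hvt, hxt, Or.inl h⟩
      rw [e, Finset.card_erase_of_mem htl]
      have := Finset.card_pos.2 ⟨t, htl⟩
      omega
    · rw [if_neg (fun h => h2 h.1)]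
      have e : lk (con G s t) (W.erase t) v = insert s ((lk G W v).erase t) := by
        ext x
        rw [mem_lk, Finset.mem_erase, Finset.mem_insert, Finset.mem_erase, mem_lk, con_adj]
        constructor
        · rintro ⟨⟨hxt, hxW⟩, -, -, -, h | ⟨h, -⟩ | ⟨h, -⟩⟩
          · exact Or.inr ⟨hxt, hxW, h⟩
          · exact absurd h hvs
          · exact Or.inl h
        · rintro (rfl | ⟨hxt, hxW, h⟩)
          · exact ⟨⟨hne, hs⟩, hvs, hvt, hne, Or.inr (Or.inr ⟨rfl, h1⟩)⟩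
          · exact ⟨⟨hxt, hxW⟩, h.ne, hvt, hxt, Or.inl h⟩
      have hsn : s ∉ (lk G W v).erase t := by
        intro h
        exact h2 ((mem_lk.1 (Finset.mem_of_mem_erase h)).2.symm)
      rw [e, Finset.card_insert_of_notMem hsn, Finset.card_erase_of_mem htl]
      have := Finset.card_pos.2 ⟨t, htl⟩
      omega
  · rw [if_neg (fun h => h1 h.2)]
    have e : lk (con G s t) (W.erase t) v = lk G W v := by
      ext x
      rw [mem_lk, Finset.mem_erase, mem_lk, con_adj]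
      constructor
      · rintro ⟨⟨hxt, hxW⟩, -, -, -, h | ⟨h, -⟩ | ⟨-, h⟩⟩
        · exact ⟨hxW, h⟩
        · exact absurd h hvs
        · exact absurd h h1
      · rintro ⟨hxW, h⟩
        have hxt : x ≠ t := by
          rintro rfl
          exact h1 h.symm
        exact ⟨⟨hxt, hxW⟩, h.ne, hvt, hxt, Or.inl h⟩
    rw [e, add_zero]

lemma c2 {W : Finset V} {s t : V} (hs : s ∈ W) (ht : t ∈ W) (hst : G.Adj s t) :
    (lk (con G s t) (W.erase t) s).card + 2 + (lk G (lk G W s) t).card =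
      (lk G W s).card + (lk G W t).card := by
  have hne := hst.ne
  have e : lk (con G s t) (W.erase t) s = ((lk G W s ∪ lk G W t).erase s).erase t := by
    ext x
    rw [mem_lk, Finset.mem_erase, Finset.mem_erase, Finset.mem_erase, Finset.mem_union, mem_lk, mem_lk, con_adj]
    constructor
    · rintro ⟨⟨hxt, hxW⟩, hsx, -, -, h | ⟨-, h⟩ | ⟨h, -⟩⟩
      · exact ⟨hxt, hsx.symm, Or.inl ⟨hxW, h⟩⟩
      · exact ⟨hxt, hsx.symm, Or.inr ⟨hxW, h⟩⟩
      · exact absurd h.symm hsx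
    · rintro ⟨hxt, hxs, ⟨hxW, h⟩ | ⟨hxW, h⟩⟩
      · exact ⟨⟨hxt, hxW⟩, hxs.symm, hne, hxt, Or.inl h⟩
      · exact ⟨⟨hxt, hxW⟩, hxs.symm, hne, hxt, Or.inr (Or.inl ⟨rfl, h⟩)⟩
  have h1 : s ∈ lk G W s ∪ lk G W t := Finset.mem_union_right _ (mem_lk.2 ⟨hs, hst.symm⟩)
  have h2 : t ∈ (lk G W s ∪ lk G W t).erase s :=
    Finset.mem_erase.2 ⟨hne.symm, Finset.mem_union_left _ (mem_lk.2 ⟨ht, hst⟩)⟩
  have h3 : lk G W s ∩ lk G W t = lk G (lk G W s) t := by
    ext x
    rw [Finset.mem_inter, mem_lk, mem_lk, mem_lk, mem_lk]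
    tauto
  have h4 := Finset.card_union_add_card_inter (lk G W s) (lk G W t)
  rw [h3] at h4
  have h5 := Finset.card_pos.2 ⟨s, h1⟩
  have h6 := Finset.card_pos.2 ⟨t, h2⟩
  rw [Finset.card_erase_of_mem h1] at h6
  rw [e, Finset.card_erase_of_mem h2, Finset.card_erase_of_mem h1]
  omega

end CsL

open CsL in
open Classical in
theorem cs : S_CS := by
  intro V _ G W s t hNP hs ht hst _
  have h2 : (lk G (lk G W s) t).card = 2 :=
    ((npe.1 hNP).2.2 s hs |>.2.2 t (mem_lk.2 ⟨ht, hst⟩)).1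
  have hne := hst.ne
  have hsW : s ∈ W.erase t := Finset.mem_erase.2 ⟨hne, hs⟩
  unfold dg
  rw [← Finset.add_sum_erase _ _ hsW, ← Finset.add_sum_erase W _ ht,
    ← Finset.add_sum_erase (W.erase t) (fun v => (lk G W v).card) hsW]
  have h3 : ∑ v ∈ (W.erase t).erase s, (lk (con G s t) (W.erase t) v).card +
      ∑ v ∈ (W.erase t).erase s, (if G.Adj s v ∧ G.Adj t v then 1 else 0) =
      ∑ v ∈ (W.erase t).erase s, (lk G W v).card := by
    rw [← Finset.sum_add_distrib]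
    refine Finset.sum_congr rfl (fun v hv => ?_)
    rw [Finset.mem_erase, Finset.mem_erase] at hv
    exact c1 hs ht hst hv.1 hv.2.1
  have h4 : ∑ v ∈ (W.erase t).erase s, (if G.Adj s v ∧ G.Adj t v then 1 else 0) = 2 := by
    rw [← Finset.sum_filter, Finset.sum_const, smul_eq_mul, mul_one, ← h2]
    congr 1
    ext x
    rw [Finset.mem_filter, Finset.mem_erase, Finset.mem_erase, mem_lk, mem_lk]
    constructor
    · rintro ⟨⟨-, -, h⟩, h1, h2⟩
      exact ⟨⟨h, h1⟩, h2⟩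
    · rintro ⟨⟨h, h1⟩, h2⟩
      exact ⟨⟨h1.ne.symm, h2.ne.symm, h⟩, h1, h2⟩
  have h5 := c2 hs ht hst
  rw [h4] at h3
  omega

end Pool.Agent.Helper39K9.FV.K
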