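import Pool.Agent.Helper39K9.FV.Stm

/-! # Flag homology spheres with few vertices: [CT2], [CT3], [JON] -/

set_option autoImplicit false

namespace Pool.Agent.Helper39K9.FV

open Pool.Agent.R782.Bal (SQ)
open Pool.Agent.W497.FS (NP Prm lk lkF nn cl comps Full)
open Pool.Agent.R781.VS (con NoSq)

namespace CtL

/-- full subgraphs of a full subgraph, up to a change of the graph -/
def isoOf {V : Type} (G : SimpleGraph V) (L : Set V) {S : Set V} (K : SimpleGraph S) (T : Set S)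
    (h : ∀ w, w ∈ L ↔ ∃ hw : w ∈ S, (⟨w, hw⟩ : S) ∈ T)
    (hK : ∀ p q : S, p ∈ T → q ∈ T → (K.Adj p q ↔ G.Adj p q)) : G.induce L ≃g K.induce T where
  toFun w := ⟨⟨w.1, ((h w.1).1 w.2).1⟩, ((h w.1).1 w.2).2⟩
  invFun w := ⟨w.1.1, (h w.1.1).2 ⟨w.1.2, w.2⟩⟩
  left_inv _ := rfl
  right_inv _ := rfl
  map_rel_iff' {a b} := hK _ _ ((h a.1).1 a.2).2 ((h b.1).1 b.2).2

theorem up_to {V : Type} {G : SimpleGraph V} (b : ℕ) (h : SQ 0 G) : SQ b G := by
  induction b with
  | zero => exact h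
  | succ b ih => exact SQ.up G ih

end CtL

open CtL in
theorem ct2 (hsus : S_SUS) : S_CT2 := by
  intro V G b W v x y hv hx hy hvx hvy hxy nvx nvy axy hw hpq L hL hQ
  set K : SimpleGraph (W : Set V) := G.induce (W : Set V) with hKdef
  have hK : ∀ p q : (W : Set V), K.Adj p q ↔ G.Adj p q := fun p q => Iff.rfl
  let s : (W : Set V) := ⟨x, hx⟩
  let t : (W : Set V) := ⟨y, hy⟩
  show SQ b K
  refine SQ.split K s t axy ?_ ?_ ?_
  · intro p q h1 h2 h3 h4 h5 h6 h7
    rw [hK] at h1 h2 h4 h5 h7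
    have hps : (p : V) ≠ y := fun h => h3 (Subtype.ext h)
    have hqx : (q : V) ≠ x := fun h => h6 (Subtype.ext h)
    have hpv : (p : V) ≠ v := fun h => nvx (by rw [← h]; exact h1.symm)
    have hqv : (q : V) ≠ v := fun h => nvy (by rw [← h]; exact h4.symm)
    have hpx : (p : V) ≠ x := fun h => absurd (show G.Adj x x by rw [h] at h1; exact h1) (G.loopless.irrefl x)
    have hqy : (q : V) ≠ y := fun h => absurd (show G.Adj y y by rw [h] at h4; exact h4) (G.loopless.irrefl y)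
    have e1 := (hw p p.2 hpv hpx hps).1
    have e2 := (hw q q.2 hqv hqx hqy).1
    rcases hpq p p.2 q q.2 e1 e2 h7 with h | h
    · exact h5 h.2
    · exact h2 h.1
  · apply up_to
    have hvt : (⟨v, hv⟩ : (W : Set V)) ∈ ({t}ᶜ : Set (W : Set V)) := fun h =>
      hvy (congrArg Subtype.val h)
    have hst : s ∈ ({t}ᶜ : Set (W : Set V)) := fun h => hxy (congrArg Subtype.val h)
    refine hsus _ _ ⟨⟨v, hv⟩, hvt⟩ ⟨s, hst⟩ ?_ ?_ ?_
    · intro h
      exact hvx (congrArg (fun u => u.1.1) h)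
    · rintro ⟨-, -, -, h | h | h⟩
      · exact nvx h
      · exact hvx (congrArg Subtype.val h.1)
      · exact nvy (G.adj_symm h.2)
    · rintro ⟨⟨w, hwW⟩, hwt⟩ h1 h2
      have hwv : w ≠ v := fun h => h1 (by subst h; rfl)
      have hwx : w ≠ x := fun h => h2 (by subst h; rfl)
      have hwy : w ≠ y := fun h => hwt (by subst h; rfl)
      obtain ⟨e1, e2⟩ := hw w hwW hwv hwx hwy
      refine ⟨⟨fun h => hwv (congrArg Subtype.val h).symm, hvt, hwt, Or.inl e1⟩,
        ⟨fun h => hwx (congrArg Subtype.val h).symm, hst, hwt, ?_⟩⟩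
      rcases e2 with e2 | e2
      · exact Or.inl e2
      · exact Or.inr (Or.inl ⟨rfl, e2⟩)
  · refine SQ.iso _ _ ⟨isoOf G (L : Set V) K (K.neighborSet s ∩ K.neighborSet t) ?_ ?_⟩ hQ
    · intro w
      rw [Finset.mem_coe, hL]
      constructor
      · rintro ⟨h1, h2, h3⟩
        exact ⟨h1, h2, h3⟩
      · rintro ⟨h1, h2, h3⟩
        exact ⟨h1, h2, h3⟩
    · intro p q _ _
      exact hK p q

open CtL in
theorem ct3 (hsus : S_SUS) : S_CT3 := by
  intro V G b W v x y z hv hx hy hz hvx hvy hvz hxy hxz hyz nvx nvy nvz axy ayz hw hpq hns L M hL hM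
    hQL hQM
  set K : SimpleGraph (W : Set V) := G.induce (W : Set V) with hKdef
  have hK : ∀ p q : (W : Set V), K.Adj p q ↔ G.Adj p q := fun p q => Iff.rfl
  let s : (W : Set V) := ⟨y, hy⟩
  let t : (W : Set V) := ⟨z, hz⟩
  show SQ b K
  refine SQ.split K s t ayz ?_ ?_ ?_
  · intro p q h1 h2 h3 h4 h5 h6 h7
    exact hns p p.2 q q.2 h1 h2 (fun h => h3 (Subtype.ext h)) h4 h5 (fun h => h6 (Subtype.ext h)) h7
  · -- the first contracted graph
    set K1 : SimpleGraph ({t}ᶜ : Set (W : Set V)) := (con K s t).induce {t}ᶜ with hK1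
    have hvt : (⟨v, hv⟩ : (W : Set V)) ∈ ({t}ᶜ : Set (W : Set V)) := fun h =>
      hvz (congrArg Subtype.val h)
    have hxt : (⟨x, hx⟩ : (W : Set V)) ∈ ({t}ᶜ : Set (W : Set V)) := fun h =>
      hxz (congrArg Subtype.val h)
    have hyt : s ∈ ({t}ᶜ : Set (W : Set V)) := fun h => hyz (congrArg Subtype.val h)
    let x1 : ({t}ᶜ : Set (W : Set V)) := ⟨⟨x, hx⟩, hxt⟩
    let y1 : ({t}ᶜ : Set (W : Set V)) := ⟨s, hyt⟩
    -- adjacency in `K1`
    have hA : ∀ p q : ({t}ᶜ : Set (W : Set V)), (p : V) ≠ y → (q : V) ≠ y →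
        (K1.Adj p q ↔ G.Adj p q) := by
      intro p q hp hq
      constructor
      · rintro ⟨-, -, -, h | h | h⟩
        · exact h
        · exact absurd (congrArg Subtype.val h.1) hp
        · exact absurd (congrArg Subtype.val h.1) hq
      · intro h
        exact ⟨fun h' => h.ne (congrArg Subtype.val h'), p.2, q.2, Or.inl h⟩
    have hB : ∀ q : ({t}ᶜ : Set (W : Set V)), (q : V) ≠ y →
        (K1.Adj y1 q ↔ G.Adj y q ∨ G.Adj z q) := by
      intro q hq
      constructor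
      · rintro ⟨-, -, -, h | h | h⟩
        · exact Or.inl h
        · exact Or.inr h.2
        · exact absurd (congrArg Subtype.val h.1) hq
      · intro h
        refine ⟨fun h' => hq (congrArg Subtype.val h').symm, hyt, q.2, ?_⟩
        rcases h with h | h
        · exact Or.inl h
        · exact Or.inr (Or.inl ⟨rfl, h⟩)
    have hz' : ∀ q : ({t}ᶜ : Set (W : Set V)), (q : V) ≠ z := fun q h => q.2 (Subtype.ext h)
    have hne : ∀ q : ({t}ᶜ : Set (W : Set V)), q ≠ y1 → (q : V) ≠ y := fun q h h' =>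
      h (Subtype.ext (Subtype.ext h'))
    show SQ b K1
    refine SQ.split K1 x1 y1 ?_ ?_ ?_ ?_
    · exact ⟨fun h => hxy (congrArg Subtype.val h), hxt, hyt, Or.inl axy⟩
    · intro p q h1 h2 h3 h4 h5 h6 h7
      have hpy := hne p h3
      have hqy' : q ≠ y1 := fun h => K1.loopless.irrefl y1 (by rw [h] at h4; exact h4)
      have hqy := hne q hqy'
      rw [hA x1 p hxy hpy] at h1
      rw [hB p hpy] at h2
      rw [hB q hqy] at h4
      rw [hA x1 q hxy hqy] at h5
      rw [hA p q hpy hqy] at h7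
      push Not at h2
      have hpv : (p : V) ≠ v := fun h => nvx (by rw [← h]; exact G.adj_symm h1)
      have hpx : (p : V) ≠ x := fun h => h1.ne h.symm
      have hqv : (q : V) ≠ v := by
        intro h
        rw [h] at h4
        rcases h4 with h4 | h4
        · exact nvy (G.adj_symm h4)
        · exact nvz (G.adj_symm h4)
      have hqx : (q : V) ≠ x := fun h => h6 (Subtype.ext (Subtype.ext h))
      have e1 := (hw p p.1.2 hpv hpx hpy (hz' p)).1
      have e2 := (hw q q.1.2 hqv hqx hqy (hz' q)).1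
      rcases hpq p p.1.2 q q.1.2 e1 e2 h7 with h | h | h
      · exact h5 h.2
      · exact h2.1 h.1
      · exact h2.2 h.1
    · apply up_to
      have hvy1 : (⟨⟨v, hv⟩, hvt⟩ : ({t}ᶜ : Set (W : Set V))) ∈
          ({y1}ᶜ : Set ({t}ᶜ : Set (W : Set V))) := fun h =>
        hvy (congrArg (fun u => u.1.1) h)
      have hxy1 : x1 ∈ ({y1}ᶜ : Set ({t}ᶜ : Set (W : Set V))) := fun h =>
        hxy (congrArg (fun u => u.1.1) h)
      refine hsus _ _ ⟨⟨⟨v, hv⟩, hvt⟩, hvy1⟩ ⟨x1, hxy1⟩ ?_ ?_ ?_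
      · intro h
        exact hvx (congrArg (fun u => u.1.1.1) h)
      · rintro ⟨-, -, -, h | h | h⟩
        · exact nvx ((hA _ _ hvy hxy).1 h)
        · exact hvx (congrArg (fun u => u.1.1) h.1)
        · rcases (hB _ hvy).1 h.2 with h' | h'
          · exact nvy (G.adj_symm h')
          · exact nvz (G.adj_symm h')
      · rintro ⟨w, hwy1⟩ h1 h2
        have hwv : (w : V) ≠ v := fun h => h1 (Subtype.ext (Subtype.ext (Subtype.ext h)))
        have hwx : (w : V) ≠ x := fun h => h2 (Subtype.ext (Subtype.ext (Subtype.ext h)))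
        have hwy : (w : V) ≠ y := hne w hwy1
        obtain ⟨e1, e2⟩ := hw w w.1.2 hwv hwx hwy (hz' w)
        refine ⟨⟨fun h => hwv (congrArg (fun u => u.1.1) h).symm, hvy1, hwy1, Or.inl ((hA _ _ hvy hwy).2 e1)⟩,
          ⟨fun h => hwx (congrArg (fun u => u.1.1) h).symm, hxy1, hwy1, ?_⟩⟩
        rcases e2 with e2 | e2
        · exact Or.inl ((hA x1 w hxy hwy).2 e2)
        · exact Or.inr (Or.inl ⟨rfl, (hB w hwy).2 e2⟩)
    · -- the link of `xy` in `K1`
      have hQM' : SQ (b - 1) (G.induce (M : Set V)) := hQM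
      refine SQ.iso (G.induce (M : Set V)) _ ?_ hQM'
      refine ⟨{
        toFun := fun w => ⟨⟨⟨w.1, ((hM w.1).1 w.2).1⟩, fun h =>
            ((hM w.1).1 w.2).2.2.2.1 (congrArg Subtype.val h)⟩, ?_, ?_⟩
        invFun := fun w => ⟨w.1.1.1, ?_⟩
        left_inv := fun w => rfl
        right_inv := fun w => rfl
        map_rel_iff' := ?_ }⟩
      · exact (hA x1 _ hxy ((hM w.1).1 w.2).2.2.1).2 ((hM w.1).1 w.2).2.1
      · exact (hB _ ((hM w.1).1 w.2).2.2.1).2 ((hM w.1).1 w.2).2.2.2.2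
      · have h1 : K1.Adj x1 w.1 := w.2.1
        have h2 : K1.Adj y1 w.1 := w.2.2
        have hwy' : w.1 ≠ y1 := fun h => K1.loopless.irrefl y1 (by rw [h] at h2; exact h2)
        have hwy := hne w.1 hwy'
        exact (hM _).2 ⟨w.1.1.2, (hA x1 w.1 hxy hwy).1 h1, hwy, hz' w.1, (hB w.1 hwy).1 h2⟩
      · intro p q
        exact hA _ _ ((hM p.1).1 p.2).2.2.1 ((hM q.1).1 q.2).2.2.1
  · refine SQ.iso _ _ ⟨isoOf G (L : Set V) K (K.neighborSet s ∩ K.neighborSet t) ?_ ?_⟩ hQL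
    · intro w
      rw [Finset.mem_coe, hL]
      constructor
      · rintro ⟨h1, h2, h3⟩
        exact ⟨h1, h2, h3⟩
      · rintro ⟨h1, h2, h3⟩
        exact ⟨h1, h2, h3⟩
    · intro p q _ _
      exact hK p q

theorem jon : S_JON := by
  intro V _ G a b A B hF hA hB
  have hdis := hF.disjoint
  have h1 : SQ (a + b) (Pool.Agent.TH652.Join.join (G.induce (A : Set V)) (G.induce (B : Set V))) :=
    SQ.join _ _ hA hB
  refine SQ.iso _ _ ?_ h1
  refine ⟨{
    toFun := fun w => match w with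
      | Sum.inl u => ⟨u.1, Finset.mem_coe.2 (Finset.mem_union_left B (Finset.mem_coe.1 u.2))⟩
      | Sum.inr u => ⟨u.1, Finset.mem_coe.2 (Finset.mem_union_right A (Finset.mem_coe.1 u.2))⟩
    invFun := fun w => if h : w.1 ∈ A then Sum.inl ⟨w.1, h⟩ else
      Sum.inr ⟨w.1, (Finset.mem_union.1 (Finset.mem_coe.1 w.2)).resolve_left h⟩
    left_inv := ?_
    right_inv := ?_
    map_rel_iff' := ?_ }⟩
  · rintro (⟨u, hu⟩ | ⟨u, hu⟩)
    · exact dif_pos hu
    · exact dif_neg fun h => (Finset.disjoint_left.1 hdis) h hu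
  · rintro ⟨u, hu⟩
    by_cases h : u ∈ A
    · simp only [h, dite_true]
    · simp only [h, dite_false]
  · rintro (⟨u, hu⟩ | ⟨u, hu⟩) (⟨w, hw⟩ | ⟨w, hw⟩)
    · exact Iff.rfl
    · exact ⟨fun _ => trivial, fun _ => hF u hu w hw⟩
    · exact ⟨fun _ => trivial, fun _ => (hF w hw u hu).symm⟩
    · exact Iff.rfl

end Pool.Agent.Helper39K9.FV
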