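import Pool.Agent.Helper39K9.FV.StmK

/-!
# [CUN] Cut a flag surface along an induced square and cone off
-/

set_option autoImplicit false
set_option linter.unusedSectionVars false

namespace Pool.Agent.Helper39K9.FV.K

open Pool.Agent.W497.FS (NP Prm SConn lk lkF cl)

namespace CunL

variable {V : Type} [DecidableEq V] {G G₁ : SimpleGraph V} {W X Y W' : Finset V} {a b c d y : V}

theorem mlk {G : SimpleGraph V} {W : Finset V} {v x : V} : x ∈ lk G W v ↔ x ∈ W ∧ G.Adj v x := by
  classical
  unfold lk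
  simp only [Finset.mem_filter]

/-- collapse `Y` to the point `y` -/
theorem sc {C : Finset V} (hy : y ∈ Y) (hC : Cone G G₁ y a b c d)
    (hno : ∀ p ∈ C, p ∉ Y → ∀ q ∈ Y, G.Adj p q → p = a ∨ p = b ∨ p = c ∨ p = d)
    (hs : SConn G C) (hne : ∃ z ∈ C, z ∈ Y) : SConn G₁ (insert y (C \ Y)) := by
  intro A hA hA0 hA1
  classical
  obtain ⟨z, hzC, hzY⟩ := hne
  set B : Finset V := C.filter (fun u => if u ∈ Y then y ∈ A else u ∈ A) with hB
  have hmB : ∀ u, u ∈ B ↔ u ∈ C ∧ (if u ∈ Y then y ∈ A else u ∈ A) := fun u => by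
    rw [hB, Finset.mem_filter]
  have h1 : B.Nonempty := by
    obtain ⟨u, hu⟩ := hA0
    rcases Finset.mem_insert.1 (hA hu) with h | h
    · exact ⟨z, (hmB z).2 ⟨hzC, by rw [if_pos hzY, ← h]; exact hu⟩⟩
    · rw [Finset.mem_sdiff] at h
      exact ⟨u, (hmB u).2 ⟨h.1, by rw [if_neg h.2]; exact hu⟩⟩
  have h2 : B ≠ C := by
    intro he
    apply hA1
    refine Finset.Subset.antisymm hA fun u hu => ?_
    rcases Finset.mem_insert.1 hu with h | h
    · have := ((hmB z).1 (he ▸ hzC)).2
      rw [if_pos hzY] at this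
      rwa [h]
    · rw [Finset.mem_sdiff] at h
      have := ((hmB u).1 (he ▸ h.1)).2
      rwa [if_neg h.2] at this
  obtain ⟨p, hp, q, hq, hqB, hpq⟩ := hs B (Finset.filter_subset _ _) h1 h2
  rw [hmB] at hp hqB
  by_cases hpY : p ∈ Y
  · rw [if_pos hpY] at hp
    by_cases hqY : q ∈ Y
    · rw [if_pos hqY] at hqB
      exact absurd ⟨hq, hp.2⟩ hqB
    · rw [if_neg hqY] at hqB
      refine ⟨y, hp.2, q, Finset.mem_insert_of_mem (Finset.mem_sdiff.2 ⟨hq, hqY⟩),
        fun h => hqB ⟨hq, h⟩, ?_⟩
      exact (hC y q).2 (Or.inr (Or.inl ⟨rfl, hno q hq hqY p hpY hpq.symm⟩))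
  · rw [if_neg hpY] at hp
    by_cases hqY : q ∈ Y
    · rw [if_pos hqY] at hqB
      refine ⟨p, hp.2, y, Finset.mem_insert_self _ _, fun h => hqB ⟨hq, h⟩, ?_⟩
      exact (hC p y).2 (Or.inr (Or.inr ⟨rfl, hno p hp.1 hpY q hqY hpq⟩))
    · rw [if_neg hqY] at hqB
      refine ⟨p, hp.2, q, Finset.mem_insert_of_mem (Finset.mem_sdiff.2 ⟨hq, hqY⟩),
        fun h => hqB ⟨hq, h⟩, ?_⟩
      exact (hC p q).2 (Or.inl ⟨fun h => hpY (h ▸ hy), fun h => hqY (h ▸ hy), hpq⟩)

theorem cut_rot (h : Cut G W X Y a b c d) : Cut G W X Y b c d a where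
  ha := h.hb
  hb := h.hc
  hc := h.hd
  hd := h.ha
  ab := h.bc
  bc := h.cd
  cd := h.da
  da := h.ab
  ac := h.bd
  bd := fun h' => h.ac h'.symm
  nac := h.nbd
  nbd := h.nac.symm
  un := fun x => by rw [h.un x]; tauto
  dj := h.dj
  no := h.no
  xab := h.xbc
  xbc := h.xcd
  xcd := h.xda
  xda := h.xab
  yab := h.ybc
  ybc := h.ycd
  ycd := h.yda
  yda := h.yab

theorem cone_rot (h : Cone G G₁ y a b c d) : Cone G G₁ y b c d a := by
  intro u v
  rw [h u v]
  tauto

theorem hX (h : Cut G W X Y a b c d) {x : V} (hx : x ∈ X) :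
    x ∈ W ∧ x ≠ a ∧ x ≠ b ∧ x ≠ c ∧ x ≠ d := (h.un x).1 (Or.inl hx)

theorem hY (h : Cut G W X Y a b c d) {x : V} (hx : x ∈ Y) :
    x ∈ W ∧ x ≠ a ∧ x ≠ b ∧ x ≠ c ∧ x ≠ d := (h.un x).1 (Or.inr hx)

theorem hXY (h : Cut G W X Y a b c d) {x : V} (hx : x ∈ X) : x ∉ Y :=
  Finset.disjoint_left.1 h.dj hx

theorem hW (h : Cut G W X Y a b c d) {x : V} (hx : x ∈ W) (hy : x ∉ Y) :
    x ∈ X ∨ x = a ∨ x = b ∨ x = c ∨ x = d := by
  by_contra hcon
  push Not at hcon
  obtain ⟨h0, h1, h2, h3, h4⟩ := hcon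
  rcases (h.un x).2 ⟨hx, h1, h2, h3, h4⟩ with h5 | h5
  · exact h0 h5
  · exact hy h5

/-- the link of `a` -/
theorem lka (hcut : Cut G W X Y a b c d) (hy : y ∈ Y) (hC : Cone G G₁ y a b c d)
    (hW' : ∀ u, u ∈ W' ↔ u = y ∨ u ∈ X ∨ u = a ∨ u = b ∨ u = c ∨ u = d) :
    lk G₁ W' a = insert y (lk G W a \ Y) := by
  obtain ⟨-, ya, yb, yc, yd⟩ := hY hcut hy
  ext u
  rw [mlk, Finset.mem_insert, Finset.mem_sdiff, mlk, hW', hC a u]
  constructor
  · rintro ⟨h1, h2⟩
    by_cases huy : u = y
    · exact Or.inl huy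
    · right
      rcases h2 with ⟨-, -, h2⟩ | ⟨h2, -⟩ | ⟨h2, -⟩
      · rcases h1 with h1 | h1 | h1 | h1 | h1 | h1
        · exact absurd h1 huy
        · exact ⟨⟨(hX hcut h1).1, h2⟩, hXY hcut h1⟩
        · subst h1; exact absurd h2 (G.loopless.irrefl _)
        · subst h1; exact ⟨⟨hcut.hb, h2⟩, fun h => (hY hcut h).2.2.1 rfl⟩
        · subst h1; exact absurd h2 hcut.ac
        · subst h1; exact ⟨⟨hcut.hd, h2⟩, fun h => (hY hcut h).2.2.2.2 rfl⟩
      · exact absurd h2.symm ya
      · exact absurd h2 huy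
  · rintro (h | ⟨⟨h1, h2⟩, h3⟩)
    · exact ⟨Or.inl h, Or.inr (Or.inr ⟨h, Or.inl rfl⟩)⟩
    · exact ⟨Or.inr (hW hcut h1 h3), Or.inl ⟨ya.symm, fun h => h3 (h ▸ hy), h2⟩⟩

theorem lq (hN : NP G 3 W) (hcut : Cut G W X Y a b c d) (hy : y ∈ Y)
    (hC : Cone G G₁ y a b c d) {q x₀ y₀ : V} (hq : q = b ∨ q = d) (hx : x₀ ∈ X) (hy₀ : y₀ ∈ Y)
    (h1 : G.Adj a x₀) (h2 : G.Adj q x₀) (h3 : G.Adj a y₀) (h4 : G.Adj q y₀) :
    lk G₁ (insert y (lk G W a \ Y)) q = {x₀, y} := by
  have haq : G.Adj a q := by
    rcases hq with h | h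
    · rw [h]; exact hcut.ab
    · rw [h]; exact hcut.da.symm
  have hqW : q ∈ W := by
    rcases hq with h | h
    · rw [h]; exact hcut.hb
    · rw [h]; exact hcut.hd
  have hqy : q ≠ y := by
    rintro rfl
    rcases hq with h | h
    · exact (hY hcut hy).2.2.1 h
    · exact (hY hcut hy).2.2.2.2 h
  have hx0y0 : x₀ ≠ y₀ := fun h => hXY hcut hx (h ▸ hy₀)
  have hqC : q ∈ lk G W a := mlk.2 ⟨hqW, haq⟩
  have hsub : ({x₀, y₀} : Finset V) ⊆ lk G (lk G W a) q := by
    intro u hu
    rw [Finset.mem_insert, Finset.mem_singleton] at hu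
    rcases hu with rfl | rfl
    · exact mlk.2 ⟨mlk.2 ⟨(hX hcut hx).1, h1⟩, h2⟩
    · exact mlk.2 ⟨mlk.2 ⟨(hY hcut hy₀).1, h3⟩, h4⟩
  have hcard := (((npe.1 hN).2.2 a hcut.ha).2.2 q hqC).1
  have heq := Finset.eq_of_subset_of_card_le hsub (by rw [hcard, Finset.card_pair hx0y0])
  ext u
  rw [mlk, Finset.mem_insert, Finset.mem_sdiff, Finset.mem_insert, Finset.mem_singleton]
  constructor
  · rintro ⟨h5 | ⟨h5, h6⟩, h7⟩
    · exact Or.inr h5
    · left
      have huy : u ≠ y := fun h => h6 (h ▸ hy)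
      have h8 : G.Adj q u := by
        rcases (hC q u).1 h7 with h | h | h
        · exact h.2.2
        · exact absurd h.1 hqy
        · exact absurd h.1 huy
      have h9 : u ∈ lk G (lk G W a) q := mlk.2 ⟨h5, h8⟩
      rw [← heq, Finset.mem_insert, Finset.mem_singleton] at h9
      rcases h9 with h9 | h9
      · exact h9
      · exact absurd (h9 ▸ hy₀) h6
  · rintro (rfl | rfl)
    · exact ⟨Or.inr ⟨mlk.2 ⟨(hX hcut hx).1, h1⟩, hXY hcut hx⟩,
        (hC _ _).2 (Or.inl ⟨hqy, fun h => hXY hcut hx (h ▸ hy), h2⟩)⟩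
    · refine ⟨Or.inl rfl, (hC _ _).2 (Or.inr (Or.inr ⟨rfl, ?_⟩))⟩
      rcases hq with h | h
      · exact Or.inr (Or.inl h)
      · exact Or.inr (Or.inr (Or.inr h))

theorem pair (hcut : Cut G W X Y a b c d) (hy : y ∈ Y) (hC : Cone G G₁ y a b c d) {x₀ : V}
    (hx : x₀ ∈ X) : ({x₀, y} : Finset V).card = 2 ∧
      ∀ u ∈ ({x₀, y} : Finset V), ∀ v ∈ ({x₀, y} : Finset V), ¬ G₁.Adj u v := by
  have hne : x₀ ≠ y := fun h => hXY hcut hx (h ▸ hy)
  obtain ⟨-, xa, xb, xc, xd⟩ := hX hcut hx
  have hn : ¬ G₁.Adj x₀ y := by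
    intro h
    rcases (hC x₀ y).1 h with h | h | h
    · exact h.2.1 rfl
    · exact hne h.1
    · rcases h.2 with h | h | h | h
      · exact xa h
      · exact xb h
      · exact xc h
      · exact xd h
  refine ⟨Finset.card_pair hne, ?_⟩
  intro u hu v hv
  rw [Finset.mem_insert, Finset.mem_singleton] at hu hv
  rcases hu with rfl | rfl <;> rcases hv with rfl | rfl
  · exact G₁.loopless.irrefl _
  · exact hn
  · exact fun h => hn h.symm
  · exact G₁.loopless.irrefl _

/-- the conditions at the vertex `a` -/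
theorem la (hN : NP G 3 W) (hcut : Cut G W X Y a b c d) (hy : y ∈ Y) (hC : Cone G G₁ y a b c d)
    (hW' : ∀ u, u ∈ W' ↔ u = y ∨ u ∈ X ∨ u = a ∨ u = b ∨ u = c ∨ u = d) :
    (lk G₁ W' a).Nonempty ∧ SConn G₁ (lk G₁ W' a) ∧ ∀ w ∈ lk G₁ W' a,
      (lk G₁ (lk G₁ W' a) w).card = 2 ∧
        ∀ x ∈ lk G₁ (lk G₁ W' a) w, ∀ z ∈ lk G₁ (lk G₁ W' a) w, ¬ G₁.Adj x z := by
  obtain ⟨hyW, ya, yb, yc, yd⟩ := hY hcut hy
  rw [lka hcut hy hC hW']
  obtain ⟨-, hS, hL⟩ := (npe.1 hN).2.2 a hcut.ha
  refine ⟨⟨y, Finset.mem_insert_self _ _⟩, ?_, ?_⟩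
  · refine sc hy hC ?_ hS ?_
    · intro p hp hpY q hq hpq
      rw [mlk] at hp
      rcases hW hcut hp.1 hpY with h | h | h | h | h
      · exact absurd hpq (hcut.no p h q hq)
      · exact Or.inl h
      · exact Or.inr (Or.inl h)
      · exact Or.inr (Or.inr (Or.inl h))
      · exact Or.inr (Or.inr (Or.inr h))
    · obtain ⟨z, hz, hz1, -⟩ := hcut.yab
      exact ⟨z, mlk.2 ⟨(hY hcut hz).1, hz1⟩, hz⟩
  · intro w hw
    rw [Finset.mem_insert, Finset.mem_sdiff] at hw
    by_cases hwy : w = y
    · subst hwy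
      have e : lk G₁ (insert w (lk G W a \ Y)) w = {b, d} := by
        ext u
        rw [mlk, Finset.mem_insert, Finset.mem_sdiff, mlk, Finset.mem_insert, Finset.mem_singleton,
          hC w u]
        constructor
        · rintro ⟨h1, h2⟩
          rcases h2 with h2 | h2 | h2
          · exact absurd rfl h2.1
          · rcases h2.2 with h | h | h | h
            · exfalso
              subst h
              rcases h1 with h1 | h1
              · exact ya h1.symm
              · exact G.loopless.irrefl _ h1.1.2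
            · exact Or.inl h
            · exfalso
              subst h
              rcases h1 with h1 | h1
              · exact yc h1.symm
              · exact hcut.ac h1.1.2
            · exact Or.inr h
          · rcases h2.2 with h | h | h | h
            · exact absurd h ya
            · exact absurd h yb
            · exact absurd h yc
            · exact absurd h yd
        · rintro (rfl | rfl)
          · exact ⟨Or.inr ⟨⟨hcut.hb, hcut.ab⟩, fun h => (hY hcut h).2.2.1 rfl⟩,
              Or.inr (Or.inl ⟨rfl, Or.inr (Or.inl rfl)⟩)⟩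
          · exact ⟨Or.inr ⟨⟨hcut.hd, hcut.da.symm⟩, fun h => (hY hcut h).2.2.2.2 rfl⟩,
              Or.inr (Or.inl ⟨rfl, Or.inr (Or.inr (Or.inr rfl))⟩)⟩
      rw [e]
      refine ⟨Finset.card_pair hcut.nbd, ?_⟩
      have hbd : ¬ G₁.Adj b d := by
        intro h
        rcases (hC b d).1 h with h | h | h
        · exact hcut.bd h.2.2
        · exact yb h.1.symm
        · exact yd h.1.symm
      intro u hu v hv
      rw [Finset.mem_insert, Finset.mem_singleton] at hu hv
      rcases hu with rfl | rfl <;> rcases hv with rfl | rfl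
      · exact G₁.loopless.irrefl _
      · exact hbd
      · exact fun h => hbd h.symm
      · exact G₁.loopless.irrefl _
    · rcases hw with hw | ⟨hw, hwY⟩
      · exact absurd hw hwy
      · have hw' := mlk.1 hw
        rcases hW hcut hw'.1 hwY with h | h | h | h | h
        · -- `w` in `X`
          have hnY : ∀ u, G.Adj w u → u ∉ Y := fun u hu hu' => hcut.no w h u hu' hu
          have e : lk G₁ (insert y (lk G W a \ Y)) w = lk G (lk G W a) w := by
            ext u
            rw [mlk, Finset.mem_insert, Finset.mem_sdiff, mlk (W := lk G W a), hC w u]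
            constructor
            · rintro ⟨h1, h2⟩
              rcases h2 with h2 | h2 | h2
              · rcases h1 with h1 | h1
                · exact absurd h1 h2.2.1
                · exact ⟨h1.1, h2.2.2⟩
              · exact absurd h2.1 hwy
              · obtain ⟨-, xa, xb, xc, xd⟩ := hX hcut h
                rcases h2.2 with h3 | h3 | h3 | h3
                · exact absurd h3 xa
                · exact absurd h3 xb
                · exact absurd h3 xc
                · exact absurd h3 xd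
            · rintro ⟨h1, h2⟩
              have h3 := hnY u h2
              exact ⟨Or.inr ⟨h1, h3⟩, Or.inl ⟨hwy, fun h4 => h3 (h4 ▸ hy), h2⟩⟩
          rw [e]
          refine ⟨(hL w hw).1, fun u hu v hv huv => (hL w hw).2 u hu v hv ?_⟩
          have h1 : u ≠ y := fun h4 => hnY u (mlk.1 hu).2 (h4 ▸ hy)
          have h2 : v ≠ y := fun h4 => hnY v (mlk.1 hv).2 (h4 ▸ hy)
          rcases (hC u v).1 huv with h3 | h3 | h3
          · exact h3.2.2
          · exact absurd h3.1 h1
          · exact absurd h3.1 h2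
        · subst h
          exact absurd hw'.2 (G.loopless.irrefl _)
        · obtain ⟨x₀, hx, hx1, hx2⟩ := hcut.xab
          obtain ⟨y₀, hy₀, hy1, hy2⟩ := hcut.yab
          rw [h, lq hN hcut hy hC (Or.inl rfl) hx hy₀ hx1 hx2 hy1 hy2]
          exact pair hcut hy hC hx
        · subst h
          exact absurd hw'.2 hcut.ac
        · obtain ⟨x₀, hx, hx1, hx2⟩ := hcut.xda
          obtain ⟨y₀, hy₀, hy1, hy2⟩ := hcut.yda
          rw [h, lq hN hcut hy hC (Or.inr rfl) hx hy₀ hx2 hx1 hy2 hy1]
          exact pair hcut hy hC hx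

theorem lkx (hcut : Cut G W X Y a b c d) (hy : y ∈ Y) (hC : Cone G G₁ y a b c d)
    (hW' : ∀ u, u ∈ W' ↔ u = y ∨ u ∈ X ∨ u = a ∨ u = b ∨ u = c ∨ u = d) {v : V} (hv : v ∈ X) :
    lk G₁ W' v = lk G W v := by
  have hvy : v ≠ y := fun h => hXY hcut hv (h ▸ hy)
  obtain ⟨-, xa, xb, xc, xd⟩ := hX hcut hv
  ext u
  rw [mlk, mlk, hC v u, hW']
  constructor
  · rintro ⟨h1, h2⟩
    rcases h2 with h2 | h2 | h2
    · refine ⟨?_, h2.2.2⟩
      rcases h1 with h1 | h1 | h1 | h1 | h1 | h1
      · exact absurd h1 h2.2.1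
      · exact (hX hcut h1).1
      · rw [h1]; exact hcut.ha
      · rw [h1]; exact hcut.hb
      · rw [h1]; exact hcut.hc
      · rw [h1]; exact hcut.hd
    · exact absurd h2.1 hvy
    · rcases h2.2 with h3 | h3 | h3 | h3
      · exact absurd h3 xa
      · exact absurd h3 xb
      · exact absurd h3 xc
      · exact absurd h3 xd
  · rintro ⟨h1, h2⟩
    have h3 : u ∉ Y := fun h => hcut.no v hv u h h2
    exact ⟨Or.inr (hW hcut h1 h3), Or.inl ⟨hvy, fun h4 => h3 (h4 ▸ hy), h2⟩⟩

theorem lky (hcut : Cut G W X Y a b c d) (hy : y ∈ Y) (hC : Cone G G₁ y a b c d)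
    (hW' : ∀ u, u ∈ W' ↔ u = y ∨ u ∈ X ∨ u = a ∨ u = b ∨ u = c ∨ u = d) :
    lk G₁ W' y = {a, b, c, d} := by
  obtain ⟨hyW, ya, yb, yc, yd⟩ := hY hcut hy
  ext u
  rw [mlk, hC y u, hW', Finset.mem_insert, Finset.mem_insert, Finset.mem_insert,
    Finset.mem_singleton]
  constructor
  · rintro ⟨h1, h2⟩
    rcases h2 with h2 | h2 | h2
    · exact absurd rfl h2.1
    · exact h2.2
    · rcases h2.2 with h | h | h | h
      · exact absurd h ya
      · exact absurd h yb
      · exact absurd h yc
      · exact absurd h yd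
  · intro h
    exact ⟨Or.inr (Or.inr h), Or.inr (Or.inl ⟨rfl, h⟩)⟩

end CunL

open CunL in
theorem cun : S_CUN := by
  intro V _ G G₁ W X Y a b c d y hN hcut hy hC
  obtain ⟨hyW, ya, yb, yc, yd⟩ := hY hcut hy
  have hW' : ∀ u, u ∈ insert y (X ∪ {a, b, c, d}) ↔ u = y ∨ u ∈ X ∨ u = a ∨ u = b ∨ u = c ∨ u = d := by
    intro u
    simp only [Finset.mem_insert, Finset.mem_union, Finset.mem_singleton]
  set W' : Finset V := insert y (X ∪ {a, b, c, d}) with hdef
  have hWY : W' = insert y (W \ Y) := by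
    ext u
    rw [hW', Finset.mem_insert, Finset.mem_sdiff]
    constructor
    · rintro (h | h | h | h | h | h)
      · exact Or.inl h
      · exact Or.inr ⟨(hX hcut h).1, hXY hcut h⟩
      · subst h; exact Or.inr ⟨hcut.ha, fun h => (hY hcut h).2.1 rfl⟩
      · subst h; exact Or.inr ⟨hcut.hb, fun h => (hY hcut h).2.2.1 rfl⟩
      · subst h; exact Or.inr ⟨hcut.hc, fun h => (hY hcut h).2.2.2.1 rfl⟩
      · subst h; exact Or.inr ⟨hcut.hd, fun h => (hY hcut h).2.2.2.2 rfl⟩
    · rintro (h | ⟨h1, h2⟩)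
      · exact Or.inl h
      · exact Or.inr (hW hcut h1 h2)
  rw [npe]
  refine ⟨⟨y, (hW' y).2 (Or.inl rfl)⟩, ?_, ?_⟩
  · rw [hWY]
    refine sc hy hC ?_ (npe.1 hN).2.1 ⟨y, hyW, hy⟩
    intro p hp hpY q hq hpq
    rcases hW hcut hp hpY with h | h
    · exact absurd hpq (hcut.no p h q hq)
    · exact h
  · intro v hv
    rcases (hW' v).1 hv with h | h | h | h | h | h
    · -- the cone point
      subst h
      rw [lky hcut hy hC hW']
      have adj : ∀ u w, u ≠ v → w ≠ v → (G₁.Adj u w ↔ G.Adj u w) := by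
        intro u w hu hw
        rw [hC u w]
        constructor
        · rintro (h | h | h)
          · exact h.2.2
          · exact absurd h.1 hu
          · exact absurd h.1 hw
        · exact fun h => Or.inl ⟨hu, hw, h⟩
      have hab : G₁.Adj a b := (adj a b ya.symm yb.symm).2 hcut.ab
      have hbc : G₁.Adj b c := (adj b c yb.symm yc.symm).2 hcut.bc
      have hcd : G₁.Adj c d := (adj c d yc.symm yd.symm).2 hcut.cd
      have hda : G₁.Adj d a := (adj d a yd.symm ya.symm).2 hcut.da
      have hac : ¬ G₁.Adj a c := fun h => hcut.ac ((adj a c ya.symm yc.symm).1 h)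
      have hbd : ¬ G₁.Adj b d := fun h => hcut.bd ((adj b d yb.symm yd.symm).1 h)
      have hca : ¬ G₁.Adj c a := fun h => hac h.symm
      have hdb : ¬ G₁.Adj d b := fun h => hbd h.symm
      have la : lk G₁ ({a, b, c, d} : Finset V) a = {b, d} := by
        ext u
        rw [mlk]
        simp only [Finset.mem_insert, Finset.mem_singleton]
        constructor
        · rintro ⟨rfl | rfl | rfl | rfl, h2⟩
          · exact absurd h2 (G₁.loopless.irrefl _)
          · exact Or.inl rfl
          · exact absurd h2 hac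
          · exact Or.inr rfl
        · rintro (rfl | rfl)
          · exact ⟨Or.inr (Or.inl rfl), hab⟩
          · exact ⟨Or.inr (Or.inr (Or.inr rfl)), hda.symm⟩
      have lb : lk G₁ ({a, b, c, d} : Finset V) b = {a, c} := by
        ext u
        rw [mlk]
        simp only [Finset.mem_insert, Finset.mem_singleton]
        constructor
        · rintro ⟨rfl | rfl | rfl | rfl, h2⟩
          · exact Or.inl rfl
          · exact absurd h2 (G₁.loopless.irrefl _)
          · exact Or.inr rfl
          · exact absurd h2 hbd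
        · rintro (rfl | rfl)
          · exact ⟨Or.inl rfl, hab.symm⟩
          · exact ⟨Or.inr (Or.inr (Or.inl rfl)), hbc⟩
      have lc : lk G₁ ({a, b, c, d} : Finset V) c = {b, d} := by
        ext u
        rw [mlk]
        simp only [Finset.mem_insert, Finset.mem_singleton]
        constructor
        · rintro ⟨rfl | rfl | rfl | rfl, h2⟩
          · exact absurd h2 hca
          · exact Or.inl rfl
          · exact absurd h2 (G₁.loopless.irrefl _)
          · exact Or.inr rfl
        · rintro (rfl | rfl)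
          · exact ⟨Or.inr (Or.inl rfl), hbc.symm⟩
          · exact ⟨Or.inr (Or.inr (Or.inr rfl)), hcd⟩
      have ld : lk G₁ ({a, b, c, d} : Finset V) d = {a, c} := by
        ext u
        rw [mlk]
        simp only [Finset.mem_insert, Finset.mem_singleton]
        constructor
        · rintro ⟨rfl | rfl | rfl | rfl, h2⟩
          · exact Or.inl rfl
          · exact absurd h2 hdb
          · exact Or.inr rfl
          · exact absurd h2 (G₁.loopless.irrefl _)
        · rintro (rfl | rfl)
          · exact ⟨Or.inl rfl, hda⟩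
          · exact ⟨Or.inr (Or.inr (Or.inl rfl)), hcd.symm⟩
      have p2 : ∀ u w : V, u ≠ w → ¬ G₁.Adj u w → ({u, w} : Finset V).card = 2 ∧
          ∀ x ∈ ({u, w} : Finset V), ∀ z ∈ ({u, w} : Finset V), ¬ G₁.Adj x z := by
        intro u w huw hn
        refine ⟨Finset.card_pair huw, ?_⟩
        intro x hx z hz
        rw [Finset.mem_insert, Finset.mem_singleton] at hx hz
        rcases hx with rfl | rfl <;> rcases hz with rfl | rfl
        · exact G₁.loopless.irrefl _
        · exact hn
        · exact fun h => hn h.symm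
        · exact G₁.loopless.irrefl _
      refine ⟨⟨a, Finset.mem_insert_self _ _⟩, ?_, ?_⟩
      · intro A hA hA0 hA1
        by_contra hcon
        push Not at hcon
        have hmem : ∀ u ∈ ({a, b, c, d} : Finset V), ∀ w ∈ ({a, b, c, d} : Finset V), G₁.Adj u w →
            u ∈ A → w ∈ A := by
          intro u _ w hw huw hu
          by_contra hwA
          exact hcon u hu w hw hwA huw
        have ma : a ∈ ({a, b, c, d} : Finset V) := by simp
        have mb : b ∈ ({a, b, c, d} : Finset V) := by simp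
        have mc : c ∈ ({a, b, c, d} : Finset V) := by simp
        have md : d ∈ ({a, b, c, d} : Finset V) := by simp
        have iab : a ∈ A → b ∈ A := hmem a ma b mb hab
        have ibc : b ∈ A → c ∈ A := hmem b mb c mc hbc
        have icd : c ∈ A → d ∈ A := hmem c mc d md hcd
        have ida : d ∈ A → a ∈ A := hmem d md a ma hda
        have haA : a ∈ A := by
          obtain ⟨u, hu⟩ := hA0
          have hu' := hA hu
          simp only [Finset.mem_insert, Finset.mem_singleton] at hu'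
          rcases hu' with rfl | rfl | rfl | rfl
          · exact hu
          · exact ida (icd (ibc hu))
          · exact ida (icd hu)
          · exact ida hu
        apply hA1
        refine Finset.Subset.antisymm hA fun u hu => ?_
        simp only [Finset.mem_insert, Finset.mem_singleton] at hu
        rcases hu with rfl | rfl | rfl | rfl
        · exact haA
        · exact iab haA
        · exact ibc (iab haA)
        · exact icd (ibc (iab haA))
      · intro w hw
        simp only [Finset.mem_insert, Finset.mem_singleton] at hw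
        rcases hw with h | h | h | h
        · rw [h, la]; exact p2 b d hcut.nbd hbd
        · rw [h, lb]; exact p2 a c hcut.nac hac
        · rw [h, lc]; exact p2 b d hcut.nbd hbd
        · rw [h, ld]; exact p2 a c hcut.nac hac
    · -- vertices in `X`
      rw [lkx hcut hy hC hW' h]
      obtain ⟨h1, h2, h3⟩ := (npe.1 hN).2.2 v (hX hcut h).1
      have hL : ∀ u ∈ lk G W v, u ≠ y := by
        intro u hu huy
        rw [mlk] at hu
        exact hcut.no v h u (huy ▸ hy) hu.2
      have adj : ∀ u ∈ lk G W v, ∀ w ∈ lk G W v, (G₁.Adj u w ↔ G.Adj u w) := by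
        intro u hu w hw
        rw [hC u w]
        constructor
        · rintro (h | h | h)
          · exact h.2.2
          · exact absurd h.1 (hL u hu)
          · exact absurd h.1 (hL w hw)
        · exact fun h => Or.inl ⟨hL u hu, hL w hw, h⟩
      refine ⟨h1, ?_, ?_⟩
      · intro A hA hA0 hA1
        obtain ⟨p, hp, q, hq, hqA, hpq⟩ := h2 A hA hA0 hA1
        exact ⟨p, hp, q, hq, hqA, (adj p (hA hp) q hq).2 hpq⟩
      · intro w hw
        have e : lk G₁ (lk G W v) w = lk G (lk G W v) w := by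
          ext u
          rw [mlk (G := G₁), mlk (W := lk G W v)]
          exact and_congr_right fun hu => adj w hw u hu
        rw [e]
        refine ⟨(h3 w hw).1, fun p hp q hq hpq => (h3 w hw).2 p hp q hq ?_⟩
        exact (adj p (mlk.1 hp).1 q (mlk.1 hq).1).1 hpq
    · subst h
      exact la hN hcut hy hC hW'
    · subst h
      exact la hN (cut_rot hcut) hy (cone_rot hC) (fun u => by rw [hW']; tauto)
    · subst h
      exact la hN (cut_rot (cut_rot hcut)) hy (cone_rot (cone_rot hC)) (fun u => by rw [hW']; tauto)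
    · subst h
      exact la hN (cut_rot (cut_rot (cut_rot hcut))) hy (cone_rot (cone_rot (cone_rot hC)))
        (fun u => by rw [hW']; tauto)

end Pool.Agent.Helper39K9.FV.K
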