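import Pool.Agent.Helper39K9.FV.StmK

/-!
# The degrees after cutting along a square
-/

set_option autoImplicit false

namespace Pool.Agent.Helper39K9.FV.K

open Pool.Agent.W497.FS (NP SConn lk mem_lk)

namespace CutL

variable {V : Type} [DecidableEq V] {G G₁ : SimpleGraph V} {W X Y : Finset V} {a b c d y : V}

theorem sum_sq (h : Cut G W X Y a b c d) (f : V → ℕ) :
    ∑ q ∈ ({a, b, c, d} : Finset V), f q = f a + f b + f c + f d := by
  have h1 : a ≠ b := h.ab.ne
  have h2 : b ≠ c := h.bc.ne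
  have h3 : c ≠ d := h.cd.ne
  have h4 : a ≠ d := h.da.ne.symm
  rw [Finset.sum_insert (by simp [h1, h.nac, h4]), Finset.sum_insert (by simp [h2, h.nbd]),
    Finset.sum_insert (by simp [h3]), Finset.sum_singleton]
  ring

theorem two {q u v u' : V} {S : Finset V} (hS : ∀ x, x ∈ S ↔ x = q ∨ x = u ∨ x = v ∨ x = u')
    (h1 : G.Adj q u) (h2 : G.Adj q u') (h3 : ¬ G.Adj q v) (hne : u ≠ u') : (lk G S q).card = 2 := by
  have h : lk G S q = {u, u'} := by
    ext x
    rw [mem_lk, hS, Finset.mem_insert, Finset.mem_singleton]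
    constructor
    · rintro ⟨hx | hx | hx | hx, hadj⟩
      · rw [hx] at hadj
        exact (G.ne_of_adj hadj rfl).elim
      · exact Or.inl hx
      · rw [hx] at hadj
        exact absurd hadj h3
      · exact Or.inr hx
    · rintro (hx | hx)
      · rw [hx]
        exact ⟨by simp, h1⟩
      · rw [hx]
        exact ⟨by simp, h2⟩
  rw [h, Finset.card_pair hne]

theorem lk_sq (h : Cut G W X Y a b c d) :
    (lk G ({a, b, c, d} : Finset V) a).card = 2 ∧ (lk G ({a, b, c, d} : Finset V) b).card = 2 ∧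
    (lk G ({a, b, c, d} : Finset V) c).card = 2 ∧ (lk G ({a, b, c, d} : Finset V) d).card = 2 := by
  refine ⟨two (u := b) (v := c) (u' := d) ?_ h.ab h.da.symm h.ac h.nbd,
    two (u := a) (v := d) (u' := c) ?_ h.ab.symm h.bc h.bd h.nac,
    two (u := b) (v := a) (u' := d) ?_ h.bc.symm h.cd (fun e => h.ac e.symm) h.nbd,
    two (u := a) (v := b) (u' := c) ?_ h.da h.cd.symm (fun e => h.bd e.symm) h.nac⟩ <;>
  · intro x
    simp only [Finset.mem_insert, Finset.mem_singleton]
    try tauto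

theorem mem_sq {x : V} : x ∈ ({a, b, c, d} : Finset V) ↔ x = a ∨ x = b ∨ x = c ∨ x = d := by
  simp only [Finset.mem_insert, Finset.mem_singleton]

theorem W_eq (h : Cut G W X Y a b c d) : W = X ∪ (Y ∪ {a, b, c, d}) := by
  have ha := h.ha
  have hb := h.hb
  have hc := h.hc
  have hd := h.hd
  ext x
  have h1 := h.un x
  rw [Finset.mem_union, Finset.mem_union, mem_sq]
  constructor
  · intro hx
    by_cases h2 : x ≠ a ∧ x ≠ b ∧ x ≠ c ∧ x ≠ d
    · have := h1.2 ⟨hx, h2⟩
      tauto
    · tauto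
  · rintro (hx | hx | hx | hx | hx | hx)
    · exact (h1.1 (Or.inl hx)).1
    · exact (h1.1 (Or.inr hx)).1
    · rw [hx]; exact ha
    · rw [hx]; exact hb
    · rw [hx]; exact hc
    · rw [hx]; exact hd

theorem disj_X (h : Cut G W X Y a b c d) : Disjoint X ({a, b, c, d} : Finset V) := by
  rw [Finset.disjoint_left]
  intro x hx hx2
  have h1 := (h.un x).1 (Or.inl hx)
  rw [mem_sq] at hx2
  tauto

theorem disj_Y (h : Cut G W X Y a b c d) : Disjoint Y ({a, b, c, d} : Finset V) := by
  rw [Finset.disjoint_left]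
  intro x hx hx2
  have h1 := (h.un x).1 (Or.inr hx)
  rw [mem_sq] at hx2
  tauto

theorem lk_union (A B : Finset V) (q : V) : lk G (A ∪ B) q = lk G A q ∪ lk G B q := by
  ext x
  rw [Finset.mem_union, mem_lk, mem_lk, mem_lk, Finset.mem_union]
  tauto

omit [DecidableEq V] in
theorem lk_subset (A : Finset V) (q : V) : lk G A q ⊆ A := fun _ hx => (mem_lk.1 hx).1

theorem lk_card (A B : Finset V) (q : V) (h : Disjoint A B) :
    (lk G (A ∪ B) q).card = (lk G A q).card + (lk G B q).card := by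
  rw [lk_union, Finset.card_union_of_disjoint]
  exact h.mono (lk_subset A q) (lk_subset B q)

end CutL

open CutL

theorem cut : S_CUT := by
  intro V _ G W X Y a b c d _ h
  have hXY : Disjoint X (Y ∪ {a, b, c, d}) := by
    rw [Finset.disjoint_union_right]
    exact ⟨h.dj, disj_X h⟩
  have hq : ∀ q, (lk G W q).card =
      (lk G X q).card + ((lk G Y q).card + (lk G ({a, b, c, d} : Finset V) q).card) := by
    intro q
    conv_lhs => rw [W_eq h]
    rw [lk_card _ _ _ hXY, lk_card _ _ _ (disj_Y h)]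
  have h1 : dg G W = ∑ v ∈ X, (lk G W v).card + (∑ v ∈ Y, (lk G W v).card +
      ∑ v ∈ ({a, b, c, d} : Finset V), (lk G W v).card) := by
    rw [← Finset.sum_union (disj_Y h), ← Finset.sum_union hXY, ← W_eq h]
    rfl
  obtain ⟨e1, e2, e3, e4⟩ := lk_sq h
  rw [h1, sum_sq h, sum_sq h, sum_sq h, hq a, hq b, hq c, hq d, e1, e2, e3, e4]
  ring

theorem cus : S_CUS := by
  intro V _ G G₁ W X Y a b c d y _ h hy hG
  have hysq : y ∉ ({a, b, c, d} : Finset V) := Finset.disjoint_left.1 (disj_Y h) hy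
  have hyX : y ∉ X := fun hx => Finset.disjoint_left.1 h.dj hx hy
  have hyX2 : y ∉ X ∪ {a, b, c, d} := by
    rw [Finset.mem_union]
    tauto
  have hXs := disj_X h
  have h1 : dg G₁ (insert y (X ∪ {a, b, c, d})) =
      (lk G₁ (insert y (X ∪ {a, b, c, d})) y).card +
        (∑ v ∈ X, (lk G₁ (insert y (X ∪ {a, b, c, d})) v).card +
        ∑ v ∈ ({a, b, c, d} : Finset V), (lk G₁ (insert y (X ∪ {a, b, c, d})) v).card) := by
    unfold dg
    rw [Finset.sum_insert hyX2, Finset.sum_union hXs]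
  -- the new vertex
  have h2 : (lk G₁ (insert y (X ∪ {a, b, c, d})) y).card = 4 := by
    have h3 : lk G₁ (insert y (X ∪ {a, b, c, d})) y = {a, b, c, d} := by
      ext x
      rw [mem_lk, hG, mem_sq, Finset.mem_insert, Finset.mem_union, mem_sq]
      rw [mem_sq] at hysq
      constructor
      · rintro ⟨-, h4 | h4 | h4⟩
        · exact absurd rfl h4.1
        · exact h4.2
        · exact absurd h4.2 hysq
      · intro hx
        exact ⟨Or.inr (Or.inr hx), Or.inr (Or.inl ⟨rfl, hx⟩)⟩
    rw [h3]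
    have h5 := sum_sq h (fun _ => 1)
    rw [Finset.sum_const, smul_eq_mul, mul_one] at h5
    exact h5
  -- the old vertices
  have h3 : ∀ v ∈ X, (lk G₁ (insert y (X ∪ {a, b, c, d})) v).card = (lk G W v).card := by
    intro v hv
    have hvs : ¬ (v = a ∨ v = b ∨ v = c ∨ v = d) := by
      rw [← mem_sq]
      exact Finset.disjoint_left.1 hXs hv
    have hvy : v ≠ y := fun e => hyX (e ▸ hv)
    congr 1
    ext x
    rw [mem_lk, mem_lk, hG, Finset.mem_insert, Finset.mem_union, mem_sq, W_eq h, Finset.mem_union,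
      Finset.mem_union, mem_sq]
    constructor
    · rintro ⟨h4, h5 | h5 | h5⟩
      · refine ⟨?_, h5.2.2⟩
        rcases h4 with h4 | h4 | h4
        · exact absurd h4 h5.2.1
        · exact Or.inl h4
        · exact Or.inr (Or.inr h4)
      · exact absurd h5.1 hvy
      · exact absurd h5.2 hvs
    · rintro ⟨h4, h5⟩
      have hxY : x ∉ Y := fun hx => h.no v hv x hx h5
      have hxy : x ≠ y := fun e => hxY (e ▸ hy)
      refine ⟨?_, Or.inl ⟨hvy, hxy, h5⟩⟩
      rcases h4 with h4 | h4 | h4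
      · exact Or.inr (Or.inl h4)
      · exact absurd h4 hxY
      · exact Or.inr (Or.inr h4)
  -- the vertices of the square
  have h4 : ∀ q ∈ ({a, b, c, d} : Finset V), (lk G₁ (insert y (X ∪ {a, b, c, d})) q).card =
      1 + ((lk G X q).card + (lk G ({a, b, c, d} : Finset V) q).card) := by
    intro q hq
    have hqy : q ≠ y := fun e => hysq (e ▸ hq)
    have h5 : lk G₁ (insert y (X ∪ {a, b, c, d})) q = insert y (lk G (X ∪ {a, b, c, d}) q) := by
      ext x
      rw [mem_lk, hG, Finset.mem_insert, Finset.mem_insert, mem_lk]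
      rw [mem_sq] at hq
      constructor
      · rintro ⟨h6, h7 | h7 | h7⟩
        · rcases h6 with h6 | h6
          · exact Or.inl h6
          · exact Or.inr ⟨h6, h7.2.2⟩
        · exact absurd h7.1 hqy
        · exact Or.inl h7.1
      · rintro (h6 | h6)
        · exact ⟨Or.inl h6, Or.inr (Or.inr ⟨h6, hq⟩)⟩
        · exact ⟨Or.inr h6.1, Or.inl ⟨hqy, fun e => hyX2 (e ▸ h6.1), h6.2⟩⟩
    rw [h5, Finset.card_insert_of_notMem (fun hx => hyX2 (mem_lk.1 hx).1), lk_card _ _ _ hXs]
    ring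
  obtain ⟨e1, e2, e3, e4⟩ := lk_sq h
  rw [h1, h2, Finset.sum_congr rfl h3, Finset.sum_congr rfl h4, sum_sq h, sum_sq h, e1, e2, e3, e4]
  ring

end Pool.Agent.Helper39K9.FV.K
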