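import Pool.Agent.R782.Bal.ClassDef
import Pool.Agent.W497.FS.Formula2

/-!
# Flag homology spheres with few vertices: definitions

The full subcomplexes of a flag complex (the cliques of the graph `G`) are given by finite sets `W`
of vertices. `QQ b G W` says that the full subcomplex on `W` is in the class `SQ b`.
-/

set_option autoImplicit false

namespace Pool.Agent.Helper39K9.FV

open Pool.Agent.R782.Bal (SQ)
open Pool.Agent.W497.FS (NP Prm lk lkF nn cl comps Full)

/-- the full subcomplex on `W` is in the class `SQ b` -/
def QQ (b : ℕ) {V : Type} (G : SimpleGraph V) (W : Finset V) : Prop :=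
  SQ b (G.induce (W : Set V))

/-- the join factor `C` (a component of the complement of `G`) is small: it has no simplex with
three vertices (it is a circle or two points), or it contains a simplex with `e` vertices, where
`|C| ≤ 3 e - 1`, or `|C| ≤ 3 e` and `|C| ≤ 12` -/
def Sm {V : Type} (G : SimpleGraph V) (W C : Finset V) : Prop :=
  (∀ F ∈ cl G W, F ⊆ C → F.card ≤ 2) ∨
  ∃ F ∈ cl G W, F ⊆ C ∧ (C.card + 1 ≤ 3 * F.card ∨ (C.card ≤ 3 * F.card ∧ C.card ≤ 12))

end Pool.Agent.Helper39K9.FV
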