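import Pool.Agent.Helper39K9.FV.Stm

/-!
# EMP: the empty complex and a point
-/

set_option autoImplicit false

namespace Pool.Agent.Helper39K9.FV

open Pool.Agent.R782.Bal (SQ BR)
open Pool.Agent.R781.VS (AR)
open Pool.Agent.TH652.Above (AQ)

namespace EmpL

theorem empty {V : Type} [IsEmpty V] (G : SimpleGraph V) : SQ 1 G := by
  have h : SQ (0 / 2 + 1) ((⊥ : SimpleGraph Unit).induce (∅ : Set Unit)) :=
    SQ.br _ (BR.ar _ (AR.aq _ (AQ.full _ _ AQ.point)))
  have : IsEmpty ((∅ : Set Unit) : Type) := by
    constructor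
    rintro ⟨x, hx⟩
    exact hx
  refine SQ.iso _ G ⟨⟨Equiv.equivOfIsEmpty _ _, ?_⟩⟩ h
  intro a
  exact this.elim a

theorem point {V : Type} [Unique V] (G : SimpleGraph V) : SQ 1 G := by
  have h : SQ (0 / 2 + 1) (⊥ : SimpleGraph Unit) :=
    SQ.br _ (BR.ar _ (AR.aq _ AQ.point))
  refine SQ.iso _ G ⟨⟨Equiv.ofUnique _ _, ?_⟩⟩ h
  intro a b
  constructor
  · intro hab
    exact absurd (Subsingleton.elim _ _) hab.ne
  · intro hab
    exact absurd (Subsingleton.elim _ _) hab.ne

end EmpL

theorem emp : S_EMP := by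
  intro V G
  constructor
  · have : IsEmpty (((∅ : Finset V) : Set V) : Type) := by
      constructor
      rintro ⟨x, hx⟩
      simp at hx
    exact EmpL.empty _
  · intro x
    have : Unique ((({x} : Finset V) : Set V) : Type) :=
      { default := ⟨x, by simp⟩
        uniq := by
          rintro ⟨y, hy⟩
          have hy' : y = x := by simpa using hy
          subst hy'
          rfl }
    exact EmpL.point _

end Pool.Agent.Helper39K9.FV
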