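import Pool.Agent.Helper39K9.FV.StmK
import Pool.Agent.W497.FS.Formula2

/-!
# The Euler relation by degrees
-/

set_option autoImplicit false

namespace Pool.Agent.Helper39K9.FV.K

open Pool.Agent.W497.FS (NP Prm SConn lk lkF nn cl comps Full Eul)

namespace EuL

variable {V : Type} [DecidableEq V] {G : SimpleGraph V}

/-- the number of the cliques with `k` vertices -/
noncomputable def ct (G : SimpleGraph V) (W : Finset V) (k : ℕ) : ℤ :=
  ∑ σ ∈ cl G W, if σ.card = k then 1 else 0

theorem sum_lk (W : Finset V) (g : ℕ → ℤ) :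
    ∑ v ∈ W, ∑ ρ ∈ cl G (lk G W v), g (ρ.card + 1) = ∑ σ ∈ cl G W, (σ.card : ℤ) * g σ.card := by
  have h1 : ∀ v ∈ W, ∑ ρ ∈ cl G (lk G W v), g (ρ.card + 1) =
      ∑ σ ∈ (cl G W).filter (fun σ => {v} ⊆ σ), g σ.card := by
    intro v hv
    rw [Pool.Agent.W497.FS.sum_sup (Pool.Agent.W497.FS.singleton_mem_cl hv),
      Pool.Agent.W497.FS.lkF_singleton, Finset.card_singleton]
  rw [Finset.sum_congr rfl h1]
  simp only [Finset.sum_filter]
  rw [Finset.sum_comm]
  refine Finset.sum_congr rfl fun σ hσ => ?_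
  have hσW : σ ⊆ W := (Pool.Agent.W497.FS.mem_cl.1 hσ).1
  simp only [Finset.singleton_subset_iff]
  rw [Finset.sum_ite_mem, Finset.inter_eq_right.2 hσW, Finset.sum_const, nsmul_eq_mul]

theorem ct_zero (W : Finset V) : ct G W 0 = 1 := by
  unfold ct
  rw [Finset.sum_eq_single (∅ : Finset V)]
  · simp
  · intro σ _ hne
    rw [if_neg]
    exact fun h => hne (Finset.card_eq_zero.1 h)
  · intro h
    exact absurd Pool.Agent.W497.FS.empty_mem_cl h

theorem ct_succ (W : Finset V) (k : ℕ) :
    ∑ v ∈ W, ct G (lk G W v) k = ((k : ℤ) + 1) * ct G W (k + 1) := by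
  have h := sum_lk (G := G) W (fun j => if j = k + 1 then 1 else 0)
  unfold ct
  simp only [Nat.add_right_cancel_iff] at h
  rw [h, Finset.mul_sum]
  refine Finset.sum_congr rfl fun σ _ => ?_
  by_cases hc : σ.card = k + 1
  · rw [if_pos hc, hc]
    push_cast
    ring
  · rw [if_neg hc, mul_zero, mul_zero]

theorem ct_one (W : Finset V) : ct G W 1 = W.card := by
  have h := ct_succ (G := G) W 0
  simp only [ct_zero, Finset.sum_const, nsmul_eq_mul, mul_one, Nat.cast_zero, zero_add,
    one_mul] at h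
  exact h.symm

theorem ct_two (W : Finset V) : (dg G W : ℤ) = 2 * ct G W 2 := by
  have h := ct_succ (G := G) W 1
  simp only [ct_one] at h
  unfold dg
  push_cast
  rw [h]
  norm_num

end EuL

open EuL in
theorem eu : S_EU := by
  intro V _ G W hW hE
  have hW' := npe.1 hW
  -- the links are cycles
  have h2 : ∀ v ∈ W, ct G (lk G W v) 2 = (lk G W v).card := by
    intro v hv
    have h3 := ct_two (G := G) (lk G W v)
    have h4 : dg G (lk G W v) = 2 * (lk G W v).card := by
      unfold dg
      rw [Finset.sum_congr rfl fun w hw => ((hW'.2.2 v hv).2.2 w hw).1, Finset.sum_const,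
        smul_eq_mul, mul_comm]
    rw [h4] at h3
    push_cast at h3
    linarith
  have h3 : (dg G W : ℤ) = 3 * ct G W 3 := by
    have h := ct_succ (G := G) W 2
    rw [Finset.sum_congr rfl h2] at h
    unfold dg
    push_cast at h ⊢
    rw [h]
  have h4 := ct_two (G := G) W
  have h5 : ∑ σ ∈ cl G W, (-1 : ℤ) ^ σ.card = ct G W 0 - ct G W 1 + ct G W 2 - ct G W 3 := by
    unfold ct
    rw [← Finset.sum_sub_distrib, ← Finset.sum_add_distrib, ← Finset.sum_sub_distrib]
    refine Finset.sum_congr rfl fun σ hσ => ?_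
    have h6 : σ.card ≤ 3 := Pool.Agent.W497.FS.NP.card_le hW hσ
    interval_cases σ.card <;> norm_num
  rw [ct_zero, ct_one, hE] at h5
  have h6 : (dg G W : ℤ) + 12 = 6 * (W.card : ℤ) := by linarith
  exact_mod_cast h6

end Pool.Agent.Helper39K9.FV.K
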