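import Pool.Agent.Helper39K9.FV.StmL

/-!
# [EUC] contraction of an edge preserves Eulerian flag complexes

For a set `ρ` of vertices different from `s`, `t`: the set `{s} ∪ ρ` is a clique of the contraction of `st` if and only if
`{s} ∪ ρ` or `{t} ∪ ρ` is a clique of the graph; then inclusion and exclusion.
-/

set_option autoImplicit false
set_option linter.unusedSectionVars false

namespace Pool.Agent.Helper39K9.FV.K

open Pool.Agent.W497.FS (cl Eul)
open Pool.Agent.R781.VS (con)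

namespace EucL

/-- `τ` is a clique -/
def Q {V : Type} (G : SimpleGraph V) (τ : Finset V) : Prop := ∀ x ∈ τ, ∀ y ∈ τ, x ≠ y → G.Adj x y

/-- `ρ` is a clique of neighbours of `s` -/
def A {V : Type} (G : SimpleGraph V) (s : V) (ρ : Finset V) : Prop := Q G ρ ∧ ∀ y ∈ ρ, G.Adj s y

open Classical in
/-- the alternating sum over the sets between `κ` and `U` with the property `p` -/
noncomputable def Alt {V : Type} (U κ : Finset V) (p : Finset V → Prop) : ℤ :=
  ∑ ρ ∈ U.powerset, if κ ⊆ ρ ∧ p ρ then (-1 : ℤ) ^ ρ.card else 0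

section
variable {V : Type} {G : SimpleGraph V} {s t : V} {U κ ρ : Finset V}

theorem eul_iff_Alt {d : ℕ} {W : Finset V} :
    Eul G d W ↔ ∀ σ ⊆ W, Q G σ → Alt W σ (Q G) = (-1) ^ d := by
  classical
  have h2 : ∀ σ, σ ∈ cl G W ↔ σ ⊆ W ∧ Q G σ := fun σ => Pool.Agent.W497.FS.mem_cl
  have h1 : ∀ σ, ∑ τ ∈ (cl G W).filter (fun τ => σ ⊆ τ), (-1 : ℤ) ^ τ.card = Alt W σ (Q G) := by
    intro σ
    have h3 : (cl G W).filter (fun τ => σ ⊆ τ) = W.powerset.filter (fun τ => σ ⊆ τ ∧ Q G τ) := by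
      ext τ
      rw [Finset.mem_filter, Finset.mem_filter, h2, Finset.mem_powerset]
      tauto
    rw [h3, Finset.sum_filter]
    unfold Alt
    refine Finset.sum_congr rfl fun ρ _ => ?_
    by_cases h4 : σ ⊆ ρ ∧ Q G ρ
    · rw [if_pos h4]
    · rw [if_neg h4]
  constructor
  · intro h σ hσ hQ
    have h3 := h σ ((h2 σ).2 ⟨hσ, hQ⟩)
    rw [← h1, ← h3]
  · intro h σ hσ
    have h3 := h σ ((h2 σ).1 hσ).1 ((h2 σ).1 hσ).2
    rw [← h1] at h3
    rw [← h3]

theorem Alt_insert [DecidableEq V] {x : V} (hx : x ∉ U) (σ : Finset V) (p : Finset V → Prop) :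
    Alt (insert x U) σ p = Alt U σ p - Alt U (σ.erase x) (fun ρ => p (insert x ρ)) := by
  classical
  unfold Alt
  rw [Finset.sum_powerset_insert hx, sub_eq_add_neg, ← Finset.sum_neg_distrib]
  congr 1
  refine Finset.sum_congr rfl fun ρ hρ => ?_
  have hxρ : x ∉ ρ := fun h => hx (Finset.mem_powerset.1 hρ h)
  have h1 : σ ⊆ insert x ρ ↔ σ.erase x ⊆ ρ := by
    rw [Finset.subset_insert_iff]
  by_cases h2 : σ.erase x ⊆ ρ ∧ p (insert x ρ)
  · rw [if_pos h2, if_pos ⟨h1.2 h2.1, h2.2⟩, Finset.card_insert_of_notMem hxρ, pow_succ]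
    ring
  · rw [if_neg h2, if_neg, neg_zero]
    rintro ⟨h3, h4⟩
    exact h2 ⟨h1.1 h3, h4⟩

theorem Alt_congr {p p' : Finset V → Prop} (h : ∀ ρ, ρ ⊆ U → (p ρ ↔ p' ρ)) :
    Alt U κ p = Alt U κ p' := by
  classical
  unfold Alt
  refine Finset.sum_congr rfl fun ρ hρ => ?_
  have h1 := h ρ (Finset.mem_powerset.1 hρ)
  by_cases h2 : p ρ
  · have h3 := h1.1 h2
    by_cases h4 : κ ⊆ ρ
    · rw [if_pos ⟨h4, h2⟩, if_pos ⟨h4, h3⟩]
    · rw [if_neg (fun h => h4 h.1), if_neg (fun h => h4 h.1)]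
  · have h3 : ¬ p' ρ := fun h => h2 (h1.2 h)
    rw [if_neg (fun h => h2 h.2), if_neg (fun h => h3 h.2)]

theorem Alt_zero {p : Finset V → Prop} (h : ∀ ρ, ρ ⊆ U → κ ⊆ ρ → ¬ p ρ) : Alt U κ p = 0 := by
  classical
  unfold Alt
  refine Finset.sum_eq_zero fun ρ hρ => if_neg ?_
  rintro ⟨h1, h2⟩
  exact h ρ (Finset.mem_powerset.1 hρ) h1 h2

theorem Alt_notMem {x : V} (hx : x ∉ U) (hκ : x ∈ κ) (p : Finset V → Prop) : Alt U κ p = 0 :=
  Alt_zero fun _ hρ hκρ _ => hx (hρ (hκρ hκ))

theorem Alt_or (p p' : Finset V → Prop) :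
    Alt U κ (fun ρ => p ρ ∨ p' ρ) = Alt U κ p + Alt U κ p' - Alt U κ (fun ρ => p ρ ∧ p' ρ) := by
  classical
  unfold Alt
  rw [← Finset.sum_add_distrib, ← Finset.sum_sub_distrib]
  refine Finset.sum_congr rfl fun ρ _ => ?_
  by_cases h1 : κ ⊆ ρ <;> by_cases h2 : p ρ <;> by_cases h3 : p' ρ <;> simp [h1, h2, h3]

theorem Q_insert [DecidableEq V] {x : V} (hx : x ∉ ρ) : Q G (insert x ρ) ↔ A G x ρ := by
  constructor
  · intro h
    refine ⟨fun a ha b hb hab => h a (Finset.mem_insert_of_mem ha) b (Finset.mem_insert_of_mem hb) hab,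
      fun y hy => h x (Finset.mem_insert_self _ _) y (Finset.mem_insert_of_mem hy) ?_⟩
    rintro rfl
    exact hx hy
  · rintro ⟨h1, h2⟩ a ha b hb hab
    rcases Finset.mem_insert.1 ha with ha1 | ha1 <;> rcases Finset.mem_insert.1 hb with hb1 | hb1
    · exact absurd (ha1.trans hb1.symm) hab
    · rw [ha1]; exact h2 b hb1
    · rw [hb1]; exact (h2 a ha1).symm
    · exact h1 a ha1 b hb1 hab

theorem A_mono {ρ' : Finset V} (h : ρ' ⊆ ρ) (hA : A G s ρ) : A G s ρ' :=
  ⟨fun a ha b hb hab => hA.1 a (h ha) b (h hb) hab, fun y hy => hA.2 y (h hy)⟩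

end

end EucL

open EucL in
theorem euc : S_EUC := by
  intro V _ G r W s t hE hs ht hst hNS
  classical
  have hne : s ≠ t := hst.ne
  -- `W = {s, t} ∪ U`
  set U := (W.erase t).erase s with hU
  have hsU : s ∉ U := Finset.notMem_erase _ _
  have htU : t ∉ U := fun h => Finset.notMem_erase t W (Finset.mem_of_mem_erase h)
  have hW' : W.erase t = insert s U := by
    rw [hU, Finset.insert_erase (Finset.mem_erase.2 ⟨hne, hs⟩)]
  have hW : W = insert t (insert s U) := by
    rw [← hW', Finset.insert_erase ht]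
  have htU' : t ∉ insert s U := by
    rw [Finset.mem_insert]
    rintro (h | h)
    · exact hne h.symm
    · exact htU h
  have hUW : U ⊆ W := fun x hx => Finset.mem_of_mem_erase (Finset.mem_of_mem_erase hx)
  rw [eul_iff_Alt] at hE
  rw [eul_iff_Alt]
  -- the cliques
  have hqs : ∀ ρ, ρ ⊆ U → (Q G (insert s ρ) ↔ A G s ρ) := fun ρ hρ =>
    Q_insert fun h => hsU (hρ h)
  have hqt : ∀ ρ, ρ ⊆ U → (Q G (insert t ρ) ↔ A G t ρ) := fun ρ hρ =>
    Q_insert fun h => htU (hρ h)
  have hqst : ∀ ρ, ρ ⊆ U → (Q G (insert t (insert s ρ)) ↔ A G s ρ ∧ A G t ρ) := by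
    intro ρ hρ
    have h1 : t ∉ insert s ρ := fun h => htU' (Finset.insert_subset_insert _ hρ h)
    rw [Q_insert h1]
    constructor
    · rintro ⟨h2, h3⟩
      have h4 := (hqs ρ hρ).1 h2
      exact ⟨h4, h4.1, fun y hy => h3 y (Finset.mem_insert_of_mem hy)⟩
    · rintro ⟨h2, h3⟩
      refine ⟨(hqs ρ hρ).2 h2, fun y hy => ?_⟩
      rcases Finset.mem_insert.1 hy with rfl | hy
      · exact hst.symm
      · exact h3.2 y hy
  have hcq : ∀ ρ, ρ ⊆ U → (Q (con G s t) ρ ↔ Q G ρ) := by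
    intro ρ hρ
    constructor
    · intro h x hx y hy hxy
      rcases (h x hx y hy hxy).2.2.2 with h1 | h1 | h1
      · exact h1
      · exact absurd (hρ (h1.1 ▸ hx)) hsU
      · exact absurd (hρ (h1.1 ▸ hy)) hsU
    · intro h x hx y hy hxy
      exact ⟨hxy, fun e => htU (hρ (e ▸ hx)), fun e => htU (hρ (e ▸ hy)), Or.inl (h x hx y hy hxy)⟩
  have hcs : ∀ ρ, ρ ⊆ U → (Q (con G s t) (insert s ρ) ↔ A G s ρ ∨ A G t ρ) := by
    intro ρ hρ
    have hsρ : s ∉ ρ := fun h => hsU (hρ h)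
    rw [Q_insert hsρ]
    constructor
    · rintro ⟨h1, h2⟩
      have h1' := (hcq ρ hρ).1 h1
      have h3 : ∀ y ∈ ρ, G.Adj s y ∨ G.Adj t y := by
        intro y hy
        rcases (h2 y hy).2.2.2 with h4 | h4 | h4
        · exact Or.inl h4
        · exact Or.inr h4.2
        · exact absurd (h4.1 ▸ hy) hsρ
      by_contra hcon
      push Not at hcon
      obtain ⟨hc1, hc2⟩ := hcon
      have h5 : ∃ p ∈ ρ, ¬ G.Adj s p := by
        by_contra h6
        push Not at h6
        exact hc1 ⟨h1', h6⟩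
      have h7 : ∃ q ∈ ρ, ¬ G.Adj t q := by
        by_contra h6
        push Not at h6
        exact hc2 ⟨h1', h6⟩
      obtain ⟨q, hq, hq1⟩ := h5
      obtain ⟨p, hp, hp1⟩ := h7
      have hp2 : G.Adj s p := (h3 p hp).resolve_right hp1
      have hq2 : G.Adj t q := (h3 q hq).resolve_left hq1
      have hpq : p ≠ q := by
        rintro rfl
        exact hq1 hp2
      have hpt : p ≠ t := fun h => htU (hρ (h ▸ hp))
      have hqs' : q ≠ s := fun h => hsU (hρ (h ▸ hq))
      exact hNS p (hUW (hρ hp)) q (hUW (hρ hq)) hp2 hp1 hpt hq2 hq1 hqs' (h1' p hp q hq hpq)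
    · intro h
      have h1' : Q G ρ := by
        rcases h with h | h
        · exact h.1
        · exact h.1
      refine ⟨(hcq ρ hρ).2 h1', fun y hy => ?_⟩
      refine ⟨fun e => hsρ (e ▸ hy), hne, fun e => htU (hρ (e ▸ hy)), ?_⟩
      rcases h with h | h
      · exact Or.inl (h.2 y hy)
      · exact Or.inr (Or.inl ⟨rfl, h.2 y hy⟩)
  -- the sums over `W`
  have key : ∀ σ : Finset V, Alt W σ (Q G) =
      (Alt U σ (Q G) - Alt U (σ.erase s) (A G s)) -
        (Alt U (σ.erase t) (A G t) - Alt U ((σ.erase t).erase s) (fun ρ => A G s ρ ∧ A G t ρ)) := by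
    intro σ
    rw [hW, Alt_insert htU', Alt_insert hsU, Alt_insert hsU]
    congr 1
    · congr 1
      exact Alt_congr hqs
    · congr 1
      · exact Alt_congr hqt
      · exact Alt_congr hqst
  have key' : ∀ σ : Finset V, Alt (W.erase t) σ (Q (con G s t)) =
      Alt U σ (Q G) - Alt U (σ.erase s) (fun ρ => A G s ρ ∨ A G t ρ) := by
    intro σ
    rw [hW', Alt_insert hsU]
    congr 1
    · exact Alt_congr hcq
    · exact Alt_congr hcs
  intro σ hσ hQσ
  rw [key', Alt_or]
  by_cases hsσ : s ∈ σ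
  · -- `σ = {s} ∪ κ`
    set κ := σ.erase s with hκ
    have hκU : κ ⊆ U := by
      intro x hx
      have h1 := hσ (Finset.mem_of_mem_erase hx)
      exact Finset.mem_erase.2 ⟨Finset.ne_of_mem_erase hx, h1⟩
    have hσκ : σ = insert s κ := (Finset.insert_erase hsσ).symm
    have hsκ : s ∉ κ := Finset.notMem_erase _ _
    have htκ : t ∉ κ := fun h => htU (hκU h)
    have hAB : A G s κ ∨ A G t κ := (hcs κ hκU).1 (by rw [← hσκ]; exact hQσ)
    rw [Alt_notMem hsU hsσ]
    have e2 : A G s κ → - Alt U κ (A G s) + Alt U κ (fun ρ => A G s ρ ∧ A G t ρ) = (-1) ^ r := by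
      intro hA
      have h1 := hE (insert s κ) (Finset.insert_subset hs (hκU.trans hUW)) ((hqs κ hκU).2 hA)
      have h2 : t ∉ insert s κ := by
        rw [Finset.mem_insert]
        rintro (h | h)
        · exact hne h.symm
        · exact htκ h
      rw [key, Finset.erase_insert hsκ, Finset.erase_eq_of_notMem h2, Finset.erase_insert hsκ,
        Alt_notMem hsU (Finset.mem_insert_self s κ), Alt_notMem hsU (Finset.mem_insert_self s κ)] at h1
      rw [← h1]
      ring
    have e3 : A G t κ → - Alt U κ (A G t) + Alt U κ (fun ρ => A G s ρ ∧ A G t ρ) = (-1) ^ r := by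
      intro hA
      have h1 := hE (insert t κ) (Finset.insert_subset ht (hκU.trans hUW)) ((hqt κ hκU).2 hA)
      have h2 : s ∉ insert t κ := by
        rw [Finset.mem_insert]
        rintro (h | h)
        · exact hne h
        · exact hsκ h
      rw [key, Finset.erase_insert htκ, Finset.erase_eq_of_notMem h2,
        Finset.erase_eq_of_notMem hsκ,
        Alt_notMem htU (Finset.mem_insert_self t κ), Alt_notMem htU (Finset.mem_insert_self t κ)] at h1
      rw [← h1]
      ring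
    have e4 : A G s κ → A G t κ → Alt U κ (fun ρ => A G s ρ ∧ A G t ρ) = (-1) ^ r := by
      intro hA hB
      have h1 := hE (insert t (insert s κ))
        (Finset.insert_subset ht (Finset.insert_subset hs (hκU.trans hUW))) ((hqst κ hκU).2 ⟨hA, hB⟩)
      have h2 : t ∉ insert s κ := by
        rw [Finset.mem_insert]
        rintro (h | h)
        · exact hne h.symm
        · exact htκ h
      have h3 : t ∈ (insert t (insert s κ)).erase s :=
        Finset.mem_erase.2 ⟨hne.symm, Finset.mem_insert_self _ _⟩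
      rw [key, Finset.erase_insert h2, Finset.erase_insert hsκ,
        Alt_notMem htU (Finset.mem_insert_self t _), Alt_notMem htU h3,
        Alt_notMem hsU (Finset.mem_insert_self s κ)] at h1
      rw [← h1]
      ring
    have z1 : ¬ A G s κ → Alt U κ (A G s) = 0 ∧ Alt U κ (fun ρ => A G s ρ ∧ A G t ρ) = 0 :=
      fun h => ⟨Alt_zero fun ρ _ h1 h2 => h (A_mono h1 h2), Alt_zero fun ρ _ h1 h2 => h (A_mono h1 h2.1)⟩
    have z2 : ¬ A G t κ → Alt U κ (A G t) = 0 ∧ Alt U κ (fun ρ => A G s ρ ∧ A G t ρ) = 0 :=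
      fun h => ⟨Alt_zero fun ρ _ h1 h2 => h (A_mono h1 h2), Alt_zero fun ρ _ h1 h2 => h (A_mono h1 h2.2)⟩
    by_cases hA : A G s κ
    · by_cases hB : A G t κ
      · have h2 := e2 hA
        have h3 := e3 hB
        have h4 := e4 hA hB
        linarith
      · obtain ⟨h5, h6⟩ := z2 hB
        have h2 := e2 hA
        rw [h6] at h2
        rw [h5, h6]
        linarith
    · have hB : A G t κ := hAB.resolve_left hA
      obtain ⟨h5, h6⟩ := z1 hA
      have h3 := e3 hB
      rw [h6] at h3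
      rw [h5, h6]
      linarith
  · -- `σ ⊆ U`
    have hσU : σ ⊆ U := by
      intro x hx
      refine Finset.mem_erase.2 ⟨?_, hσ hx⟩
      rintro rfl
      exact hsσ hx
    have htσ : t ∉ σ := fun h => htU (hσU h)
    have h1 := hE σ (hσU.trans hUW) ((hcq σ hσU).1 hQσ)
    rw [key, Finset.erase_eq_of_notMem hsσ, Finset.erase_eq_of_notMem htσ,
      Finset.erase_eq_of_notMem hsσ] at h1
    rw [Finset.erase_eq_of_notMem hsσ, ← h1]
    ring

end Pool.Agent.Helper39K9.FV.K
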