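import Pool.Agent.Helper39K9.FV.StmL
import Pool.Agent.W497.FS.Formula2

/-!
Contraction of an edge which is not in an induced square: the Euler characteristic does not change.
-/

set_option autoImplicit false

namespace Pool.Agent.Helper39K9.FV.K

open Pool.Agent.W497.FS (NP Prm SConn lk lkF nn cl comps Full Eul fe mem_cl mem_lk mem_lkF)
open Pool.Agent.R781.VS (con)

namespace EucL

variable {V : Type} [DecidableEq V] {G : SimpleGraph V}

/-- the vertex `v`: the faces without `v` and the faces with `v` -/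
theorem fev (H : SimpleGraph V) {W : Finset V} {v : V} (hv : v ∈ W) :
    fe H W (-1 : ℤ) = fe H (W.erase v) (-1) - fe H (lk H W v) (-1) := by
  classical
  have hU : cl H W = cl H (W.erase v) ∪ (cl H (lk H W v)).image (fun σ => insert v σ) := by
    ext σ
    simp only [Finset.mem_union, Finset.mem_image, mem_cl]
    constructor
    · rintro ⟨h1, h2⟩
      by_cases h3 : v ∈ σ
      · right
        refine ⟨σ.erase v, ⟨fun x hx => ?_, fun x hx y hy => ?_⟩, Finset.insert_erase h3⟩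
        · obtain ⟨h4, h5⟩ := Finset.mem_erase.1 hx
          exact mem_lk.2 ⟨h1 h5, h2 v h3 x h5 (Ne.symm h4)⟩
        · exact h2 x (Finset.mem_of_mem_erase hx) y (Finset.mem_of_mem_erase hy)
      · left
        refine ⟨fun x hx => Finset.mem_erase.2 ⟨fun h => h3 (h ▸ hx), h1 hx⟩, h2⟩
    · rintro (⟨h1, h2⟩ | ⟨ρ, ⟨h1, h2⟩, rfl⟩)
      · exact ⟨fun x hx => Finset.mem_of_mem_erase (h1 hx), h2⟩
      · refine ⟨fun x hx => ?_, fun x hx y hy hxy => ?_⟩
        · rcases Finset.mem_insert.1 hx with rfl | h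
          · exact hv
          · exact (mem_lk.1 (h1 h)).1
        · rcases Finset.mem_insert.1 hx with hx1 | hx1 <;> rcases Finset.mem_insert.1 hy with hy1 | hy1
          · exact absurd (hx1.trans hy1.symm) hxy
          · rw [hx1]
            exact (mem_lk.1 (h1 hy1)).2
          · rw [hy1]
            exact (mem_lk.1 (h1 hx1)).2.symm
          · exact h2 x hx1 y hy1 hxy
  have hnv : ∀ σ ∈ cl H (lk H W v), v ∉ σ := by
    intro σ hσ hv1
    exact (mem_lk.1 ((mem_cl.1 hσ).1 hv1)).2.ne rfl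
  have hD : Disjoint (cl H (W.erase v)) ((cl H (lk H W v)).image (fun σ => insert v σ)) := by
    rw [Finset.disjoint_left]
    intro σ h1 h2
    obtain ⟨ρ, -, rfl⟩ := Finset.mem_image.1 h2
    exact absurd ((mem_cl.1 h1).1 (Finset.mem_insert_self v ρ)) (Finset.notMem_erase v W)
  have hI : ∑ σ ∈ (cl H (lk H W v)).image (fun σ => insert v σ), (-1 : ℤ) ^ σ.card =
      ∑ σ ∈ cl H (lk H W v), (-1 : ℤ) ^ (insert v σ).card := by
    refine Finset.sum_image (fun σ hσ τ hτ h => ?_)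
    have h1 := hnv σ hσ
    have h2 := hnv τ hτ
    have h3 : insert v σ = insert v τ := h
    rw [← Finset.erase_insert h1, ← Finset.erase_insert h2, h3]
  unfold fe
  rw [hU, Finset.sum_union hD, hI, sub_eq_add_neg, ← Finset.sum_neg_distrib]
  congr 1
  refine Finset.sum_congr rfl (fun σ hσ => ?_)
  rw [Finset.card_insert_of_notMem (hnv σ hσ), pow_succ]
  ring

/-- only the induced graph matters -/
theorem fec {H K : SimpleGraph V} {W : Finset V} (h : ∀ x ∈ W, ∀ y ∈ W, x ≠ y → (H.Adj x y ↔ K.Adj x y)) :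
    fe H W (-1 : ℤ) = fe K W (-1) := by
  unfold fe
  refine Finset.sum_congr ?_ (fun _ _ => rfl)
  ext σ
  rw [mem_cl, mem_cl]
  constructor
  · rintro ⟨h1, h2⟩
    exact ⟨h1, fun x hx y hy hxy => (h x (h1 hx) y (h1 hy) hxy).1 (h2 x hx y hy hxy)⟩
  · rintro ⟨h1, h2⟩
    exact ⟨h1, fun x hx y hy hxy => (h x (h1 hx) y (h1 hy) hxy).2 (h2 x hx y hy hxy)⟩

/-- no edges between `A \ B` and `B \ A` -/
theorem feu {H : SimpleGraph V} {A B : Finset V} (h : ∀ x ∈ A, x ∉ B → ∀ y ∈ B, y ∉ A → ¬ H.Adj x y) :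
    fe H (A ∪ B) (-1 : ℤ) = fe H A (-1) + fe H B (-1) - fe H (A ∩ B) (-1) := by
  classical
  have h1 : cl H (A ∪ B) = cl H A ∪ cl H B := by
    ext σ
    rw [Finset.mem_union, mem_cl, mem_cl, mem_cl]
    constructor
    · rintro ⟨h1, h2⟩
      by_cases h3 : σ ⊆ A
      · exact Or.inl ⟨h3, h2⟩
      · right
        refine ⟨fun x hx => ?_, h2⟩
        by_contra hxB
        obtain ⟨y, hy, hyA⟩ := Finset.not_subset.1 h3
        have hxA : x ∈ A := (Finset.mem_union.1 (h1 hx)).resolve_right hxB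
        have hyB : y ∈ B := (Finset.mem_union.1 (h1 hy)).resolve_left hyA
        exact h x hxA hxB y hyB hyA (h2 x hx y hy (fun h4 => hxB (h4 ▸ hyB)))
    · rintro (⟨h1, h2⟩ | ⟨h1, h2⟩)
      · exact ⟨h1.trans Finset.subset_union_left, h2⟩
      · exact ⟨h1.trans Finset.subset_union_right, h2⟩
  have h2 : cl H (A ∩ B) = cl H A ∩ cl H B := by
    ext σ
    rw [Finset.mem_inter, mem_cl, mem_cl, mem_cl]
    constructor
    · rintro ⟨h1, h2⟩
      exact ⟨⟨h1.trans Finset.inter_subset_left, h2⟩, ⟨h1.trans Finset.inter_subset_right, h2⟩⟩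
    · rintro ⟨⟨h1, h2⟩, ⟨h3, -⟩⟩
      exact ⟨Finset.subset_inter h1 h3, h2⟩
  unfold fe
  rw [h1, h2, eq_sub_iff_add_eq, Finset.sum_union_inter]

variable {s t : V}

theorem cadj {x y : V} (hx : x ≠ s) (hy : y ≠ s) (hxt : x ≠ t) (hyt : y ≠ t) :
    (con G s t).Adj x y ↔ G.Adj x y := by
  constructor
  · rintro ⟨-, h2, h3, h4 | h4 | h4⟩
    · exact h4
    · exact absurd h4.1 hx
    · exact absurd h4.1 hy
  · intro h
    exact ⟨h.ne, hxt, hyt, Or.inl h⟩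

theorem cadjs (hst : s ≠ t) {y : V} (hy : y ≠ s) (hyt : y ≠ t) :
    (con G s t).Adj s y ↔ (G.Adj s y ∨ G.Adj t y) := by
  constructor
  · rintro ⟨-, h2, h3, h4 | h4 | h4⟩
    · exact Or.inl h4
    · exact Or.inr h4.2
    · exact absurd h4.1 hy
  · rintro (h2 | h2)
    · exact ⟨hy.symm, hst, hyt, Or.inl h2⟩
    · exact ⟨hy.symm, hst, hyt, Or.inr (Or.inl ⟨rfl, h2⟩)⟩

theorem fes {W : Finset V} (hs : s ∈ W) (ht : t ∈ W) (hst : G.Adj s t)
    (hNS : NS G W s t) : fe (con G s t) (W.erase t) (-1 : ℤ) = fe G W (-1) := by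
  classical
  have hne : s ≠ t := hst.ne
  set U : Finset V := (W.erase t).erase s with hU
  have hmU : ∀ x, x ∈ U ↔ x ∈ W ∧ x ≠ s ∧ x ≠ t := by
    intro x
    rw [hU, Finset.mem_erase, Finset.mem_erase]
    tauto
  set A : Finset V := lk G U s with hA
  set B : Finset V := lk G U t with hB
  have hmA : ∀ x, x ∈ A ↔ (x ∈ W ∧ x ≠ s ∧ x ≠ t) ∧ G.Adj s x := fun x => by rw [hA, mem_lk, hmU]
  have hmB : ∀ x, x ∈ B ↔ (x ∈ W ∧ x ≠ s ∧ x ≠ t) ∧ G.Adj t x := fun x => by rw [hB, mem_lk, hmU]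
  -- the old complex
  have e1 : fe G W (-1 : ℤ) = fe G (W.erase t) (-1) - fe G (lk G W t) (-1) := fev G ht
  have e2 : fe G (W.erase t) (-1 : ℤ) = fe G U (-1) - fe G A (-1) := by
    have h1 : s ∈ W.erase t := Finset.mem_erase.2 ⟨hne, hs⟩
    rw [fev G h1]
    congr 2
    ext x
    rw [mem_lk, hmA, Finset.mem_erase]
    constructor
    · rintro ⟨⟨h2, h3⟩, h4⟩
      exact ⟨⟨h3, h4.ne.symm, h2⟩, h4⟩
    · rintro ⟨⟨h2, h3, h4⟩, h5⟩
      exact ⟨⟨h4, h2⟩, h5⟩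
  have e3 : fe G (lk G W t) (-1 : ℤ) = fe G B (-1) - fe G (A ∩ B) (-1) := by
    have h1 : s ∈ lk G W t := mem_lk.2 ⟨hs, hst.symm⟩
    rw [fev G h1]
    congr 2
    · ext x
      rw [Finset.mem_erase, mem_lk, hmB]
      constructor
      · rintro ⟨h2, h3, h4⟩
        exact ⟨⟨h3, h2, h4.ne.symm⟩, h4⟩
      · rintro ⟨⟨h2, h3, h4⟩, h5⟩
        exact ⟨h3, h2, h5⟩
    · ext x
      rw [mem_lk, mem_lk, Finset.mem_inter, hmA, hmB]
      constructor
      · rintro ⟨⟨h2, h3⟩, h4⟩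
        exact ⟨⟨⟨h2, h4.ne.symm, h3.ne.symm⟩, h4⟩, ⟨⟨h2, h4.ne.symm, h3.ne.symm⟩, h3⟩⟩
      · rintro ⟨⟨⟨h2, -, -⟩, h4⟩, ⟨-, h3⟩⟩
        exact ⟨⟨h2, h3⟩, h4⟩
  -- the new complex
  have h1 : s ∈ W.erase t := Finset.mem_erase.2 ⟨hne, hs⟩
  have e4 : fe (con G s t) (W.erase t) (-1 : ℤ) =
      fe (con G s t) U (-1) - fe (con G s t) (lk (con G s t) (W.erase t) s) (-1) := fev _ h1
  have e5 : fe (con G s t) U (-1 : ℤ) = fe G U (-1) := by
    refine fec (fun x hx y hy _ => ?_)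
    have hx1 := (hmU x).1 hx
    have hy1 := (hmU y).1 hy
    exact cadj hx1.2.1 hy1.2.1 hx1.2.2 hy1.2.2
  have e6 : lk (con G s t) (W.erase t) s = A ∪ B := by
    ext x
    rw [mem_lk, Finset.mem_erase, Finset.mem_union, hmA, hmB]
    constructor
    · rintro ⟨⟨h2, h3⟩, h4⟩
      have h5 : x ≠ s := h4.ne.symm
      rcases (cadjs hne h5 h2).1 h4 with h6 | h6
      · exact Or.inl ⟨⟨h3, h5, h2⟩, h6⟩
      · exact Or.inr ⟨⟨h3, h5, h2⟩, h6⟩
    · rintro (⟨⟨h2, h3, h4⟩, h5⟩ | ⟨⟨h2, h3, h4⟩, h5⟩)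
      · exact ⟨⟨h4, h2⟩, (cadjs hne h3 h4).2 (Or.inl h5)⟩
      · exact ⟨⟨h4, h2⟩, (cadjs hne h3 h4).2 (Or.inr h5)⟩
  have hABU : ∀ x ∈ A ∪ B, x ≠ s ∧ x ≠ t := by
    intro x hx
    rcases Finset.mem_union.1 hx with h | h
    · exact ((hmA x).1 h).1.2
    · exact ((hmB x).1 h).1.2
  have e7 : fe (con G s t) (A ∪ B) (-1 : ℤ) = fe G (A ∪ B) (-1) :=
    fec (fun x hx y hy _ => cadj (hABU x hx).1 (hABU y hy).1 (hABU x hx).2 (hABU y hy).2)
  have e8 : fe G (A ∪ B) (-1 : ℤ) = fe G A (-1) + fe G B (-1) - fe G (A ∩ B) (-1) := by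
    refine feu (fun x hx hxB y hy hyA => ?_)
    obtain ⟨⟨h2, h3, h4⟩, h5⟩ := (hmA x).1 hx
    obtain ⟨⟨g2, g3, g4⟩, g5⟩ := (hmB y).1 hy
    have h6 : ¬ G.Adj t x := fun h => hxB ((hmB x).2 ⟨⟨h2, h3, h4⟩, h⟩)
    have g6 : ¬ G.Adj s y := fun h => hyA ((hmA y).2 ⟨⟨g2, g3, g4⟩, h⟩)
    exact hNS x h2 y g2 h5 h6 h4 g5 g6 g3
  rw [e4, e5, e6, e7, e8, e1, e2, e3]
  ring

end EucL

/-- the contraction of an edge which is not in an induced square does not change the Euler characteristic -/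
theorem eucs : ∀ (V : Type) [DecidableEq V] (G : SimpleGraph V) (W : Finset V) (s t : V),
    s ∈ W → t ∈ W → G.Adj s t → NS G W s t →
    ∑ σ ∈ cl (con G s t) (W.erase t), (-1 : ℤ) ^ σ.card = ∑ σ ∈ cl G W, (-1 : ℤ) ^ σ.card := by
  intro V _ G W s t hs ht hst hNS
  exact EucL.fes hs ht hst hNS

end Pool.Agent.Helper39K9.FV.K
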