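import Pool.Agent.Helper39K9.FV.StmK
import Pool.Agent.W497.FS.Formula2

set_option autoImplicit false

/-! The leaf EUL: links of Eulerian complexes. -/

namespace Pool.Agent.Helper39K9.FV.K

open Pool.Agent.W497.FS (NP Prm SConn lk lkF nn cl comps Full Eul)

theorem eul : S_EUL := by
  intro V _ G d W F hNP hE hF
  have h1 := Pool.Agent.W497.FS.NP.card_le hNP hF
  have h2 := Pool.Agent.W497.FS.Eul.lkF hE hF
  apply Pool.Agent.W497.FS.Eul.of_parity h2
  obtain ⟨e, he⟩ : ∃ e, d = e + F.card := ⟨d - F.card, by omega⟩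
  rw [he, Nat.add_sub_cancel, add_assoc, ← two_mul, pow_add, pow_mul]
  norm_num

end Pool.Agent.Helper39K9.FV.K
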