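import Pool.Agent.Helper39K9.FV.Stm

/-!
# EVN: full subcomplexes, induction by adding vertices
-/

set_option autoImplicit false

namespace Pool.Agent.Helper39K9.FV

open Pool.Agent.W497.FS (lk mem_lk)

theorem evn : S_EMP → S_MON → S_VRT → S_EVN := by
  intro hE hM hV V _ G b W hW A
  induction A using Finset.strongInduction with
  | _ A ih =>
    intro hA
    rcases A.eq_empty_or_nonempty with h | ⟨v, hv⟩
    · rw [h]
      exact hM V G 1 (b + 1) ∅ (by omega) (hE V G).1
    · refine hV V G (b + 1) A v hv (ih _ (Finset.erase_ssubset hv)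
        ((Finset.erase_subset v A).trans hA)) ?_
      rw [Nat.add_sub_cancel]
      refine hW v (hA hv) _ ?_
      intro x hx
      rw [mem_lk] at hx ⊢
      exact ⟨hA hx.1, hx.2⟩

end Pool.Agent.Helper39K9.FV
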