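import Pool.Agent.Helper39K9.FV.SmallDef

/-!
# Few vertices, links
-/

set_option autoImplicit false

namespace Pool.Agent.Helper39K9.FV

variable {V : Type}

/-- The full subcomplex on `A`, of rank `r` (dimension `r - 1`), has few vertices (at most
`(5 r + 4) / 2`), or it is a suspension (it has a join factor with two vertices), or all its join factors are
small. -/
def Few (G : SimpleGraph V) (r : ℕ) (A : Finset V) : Prop :=
  2 * A.card ≤ 5 * r + 4 ∨ (∃ C, JoinFactor G A C ∧ C.card = 2) ∨ ∀ C, JoinFactor G A C → SmallFactor G C

open scoped Classical in
/-- the vertices of the link of the simplex `F`: those adjacent to all the vertices of `F` -/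
noncomputable def link [Fintype V] (G : SimpleGraph V) (F : Finset V) : Finset V :=
  Finset.univ.filter (fun x => ∀ y ∈ F, G.Adj y x)

end Pool.Agent.Helper39K9.FV
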