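import Mathlib

/-!
# Join factors and small join factors

`G` is a finite graph; the full subcomplexes of its flag complex are given by sets `A` of vertices.
-/

set_option autoImplicit false

namespace Pool.Agent.Helper39K9.FV

variable {V : Type}

/-- `C` is (the set of vertices of) a join factor of the full subcomplex on `A`: a component of the
complement of the graph induced on `A` -/
def JoinFactor (G : SimpleGraph V) (A C : Finset V) : Prop :=
  C ⊆ A ∧ C.Nonempty ∧ (∀ c ∈ C, ∀ x ∈ A, x ∉ C → G.Adj c x) ∧
    ∀ D ⊆ C, D.Nonempty → D ≠ C → ∃ a ∈ D, ∃ b ∈ C, b ∉ D ∧ ¬ G.Adj a b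

/-- the number of the vertices plus the number of the join factors -/
noncomputable def size (G : SimpleGraph V) (A : Finset V) : ℕ :=
  A.card + {C : Finset V | JoinFactor G A C}.ncard

/-- `C` contains a simplex with `e` vertices -/
def HasSimplex (G : SimpleGraph V) (C : Finset V) (e : ℕ) : Prop :=
  ∃ F ⊆ C, G.IsClique (F : Set V) ∧ F.card = e

open scoped Classical in
/-- The join factor `C` is small: it contains no triangle (it is a circle, or two points), or it
contains a simplex with `e` vertices, where `|C| ≤ 3 e - 1`, or `|C| ≤ 3 e` and `|C| ≤ 12`, or `e` is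
even and the link in `C` of each vertex of `C` has at most `3 (e - 1)` vertices and join factors,
counted together. -/
def SmallFactor (G : SimpleGraph V) (C : Finset V) : Prop :=
  ¬ HasSimplex G C 3 ∨ ∃ e, HasSimplex G C e ∧
    (C.card + 1 ≤ 3 * e ∨ (C.card ≤ 3 * e ∧ C.card ≤ 12) ∨
      (Even e ∧ ∀ v ∈ C, size G (C.filter (fun x => G.Adj v x)) + 3 ≤ 3 * e))

end Pool.Agent.Helper39K9.FV
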