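import Pool.Agent.Helper39K9.FV.Main
import Pool.Agent.Helper39K9.FV.SmallDef

set_option autoImplicit false

namespace Pool.Agent.Helper39K9.FV

open Pool.Agent.W497.FS (NP Prm lk lkF nn cl comps Full)
open Pool.Agent.W497
open Pool.Agent.R782.Bal (SQ)

variable {V : Type} {G : SimpleGraph V}

theorem factor_iff [DecidableEq V] {A C : Finset V} : JoinFactor G A C ↔ C ∈ comps G A := by
  rw [FS.mem_comps]
  constructor
  · rintro ⟨h1, h2, h3, h4⟩
    exact ⟨h1, ⟨h2, h4⟩, h3⟩
  · rintro ⟨h1, ⟨h2, h4⟩, h3⟩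
    exact ⟨h1, h2, h3, h4⟩

theorem size_eq [DecidableEq V] (A : Finset V) : size G A = A.card + (comps G A).card := by
  unfold size
  have : {C : Finset V | JoinFactor G A C} = ((comps G A : Finset (Finset V)) : Set (Finset V)) := by
    ext C
    rw [Finset.mem_coe]
    exact factor_iff
  rw [this, Set.ncard_coe_finset]

theorem mem_cl_iff {C F : Finset V} : F ∈ cl G C ↔ F ⊆ C ∧ G.IsClique (F : Set V) := by
  rw [FS.mem_cl]
  exact Iff.rfl

theorem small_of [DecidableEq V] {C : Finset V} (h : SmallFactor G C) : Small G C := by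
  rcases h with h | ⟨e, ⟨F, hF, hFc, rfl⟩, h⟩
  · left
    intro F hF
    by_contra hcon
    push Not at hcon
    obtain ⟨F', hF', hc⟩ := Finset.exists_subset_card_eq (show 3 ≤ F.card from hcon)
    obtain ⟨h1, h2⟩ := mem_cl_iff.1 hF
    exact h ⟨F', hF'.trans h1, h2.subset (by exact_mod_cast hF'), hc⟩
  · refine Or.inr ⟨F, mem_cl_iff.2 ⟨hF, hFc⟩, ?_⟩
    rcases h with h | h | ⟨h1, h2⟩
    · exact Or.inl h
    · exact Or.inr (Or.inl h)
    · refine Or.inr (Or.inr ⟨h1, fun v hv => ?_⟩)
      have h3 := h2 v hv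
      rw [size_eq] at h3
      exact h3

/-- flag homology spheres with few vertices or with small join factors are in the class `SQ` -/
theorem final {n : ℕ} {V : Type} [Fintype V] [LinearOrder V] {G : SimpleGraph V}
    (hS : Pool.Agent.TH652.Above.HSph n G)
    (h : 2 * Fintype.card V ≤ 5 * n + 4 ∨ ∀ C, JoinFactor G Finset.univ C → SmallFactor G C) :
    SQ (n / 2 + 1) G := by
  refine main hS (h.imp id fun h C hC => small_of (h C (factor_iff.2 hC)))

end Pool.Agent.Helper39K9.FV
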