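import Pool.Agent.Helper39K9.FV.Stm

/-!
# [VRT] adding a vertex (and the isomorphism `indIso`)
-/

set_option autoImplicit false

namespace Pool.Agent.Helper39K9.FV

open Pool.Agent.R782.Bal (SQ)
open Pool.Agent.W497.FS (lk mem_lk)

/-- a full subgraph of a full subgraph is a full subgraph -/
def indIso {V : Type} (G : SimpleGraph V) (S : Set V) (B : Set S) (A : Set V) (hA : A ⊆ S)
    (h : ∀ x : S, x ∈ B ↔ (x : V) ∈ A) : G.induce A ≃g (G.induce S).induce B where
  toFun a := ⟨⟨a.1, hA a.2⟩, (h _).2 a.2⟩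
  invFun b := ⟨b.1.1, (h _).1 b.2⟩
  left_inv _ := rfl
  right_inv _ := rfl
  map_rel_iff' := Iff.rfl

/-- the class of a full subcomplex of a full subcomplex -/
theorem QQ_ind {V : Type} (G : SimpleGraph V) (b : ℕ) (W A : Finset V) (B : Set (W : Set V))
    (hA : A ⊆ W) (h : ∀ x : (W : Set V), x ∈ B ↔ (x : V) ∈ A) :
    QQ b G A ↔ SQ b ((G.induce (W : Set V)).induce B) := by
  have hA' : (A : Set V) ⊆ (W : Set V) := by exact_mod_cast hA
  have h' : ∀ x : (W : Set V), x ∈ B ↔ (x : V) ∈ (A : Set V) := fun x => by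
    rw [h x, Finset.mem_coe]
  constructor
  · intro hq
    exact SQ.iso _ _ ⟨indIso G (W : Set V) B (A : Set V) hA' h'⟩ hq
  · intro hq
    exact SQ.iso _ _ ⟨(indIso G (W : Set V) B (A : Set V) hA' h').symm⟩ hq

/-- [VRT] -/
theorem vrt : S_VRT := by
  intro V _ G b W v hv h1 h2
  have hfin : Finite (W : Set V) := W.finite_toSet
  refine SQ.vert (G.induce (W : Set V)) ⟨v, hv⟩ ?_ ?_
  · refine (QQ_ind G b W (W.erase v) _ (Finset.erase_subset _ _) ?_).1 h1
    rintro ⟨x, hx⟩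
    rw [Finset.mem_erase, Set.mem_compl_iff, Set.mem_singleton_iff, Subtype.mk.injEq]
    exact ⟨fun h => ⟨h, hx⟩, fun h => h.1⟩
  · refine (QQ_ind G (b - 1) W (lk G W v) _ Pool.Agent.W497.FS.lk_subset ?_).1 h2
    rintro ⟨x, hx⟩
    rw [mem_lk, SimpleGraph.mem_neighborSet]
    exact ⟨fun h => ⟨hx, h⟩, fun h => h.2⟩

end Pool.Agent.Helper39K9.FV
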