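import Pool.Agent.Helper39K9.FV.StmK
import Pool.Agent.Helper39K9.FV.Vrt

/-!
# [GLQ] gluing for full subcomplexes
-/

set_option autoImplicit false

namespace Pool.Agent.Helper39K9.FV.K

open Pool.Agent.R782.Bal (SQ)

theorem glq : S_GLQ := by
  intro V _ G b A B hno hA hB hAB
  have hfin : Finite ((A ∪ B : Finset V) : Set V) := (A ∪ B).finite_toSet
  refine SQ.glue (G.induce ((A ∪ B : Finset V) : Set V)) {x | (x : V) ∈ A} {x | (x : V) ∈ B} ?_ ?_ ?_ ?_ ?_
  · ext x
    have hx := x.2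
    rw [Finset.mem_coe, Finset.mem_union] at hx
    exact ⟨fun _ => Set.mem_univ _, fun _ => hx⟩
  · rintro ⟨a, ha⟩ haA haB ⟨c, hc⟩ hcB hcA hadj
    exact hno a haA haB c hcB hcA hadj
  · exact (QQ_ind G b (A ∪ B) A _ Finset.subset_union_left (fun x => Iff.rfl)).1 hA
  · exact (QQ_ind G b (A ∪ B) B _ Finset.subset_union_right (fun x => Iff.rfl)).1 hB
  · refine (QQ_ind G (b - 1) (A ∪ B) (A ∩ B) _ ?_ ?_).1 hAB
    · exact Finset.inter_subset_left.trans Finset.subset_union_left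
    · intro x
      rw [Finset.mem_inter]
      exact Iff.rfl

end Pool.Agent.Helper39K9.FV.K
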