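import Pool.Agent.Helper39K9.FV.StmK

/-!
# Mod 2 homology of a closed flag surface [HOM]
-/

set_option autoImplicit false

namespace Pool.Agent.Helper39K9.FV.K

open Pool.Agent.W497.FS (NP SConn lk cl mem_lk mem_cl)
open Finset

namespace HomL

variable {V : Type} [DecidableEq V]

/-- the edges -/
noncomputable def E (G : SimpleGraph V) (W : Finset V) : Finset (Finset V) := (cl G W).filter fun e => e.card = 2

/-- the triangles -/
noncomputable def T (G : SimpleGraph V) (W : Finset V) : Finset (Finset V) := (cl G W).filter fun e => e.card = 3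

lemma mem_E {G : SimpleGraph V} {W e : Finset V} : e ∈ E G W ↔ ∃ v w, v ∈ W ∧ w ∈ lk G W v ∧ e = {v, w} := by
  rw [E, mem_filter, mem_cl, card_eq_two]
  constructor
  · rintro ⟨⟨h1, h2⟩, v, w, hvw, rfl⟩
    exact ⟨v, w, h1 (by simp), mem_lk.2 ⟨h1 (by simp), h2 v (by simp) w (by simp) hvw⟩, rfl⟩
  · rintro ⟨v, w, hv, hw, rfl⟩
    rw [mem_lk] at hw
    refine ⟨⟨?_, ?_⟩, v, w, hw.2.ne, rfl⟩
    · intro x hx
      rw [mem_insert, mem_singleton] at hx
      rcases hx with rfl | rfl
      · exact hv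
      · exact hw.1
    · intro x hx y hy hxy
      rw [mem_insert, mem_singleton] at hx hy
      rcases hx with rfl | rfl <;> rcases hy with rfl | rfl
      · exact absurd rfl hxy
      · exact hw.2
      · exact hw.2.symm
      · exact absurd rfl hxy

lemma mem_T {G : SimpleGraph V} {W e : Finset V} : e ∈ T G W ↔
    ∃ v w p, v ∈ W ∧ w ∈ lk G W v ∧ p ∈ lk G (lk G W v) w ∧ e = {v, w, p} := by
  rw [T, mem_filter, mem_cl, card_eq_three]
  constructor
  · rintro ⟨⟨h1, h2⟩, v, w, p, hvw, hvp, hwp, rfl⟩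
    refine ⟨v, w, p, h1 (by simp), mem_lk.2 ⟨h1 (by simp), h2 v (by simp) w (by simp) hvw⟩, ?_, rfl⟩
    exact mem_lk.2 ⟨mem_lk.2 ⟨h1 (by simp), h2 v (by simp) p (by simp) hvp⟩, h2 w (by simp) p (by simp) hwp⟩
  · rintro ⟨v, w, p, hv, hw, hp, rfl⟩
    rw [mem_lk, mem_lk] at hp
    rw [mem_lk] at hw
    obtain ⟨⟨hpW, hvp⟩, hwp⟩ := hp
    obtain ⟨hwW, hvw⟩ := hw
    refine ⟨⟨?_, ?_⟩, v, w, p, hvw.ne, hvp.ne, hwp.ne, rfl⟩
    · intro x hx
      simp only [mem_insert, mem_singleton] at hx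
      rcases hx with rfl | rfl | rfl
      · exact hv
      · exact hwW
      · exact hpW
    · intro x hx y hy hxy
      simp only [mem_insert, mem_singleton] at hx hy
      rcases hx with rfl | rfl | rfl <;> rcases hy with rfl | rfl | rfl <;>
        first | exact absurd rfl hxy | assumption | (apply SimpleGraph.Adj.symm; assumption)

lemma sumE {M : Type*} [AddCommMonoid M] {G : SimpleGraph V} {W : Finset V} {v : V} (hv : v ∈ W)
    (F : Finset V → M) : ∑ e ∈ (E G W).filter (fun e => v ∈ e), F e = ∑ w ∈ lk G W v, F {v, w} := by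
  have h : (E G W).filter (fun e => v ∈ e) = (lk G W v).image fun w => ({v, w} : Finset V) := by
    ext e
    rw [mem_filter, mem_image, mem_E]
    constructor
    · rintro ⟨⟨a, b, ha, hb, rfl⟩, hve⟩
      rw [mem_insert, mem_singleton] at hve
      rcases hve with rfl | rfl
      · exact ⟨b, hb, rfl⟩
      · rw [mem_lk] at hb
        exact ⟨a, mem_lk.2 ⟨ha, hb.2.symm⟩, pair_comm _ _⟩
    · rintro ⟨w, hw, rfl⟩
      exact ⟨⟨v, w, hv, hw, rfl⟩, by simp⟩
  rw [h, sum_image]
  intro a ha b hb hab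
  have ha' := (mem_lk.1 ha).2.ne
  have h1 : a ∈ ({v, b} : Finset V) := by
    have : a ∈ ({v, a} : Finset V) := by simp
    rw [show ({v, a} : Finset V) = {v, b} from hab] at this
    exact this
  rw [mem_insert, mem_singleton] at h1
  exact h1.resolve_left fun h => ha' h.symm

lemma sumT {M : Type*} [AddCommMonoid M] {G : SimpleGraph V} {W : Finset V} {v w : V} (hv : v ∈ W)
    (hw : w ∈ lk G W v) (F : Finset V → M) :
    ∑ e ∈ (T G W).filter (fun e => ({v, w} : Finset V) ⊆ e), F e = ∑ p ∈ lk G (lk G W v) w, F {v, w, p} := by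
  have hvw := (mem_lk.1 hw).2
  have h : (T G W).filter (fun e => ({v, w} : Finset V) ⊆ e) =
      (lk G (lk G W v) w).image fun p => ({v, w, p} : Finset V) := by
    ext e
    rw [mem_filter, mem_image]
    constructor
    · rintro ⟨he, hs⟩
      rw [T, mem_filter, mem_cl] at he
      obtain ⟨⟨h1, h2⟩, h3⟩ := he
      have hc : (e \ {v, w}).card = 1 := by
        rw [card_sdiff_of_subset hs, h3, card_pair hvw.ne]
      obtain ⟨p, hp⟩ := card_eq_one.1 hc
      have hpe : p ∈ e \ {v, w} := by rw [hp]; simp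
      rw [mem_sdiff, mem_insert, mem_singleton] at hpe
      obtain ⟨hpe, hpn⟩ := hpe
      push Not at hpn
      have hve : v ∈ e := hs (by simp)
      have hwe : w ∈ e := hs (by simp)
      refine ⟨p, mem_lk.2 ⟨mem_lk.2 ⟨h1 hpe, h2 v hve p hpe (Ne.symm hpn.1)⟩, h2 w hwe p hpe (Ne.symm hpn.2)⟩, ?_⟩
      ext x
      simp only [mem_insert, mem_singleton]
      constructor
      · rintro (rfl | rfl | rfl)
        · exact hve
        · exact hwe
        · exact hpe
      · intro hx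
        by_cases hx1 : x = v
        · exact Or.inl hx1
        by_cases hx2 : x = w
        · exact Or.inr (Or.inl hx2)
        refine Or.inr (Or.inr ?_)
        have : x ∈ e \ {v, w} := by
          rw [mem_sdiff, mem_insert, mem_singleton]
          exact ⟨hx, by tauto⟩
        rw [hp, mem_singleton] at this
        exact this
    · rintro ⟨p, hp, rfl⟩
      refine ⟨mem_T.2 ⟨v, w, p, hv, hw, hp, rfl⟩, ?_⟩
      intro x hx
      rw [mem_insert, mem_singleton] at hx
      simp only [mem_insert, mem_singleton]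
      tauto
  rw [h, sum_image]
  intro a ha b hb hab
  have ha' := mem_lk.1 ha
  have ha1 := (mem_lk.1 ha'.1).2.ne
  have ha2 := ha'.2.ne
  have h1 : a ∈ ({v, w, b} : Finset V) := by
    have : a ∈ ({v, w, a} : Finset V) := by simp
    rw [show ({v, w, a} : Finset V) = {v, w, b} from hab] at this
    exact this
  simp only [mem_insert, mem_singleton] at h1
  rcases h1 with h | h | h
  · exact absurd h.symm ha1
  · exact absurd h.symm ha2
  · exact h

/-- twice the number of edges -/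
lemma cardE {G : SimpleGraph V} {W : Finset V} : dg G W = 2 * (E G W).card := by
  have h1 : dg G W = ∑ v ∈ W, ∑ e ∈ E G W, if v ∈ e then 1 else 0 := by
    rw [dg]
    refine sum_congr rfl fun v hv => ?_
    rw [← sum_filter, sumE hv, card_eq_sum_ones]
  rw [h1, sum_comm, mul_comm, ← smul_eq_mul, ← sum_const]
  refine sum_congr rfl fun e he => ?_
  rw [E, mem_filter, mem_cl] at he
  rw [← sum_filter, ← card_eq_sum_ones, filter_mem_eq_inter, inter_eq_right.2 he.1.1, he.2]

lemma cardT {G : SimpleGraph V} {W : Finset V} (h2 : ∀ v ∈ W, ∀ w ∈ lk G W v, (lk G (lk G W v) w).card = 2) :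
    2 * (E G W).card = 3 * (T G W).card := by
  have h1 : ∑ e ∈ E G W, ∑ t ∈ T G W, (if e ⊆ t then 1 else 0) = 2 * (E G W).card := by
    rw [mul_comm, ← smul_eq_mul, ← sum_const]
    refine sum_congr rfl fun e he => ?_
    obtain ⟨v, w, hv, hw, rfl⟩ := mem_E.1 he
    rw [← sum_filter, sumT hv hw, ← card_eq_sum_ones, h2 v hv w hw]
  rw [← h1, sum_comm, mul_comm, ← smul_eq_mul, ← sum_const]
  refine sum_congr rfl fun t ht => ?_
  rw [T, mem_filter, mem_cl] at ht
  rw [← sum_filter, ← card_eq_sum_ones]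
  have h3 : (E G W).filter (fun e => e ⊆ t) = powersetCard 2 t := by
    ext e
    rw [mem_filter, E, mem_filter, mem_cl, mem_powersetCard]
    constructor
    · rintro ⟨⟨-, h⟩, h'⟩
      exact ⟨h', h⟩
    · rintro ⟨h, h'⟩
      exact ⟨⟨⟨h.trans ht.1.1, fun x hx y hy hxy => ht.1.2 x (h hx) y (h hy) hxy⟩, h'⟩, h⟩
  rw [h3, card_powersetCard, ht.2]
  rfl

omit [DecidableEq V] in
/-- symmetric functions modulo two -/
lemma symm_sum (S : Finset V) (g : V → V → ZMod 2) (hg : ∀ a b, g a b = g b a) (h0 : ∀ a, g a a = 0) :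
    ∑ a ∈ S, ∑ b ∈ S, g a b = 0 := by
  rw [← sum_product']
  refine sum_involution (fun x _ => (x.2, x.1)) ?_ ?_ ?_ ?_
  · intro x _
    simp only
    rw [hg x.2 x.1]
    exact CharTwo.add_self_eq_zero _
  · rintro ⟨x, y⟩ _ h
    simp only [ne_eq, Prod.mk.injEq, not_and]
    rintro rfl
    exact absurd (h0 y) h
  · rintro ⟨x, y⟩ h
    rw [mem_product] at h ⊢
    exact ⟨h.2, h.1⟩
  · rintro ⟨x, y⟩ _
    rfl

/-- extension by zero -/
noncomputable def xt {S : Finset (Finset V)} (c : S → ZMod 2) (s : Finset V) : ZMod 2 :=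
  if h : s ∈ S then c ⟨s, h⟩ else 0

lemma xt_mem {S : Finset (Finset V)} (c : S → ZMod 2) (s : S) : xt c s = c s := by
  rw [xt, dif_pos s.2]

/-- the boundary of edges -/
noncomputable def d1 (G : SimpleGraph V) (W : Finset V) : (E G W → ZMod 2) →ₗ[ZMod 2] (W → ZMod 2) :=
  Matrix.mulVecLin (Matrix.of fun (v : W) (e : E G W) => if (v : V) ∈ (e : Finset V) then (1 : ZMod 2) else 0)

/-- the boundary of triangles -/
noncomputable def d2 (G : SimpleGraph V) (W : Finset V) : (T G W → ZMod 2) →ₗ[ZMod 2] (E G W → ZMod 2) :=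
  Matrix.mulVecLin (Matrix.of fun (e : E G W) (t : T G W) =>
    if (e : Finset V) ⊆ (t : Finset V) then (1 : ZMod 2) else 0)

lemma d1_apply {G : SimpleGraph V} {W : Finset V} (z : E G W → ZMod 2) (v : W) :
    d1 G W z v = ∑ w ∈ lk G W v, xt z {(v : V), w} := by
  rw [d1, Matrix.mulVecLin_apply, Matrix.mulVec, dotProduct]
  rw [← sumE v.2, sum_filter, ← sum_coe_sort (E G W)]
  refine sum_congr rfl fun e _ => ?_
  rw [Matrix.of_apply, xt_mem]
  split_ifs <;> simp

lemma d2_apply {G : SimpleGraph V} {W : Finset V} (c : T G W → ZMod 2) {v w : V} (hv : v ∈ W)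
    (hw : w ∈ lk G W v) (he : {v, w} ∈ E G W) :
    d2 G W c ⟨{v, w}, he⟩ = ∑ p ∈ lk G (lk G W v) w, xt c {v, w, p} := by
  rw [d2, Matrix.mulVecLin_apply, Matrix.mulVec, dotProduct]
  rw [← sumT hv hw, sum_filter, ← sum_coe_sort (T G W)]
  refine sum_congr rfl fun e _ => ?_
  rw [Matrix.of_apply, xt_mem]
  split_ifs <;> simp

lemma d1_d2 {G : SimpleGraph V} {W : Finset V} (c : T G W → ZMod 2) : d1 G W (d2 G W c) = 0 := by
  classical
  funext v
  rw [d1_apply]
  have h : ∀ w ∈ lk G W v, xt (d2 G W c) {(v : V), w} =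
      ∑ p ∈ lk G W v, if G.Adj w p then xt c {(v : V), w, p} else 0 := by
    intro w hw
    have he : {(v : V), w} ∈ E G W := mem_E.2 ⟨v, w, v.2, hw, rfl⟩
    rw [xt, dif_pos he, d2_apply c v.2 hw he, lk, sum_filter]
  rw [sum_congr rfl h]
  refine symm_sum _ _ ?_ ?_
  · intro a b
    rw [show ({(v : V), a, b} : Finset V) = {(v : V), b, a} by ext; simp only [mem_insert, mem_singleton]; tauto]
    simp only [SimpleGraph.adj_comm]
  · intro a
    simp

/-- the kernel of the second boundary -/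
lemma ker2 {G : SimpleGraph V} {W : Finset V} (hW : SConn G W)
    (hl : ∀ v ∈ W, SConn G (lk G W v)) (h2 : ∀ v ∈ W, ∀ w ∈ lk G W v, (lk G (lk G W v) w).card = 2)
    (c : Finset V → ZMod 2)
    (hc : ∀ v ∈ W, ∀ w ∈ lk G W v, ∑ p ∈ lk G (lk G W v) w, c {v, w, p} = 0)
    {v0 w0 p0 : V} (hv0 : v0 ∈ W) (hw0 : w0 ∈ lk G W v0) (hp0 : p0 ∈ lk G (lk G W v0) w0) :
    ∀ v ∈ W, ∀ w ∈ lk G W v, ∀ p ∈ lk G (lk G W v) w, c {v, w, p} = c {v0, w0, p0} := by
  classical
  -- two triangles at an edge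
  have e1 : ∀ v ∈ W, ∀ w ∈ lk G W v, ∀ p ∈ lk G (lk G W v) w, ∀ q ∈ lk G (lk G W v) w,
      c {v, w, p} = c {v, w, q} := by
    intro v hv w hw p hp q hq
    by_cases hpq : p = q
    · rw [hpq]
    have hs : lk G (lk G W v) w = {p, q} := by
      symm
      apply eq_of_subset_of_card_le
      · intro x hx
        rw [mem_insert, mem_singleton] at hx
        rcases hx with rfl | rfl
        · exact hp
        · exact hq
      · rw [h2 v hv w hw, card_pair hpq]
    have h := hc v hv w hw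
    rw [hs, sum_pair hpq] at h
    exact CharTwo.add_eq_zero.1 h
  -- around a vertex
  have e2 : ∀ v ∈ W, ∀ κ : ZMod 2, (∃ w ∈ lk G W v, ∃ p ∈ lk G (lk G W v) w, c {v, w, p} = κ) →
      ∀ w ∈ lk G W v, ∀ p ∈ lk G (lk G W v) w, c {v, w, p} = κ := by
    intro v hv κ ⟨w, hw, p, hp, hκ⟩
    set A : Finset V := (lk G W v).filter fun w => ∀ p ∈ lk G (lk G W v) w, c {v, w, p} = κ with hA
    have hA1 : A = lk G W v := by
      by_contra hne
      obtain ⟨a, ha, b, hb, hbA, hab⟩ := hl v hv A (filter_subset _ _)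
        ⟨w, mem_filter.2 ⟨hw, fun q hq => (e1 v hv w hw q hq p hp).trans hκ⟩⟩ hne
      apply hbA
      rw [hA, mem_filter] at ha ⊢
      have h3 := ha.2 b (mem_lk.2 ⟨hb, hab⟩)
      refine ⟨hb, fun q hq => ?_⟩
      rw [e1 v hv b hb q hq a (mem_lk.2 ⟨ha.1, hab.symm⟩), ← h3]
      congr 1
      ext
      simp only [mem_insert, mem_singleton]
      tauto
    intro w' hw'
    rw [← hA1] at hw'
    exact (mem_filter.1 hw').2
  -- everywhere
  set κ : ZMod 2 := c {v0, w0, p0} with hκ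
  set B : Finset V := W.filter fun v => ∀ w ∈ lk G W v, ∀ p ∈ lk G (lk G W v) w, c {v, w, p} = κ with hB
  have hB1 : B = W := by
    by_contra hne
    obtain ⟨a, ha, b, hb, hbB, hab⟩ := hW B (filter_subset _ _)
      ⟨v0, mem_filter.2 ⟨hv0, e2 v0 hv0 κ ⟨w0, hw0, p0, hp0, rfl⟩⟩⟩ hne
    apply hbB
    rw [hB, mem_filter] at ha ⊢
    have hba : b ∈ lk G W a := mem_lk.2 ⟨hb, hab⟩
    obtain ⟨p, hp⟩ : (lk G (lk G W a) b).Nonempty := by
      rw [← card_pos, h2 a ha.1 b hba]
      norm_num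
    have h3 := ha.2 b hba p hp
    rw [mem_lk, mem_lk] at hp
    refine ⟨hb, e2 b hb κ ⟨a, mem_lk.2 ⟨ha.1, hab.symm⟩, p, mem_lk.2 ⟨mem_lk.2 ⟨hp.1.1, hp.2⟩, hp.1.2⟩, ?_⟩⟩
    rw [← h3]
    congr 1
    ext
    simp only [mem_insert, mem_singleton]
    tauto
  intro v hv
  rw [← hB1] at hv
  exact (mem_filter.1 hv).2

end HomL

open HomL Module in
theorem hom : S_HOM := by
  classical
  intro V _ G W hN
  rw [npe] at hN
  obtain ⟨hWn, hWc, hN⟩ := hN
  have hl : ∀ v ∈ W, SConn G (lk G W v) := fun v hv => (hN v hv).2.1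
  have h2 : ∀ v ∈ W, ∀ w ∈ lk G W v, (lk G (lk G W v) w).card = 2 := fun v hv w hw => ((hN v hv).2.2 w hw).1
  -- the rank of the first boundary
  obtain ⟨v0, hv0⟩ := hWn
  have r1 : W.card ≤ finrank (ZMod 2) (LinearMap.range (d1 G W)) + 1 := by
    set R : Submodule (ZMod 2) (W → ZMod 2) := LinearMap.range (d1 G W) ⊔
      Submodule.span (ZMod 2) {Pi.single (⟨v0, hv0⟩ : W) (1 : ZMod 2)} with hR
    set A : Finset V := W.filter fun v => ∃ h : v ∈ W, Pi.single (⟨v, h⟩ : W) (1 : ZMod 2) ∈ R with hA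
    have hA1 : A = W := by
      by_contra hne
      obtain ⟨a, ha, b, hb, hbA, hab⟩ := hWc A (filter_subset _ _)
        ⟨v0, mem_filter.2 ⟨hv0, hv0, Submodule.mem_sup_right (Submodule.mem_span_singleton_self _)⟩⟩ hne
      apply hbA
      rw [hA, mem_filter] at ha ⊢
      obtain ⟨ha1, ha2, ha3⟩ := ha
      refine ⟨hb, hb, ?_⟩
      have he : ({a, b} : Finset V) ∈ E G W := mem_E.2 ⟨a, b, ha1, mem_lk.2 ⟨hb, hab⟩, rfl⟩
      have h4 : d1 G W (Pi.single (⟨{a, b}, he⟩ : E G W) (1 : ZMod 2)) =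
          Pi.single (⟨a, ha2⟩ : W) (1 : ZMod 2) + Pi.single (⟨b, hb⟩ : W) (1 : ZMod 2) := by
        funext u
        rw [d1, Matrix.mulVecLin_apply, Matrix.mulVec_single_one]
        simp only [Matrix.col_apply, Matrix.of_apply, mem_insert, mem_singleton, Pi.add_apply, Pi.single_apply]
        have hne : a ≠ b := hab.ne
        by_cases h5 : (u : V) = a
        · have h6 : (u : V) ≠ b := fun h => hne (h5.symm.trans h)
          rw [if_pos (Or.inl h5), if_pos (Subtype.ext h5), if_neg (fun h => h6 (congrArg Subtype.val h)), add_zero]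
        · by_cases h6 : (u : V) = b
          · rw [if_pos (Or.inr h6), if_neg (fun h => h5 (congrArg Subtype.val h)), if_pos (Subtype.ext h6), zero_add]
          · rw [if_neg (by tauto), if_neg (fun h => h5 (congrArg Subtype.val h)),
              if_neg (fun h => h6 (congrArg Subtype.val h)), add_zero]
      have h5 : Pi.single (⟨b, hb⟩ : W) (1 : ZMod 2) =
          d1 G W (Pi.single (⟨{a, b}, he⟩ : E G W) (1 : ZMod 2)) - Pi.single (⟨a, ha2⟩ : W) (1 : ZMod 2) := by
        rw [h4, add_sub_cancel_left]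
      rw [h5]
      exact R.sub_mem (Submodule.mem_sup_left ⟨_, rfl⟩) ha3
    have hRt : R = ⊤ := by
      rw [eq_top_iff]
      intro x _
      rw [pi_eq_sum_univ' x]
      refine R.sum_mem fun u _ => ?_
      have hu : (u : V) ∈ A := by rw [hA1]; exact u.2
      rw [hA, mem_filter] at hu
      obtain ⟨-, h5, h6⟩ := hu
      exact R.smul_mem _ h6
    have h8 : finrank (ZMod 2) R = W.card := by
      rw [hRt, finrank_top, Module.finrank_fintype_fun_eq_card, Fintype.card_coe]
    rw [← h8]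
    refine (Submodule.finrank_add_le_finrank_add_finrank _ _).trans ?_
    gcongr
    exact (finrank_span_le_card _).trans (by simp)
  have r1' : finrank (ZMod 2) (LinearMap.range (d1 G W)) + finrank (ZMod 2) (LinearMap.ker (d1 G W)) =
      (E G W).card := by
    rw [LinearMap.finrank_range_add_finrank_ker, Module.finrank_fintype_fun_eq_card, Fintype.card_coe]
  have r2' : finrank (ZMod 2) (LinearMap.range (d2 G W)) + finrank (ZMod 2) (LinearMap.ker (d2 G W)) =
      (T G W).card := by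
    rw [LinearMap.finrank_range_add_finrank_ker, Module.finrank_fintype_fun_eq_card, Fintype.card_coe]
  have hle : LinearMap.range (d2 G W) ≤ LinearMap.ker (d1 G W) := by
    rintro _ ⟨c, rfl⟩
    exact d1_d2 c
  have r2 : finrank (ZMod 2) (LinearMap.ker (d2 G W)) ≤ 1 := by
    obtain ⟨w0, hw0⟩ := (hN v0 hv0).1
    obtain ⟨p0, hp0⟩ : (lk G (lk G W v0) w0).Nonempty := by
      rw [← card_pos, h2 v0 hv0 w0 hw0]
      norm_num
    have ht0 : ({v0, w0, p0} : Finset V) ∈ T G W := mem_T.2 ⟨v0, w0, p0, hv0, hw0, hp0, rfl⟩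
    let f : LinearMap.ker (d2 G W) →ₗ[ZMod 2] ZMod 2 :=
      (LinearMap.proj (⟨_, ht0⟩ : T G W)).comp (LinearMap.ker (d2 G W)).subtype
    have hf : Function.Injective f := by
      rw [← LinearMap.ker_eq_bot, LinearMap.ker_eq_bot']
      rintro ⟨c, hc⟩ h0
      have h0' : c ⟨{v0, w0, p0}, ht0⟩ = 0 := h0
      rw [LinearMap.mem_ker] at hc
      have hk := ker2 hWc hl h2 (xt c) (by
        intro v hv w hw
        have he : ({v, w} : Finset V) ∈ E G W := mem_E.2 ⟨v, w, hv, hw, rfl⟩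
        rw [← d2_apply c hv hw he, hc]
        rfl) hv0 hw0 hp0
      have h0'' : xt c {v0, w0, p0} = 0 := by rw [xt, dif_pos ht0, h0']
      apply Subtype.ext
      funext t
      obtain ⟨v, w, p, hv, hw, hp, htt⟩ := mem_T.1 t.2
      have h3 := hk v hv w hw p hp
      rw [← htt, xt_mem, h0''] at h3
      exact h3
    have := LinearMap.finrank_le_finrank_of_injective hf
    rwa [finrank_self] at this
  have hle' := Submodule.finrank_mono hle
  have c1 := cardE (G := G) (W := W)
  have c2 := cardT h2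
  refine ⟨by omega, fun hd z hz => ?_⟩
  have heq : LinearMap.range (d2 G W) = LinearMap.ker (d1 G W) :=
    Submodule.eq_of_le_of_finrank_le hle (by omega)
  have hz' : (fun e : E G W => z e) ∈ LinearMap.ker (d1 G W) := by
    rw [LinearMap.mem_ker]
    funext v
    rw [d1_apply, Pi.zero_apply, ← hz v v.2]
    refine sum_congr rfl fun w hw => ?_
    have he : ({(v : V), w} : Finset V) ∈ E G W := mem_E.2 ⟨v, w, v.2, hw, rfl⟩
    rw [xt, dif_pos he]
  rw [← heq] at hz'
  obtain ⟨c, hc⟩ := hz'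
  refine ⟨xt c, fun v hv w hw => ?_⟩
  have he : ({v, w} : Finset V) ∈ E G W := mem_E.2 ⟨v, w, hv, hw, rfl⟩
  rw [← d2_apply c hv hw he, hc]

end Pool.Agent.Helper39K9.FV.K
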