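import Pool.Agent.Helper39K9.FV.StmK

/-!
# Leaf JOR: an induced square separates a flag 2-sphere
-/

set_option autoImplicit false
set_option linter.unusedSectionVars false

namespace Pool.Agent.Helper39K9.FV.K

open Pool.Agent.W497.FS (NP Prm SConn lk lkF nn cl comps Full Eul)

namespace JorL

variable {V : Type} [DecidableEq V]

lemma mlk {G : SimpleGraph V} {W : Finset V} {v x : V} : x ∈ lk G W v ↔ x ∈ W ∧ G.Adj v x := by
  classical
  unfold lk
  exact Finset.mem_filter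

lemma eq_of_add {x y : ZMod 2} (h : x + y = 0) : x = y := CharTwo.add_eq_zero.1 h

/-- around a vertex whose edges have `z = 0` the chain is constant -/
lemma const {G : SimpleGraph V} {W : Finset V} (hNP : NP G 3 W) (t z : Finset V → ZMod 2)
    (ht : ∀ v ∈ W, ∀ w ∈ lk G W v, ∑ p ∈ lk G (lk G W v) w, t {v, w, p} = z {v, w}) (v : V)
    (hv : v ∈ W) (hz : ∀ w ∈ lk G W v, z {v, w} = 0) :
    ∃ x : ZMod 2, ∀ w ∈ lk G W v, ∀ p ∈ lk G (lk G W v) w, t {v, w, p} = x := by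
  classical
  obtain ⟨_, _, hl⟩ := npe.1 hNP
  obtain ⟨⟨w0, hw0⟩, hconn, hlk⟩ := hl v hv
  have h1 : ∀ w, ∃ x : ZMod 2, w ∈ lk G W v → ∀ p ∈ lk G (lk G W v) w, t {v, w, p} = x := by
    intro w
    by_cases hw : w ∈ lk G W v
    · obtain ⟨p, q, hpq, hs⟩ := Finset.card_eq_two.1 (hlk w hw).1
      have h2 := ht v hv w hw
      rw [hs, Finset.sum_pair hpq, hz w hw] at h2
      refine ⟨t {v, w, p}, fun _ u hu => ?_⟩
      rw [hs, Finset.mem_insert, Finset.mem_singleton] at hu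
      rcases hu with rfl | rfl
      · rfl
      · exact (eq_of_add h2).symm
    · exact ⟨0, fun h => absurd h hw⟩
  choose g hg using h1
  have hadj : ∀ w ∈ lk G W v, ∀ p ∈ lk G W v, G.Adj w p → g w = g p := by
    intro w hw p hp hwp
    have h2 := hg w hw p (mlk.2 ⟨hp, hwp⟩)
    have h3 := hg p hp w (mlk.2 ⟨hw, hwp.symm⟩)
    rw [← h2, ← h3]
    congr 1
    ext u
    simp only [Finset.mem_insert, Finset.mem_singleton]
    tauto
  have hall : ∀ w ∈ lk G W v, g w = g w0 := by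
    by_contra hcon
    push Not at hcon
    obtain ⟨w, hw, hne⟩ := hcon
    obtain ⟨x, hx, y, hy, hyA, hxy⟩ := hconn ((lk G W v).filter (fun u => g u = g w0))
      (Finset.filter_subset _ _) ⟨w0, Finset.mem_filter.2 ⟨hw0, rfl⟩⟩ (by
        intro h
        rw [← h] at hw
        exact hne (Finset.mem_filter.1 hw).2)
    rw [Finset.mem_filter] at hx
    apply hyA
    rw [Finset.mem_filter]
    exact ⟨hy, by rw [← hadj x hx.1 y hy hxy]; exact hx.2⟩
  exact ⟨g w0, fun w hw p hp => by rw [hg w hw p hp, hall w hw]⟩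

lemma pair_eq {v w p q : V} : ({v, w} : Finset V) = {p, q} → v = p ∨ v = q := by
  intro h
  have h1 : v ∈ ({p, q} : Finset V) := by
    rw [← h]
    exact Finset.mem_insert_self _ _
  rw [Finset.mem_insert, Finset.mem_singleton] at h1
  exact h1

lemma pair_eq' {v w p q : V} : ({v, w} : Finset V) = {p, q} → p = v ∨ p = w := by
  intro h
  exact pair_eq h.symm

lemma pair_left {v w q : V} : ({v, w} : Finset V) = {v, q} → v ≠ w → w = q := by
  intro h hne
  have h1 : w ∈ ({v, q} : Finset V) := by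
    rw [← h]
    simp
  rw [Finset.mem_insert, Finset.mem_singleton] at h1
  rcases h1 with h1 | h1
  · exact absurd h1.symm hne
  · exact h1

/-- the indicator of an edge -/
def ed (p q : V) (σ : Finset V) : ZMod 2 := if σ = {p, q} then 1 else 0

lemma ed_comm (p q : V) (σ : Finset V) : ed p q σ = ed q p σ := by
  unfold ed
  rw [Finset.pair_comm]

lemma ed_zero {p q v w : V} (h1 : v ≠ p) (h2 : v ≠ q) : ed p q {v, w} = 0 := by
  unfold ed
  rw [if_neg]
  intro h
  rcases pair_eq h with h | h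
  · exact h1 h
  · exact h2 h

lemma sum_ed_left {G : SimpleGraph V} {W : Finset V} {p q : V} (hq : q ∈ W) (hpq : G.Adj p q) :
    ∑ w ∈ lk G W p, ed p q {p, w} = 1 := by
  have h1 : ∀ w ∈ lk G W p, ed p q {p, w} = if w = q then 1 else 0 := by
    intro w hw
    unfold ed
    by_cases h : w = q
    · rw [if_pos h, h, if_pos rfl]
    · rw [if_neg h, if_neg]
      intro h2
      exact h (pair_left h2 (mlk.1 hw).2.ne)
  rw [Finset.sum_congr rfl h1, Finset.sum_ite_eq', if_pos (mlk.2 ⟨hq, hpq⟩)]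

lemma sum_ed {G : SimpleGraph V} {W : Finset V} {p q : V} (hp : p ∈ W) (hq : q ∈ W)
    (hpq : G.Adj p q) (v : V) :
    ∑ w ∈ lk G W v, ed p q {v, w} = (if v = p then 1 else 0) + (if v = q then 1 else 0) := by
  by_cases h1 : v = p
  · subst h1
    rw [sum_ed_left hq hpq, if_pos rfl, if_neg hpq.ne, add_zero]
  · by_cases h2 : v = q
    · subst h2
      have h3 : ∀ w ∈ lk G W v, ed p v {v, w} = ed v p {v, w} := fun w _ => ed_comm _ _ _
      rw [Finset.sum_congr rfl h3, sum_ed_left hp hpq.symm, if_pos rfl, if_neg h1, zero_add]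
    · rw [if_neg h1, if_neg h2, add_zero]
      exact Finset.sum_eq_zero fun w _ => ed_zero h1 h2

end JorL

open JorL in
/-- **JOR.** -/
theorem jor : S_HOM → S_JOR := by
  intro hom V _ G W hSp a ha b hb c hc d hd hab hbc hcd hda hac hbd nac nbd
  classical
  obtain ⟨hNP, hdg⟩ := hSp
  set z : Finset V → ZMod 2 := fun σ => ed a b σ + ed b c σ + ed c d σ + ed d a σ with hz
  have hcyc : ∀ v ∈ W, ∑ w ∈ lk G W v, z {v, w} = 0 := by
    intro v _
    simp only [hz]
    rw [Finset.sum_add_distrib, Finset.sum_add_distrib, Finset.sum_add_distrib,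
      sum_ed ha hb hab, sum_ed hb hc hbc, sum_ed hc hd hcd, sum_ed hd ha hda]
    have key : ∀ p q r s : ZMod 2, (p + q) + (q + r) + (r + s) + (s + p) = 0 := by decide
    exact key _ _ _ _
  obtain ⟨t, ht⟩ := (hom V G W hNP).2 hdg z hcyc
  obtain ⟨_, _, hl⟩ := npe.1 hNP
  -- free vertices
  set fr : V → Prop := fun x => x ≠ a ∧ x ≠ b ∧ x ≠ c ∧ x ≠ d with hfr
  have hz0 : ∀ v, fr v → ∀ w, z {v, w} = 0 := by
    rintro v ⟨h1, h2, h3, h4⟩ w
    simp only [hz]
    rw [ed_zero h1 h2, ed_zero h2 h3, ed_zero h3 h4, ed_zero h4 h1]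
    decide
  set X : Finset V := W.filter (fun v => fr v ∧ ∀ w ∈ lk G W v, ∀ p ∈ lk G (lk G W v) w,
    t {v, w, p} = 1) with hX
  set Y : Finset V := W.filter (fun v => fr v ∧ ∀ w ∈ lk G W v, ∀ p ∈ lk G (lk G W v) w,
    t {v, w, p} = 0) with hY
  have hXY : ∀ v ∈ W, fr v → v ∈ X ∨ v ∈ Y := by
    intro v hv hf
    obtain ⟨x, hx⟩ := const hNP t z ht v hv (fun w _ => hz0 v hf w)
    have h01 : ∀ a : ZMod 2, a = 0 ∨ a = 1 := by decide
    rcases h01 x with rfl | rfl
    · exact Or.inr (Finset.mem_filter.2 ⟨hv, hf, hx⟩)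
    · exact Or.inl (Finset.mem_filter.2 ⟨hv, hf, hx⟩)
  have hne : ∀ v ∈ W, ∀ w ∈ lk G W v, ∃ p, p ∈ lk G (lk G W v) w := by
    intro v hv w hw
    have h1 := ((hl v hv).2.2 w hw).1
    exact Finset.card_pos.1 (by omega)
  have htri : ∀ x y p : V, ({x, y, p} : Finset V) = {y, x, p} := by
    intro x y p
    ext u
    simp only [Finset.mem_insert, Finset.mem_singleton]
    tauto
  have hrot : ∀ x y p : V, ({x, y, p} : Finset V) = {p, x, y} := by
    intro x y p
    ext u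
    simp only [Finset.mem_insert, Finset.mem_singleton]
    tauto
  -- the two triangles of an edge with `z = 1`
  have hedge : ∀ p ∈ W, ∀ q ∈ W, G.Adj p q → z {p, q} = 1 →
      (∀ u, G.Adj p u → G.Adj q u → fr u) →
      (∃ x ∈ X, G.Adj p x ∧ G.Adj q x) ∧ (∃ y ∈ Y, G.Adj p y ∧ G.Adj q y) := by
    intro p hp q hq hpq hzpq hfree
    have hql : q ∈ lk G W p := mlk.2 ⟨hq, hpq⟩
    have h1 := ht p hp q hql
    obtain ⟨u, u', huu, hs⟩ := Finset.card_eq_two.1 ((hl p hp).2.2 q hql).1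
    rw [hs, Finset.sum_pair huu, hzpq] at h1
    have hmem : ∀ w, w ∈ lk G (lk G W p) q → w ∈ W ∧ G.Adj p w ∧ G.Adj q w := by
      intro w hw
      obtain ⟨h2, h3⟩ := mlk.1 hw
      obtain ⟨h4, h5⟩ := mlk.1 h2
      exact ⟨h4, h5, h3⟩
    have hX1 : ∀ w, w ∈ lk G (lk G W p) q → t {p, q, w} = 1 → w ∈ X := by
      intro w hw htw
      obtain ⟨g1, g2, g3⟩ := hmem w hw
      rcases hXY w g1 (hfree w g2 g3) with h | h
      · exact h
      · exfalso
        have h2 := (Finset.mem_filter.1 h).2.2 p (mlk.2 ⟨hp, g2.symm⟩) q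
          (mlk.2 ⟨mlk.2 ⟨hq, g3.symm⟩, hpq⟩)
        rw [hrot p q w, h2] at htw
        exact absurd htw (by decide)
    have hY1 : ∀ w, w ∈ lk G (lk G W p) q → t {p, q, w} = 0 → w ∈ Y := by
      intro w hw htw
      obtain ⟨g1, g2, g3⟩ := hmem w hw
      rcases hXY w g1 (hfree w g2 g3) with h | h
      · exfalso
        have h2 := (Finset.mem_filter.1 h).2.2 p (mlk.2 ⟨hp, g2.symm⟩) q
          (mlk.2 ⟨mlk.2 ⟨hq, g3.symm⟩, hpq⟩)
        rw [hrot p q w, h2] at htw
        exact absurd htw (by decide)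
      · exact h
    have hu : u ∈ lk G (lk G W p) q := by rw [hs]; simp
    have hu' : u' ∈ lk G (lk G W p) q := by rw [hs]; simp
    have hcase : ∀ x y : ZMod 2, x + y = 1 → (x = 1 ∧ y = 0) ∨ (x = 0 ∧ y = 1) := by decide
    rcases hcase _ _ h1 with ⟨e1, e2⟩ | ⟨e1, e2⟩
    · exact ⟨⟨u, hX1 u hu e1, (hmem u hu).2⟩, ⟨u', hY1 u' hu' e2, (hmem u' hu').2⟩⟩
    · exact ⟨⟨u', hX1 u' hu' e2, (hmem u' hu').2⟩, ⟨u, hY1 u hu e1, (hmem u hu).2⟩⟩
  -- the values on the square
  have e_self : ∀ p q : V, ed p q {p, q} = 1 := fun p q => if_pos rfl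
  have zab : z {a, b} = 1 := by
    simp only [hz]
    rw [e_self, ed_zero hab.ne nac, ed_zero nac hda.ne.symm,
      show ed d a {a, b} = 0 by
        rw [Finset.pair_comm]
        exact ed_zero nbd hab.ne.symm]
    decide
  have zbc : z {b, c} = 1 := by
    simp only [hz]
    rw [e_self, show ed a b {b, c} = 0 by
        rw [Finset.pair_comm]
        exact ed_zero nac.symm hbc.ne.symm,
      ed_zero hbc.ne nbd, ed_zero nbd hab.ne.symm]
    decide
  have zcd : z {c, d} = 1 := by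
    simp only [hz]
    rw [e_self, ed_zero nac.symm hbc.ne.symm,
      show ed b c {c, d} = 0 by
        rw [Finset.pair_comm]
        exact ed_zero nbd.symm hcd.ne.symm,
      ed_zero hcd.ne nac.symm]
    decide
  have zda : z {d, a} = 1 := by
    simp only [hz]
    rw [e_self, ed_zero hda.ne nbd.symm, ed_zero nbd.symm hcd.ne.symm,
      show ed c d {d, a} = 0 by
        rw [Finset.pair_comm]
        exact ed_zero nac hda.ne.symm]
    decide
  obtain ⟨xab, yab⟩ := hedge a ha b hb hab zab (fun u h1 h2 =>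
    ⟨h1.ne.symm, h2.ne.symm, fun h => hac (h ▸ h1), fun h => hbd (h ▸ h2)⟩)
  obtain ⟨xbc, ybc⟩ := hedge b hb c hc hbc zbc (fun u h1 h2 =>
    ⟨fun h => hac (h ▸ h2).symm, h1.ne.symm, h2.ne.symm, fun h => hbd (h ▸ h1)⟩)
  obtain ⟨xcd, ycd⟩ := hedge c hc d hd hcd zcd (fun u h1 h2 =>
    ⟨fun h => hac (h ▸ h1).symm, fun h => hbd (h ▸ h2).symm, h1.ne.symm, h2.ne.symm⟩)
  obtain ⟨xda, yda⟩ := hedge d hd a ha hda zda (fun u h1 h2 =>
    ⟨h2.ne.symm, fun h => hbd (h ▸ h1).symm, fun h => hac (h ▸ h2), h1.ne.symm⟩)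
  refine ⟨X, Y, ⟨ha, hb, hc, hd, hab, hbc, hcd, hda, hac, hbd, nac, nbd, ?_, ?_, ?_,
    xab, xbc, xcd, xda, yab, ybc, ycd, yda⟩⟩
  · intro x
    constructor
    · rintro (h | h)
      · exact ⟨(Finset.mem_filter.1 h).1, (Finset.mem_filter.1 h).2.1⟩
      · exact ⟨(Finset.mem_filter.1 h).1, (Finset.mem_filter.1 h).2.1⟩
    · rintro ⟨h1, h2⟩
      exact hXY x h1 h2
  · rw [Finset.disjoint_left]
    intro v hvX hvY
    have hv := (Finset.mem_filter.1 hvX).1
    obtain ⟨w, hw⟩ := (hl v hv).1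
    obtain ⟨p, hp⟩ := hne v hv w hw
    have h1 := (Finset.mem_filter.1 hvX).2.2 w hw p hp
    have h2 := (Finset.mem_filter.1 hvY).2.2 w hw p hp
    rw [h1] at h2
    exact absurd h2 (by decide)
  · intro x hx y hy hxy
    have hxW := (Finset.mem_filter.1 hx).1
    have hyW := (Finset.mem_filter.1 hy).1
    have hyl : y ∈ lk G W x := mlk.2 ⟨hyW, hxy⟩
    obtain ⟨p, hp⟩ := hne x hxW y hyl
    have h1 := (Finset.mem_filter.1 hx).2.2 y hyl p hp
    obtain ⟨g1, g2⟩ := mlk.1 hp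
    obtain ⟨g3, g4⟩ := mlk.1 g1
    have h2 := (Finset.mem_filter.1 hy).2.2 x (mlk.2 ⟨hxW, hxy.symm⟩) p
      (mlk.2 ⟨mlk.2 ⟨g3, g2⟩, g4⟩)
    rw [htri y x p, h1] at h2
    exact absurd h2 (by decide)

end Pool.Agent.Helper39K9.FV.K
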