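import Pool.Agent.Helper39K9.FV.StmK

/-!
# [OCT] the octahedron
-/

set_option autoImplicit false

namespace Pool.Agent.Helper39K9.FV.K

open Pool.Agent.W497.FS (NP Prm SConn lk lkF nn cl comps Full Eul)

namespace OctL

theorem mlk {V : Type} {G : SimpleGraph V} {W : Finset V} {v x : V} :
    x ∈ lk G W v ↔ x ∈ W ∧ G.Adj v x := by
  classical
  simp [lk]

theorem link4 {V : Type} [DecidableEq V] {G : SimpleGraph V} {W : Finset V} (h : NP G 3 W)
    {v a b c d : V} (hv : v ∈ W) (ha : a ∈ W) (hb : b ∈ W) (hc : c ∈ W) (hd : d ∈ W)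
    (va : G.Adj v a) (vb : G.Adj v b) (vc : G.Adj v c) (vd : G.Adj v d) (ab : G.Adj a b)
    (bc : G.Adj b c) (cd : G.Adj c d) (da : G.Adj d a) (ac : a ≠ c) (bd : b ≠ d) :
    ∀ x ∈ W, G.Adj v x → x = a ∨ x = b ∨ x = c ∨ x = d := by
  obtain ⟨-, -, h3⟩ := npe.1 h
  obtain ⟨-, hcon, h4⟩ := h3 v hv
  have two : ∀ x ∈ lk G W v, ∀ p q, p ∈ lk G W v → q ∈ lk G W v → G.Adj x p → G.Adj x q →
      p ≠ q → ∀ y ∈ lk G W v, G.Adj x y → y = p ∨ y = q := by
    intro x hx p q hp hq hxp hxq hpq y hy hxy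
    obtain ⟨e, f, hef, heq⟩ := Finset.card_eq_two.1 (h4 x hx).1
    have h5 : p ∈ lk G (lk G W v) x := mlk.2 ⟨hp, hxp⟩
    have h6 : q ∈ lk G (lk G W v) x := mlk.2 ⟨hq, hxq⟩
    have h7 : y ∈ lk G (lk G W v) x := mlk.2 ⟨hy, hxy⟩
    rw [heq, Finset.mem_insert, Finset.mem_singleton] at h5 h6 h7
    rcases h5 with rfl | rfl <;> rcases h6 with rfl | rfl <;> rcases h7 with rfl | rfl <;>
      first
        | exact absurd rfl hpq
        | exact Or.inl rfl
        | exact Or.inr rfl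
  have La : a ∈ lk G W v := mlk.2 ⟨ha, va⟩
  have Lb : b ∈ lk G W v := mlk.2 ⟨hb, vb⟩
  have Lc : c ∈ lk G W v := mlk.2 ⟨hc, vc⟩
  have Ld : d ∈ lk G W v := mlk.2 ⟨hd, vd⟩
  intro x hx hvx
  by_contra hxn
  have hxL : x ∈ lk G W v := mlk.2 ⟨hx, hvx⟩
  have hne : ({a, b, c, d} : Finset V) ≠ lk G W v := by
    intro he
    rw [← he] at hxL
    simp only [Finset.mem_insert, Finset.mem_singleton] at hxL
    exact hxn hxL
  have hsub : ({a, b, c, d} : Finset V) ⊆ lk G W v := by
    intro y hy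
    simp only [Finset.mem_insert, Finset.mem_singleton] at hy
    rcases hy with rfl | rfl | rfl | rfl <;> assumption
  obtain ⟨y, hy, z, hz, hzn, hyz⟩ := hcon {a, b, c, d} hsub ⟨a, by simp⟩ hne
  simp only [Finset.mem_insert, Finset.mem_singleton] at hy hzn
  rcases hy with rfl | rfl | rfl | rfl
  · rcases two y La b d Lb Ld ab da.symm bd z hz hyz with h5 | h5 <;> exact hzn (by tauto)
  · rcases two y Lb a c La Lc ab.symm bc ac z hz hyz with h5 | h5 <;> exact hzn (by tauto)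
  · rcases two y Lc b d Lb Ld bc.symm cd bd z hz hyz with h5 | h5 <;> exact hzn (by tauto)
  · rcases two y Ld a c La Lc da cd.symm ac z hz hyz with h5 | h5 <;> exact hzn (by tauto)

end OctL

open OctL in
theorem oct : S_OCT := by
  intro V _ G W v w a b c d h hv hw ha hb hc hd ab bc cd da ac bd vw va vb vc vd wa wb wc wd
  obtain ⟨-, hcon, -⟩ := npe.1 h
  have Nv := link4 h hv ha hb hc hd va vb vc vd ab bc cd da ac bd
  have Nw := link4 h hw ha hb hc hd wa wb wc wd ab bc cd da ac bd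
  have Na := link4 h ha hv hb hw hd va.symm ab wa.symm da.symm vb wb.symm wd vd.symm vw bd
  have Nb := link4 h hb hv ha hw hc vb.symm ab.symm wb.symm bc va wa.symm wc vc.symm vw ac
  have Nc := link4 h hc hv hb hw hd vc.symm bc.symm wc.symm cd vb wb.symm wd vd.symm vw bd
  have Nd := link4 h hd hv ha hw hc vd.symm da wd.symm cd.symm va wa.symm wc vc.symm vw ac
  intro z hz hzv hzw
  by_contra hzn
  have hne : ({v, w, a, b, c, d} : Finset V) ≠ W := by
    intro he
    rw [← he] at hz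
    simp only [Finset.mem_insert, Finset.mem_singleton] at hz
    rcases hz with h1 | h1 | rfl | rfl | rfl | rfl
    · exact hzv h1
    · exact hzw h1
    · exact hzn ⟨va, wa⟩
    · exact hzn ⟨vb, wb⟩
    · exact hzn ⟨vc, wc⟩
    · exact hzn ⟨vd, wd⟩
  have hsub : ({v, w, a, b, c, d} : Finset V) ⊆ W := by
    intro y hy
    simp only [Finset.mem_insert, Finset.mem_singleton] at hy
    rcases hy with rfl | rfl | rfl | rfl | rfl | rfl <;> assumption
  obtain ⟨y, hy, x, hx, hxn, hyx⟩ := hcon {v, w, a, b, c, d} hsub ⟨v, by simp⟩ hne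
  simp only [Finset.mem_insert, Finset.mem_singleton] at hy hxn
  rcases hy with rfl | rfl | rfl | rfl | rfl | rfl
  · have := Nv x hx hyx; exact hxn (by tauto)
  · have := Nw x hx hyx; exact hxn (by tauto)
  · have := Na x hx hyx; exact hxn (by tauto)
  · have := Nb x hx hyx; exact hxn (by tauto)
  · have := Nc x hx hyx; exact hxn (by tauto)
  · have := Nd x hx hyx; exact hxn (by tauto)

end Pool.Agent.Helper39K9.FV.K
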