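import Pool.Agent.Helper39K9.FV.StmK

/-! # Flag 2-spheres: [SPQ] (helper61) -/

set_option autoImplicit false

namespace Pool.Agent.Helper39K9.FV.K

open Pool.Agent.R782.Bal (SQ)
open Pool.Agent.W497.FS (NP Prm SConn lk lkF nn cl comps Full Eul)
open Pool.Agent.R781.VS (con NoSq)

namespace SpqL

/-- full subgraphs of a full subgraph, up to a change of the graph -/
def isoOf {V : Type} (G : SimpleGraph V) (L : Set V) {S : Set V} (K : SimpleGraph S) (T : Set S)
    (h : ∀ w, w ∈ L ↔ ∃ hw : w ∈ S, (⟨w, hw⟩ : S) ∈ T)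
    (hK : ∀ p q : S, p ∈ T → q ∈ T → (K.Adj p q ↔ G.Adj p q)) : G.induce L ≃g K.induce T where
  toFun w := ⟨⟨w.1, ((h w.1).1 w.2).1⟩, ((h w.1).1 w.2).2⟩
  invFun w := ⟨w.1.1, (h w.1.1).2 ⟨w.1.2, w.2⟩⟩
  left_inv _ := rfl
  right_inv _ := rfl
  map_rel_iff' {a b} := hK _ _ ((h a.1).1 a.2).2 ((h b.1).1 b.2).2

end SpqL

open SpqL in
theorem spq : S_SPQ := by
  intro V _ G b W s t hs ht hst hns hQc hL
  classical
  set K : SimpleGraph (W : Set V) := G.induce (W : Set V) with hKdef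
  have hK : ∀ p q : (W : Set V), K.Adj p q ↔ G.Adj p q := fun p q => Iff.rfl
  let s' : (W : Set V) := ⟨s, hs⟩
  let t' : (W : Set V) := ⟨t, ht⟩
  show SQ b K
  refine SQ.split K s' t' hst ?_ ?_ ?_
  · intro p q h1 h2 h3 h4 h5 h6 h7
    exact hns p p.2 q q.2 h1 h2 (fun h => h3 (Subtype.ext h)) h4 h5 (fun h => h6 (Subtype.ext h)) h7
  · refine SQ.iso _ _ ⟨isoOf (con G s t) ((W.erase t : Finset V) : Set V) (con K s' t')
      ({t'}ᶜ : Set (W : Set V)) ?_ ?_⟩ hQc
    · intro w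
      rw [Finset.mem_coe, Finset.mem_erase]
      constructor
      · rintro ⟨h1, h2⟩
        exact ⟨h2, fun h => h1 (congrArg Subtype.val h)⟩
      · rintro ⟨h1, h2⟩
        exact ⟨fun h => h2 (Subtype.ext h), h1⟩
    · intro p q _ _
      constructor
      · rintro ⟨h1, h2, h3, h4⟩
        refine ⟨fun h => h1 (Subtype.ext h), fun h => h2 (Subtype.ext h),
          fun h => h3 (Subtype.ext h), ?_⟩
        rcases h4 with h | h | h
        · exact Or.inl h
        · exact Or.inr (Or.inl ⟨congrArg Subtype.val h.1, h.2⟩)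
        · exact Or.inr (Or.inr ⟨congrArg Subtype.val h.1, h.2⟩)
      · rintro ⟨h1, h2, h3, h4⟩
        refine ⟨fun h => h1 (congrArg Subtype.val h), fun h => h2 (congrArg Subtype.val h),
          fun h => h3 (congrArg Subtype.val h), ?_⟩
        rcases h4 with h | h | h
        · exact Or.inl h
        · exact Or.inr (Or.inl ⟨Subtype.ext h.1, h.2⟩)
        · exact Or.inr (Or.inr ⟨Subtype.ext h.1, h.2⟩)
  · have hQL := hL (W.filter fun w => G.Adj s w ∧ G.Adj t w) (fun w => by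
      rw [Finset.mem_filter])
    refine SQ.iso _ _ ⟨isoOf G ((W.filter fun w => G.Adj s w ∧ G.Adj t w : Finset V) : Set V) K
      (K.neighborSet s' ∩ K.neighborSet t') ?_ ?_⟩ hQL
    · intro w
      rw [Finset.mem_coe, Finset.mem_filter]
      constructor
      · rintro ⟨h1, h2, h3⟩
        exact ⟨h1, h2, h3⟩
      · rintro ⟨h1, h2, h3⟩
        exact ⟨h1, h2, h3⟩
    · intro p q _ _
      exact hK p q

end Pool.Agent.Helper39K9.FV.K
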