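import Pool.Agent.Helper39K9.FV.Ts
import Pool.Agent.Helper39K9.FV.Hom
import Pool.Agent.Helper39K9.FV.Jor
import Pool.Agent.Helper39K9.FV.Ce
import Pool.Agent.Helper39K9.FV.Cl
import Pool.Agent.Helper39K9.FV.Cs
import Pool.Agent.Helper39K9.FV.Cun
import Pool.Agent.Helper39K9.FV.Cut
import Pool.Agent.Helper39K9.FV.Oct
import Pool.Agent.Helper39K9.FV.Spq
import Pool.Agent.Helper39K9.FV.Glq
import Pool.Agent.Helper39K9.FV.Cgr
import Pool.Agent.Helper39K9.FV.Eu
import Pool.Agent.Helper39K9.FV.Npc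
import Pool.Agent.Helper39K9.FV.Euc

set_option autoImplicit false

namespace Pool.Agent.Helper39K9.FV.K

open Pool.Agent.R782.Bal (SQ)

theorem lk_ : LK where
  hom := hom
  jor := jor hom
  ce := ce
  cl := cl_
  cs := cs
  cun := cun
  cus := cus
  cut := cut
  oct := oct
  spq := spq
  glq := glq
  cgr := cgr

/-- tame homology spheres are in the class `SQ` -/
theorem final6 {n : ℕ} {V : Type} [Fintype V] [LinearOrder V] {G : SimpleGraph V}
    (hS : Pool.Agent.TH652.Above.HSph n G) (h : Tame G n Finset.univ) : SQ (n / 2 + 1) G := by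
  have h2 : SQ (n / 2 + 1) (G.induce ((Finset.univ : Finset V) : Set V)) :=
    tame_qqs lv vrt eu spq npc euc (fun G W hW => ind lv vdl lk_ _ G W rfl hW) h (brg V G n hS) (eulH' hS)
  refine SQ.iso _ _ ⟨?_⟩ h2
  rw [Finset.coe_univ]
  exact SimpleGraph.induceUnivIso G

/-- at most four-dimensional spheres ... -/
theorem tame_four {V : Type} (G : SimpleGraph V) {r : ℕ} (hr : r ≤ 4) (A : Finset V) :
    Tame G r A := by
  rcases Nat.lt_or_ge r 4 with h | h
  · exact Tame.low G r A (by omega)
  · obtain rfl : r = 4 := by omega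
    refine Tame.loc G 4 A ∅ (by decide) (fun T hT _ => ?_) fun F _ _ ho _ L _ => ?_
    · rw [Finset.subset_empty.1 hT]
      simp
    · refine Tame.low G _ L ?_
      rw [Nat.odd_iff] at ho
      omega

end Pool.Agent.Helper39K9.FV.K
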