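import Mathlib

/-!
# Tame flag complexes
-/

set_option autoImplicit false

namespace Pool.Agent.Helper39K9.FV

/-- A class of full subcomplexes `A` of the flag complex of the graph `G`; `r` stands for the rank of `A` (the
dimension plus one). -/
inductive Tame {V : Type} (G : SimpleGraph V) : ℕ → Finset V → Prop
  /-- rank at most two -/
  | circle (r : ℕ) (A : Finset V) : r ≤ 2 → Tame G r A
  /-- at most `(5 r + 4) / 2` vertices -/
  | few (r : ℕ) (A : Finset V) : 2 * A.card ≤ 5 * r + 4 → Tame G r A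
  /-- at most `3 r - 1` vertices, not a join (the complement of the graph is connected) -/
  | prime (r : ℕ) (A : Finset V) : A.card + 1 ≤ 3 * r →
      (∀ D ⊆ A, D.Nonempty → D ≠ A → ∃ a ∈ D, ∃ b ∈ A, b ∉ D ∧ ¬ G.Adj a b) → Tame G r A
  /-- suspensions, with the poles `x` and `y` -/
  | susp (r : ℕ) (A : Finset V) (x y : V) : x ∈ A → y ∈ A → x ≠ y → ¬ G.Adj x y →
      (∀ w ∈ A, w ≠ x → w ≠ y → G.Adj x w ∧ G.Adj y w) → Tame G r A
  /-- joins of tame complexes `A` of rank `r` and `B` of rank `s` -/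
  | join (r s : ℕ) (A B C : Finset V) : (∀ x, x ∈ C ↔ x ∈ A ∨ x ∈ B) → (∀ a ∈ A, ∀ b ∈ B, G.Adj a b) →
      (∃ F ⊆ A, G.IsClique (F : Set V) ∧ F.card = r) → (∃ F ⊆ B, G.IsClique (F : Set V) ∧ F.card = s) →
      Tame G r A → Tame G s B → Tame G (r + s) C
  /-- even rank `r`: all simplices in the set `B` (of exceptional vertices) have at most `r / 2` vertices, and the
  link `L` in `A` of every simplex `F` of `A` with an odd number of vertices, which is not contained in `B`, is tame -/
  | loc (r : ℕ) (A B : Finset V) : Even r → (∀ T ⊆ B, G.IsClique (T : Set V) → 2 * T.card ≤ r) →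
      (∀ F ⊆ A, G.IsClique (F : Set V) → Odd F.card → ¬ F ⊆ B →
        ∀ L : Finset V, (∀ x, x ∈ L ↔ x ∈ A ∧ ∀ y ∈ F, G.Adj y x) → Tame G (r - F.card) L) → Tame G r A

end Pool.Agent.Helper39K9.FV
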