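import Pool.Agent.Helper39K9.FV.Loc2
import Pool.Agent.Helper39K9.FV.TameDef

set_option autoImplicit false

namespace Pool.Agent.Helper39K9.FV

open Pool.Agent.W497.FS (NP Prm lk lkF nn cl comps Full)
open Pool.Agent.W497
open Pool.Agent.R782.Bal (SQ BR)

section

variable {V : Type} [DecidableEq V] {G : SimpleGraph V}

theorem insert_cl {W F : Finset V} {v : V} (hv : v ∈ W) (hF : F ∈ cl G (lk G W v)) :
    v ∉ F ∧ insert v F ∈ cl G W ∧ lkF G W (insert v F) = lkF G (lk G W v) F := by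
  obtain ⟨h1, h2⟩ := FS.mem_cl.1 hF
  refine ⟨fun h => G.loopless.irrefl v (FS.mem_lk.1 (h1 h)).2, ?_, ?_⟩
  · rw [FS.mem_cl]
    refine ⟨fun x hx => ?_, ?_⟩
    · rcases Finset.mem_insert.1 hx with rfl | hx
      · exact hv
      · exact (FS.mem_lk.1 (h1 hx)).1
    · intro a ha b hb hab
      rcases Finset.mem_insert.1 ha with ha1 | ha1 <;> rcases Finset.mem_insert.1 hb with hb1 | hb1
      · exact absurd (ha1.trans hb1.symm) hab
      · rw [ha1]; exact (FS.mem_lk.1 (h1 hb1)).2
      · rw [hb1]; exact (FS.mem_lk.1 (h1 ha1)).2.symm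
      · exact h2 a ha1 b hb1 hab
  · ext x
    rw [FS.mem_lkF, FS.mem_lkF, FS.mem_lk]
    constructor
    · rintro ⟨ha, hb⟩
      exact ⟨⟨ha, hb v (Finset.mem_insert_self _ _)⟩, fun y hy => hb y (Finset.mem_insert_of_mem hy)⟩
    · rintro ⟨⟨ha, hb⟩, hc⟩
      refine ⟨ha, fun y hy => ?_⟩
      rcases Finset.mem_insert.1 hy with rfl | hy
      · exact hb
      · exact hc y hy

/-- all full subcomplexes -/
theorem herq (l : Lv) : ∀ (d : ℕ) (W : Finset V), NP G d W →
    (∀ F ∈ cl G W, Odd (d - F.card) → QQ ((d - F.card) / 2 + 1) G (lkF G W F)) →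
    ∀ A ⊆ W, QQ (d / 2 + 1) G A := by
  intro d
  induction d with
  | zero =>
    intro W hW _ A hA
    have h0 : W = ∅ := hW
    rw [h0, Finset.subset_empty] at hA
    rw [hA]
    exact (l.emp V G).1
  | succ r ih =>
    intro W hW hF
    have hlk : ∀ v ∈ W, ∀ A ⊆ lk G W v, QQ (r / 2 + 1) G A := by
      intro v hv
      refine ih (lk G W v) (hW.lk hv) fun F hFl ho => ?_
      obtain ⟨hvF, hin, h4⟩ := insert_cl hv hFl
      have hc : (insert v F).card = F.card + 1 := Finset.card_insert_of_notMem hvF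
      have e : r + 1 - (insert v F).card = r - F.card := by omega
      have h3 := hF (insert v F) hin (by rw [e]; exact ho)
      rwa [e, h4] at h3
    rcases Nat.even_or_odd' r with ⟨m, hm | hm⟩
    · have e : (r + 1) / 2 + 1 = r / 2 + 1 := by omega
      rw [e]
      refine l.odd V G _ W ?_ hlk
      rw [← e]
      have h5 := hF ∅ (by rw [FS.mem_cl]; exact ⟨Finset.empty_subset _, by simp⟩)
        (by rw [Finset.card_empty]; exact ⟨m, by omega⟩)
      rw [Finset.card_empty, Nat.sub_zero] at h5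
      have h6 : lkF G W ∅ = W := by
        ext x
        rw [FS.mem_lkF]
        simp
      rwa [h6] at h5
    · have e : (r + 1) / 2 + 1 = r / 2 + 1 + 1 := by omega
      rw [e]
      exact l.evn V G _ W hlk

/-- even rank, exceptional vertices in `B` -/
theorem herq2 (l : Lv) (vrt : S_VRT) {k : ℕ} {W B : Finset V} (hW : NP G (2 * k + 2) W)
    (hB : ∀ T ⊆ B, G.IsClique (T : Set V) → T.card ≤ k + 1)
    (hF : ∀ F ∈ cl G W, Odd F.card → ¬ F ⊆ B →
      QQ ((2 * k + 2 - F.card) / 2 + 1) G (lkF G W F)) :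
    ∀ A ⊆ W, QQ (k + 2) G A := by
  have hlk : ∀ v ∈ W, v ∉ B → ∀ A ⊆ lk G W v, QQ (k + 1) G A := by
    intro v hv hvB
    have h0 := herq (G := G) l (2 * k + 1) (lk G W v) (hW.lk hv) (fun F hFl ho => ?_)
    · have e : (2 * k + 1) / 2 + 1 = k + 1 := by omega
      rwa [e] at h0
    · obtain ⟨hvF, hin, h4⟩ := insert_cl hv hFl
      have hc : (insert v F).card = F.card + 1 := Finset.card_insert_of_notMem hvF
      have hle : F.card ≤ 2 * k + 1 := (hW.lk hv).card_le hFl
      have h3 := hF (insert v F) hin (by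
        rw [hc]
        rw [Nat.odd_iff] at ho ⊢
        omega) (fun hs => hvB (hs (Finset.mem_insert_self _ _)))
      have e : 2 * k + 2 - (insert v F).card = 2 * k + 1 - F.card := by omega
      rwa [e, h4] at h3
  intro A
  induction A using Finset.strongInduction with
  | _ A ih =>
    intro hA
    by_cases hAB : A ⊆ B
    · exact dimq fun T hT hc => hB T (hT.trans hAB) hc
    · obtain ⟨v, hvA, hvB⟩ := Finset.not_subset.1 hAB
      refine vrt V G (k + 2) A v hvA (ih _ (Finset.erase_ssubset hvA) ((Finset.erase_subset _ _).trans hA)) ?_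
      exact hlk v (hA hvA) hvB _ fun x hx => by
        obtain ⟨h1, h2⟩ := FS.mem_lk.1 hx
        exact FS.mem_lk.2 ⟨hA h1, h2⟩

theorem susp_qq (l : Lv) {A : Finset V} {x y : V} (hx : x ∈ A) (hy : y ∈ A) (hxy : x ≠ y)
    (hn : ¬ G.Adj x y) (h : ∀ w ∈ A, w ≠ x → w ≠ y → G.Adj x w ∧ G.Adj y w) : QQ 0 G A := by
  refine l.sus _ (G.induce (A : Set V)) ⟨x, hx⟩ ⟨y, hy⟩ (fun h => hxy (congrArg Subtype.val h)) hn
    (fun w hw1 hw2 => ?_)
  exact h w w.2 (fun e => hw1 (Subtype.ext e)) (fun e => hw2 (Subtype.ext e))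

theorem tame_qq (l : Lv) (vrt : S_VRT) {r : ℕ} {A : Finset V} (h : Tame G r A) :
    NP G r A → QQ (r / 2 + 1) G A := by
  induction h with
  | circle r A hr =>
    intro hN
    rcases (show r = 0 ∨ r = 1 ∨ r = 2 by omega) with rfl | rfl | rfl
    · have h0 : A = ∅ := hN
      rw [h0]
      exact (l.emp V G).1
    · exact l.rk1 V G A hN A (Finset.Subset.refl _)
    · exact r2 l hN A (Finset.Subset.refl _)
  | few r A hc => exact fun hN => main_qq l hN (Or.inl hc)
  | prime r A hc hp =>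
    intro hN
    obtain ⟨e, rfl⟩ : ∃ e, r = e + 1 := ⟨r - 1, by omega⟩
    exact prime l hN ⟨hN.nonempty, hp⟩ (Or.inr (Or.inl hc))
  | susp r A x y hx hy hxy hn h =>
    exact fun _ => l.mon V G 0 _ A (Nat.zero_le _) (susp_qq l hx hy hxy hn h)
  | join r s A B C hC hAB hrA hsB _ _ ih1 ih2 =>
    intro hN
    obtain rfl : C = A ∪ B := by
      ext x
      rw [hC, Finset.mem_union]
    obtain ⟨d₁, d₂, hd, hA, hB⟩ := NP.split hAB hN
    obtain ⟨F, hF, hFc, rfl⟩ := hrA
    obtain ⟨F', hF', hFc', rfl⟩ := hsB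
    have k1 := hA.card_le (mem_cl_iff.2 ⟨hF, hFc⟩)
    have k2 := hB.card_le (mem_cl_iff.2 ⟨hF', hFc'⟩)
    obtain rfl : F.card = d₁ := by omega
    obtain rfl : F'.card = d₂ := by omega
    exact l.mon V G _ _ _ (by omega) (l.jon V G _ _ A B hAB (ih1 hA) (ih2 hB))
  | loc r A B hr hB _ ih =>
    intro hN
    obtain ⟨m, hm⟩ := hr
    rcases m with _ | k
    · obtain rfl : r = 0 := by omega
      have h0 : A = ∅ := hN
      rw [h0]
      exact (l.emp V G).1
    · obtain rfl : r = 2 * k + 2 := by omega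
      have e : (2 * k + 2) / 2 + 1 = k + 2 := by omega
      rw [e]
      refine herq2 l vrt hN (B := B) (fun T hT hc => ?_) (fun F hF ho hFB => ?_) _
        (Finset.Subset.refl _)
      · have := hB T hT hc
        omega
      · obtain ⟨h2, h3⟩ := mem_cl_iff.1 hF
        obtain ⟨e', he', hNP, -⟩ := hN.lkF hF
        obtain rfl : e' = 2 * k + 2 - F.card := by omega
        exact ih F h2 h3 ho hFB (lkF G A F) (fun x => FS.mem_lkF) hNP

end

/-- the theorem for the class `SQ` -/
theorem final4 {n : ℕ} {V : Type} [Fintype V] [LinearOrder V] {G : SimpleGraph V}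
    (hS : Pool.Agent.TH652.Above.HSph n G) (h : Tame G n Finset.univ) : SQ (n / 2 + 1) G := by
  have h2 : SQ (n / 2 + 1) (G.induce ((Finset.univ : Finset V) : Set V)) :=
    tame_qq lv vrt h (brg V G n hS)
  refine SQ.iso _ _ ⟨?_⟩ h2
  rw [Finset.coe_univ]
  exact SimpleGraph.induceUnivIso G

end Pool.Agent.Helper39K9.FV
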