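import Pool.Agent.Helper39K9.FV.StmK
import Pool.Agent.Helper39K9.FV.Tame

set_option autoImplicit false

namespace Pool.Agent.Helper39K9.FV.K

open Pool.Agent.W497.FS (NP Prm SConn lk lkF nn cl comps Full Eul)
open Pool.Agent.W497
open Pool.Agent.R781.VS (con)

/-- the leaves -/
structure LK : Prop where
  hom : S_HOM
  jor : S_JOR
  ce : S_CE
  cl : S_CL
  cs : S_CS
  cun : S_CUN
  cus : S_CUS
  cut : S_CUT
  oct : S_OCT
  spq : S_SPQ
  glq : S_GLQ
  cgr : S_CGR

variable {V : Type} [DecidableEq V] {G : SimpleGraph V}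

/-- squares -/
theorem sq4 (l : Lv) {a b c d : V} (ab : G.Adj a b) (bc : G.Adj b c) (cd : G.Adj c d)
    (da : G.Adj d a) (ac : ¬ G.Adj a c) (nac : a ≠ c) : QQ 0 G {a, b, c, d} := by
  refine susp_qq l (x := a) (y := c) (by simp) (by simp) nac ac fun w hw h1 h2 => ?_
  simp only [Finset.mem_insert, Finset.mem_singleton] at hw
  rcases hw with rfl | rfl | rfl | rfl
  · exact absurd rfl h1
  · exact ⟨ab, bc.symm⟩
  · exact absurd rfl h2
  · exact ⟨da.symm, cd⟩

theorem Cut.swap {W X Y : Finset V} {a b c d : V} (h : Cut G W X Y a b c d) :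
    Cut G W Y X a b c d where
  ha := h.ha
  hb := h.hb
  hc := h.hc
  hd := h.hd
  ab := h.ab
  bc := h.bc
  cd := h.cd
  da := h.da
  ac := h.ac
  bd := h.bd
  nac := h.nac
  nbd := h.nbd
  un x := by rw [or_comm]; exact h.un x
  dj := h.dj.symm
  no x hx y hy hxy := h.no y hy x hx hxy.symm
  xab := h.yab
  xbc := h.ybc
  xcd := h.ycd
  xda := h.yda
  yab := h.xab
  ybc := h.xbc
  ycd := h.xcd
  yda := h.xda

/-- the cone -/
def coneG (G : SimpleGraph V) (y a b c d : V) : SimpleGraph V where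
  Adj u v := (u ≠ y ∧ v ≠ y ∧ G.Adj u v) ∨ (u = y ∧ v ≠ y ∧ (v = a ∨ v = b ∨ v = c ∨ v = d)) ∨
    (v = y ∧ u ≠ y ∧ (u = a ∨ u = b ∨ u = c ∨ u = d))
  symm := ⟨by
    rintro u v (⟨h1, h2, h3⟩ | h | h)
    · exact Or.inl ⟨h2, h1, h3.symm⟩
    · exact Or.inr (Or.inr h)
    · exact Or.inr (Or.inl h)⟩
  loopless := ⟨by
    rintro u (⟨_, _, h⟩ | ⟨h1, h2, _⟩ | ⟨h1, h2, _⟩)
    · exact h.ne rfl
    · exact h2 h1
    · exact h2 h1⟩

theorem Cut.notin {W X Y : Finset V} {a b c d y : V} (h : Cut G W X Y a b c d) (hy : y ∈ Y) :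
    y ∈ W ∧ y ≠ a ∧ y ≠ b ∧ y ≠ c ∧ y ≠ d := (h.un y).1 (Or.inr hy)

theorem cone_coneG {W X Y : Finset V} {a b c d y : V} (h : Cut G W X Y a b c d) (hy : y ∈ Y) :
    Cone G (coneG G y a b c d) y a b c d := by
  obtain ⟨-, h1, h2, h3, h4⟩ := h.notin hy
  intro u v
  show _ ∨ _ ∨ _ ↔ _
  constructor
  · rintro (h | ⟨h5, _, h6⟩ | ⟨h5, _, h6⟩)
    · exact Or.inl h
    · exact Or.inr (Or.inl ⟨h5, h6⟩)
    · exact Or.inr (Or.inr ⟨h5, h6⟩)
  · rintro (h | ⟨h5, h6⟩ | ⟨h5, h6⟩)
    · exact Or.inl h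
    · refine Or.inr (Or.inl ⟨h5, ?_, h6⟩)
      rintro rfl
      rcases h6 with rfl | rfl | rfl | rfl
      · exact h1 rfl
      · exact h2 rfl
      · exact h3 rfl
      · exact h4 rfl
    · refine Or.inr (Or.inr ⟨h5, ?_, h6⟩)
      rintro rfl
      rcases h6 with rfl | rfl | rfl | rfl
      · exact h1 rfl
      · exact h2 rfl
      · exact h3 rfl
      · exact h4 rfl

theorem q4_card {W X Y : Finset V} {a b c d : V} (h : Cut G W X Y a b c d) :
    ({a, b, c, d} : Finset V).card = 4 := by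
  have h1 := h.ab.ne
  have h2 := h.bc.ne
  have h3 := h.cd.ne
  have h4 := h.da.ne
  have h5 := h.nac
  have h6 := h.nbd
  rw [Finset.card_insert_of_notMem, Finset.card_insert_of_notMem, Finset.card_pair h3]
  · simp only [Finset.mem_insert, Finset.mem_singleton, not_or]
    exact ⟨h2, h6⟩
  · simp only [Finset.mem_insert, Finset.mem_singleton, not_or]
    exact ⟨h1, h5, h4.symm⟩

theorem x_disj {W X Y : Finset V} {a b c d : V} (h : Cut G W X Y a b c d) :
    Disjoint X {a, b, c, d} := by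
  rw [Finset.disjoint_left]
  intro x hx hq
  obtain ⟨-, h1, h2, h3, h4⟩ := (h.un x).1 (Or.inl hx)
  simp only [Finset.mem_insert, Finset.mem_singleton] at hq
  rcases hq with rfl | rfl | rfl | rfl
  · exact h1 rfl
  · exact h2 rfl
  · exact h3 rfl
  · exact h4 rfl

theorem w1_card {W X Y : Finset V} {a b c d y : V} (h : Cut G W X Y a b c d) (hy : y ∈ Y) :
    (insert y (X ∪ {a, b, c, d}) : Finset V).card = X.card + 5 := by
  obtain ⟨-, h1, h2, h3, h4⟩ := h.notin hy
  rw [Finset.card_insert_of_notMem, Finset.card_union_of_disjoint (x_disj h), q4_card h]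
  rw [Finset.mem_union]
  rintro (hx | hq)
  · exact Finset.disjoint_left.1 h.dj hx hy
  · simp only [Finset.mem_insert, Finset.mem_singleton] at hq
    rcases hq with rfl | rfl | rfl | rfl
    · exact h1 rfl
    · exact h2 rfl
    · exact h3 rfl
    · exact h4 rfl

theorem w_eq {W X Y : Finset V} {a b c d : V} (h : Cut G W X Y a b c d) :
    W = (X ∪ {a, b, c, d}) ∪ (Y ∪ {a, b, c, d}) := by
  ext x
  simp only [Finset.mem_union, Finset.mem_insert, Finset.mem_singleton]
  constructor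
  · intro hx
    by_cases ha : x = a
    · exact Or.inl (Or.inr (Or.inl ha))
    by_cases hb : x = b
    · exact Or.inl (Or.inr (Or.inr (Or.inl hb)))
    by_cases hc : x = c
    · exact Or.inl (Or.inr (Or.inr (Or.inr (Or.inl hc))))
    by_cases hd : x = d
    · exact Or.inl (Or.inr (Or.inr (Or.inr (Or.inr hd))))
    rcases (h.un x).2 ⟨hx, ha, hb, hc, hd⟩ with h1 | h1
    · exact Or.inl (Or.inl h1)
    · exact Or.inr (Or.inl h1)
  · have hq : (x = a ∨ x = b ∨ x = c ∨ x = d) → x ∈ W := by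
      rintro (rfl | rfl | rfl | rfl)
      · exact h.ha
      · exact h.hb
      · exact h.hc
      · exact h.hd
    rintro ((h1 | h1) | (h1 | h1))
    · exact ((h.un x).1 (Or.inl h1)).1
    · exact hq h1
    · exact ((h.un x).1 (Or.inr h1)).1
    · exact hq h1

theorem w_card {W X Y : Finset V} {a b c d : V} (h : Cut G W X Y a b c d) :
    W.card = X.card + Y.card + 4 := by
  have h1 : W = X ∪ (Y ∪ {a, b, c, d}) := by
    rw [w_eq h]
    ext x
    simp only [Finset.mem_union]
    tauto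
  rw [h1, Finset.card_union_of_disjoint, Finset.card_union_of_disjoint (x_disj h.swap), q4_card h]
  · omega
  · rw [Finset.disjoint_union_right]
    exact ⟨h.dj, x_disj h⟩

/-- one half of the sphere -/
theorem half (l : Lv) (vdl : S_VDL) (k : LK) {W X Y : Finset V} {a b c d y : V}
    (h : Cut G W X Y a b c d) (hy : y ∈ Y)
    (hQ : QQ 2 (coneG G y a b c d) (insert y (X ∪ {a, b, c, d}))) :
    QQ 2 G (X ∪ {a, b, c, d}) := by
  obtain ⟨hyW, h1, h2, h3, h4⟩ := h.notin hy
  set G₁ := coneG G y a b c d with hG₁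
  have hC := cone_coneG h hy
  have hyX : y ∉ X ∪ ({a, b, c, d} : Finset V) := by
    rw [Finset.mem_union]
    rintro (hx | hq)
    · exact Finset.disjoint_left.1 h.dj hx hy
    · simp only [Finset.mem_insert, Finset.mem_singleton] at hq
      rcases hq with rfl | rfl | rfl | rfl
      · exact h1 rfl
      · exact h2 rfl
      · exact h3 rfl
      · exact h4 rfl
  have hadj : ∀ u v, u ≠ y → v ≠ y → (G.Adj u v ↔ G₁.Adj u v) := by
    intro u v hu hv
    rw [hC u v]
    constructor
    · intro h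
      exact Or.inl ⟨hu, hv, h⟩
    · rintro (h | h | h)
      · exact h.2.2
      · exact absurd h.1 hu
      · exact absurd h.1 hv
  have hl : lk G₁ (insert y (X ∪ {a, b, c, d})) y = {a, b, c, d} := by
    ext x
    rw [FS.mem_lk, hC]
    simp only [Finset.mem_insert, Finset.mem_singleton, Finset.mem_union]
    constructor
    · rintro ⟨-, h | h | h⟩
      · exact absurd rfl h.1
      · exact h.2
      · rcases h.2 with rfl | rfl | rfl | rfl
        · exact absurd rfl h1
        · exact absurd rfl h2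
        · exact absurd rfl h3
        · exact absurd rfl h4
    · intro h
      exact ⟨Or.inr (Or.inr h), Or.inr (Or.inl ⟨trivial, h⟩)⟩
  have hq0 : QQ 0 G₁ {a, b, c, d} :=
    sq4 l ((hadj _ _ h1.symm h2.symm).1 h.ab) ((hadj _ _ h2.symm h3.symm).1 h.bc)
      ((hadj _ _ h3.symm h4.symm).1 h.cd) ((hadj _ _ h4.symm h1.symm).1 h.da)
      (fun h5 => h.ac ((hadj _ _ h1.symm h3.symm).2 h5)) h.nac
  have h5 := vdl V G₁ 2 _ y (Finset.mem_insert_self _ _) hQ (by
    rw [hl]
    exact l.mon V G₁ 0 2 _ (by omega) hq0)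
  rw [Finset.erase_insert hyX] at h5
  exact k.cgr V G₁ G 2 _ (fun u hu v hv => (hadj u v (fun e => hyX (e ▸ hu))
    (fun e => hyX (e ▸ hv))).symm) h5

/-- **all flag 2-spheres** -/
theorem ind (l : Lv) (vdl : S_VDL) (k : LK) : ∀ (N : ℕ) (G : SimpleGraph V) (W : Finset V),
    W.card = N → Sp G W → QQ 2 G W := by
  intro N
  induction N using Nat.strong_induction_on with
  | _ N ih =>
  intro G W hN hS
  obtain ⟨hW, hdg⟩ := hS
  obtain ⟨hne, hconn, hv⟩ := npe.1 hW
  have hrk1 : ∀ s ∈ W, ∀ t ∈ lk G W s, NP G 1 (lk G (lk G W s) t) := fun s hs t ht =>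
    (hv s hs).2.2 t ht
  by_cases hA : ∃ s ∈ W, ∃ t ∈ W, G.Adj s t ∧ NS G W s t
  · obtain ⟨s, hs, t, ht, hst, hNS⟩ := hA
    have hcl := k.cl V G W s t hW hs ht hst hNS
    have hce := k.ce V G W s t hW hs ht hst hNS
    have hcs := k.cs V G W s t hW hs ht hst hNS
    have hc := Finset.card_erase_of_mem ht
    have hpos : 0 < W.card := Finset.card_pos.2 hne
    have hSp : Sp (con G s t) (W.erase t) := by
      refine ⟨npe.2 ⟨hcl.1, hcl.2.1, fun v hv' => ⟨(hcl.2.2 v hv').1, (hcl.2.2 v hv').2,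
        fun w hw => hce v hv' w hw⟩⟩, ?_⟩
      omega
    have hQ := ih (W.erase t).card (by omega) (con G s t) (W.erase t) rfl hSp
    refine k.spq V G 2 W s t hs ht hst hNS hQ fun L hL => ?_
    have h1 : L = lk G (lk G W s) t := by
      ext w
      rw [hL, FS.mem_lk, FS.mem_lk]
      tauto
    rw [h1]
    exact l.rk1 V G _ (hrk1 s hs t (FS.mem_lk.2 ⟨ht, hst⟩)) _ (Finset.Subset.refl _)
  have hsq : ∀ s ∈ W, ∀ t ∈ W, G.Adj s t → ∃ p ∈ W, ∃ q ∈ W, G.Adj s p ∧ ¬ G.Adj t p ∧ p ≠ t ∧
      G.Adj t q ∧ ¬ G.Adj s q ∧ q ≠ s ∧ G.Adj p q := by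
    intro s hs t ht hst
    by_contra hcon
    refine hA ⟨s, hs, t, ht, hst, fun p hp q hq h1 h2 h3 h4 h5 h6 h7 => hcon ?_⟩
    exact ⟨p, hp, q, hq, h1, h2, h3, h4, h5, h6, h7⟩
  by_cases h4 : ∃ v ∈ W, (lk G W v).card = 4
  · obtain ⟨v, hvW, hv4⟩ := h4
    obtain ⟨⟨a, haL⟩, -, hlv⟩ := hv v hvW
    obtain ⟨ha2, hna⟩ := hlv a haL
    obtain ⟨b, d, hbd, hNa⟩ := Finset.card_eq_two.1 ha2
    have hbN : b ∈ lk G (lk G W v) a := by rw [hNa]; simp
    have hdN : d ∈ lk G (lk G W v) a := by rw [hNa]; simp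
    obtain ⟨hbL, hab⟩ := FS.mem_lk.1 hbN
    obtain ⟨hdL, had⟩ := FS.mem_lk.1 hdN
    have hnbd : ¬ G.Adj b d := hna b hbN d hdN
    -- the fourth vertex
    have h3c : ({a, b, d} : Finset V).card = 3 := by
      rw [Finset.card_insert_of_notMem, Finset.card_pair hbd]
      simp only [Finset.mem_insert, Finset.mem_singleton, not_or]
      exact ⟨hab.ne, had.ne⟩
    have hsub : ({a, b, d} : Finset V) ⊆ lk G W v := by
      intro x hx
      simp only [Finset.mem_insert, Finset.mem_singleton] at hx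
      rcases hx with rfl | rfl | rfl
      · exact haL
      · exact hbL
      · exact hdL
    obtain ⟨c, hcL, hcn⟩ : ∃ c ∈ lk G W v, c ∉ ({a, b, d} : Finset V) := by
      by_contra hcon
      push Not at hcon
      have := Finset.card_le_card (show lk G W v ⊆ {a, b, d} from hcon)
      omega
    have hcn' := hcn
    simp only [Finset.mem_insert, Finset.mem_singleton, not_or] at hcn'
    obtain ⟨hca, hcb, hcd⟩ := hcn'
    have hL : lk G W v = {c, a, b, d} := by
      symm
      refine Finset.eq_of_subset_of_card_le ?_ ?_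
      · intro x hx
        rcases Finset.mem_insert.1 hx with rfl | hx
        · exact hcL
        · exact hsub hx
      · rw [Finset.card_insert_of_notMem hcn, h3c]
        omega
    have hmemL : ∀ x, x ∈ lk G W v → x = c ∨ x = a ∨ x = b ∨ x = d := by
      intro x hx
      rw [hL] at hx
      simpa using hx
    have hac : ¬ G.Adj a c := by
      intro h
      have : c ∈ lk G (lk G W v) a := FS.mem_lk.2 ⟨hcL, h⟩
      rw [hNa] at this
      simp only [Finset.mem_insert, Finset.mem_singleton] at this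
      rcases this with h | h
      · exact hcb h
      · exact hcd h
    obtain ⟨hc2, hnc⟩ := hlv c hcL
    have hNc : lk G (lk G W v) c = {b, d} := by
      refine Finset.eq_of_subset_of_card_le (fun x hx => ?_) (by rw [hc2, Finset.card_pair hbd])
      obtain ⟨hxL, hcx⟩ := FS.mem_lk.1 hx
      rcases hmemL x hxL with rfl | rfl | rfl | rfl
      · exact absurd rfl hcx.ne
      · exact absurd hcx.symm hac
      · simp
      · simp
    have hcb' : G.Adj c b := (FS.mem_lk.1 (show b ∈ lk G (lk G W v) c by rw [hNc]; simp)).2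
    have hcd' : G.Adj c d := (FS.mem_lk.1 (show d ∈ lk G (lk G W v) c by rw [hNc]; simp)).2
    have va := (FS.mem_lk.1 haL).2
    have vb := (FS.mem_lk.1 hbL).2
    have vc := (FS.mem_lk.1 hcL).2
    have vd := (FS.mem_lk.1 hdL).2
    have haW := (FS.mem_lk.1 haL).1
    have hbW := (FS.mem_lk.1 hbL).1
    have hcW := (FS.mem_lk.1 hcL).1
    have hdW := (FS.mem_lk.1 hdL).1
    obtain ⟨p, hp, w, hw, k1, k2, k3, k4, k5, k6, k7⟩ := hsq v hvW a haW va
    have hpc : p = c := by
      rcases hmemL p (FS.mem_lk.2 ⟨hp, k1⟩) with h | h | h | h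
      · exact h
      · exact absurd h k3
      · exact absurd (h ▸ hab) k2
      · exact absurd (h ▸ had) k2
    subst hpc
    obtain ⟨p', hp', q', hq', m1, m2, m3, m4, m5, m6, m7⟩ := hsq v hvW b hbW vb
    have hpd : p' = d := by
      rcases hmemL p' (FS.mem_lk.2 ⟨hp', m1⟩) with h | h | h | h
      · exact absurd (h ▸ hcb'.symm) m2
      · exact absurd (h ▸ hab.symm) m2
      · exact absurd h m3
      · exact h
    subst hpd
    have hq'w : q' = w := by
      by_contra hne'
      obtain ⟨X, Y, hX⟩ := k.jor V G W ⟨hW, hdg⟩ v hvW a haW w hw p hp va k4 k7.symm k1.symm k5 hac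
        (fun h => k6 h.symm) (fun h => k3 h.symm)
      obtain ⟨x, hxX, x1, x2⟩ := hX.xab
      obtain ⟨y, hyY, y1, y2⟩ := hX.yab
      have hx2 : x = b ∨ x = p' := by
        have : x ∈ lk G (lk G W v) a :=
          FS.mem_lk.2 ⟨FS.mem_lk.2 ⟨((hX.un x).1 (Or.inl hxX)).1, x1⟩, x2⟩
        rw [hNa] at this
        simpa using this
      have hy2 : y = b ∨ y = p' := by
        have : y ∈ lk G (lk G W v) a :=
          FS.mem_lk.2 ⟨FS.mem_lk.2 ⟨((hX.un y).1 (Or.inr hyY)).1, y1⟩, y2⟩
        rw [hNa] at this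
        simpa using this
      have hxq : G.Adj x q' := by
        rcases hx2 with rfl | rfl
        · exact m4
        · exact m7
      have hyq : G.Adj y q' := by
        rcases hy2 with rfl | rfl
        · exact m4
        · exact m7
      have hq3 : q' ≠ a := fun h => m5 (h ▸ va)
      have hq4 : q' ≠ p := fun h => m5 (h ▸ k1)
      rcases (hX.un q').2 ⟨hq', m6, hq3, hne', hq4⟩ with h | h
      · exact hX.no q' h y hyY hyq.symm
      · exact hX.no x hxX q' h hxq
    subst hq'w
    have hsus := k.oct V G W v q' a b p p' hW hvW hw haW hbW hp hp' hab hcb'.symm hcd' had.symm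
      (fun h => k3 h.symm) hbd (fun h => k6 h.symm) va vb k1 m1 k4.symm m4.symm k7.symm m7.symm
    exact l.mon V G 0 2 W (by omega) (susp_qq l hvW hw (fun h => k6 h.symm) k5 hsus)
  · obtain ⟨v, hvW⟩ := hne
    obtain ⟨⟨a, haL⟩, -, -⟩ := hv v hvW
    obtain ⟨haW, va⟩ := FS.mem_lk.1 haL
    obtain ⟨p, hp, q, hq, k1, k2, k3, k4, k5, k6, k7⟩ := hsq v hvW a haW va
    obtain ⟨X, Y, hX⟩ := k.jor V G W ⟨hW, hdg⟩ v hvW a haW q hq p hp va k4 k7.symm k1.symm k5 k2
      (fun h => k6 h.symm) (fun h => k3 h.symm)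
    have hdeg : ∀ x ∈ W, 5 ≤ (lk G W x).card := by
      intro x hx
      have h1 : 2 * 2 ≤ (lk G W x).card := (hW.lk hx).two_mul_le
      have h2 : (lk G W x).card ≠ 4 := fun h => h4 ⟨x, hx, h⟩
      omega
    have htwo : ∀ X Y : Finset V, Cut G W X Y v a q p → 2 ≤ X.card := by
      intro X Y hX
      obtain ⟨x, hxX, -, -⟩ := hX.xab
      have hxW := ((hX.un x).1 (Or.inl hxX)).1
      have hs : lk G W x ⊆ X.erase x ∪ {v, a, q, p} := by
        intro z hz
        obtain ⟨hzW, hxz⟩ := FS.mem_lk.1 hz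
        rw [Finset.mem_union]
        by_cases h5 : z ∈ ({v, a, q, p} : Finset V)
        · exact Or.inr h5
        · left
          simp only [Finset.mem_insert, Finset.mem_singleton, not_or] at h5
          rcases (hX.un z).2 ⟨hzW, h5.1, h5.2.1, h5.2.2.1, h5.2.2.2⟩ with h6 | h6
          · exact Finset.mem_erase.2 ⟨hxz.ne', h6⟩
          · exact absurd hxz (hX.no x hxX z h6)
      have h6 := (Finset.card_le_card hs).trans (Finset.card_union_le _ _)
      rw [q4_card hX, Finset.card_erase_of_mem hxX] at h6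
      have h7 := hdeg x hxW
      omega
    have hX2 := htwo X Y hX
    have hY2 := htwo Y X hX.swap
    obtain ⟨x, hxX, -, -⟩ := hX.xab
    obtain ⟨y, hyY, -, -⟩ := hX.yab
    have hC1 := cone_coneG hX hyY
    have hC2 := cone_coneG hX.swap hxX
    have n1 := k.cun V G _ W X Y v a q p y hW hX hyY hC1
    have n2 := k.cun V G _ W Y X v a q p x hW hX.swap hxX hC2
    have d1 := k.cus V G _ W X Y v a q p y hW hX hyY hC1
    have d2 := k.cus V G _ W Y X v a q p x hW hX.swap hxX hC2
    have d0 := k.cut V G W X Y v a q p hW hX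
    have e1 := (k.hom V _ _ n1).1
    have e2 := (k.hom V _ _ n2).1
    have c0 := w_card hX
    have c1 := w1_card hX hyY
    have c2 := w1_card hX.swap hxX
    rw [c1] at e1
    rw [c2] at e2
    have q1 := half l vdl k hX hyY (ih _ (by omega) _ _ c1 ⟨n1, by rw [c1]; omega⟩)
    have q2 := half l vdl k hX.swap hxX (ih _ (by omega) _ _ c2 ⟨n2, by rw [c2]; omega⟩)
    rw [w_eq hX]
    refine k.glq V G 2 _ _ (fun s hs hs' t ht ht' => ?_) q1 q2 ?_
    · rw [Finset.mem_union] at hs hs' ht ht'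
      push Not at hs' ht'
      rcases hs with hs | hs
      · rcases ht with ht | ht
        · exact hX.no s hs t ht
        · exact absurd ht ht'.2
      · exact absurd hs hs'.2
    · have h6 : (X ∪ {v, a, q, p}) ∩ (Y ∪ {v, a, q, p}) = {v, a, q, p} := by
        ext z
        rw [Finset.mem_inter, Finset.mem_union, Finset.mem_union]
        constructor
        · rintro ⟨h7 | h7, h8 | h8⟩
          · exact absurd h8 (Finset.disjoint_left.1 hX.dj h7)
          · exact h8
          · exact h7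
          · exact h7
        · exact fun h => ⟨Or.inr h, Or.inr h⟩
      rw [h6]
      exact l.mon V G 0 1 _ (by omega) (sq4 l hX.ab hX.bc hX.cd hX.da hX.ac hX.nac)

end Pool.Agent.Helper39K9.FV.K
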