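import Pool.Agent.Helper39K9.FV.StmC

/-!
# [ISO] an isolated non-neighbour is the only one
-/

set_option autoImplicit false

namespace Pool.Agent.Helper39K9.FV

open Pool.Agent.W497.FS

/-- [ISO] -/
theorem iso : S_ISO := by
  intro V _ G d W v x h hv hx hiso
  obtain ⟨hxW, hxv, hvx⟩ := mem_nn.1 hx
  have hsub : lk G W x ⊆ lk G W v := by
    intro p hp
    obtain ⟨hpW, hxp⟩ := mem_lk.1 hp
    refine mem_lk.2 ⟨hpW, ?_⟩
    by_contra hvp
    by_cases hpv : p = v
    · subst hpv
      exact hvx hxp.symm
    · exact hiso p (mem_nn.2 ⟨hpW, hpv, hvp⟩) hxp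
  have heq : lk G W x = lk G W v := closed_eq (h.lk hv) hsub (h.lk hxW).q
  have hq : Q G 1 ({v, x} : Finset V) := by
    refine ⟨?_, ?_⟩
    · rw [Finset.card_pair (Ne.symm hxv)]
    · intro a ha b hb hab
      simp only [Finset.mem_insert, Finset.mem_singleton] at ha hb
      rcases ha with rfl | rfl <;> rcases hb with rfl | rfl
      · exact hab.ne rfl
      · exact hvx hab
      · exact hvx hab.symm
      · exact hab.ne rfl
  have hf : Full G ({v, x} : Finset V) (lk G W v) := by
    intro a ha b hb
    simp only [Finset.mem_insert, Finset.mem_singleton] at ha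
    rcases ha with rfl | rfl
    · exact (mem_lk.1 hb).2
    · rw [← heq] at hb
      exact (mem_lk.1 hb).2
  have hq2 := hq.join (h.lk hv).q hf
  have h2 : 1 + (d + 1) = d + 2 := by omega
  rw [h2] at hq2
  have hsub2 : ({v, x} : Finset V) ∪ lk G W v ⊆ W := by
    intro y hy
    simp only [Finset.mem_union, Finset.mem_insert, Finset.mem_singleton] at hy
    rcases hy with (rfl | rfl) | hy
    · exact hv
    · exact hxW
    · exact lk_subset hy
  have hW := closed_eq h hsub2 hq2
  ext y
  rw [Finset.mem_singleton]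
  constructor
  · intro hy
    obtain ⟨hyW, hyv, hvy⟩ := mem_nn.1 hy
    have hyW' : y ∈ ({v, x} : Finset V) ∪ lk G W v := by rw [hW]; exact hyW
    simp only [Finset.mem_union, Finset.mem_insert, Finset.mem_singleton] at hyW'
    rcases hyW' with (h1 | h1) | h1
    · exact absurd h1 hyv
    · exact h1
    · exact absurd (mem_lk.1 h1).2 hvy
  · rintro rfl
    exact hx

end Pool.Agent.Helper39K9.FV
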