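import Pool.Agent.Helper39K9.FV.Fin
import Pool.Agent.Helper39K9.FV.FewDef

set_option autoImplicit false

namespace Pool.Agent.Helper39K9.FV

open Pool.Agent.W497.FS (NP Prm lk lkF nn cl comps Full)
open Pool.Agent.W497
open Pool.Agent.R782.Bal (SQ)

section

variable {V : Type} [DecidableEq V] {G : SimpleGraph V}

theorem few_qq (l : Lv) {d : ℕ} {W : Finset V} (h : NP G d W) (hf : Few G d W) :
    QQ (d / 2 + 1) G W := by
  rcases hf with hf | ⟨C, hC, hc⟩ | hf
  · exact main_qq l h (Or.inl hf)
  · exact l.mon V G 0 _ W (Nat.zero_le _) (sz l (factor_iff.1 hC) hc)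
  · exact main_qq l h (Or.inr fun C hC => small_of (hf C (factor_iff.2 hC)))

/-- the links of the simplices for which the rank is odd are few: all full subcomplexes -/
theorem her (l : Lv) : ∀ (d : ℕ) (W : Finset V), NP G d W →
    (∀ F ∈ cl G W, Odd (d - F.card) → Few G (d - F.card) (lkF G W F)) →
    ∀ A ⊆ W, QQ (d / 2 + 1) G A := by
  intro d
  induction d with
  | zero =>
    intro W hW _ A hA
    have h0 : W = ∅ := hW
    rw [h0, Finset.subset_empty] at hA
    rw [hA]
    exact (l.emp V G).1
  | succ r ih =>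
    intro W hW hF
    have hlk : ∀ v ∈ W, ∀ A ⊆ lk G W v, QQ (r / 2 + 1) G A := by
      intro v hv
      refine ih (lk G W v) (hW.lk hv) fun F hFl ho => ?_
      obtain ⟨h1, h2⟩ := FS.mem_cl.1 hFl
      have hvF : v ∉ F := fun h => by
        have := (FS.mem_lk.1 (h1 h)).2
        exact G.loopless.irrefl v this
      have hin : insert v F ∈ cl G W := by
        rw [FS.mem_cl]
        refine ⟨fun x hx => ?_, ?_⟩
        · rcases Finset.mem_insert.1 hx with rfl | hx
          · exact hv
          · exact (FS.mem_lk.1 (h1 hx)).1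
        · intro a ha b hb hab
          rcases Finset.mem_insert.1 ha with ha1 | ha1 <;> rcases Finset.mem_insert.1 hb with hb1 | hb1
          · exact absurd (ha1.trans hb1.symm) hab
          · rw [ha1]; exact (FS.mem_lk.1 (h1 hb1)).2
          · rw [hb1]; exact (FS.mem_lk.1 (h1 ha1)).2.symm
          · exact h2 a ha1 b hb1 hab
      have hc : (insert v F).card = F.card + 1 := Finset.card_insert_of_notMem hvF
      have e : r + 1 - (insert v F).card = r - F.card := by omega
      have h3 := hF (insert v F) hin (by rw [e]; exact ho)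
      rw [e] at h3
      have h4 : lkF G W (insert v F) = lkF G (lk G W v) F := by
        ext x
        rw [FS.mem_lkF, FS.mem_lkF, FS.mem_lk]
        constructor
        · rintro ⟨ha, hb⟩
          exact ⟨⟨ha, hb v (Finset.mem_insert_self _ _)⟩, fun y hy => hb y (Finset.mem_insert_of_mem hy)⟩
        · rintro ⟨⟨ha, hb⟩, hc⟩
          refine ⟨ha, fun y hy => ?_⟩
          rcases Finset.mem_insert.1 hy with rfl | hy
          · exact hb
          · exact hc y hy
      rwa [h4] at h3
    rcases Nat.even_or_odd' r with ⟨m, hm | hm⟩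
    · have e : (r + 1) / 2 + 1 = r / 2 + 1 := by omega
      rw [e]
      refine l.odd V G _ W ?_ hlk
      rw [← e]
      refine few_qq l hW ?_
      have h5 := hF ∅ (by rw [FS.mem_cl]; exact ⟨Finset.empty_subset _, by simp⟩)
        (by rw [Finset.card_empty]; exact ⟨m, by omega⟩)
      rw [Finset.card_empty, Nat.sub_zero] at h5
      have h6 : lkF G W ∅ = W := by
        ext x
        rw [FS.mem_lkF]
        simp
      rwa [h6] at h5
    · have e : (r + 1) / 2 + 1 = r / 2 + 1 + 1 := by omega
      rw [e]
      exact l.evn V G _ W hlk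

end

/-- the theorem for the class `SQ` -/
theorem final2 {n : ℕ} {V : Type} [Fintype V] [LinearOrder V] {G : SimpleGraph V}
    (hS : Pool.Agent.TH652.Above.HSph n G)
    (h : Few G n Finset.univ ∨
      (Even n ∧ ∀ F : Finset V, G.IsClique (F : Set V) → Odd F.card → Few G (n - F.card) (link G F))) :
    SQ (n / 2 + 1) G := by
  have hNP := brg V G n hS
  have h1 : QQ (n / 2 + 1) G (Finset.univ : Finset V) := by
    rcases h with h | ⟨hn, h⟩
    · exact few_qq lv hNP h
    · refine her lv n _ hNP (fun F hF ho => ?_) _ (Finset.Subset.refl _)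
      obtain ⟨h2, h3⟩ := FS.mem_cl.1 hF
      have h4 : F.card ≤ n := hNP.card_le hF
      have h5 : Odd F.card := by
        rw [Nat.odd_iff] at ho ⊢
        rw [Nat.even_iff] at hn
        omega
      have h6 := h F h3 h5
      have h7 : lkF G Finset.univ F = link G F := by
        ext x
        classical
        rw [FS.mem_lkF]
        simp [link]
      rwa [h7]
  have h2 : SQ (n / 2 + 1) (G.induce ((Finset.univ : Finset V) : Set V)) := h1
  refine SQ.iso _ _ ⟨?_⟩ h2
  rw [Finset.coe_univ]
  exact SimpleGraph.induceUnivIso G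

/-- suspensions -/
theorem final0 {V : Type} [Fintype V] [LinearOrder V] {G : SimpleGraph V}
    (h : ∃ C, JoinFactor G Finset.univ C ∧ C.card = 2) : SQ 0 G := by
  obtain ⟨C, hC, hc⟩ := h
  have h2 : SQ 0 (G.induce ((Finset.univ : Finset V) : Set V)) := sz lv (factor_iff.1 hC) hc
  refine SQ.iso _ _ ⟨?_⟩ h2
  rw [Finset.coe_univ]
  exact SimpleGraph.induceUnivIso G

end Pool.Agent.Helper39K9.FV
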