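import Pool.Agent.Helper39K9.FV.Loc

set_option autoImplicit false

namespace Pool.Agent.Helper39K9.FV

open Pool.Agent.W497.FS (NP Prm lk lkF nn cl comps Full)
open Pool.Agent.W497
open Pool.Agent.R782.Bal (SQ BR)

section

variable {V : Type} {G : SimpleGraph V}

/-- complexes of small dimension -/
theorem dimq {k : ℕ} {A : Finset V} (h : ∀ T ⊆ A, G.IsClique (T : Set V) → T.card ≤ k + 1) :
    QQ (k + 2) G A := by
  have h1 : BR (2 * k + 2) (G.induce (A : Set V)) := by
    refine BR.loc _ Set.univ (fun T hT _ => ?_) (fun v hv => absurd (Set.mem_univ v) hv)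
    have h2 := h (T.map (Function.Embedding.subtype _)) (fun x hx => ?_) ?_
    · rwa [Finset.card_map] at h2
    · obtain ⟨a, -, rfl⟩ := Finset.mem_map.1 hx
      exact a.2
    · intro x hx y hy hxy
      obtain ⟨a, ha, rfl⟩ := Finset.mem_map.1 (Finset.mem_coe.1 hx)
      obtain ⟨b, hb, rfl⟩ := Finset.mem_map.1 (Finset.mem_coe.1 hy)
      exact hT (Finset.mem_coe.2 ha) (Finset.mem_coe.2 hb) fun h => hxy (congrArg _ h)
  have h2 := SQ.br _ h1
  have e : (2 * k + 2) / 2 + 1 = k + 2 := by omega
  rw [e] at h2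
  exact h2

variable [DecidableEq V]

/-- even rank, exceptional vertices in `B` -/
theorem her2 (l : Lv) (vrt : S_VRT) {k : ℕ} {W B : Finset V} (hW : NP G (2 * k + 2) W)
    (hB : ∀ T ⊆ B, G.IsClique (T : Set V) → T.card ≤ k + 1)
    (hF : ∀ F ∈ cl G W, Odd F.card → ¬ F ⊆ B → Few G (2 * k + 2 - F.card) (lkF G W F)) :
    ∀ A ⊆ W, QQ (k + 2) G A := by
  have hlk : ∀ v ∈ W, v ∉ B → ∀ A ⊆ lk G W v, QQ (k + 1) G A := by
    intro v hv hvB
    have h0 := her (G := G) l (2 * k + 1) (lk G W v) (hW.lk hv) (fun F hFl ho => ?_)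
    · have e : (2 * k + 1) / 2 + 1 = k + 1 := by omega
      rwa [e] at h0
    · obtain ⟨h1, h2⟩ := FS.mem_cl.1 hFl
      have hvF : v ∉ F := fun h => by
        have := (FS.mem_lk.1 (h1 h)).2
        exact G.loopless.irrefl v this
      have hin : insert v F ∈ cl G W := by
        rw [FS.mem_cl]
        refine ⟨fun x hx => ?_, ?_⟩
        · rcases Finset.mem_insert.1 hx with rfl | hx
          · exact hv
          · exact (FS.mem_lk.1 (h1 hx)).1
        · intro a ha b hb hab
          rcases Finset.mem_insert.1 ha with ha1 | ha1 <;> rcases Finset.mem_insert.1 hb with hb1 | hb1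
          · exact absurd (ha1.trans hb1.symm) hab
          · rw [ha1]; exact (FS.mem_lk.1 (h1 hb1)).2
          · rw [hb1]; exact (FS.mem_lk.1 (h1 ha1)).2.symm
          · exact h2 a ha1 b hb1 hab
      have hc : (insert v F).card = F.card + 1 := Finset.card_insert_of_notMem hvF
      have hle : F.card ≤ 2 * k + 1 := (hW.lk hv).card_le hFl
      have h3 := hF (insert v F) hin (by
        rw [hc]
        rw [Nat.odd_iff] at ho ⊢
        omega) (fun hs => hvB (hs (Finset.mem_insert_self _ _)))
      have e : 2 * k + 2 - (insert v F).card = 2 * k + 1 - F.card := by omega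
      rw [e] at h3
      have h4 : lkF G W (insert v F) = lkF G (lk G W v) F := by
        ext x
        rw [FS.mem_lkF, FS.mem_lkF, FS.mem_lk]
        constructor
        · rintro ⟨ha, hb⟩
          exact ⟨⟨ha, hb v (Finset.mem_insert_self _ _)⟩, fun y hy => hb y (Finset.mem_insert_of_mem hy)⟩
        · rintro ⟨⟨ha, hb⟩, hc⟩
          refine ⟨ha, fun y hy => ?_⟩
          rcases Finset.mem_insert.1 hy with rfl | hy
          · exact hb
          · exact hc y hy
      rwa [h4] at h3
  intro A
  induction A using Finset.strongInduction with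
  | _ A ih =>
    intro hA
    by_cases hAB : A ⊆ B
    · exact dimq fun T hT hc => hB T (hT.trans hAB) hc
    · obtain ⟨v, hvA, hvB⟩ := Finset.not_subset.1 hAB
      refine vrt V G (k + 2) A v hvA (ih _ (Finset.erase_ssubset hvA) ((Finset.erase_subset _ _).trans hA)) ?_
      exact hlk v (hA hvA) hvB _ fun x hx => by
        obtain ⟨h1, h2⟩ := FS.mem_lk.1 hx
        exact FS.mem_lk.2 ⟨hA h1, h2⟩

end

/-- the theorem for the class `SQ` -/
theorem final3 {n : ℕ} {V : Type} [Fintype V] [LinearOrder V] {G : SimpleGraph V}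
    (hS : Pool.Agent.TH652.Above.HSph n G)
    (h : Few G n Finset.univ ∨
      (Even n ∧ ∃ B : Finset V, (∀ T ⊆ B, G.IsClique (T : Set V) → 2 * T.card ≤ n) ∧
        ∀ F : Finset V, G.IsClique (F : Set V) → Odd F.card → ¬ F ⊆ B →
          Few G (n - F.card) (link G F))) :
    SQ (n / 2 + 1) G := by
  have hNP := brg V G n hS
  rcases h with h | ⟨hn, B, hB, h⟩
  · exact final2 hS (Or.inl h)
  have h1 : QQ (n / 2 + 1) G (Finset.univ : Finset V) := by
    obtain ⟨m, hm⟩ := hn
    rcases m with _ | k
    · obtain rfl : n = 0 := by omega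
      have h0 : (Finset.univ : Finset V) = ∅ := hNP
      rw [h0]
      exact (lv.emp V G).1
    · obtain rfl : n = 2 * k + 2 := by omega
      have e : (2 * k + 2) / 2 + 1 = k + 2 := by omega
      rw [e]
      refine her2 lv vrt hNP (B := B) (fun T hT hc => ?_) (fun F hF ho hFB => ?_) _ (Finset.Subset.refl _)
      · have := hB T hT hc
        omega
      · obtain ⟨h2, h3⟩ := FS.mem_cl.1 hF
        have h6 := h F h3 ho hFB
        have h7 : lkF G Finset.univ F = link G F := by
          ext x
          classical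
          rw [FS.mem_lkF]
          simp [link]
        rwa [h7]
  have h2 : SQ (n / 2 + 1) (G.induce ((Finset.univ : Finset V) : Set V)) := h1
  refine SQ.iso _ _ ⟨?_⟩ h2
  rw [Finset.coe_univ]
  exact SimpleGraph.induceUnivIso G

end Pool.Agent.Helper39K9.FV
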