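import Pool.Agent.Helper39K9.FV.Stm

/-!
# MON: the classes `SQ b` increase with `b`
-/

set_option autoImplicit false

namespace Pool.Agent.Helper39K9.FV

open Pool.Agent.R782.Bal (SQ)

theorem mon : S_MON := by
  intro V G a b W hab h
  induction hab with
  | refl => exact h
  | step _ ih => exact SQ.up _ ih

end Pool.Agent.Helper39K9.FV
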