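import Pool.Agent.Helper39K9.FV.Stm

/-!
# ODD: full subcomplexes, induction by deleting vertices
-/

set_option autoImplicit false

namespace Pool.Agent.Helper39K9.FV

open Pool.Agent.W497.FS (lk mem_lk)

theorem odd : S_VDL → S_ODD := by
  intro hV V _ G b W hQ hW
  have key : ∀ n : ℕ, ∀ A ⊆ W, (W \ A).card = n → QQ b G A := by
    intro n
    induction n with
    | zero =>
      intro A hA h0
      have h1 : W \ A = ∅ := Finset.card_eq_zero.1 h0
      have h2 : A = W := Finset.Subset.antisymm hA (Finset.sdiff_eq_empty_iff_subset.1 h1)
      rw [h2]
      exact hQ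
    | succ n ih =>
      intro A hA hn
      have h1 : (W \ A).Nonempty := by
        rw [← Finset.card_pos]
        omega
      obtain ⟨v, hv⟩ := h1
      rw [Finset.mem_sdiff] at hv
      have h2 : insert v A ⊆ W := Finset.insert_subset hv.1 hA
      have h3 : (W \ insert v A).card = n := by
        have h4 : W \ insert v A = (W \ A).erase v := by
          ext x
          simp only [Finset.mem_sdiff, Finset.mem_insert, Finset.mem_erase]
          tauto
        rw [h4, Finset.card_erase_of_mem (Finset.mem_sdiff.2 hv)]
        omega
      have h5 := hV V G b (insert v A) v (Finset.mem_insert_self v A) (ih _ h2 h3)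
        (hW v hv.1 _ (by
          intro x hx
          rw [mem_lk] at hx ⊢
          exact ⟨h2 hx.1, hx.2⟩))
      rwa [Finset.erase_insert hv.2] at h5
  intro A hA
  exact key _ A hA rfl

end Pool.Agent.Helper39K9.FV
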