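import Pool.Agent.Helper39K9.FV.StmC

/-!
# [PTH] a neighbour of `v` which sees the two ends of the path sees the middle
-/

set_option autoImplicit false

namespace Pool.Agent.Helper39K9.FV

open Pool.Agent.W497.FS

/-- [PTH] -/
theorem pth (iso : S_ISO) : S_PTH := by
  intro V _ G d W v x y z h hv hnn hxz hxz' p hp hxp hzp
  obtain ⟨hpW, hvp⟩ := mem_lk.1 hp
  by_contra hyp
  have hx : x ∈ nn G W v := by rw [hnn]; simp
  have hz : z ∈ nn G W v := by rw [hnn]; simp
  obtain ⟨hxW, hxv, hvx⟩ := mem_nn.1 hx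
  obtain ⟨hzW, hzv, hvz⟩ := mem_nn.1 hz
  have hl := h.lk hpW
  have hvl : v ∈ lk G W p := mem_lk.2 ⟨hv, hvp.symm⟩
  have hxl : x ∈ lk G W p := mem_lk.2 ⟨hxW, hxp.symm⟩
  have hzl : z ∈ lk G W p := mem_lk.2 ⟨hzW, hzp.symm⟩
  rcases d with _ | d
  · have h' : (lk G W p).card = 2 ∧ ∀ x ∈ lk G W p, ∀ y ∈ lk G W p, ¬ G.Adj x y := hl
    have hc : ({v, x, z} : Finset V).card = 3 := by
      rw [Finset.card_eq_three]
      exact ⟨v, x, z, Ne.symm hxv, Ne.symm hzv, hxz, rfl⟩
    have hsub : ({v, x, z} : Finset V) ⊆ lk G W p := by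
      intro t ht
      simp only [Finset.mem_insert, Finset.mem_singleton] at ht
      rcases ht with rfl | rfl | rfl
      · exact hvl
      · exact hxl
      · exact hzl
    have := Finset.card_le_card hsub
    omega
  · have hxn : x ∈ nn G (lk G W p) v := mem_nn.2 ⟨hxl, hxv, hvx⟩
    have hzn : z ∈ nn G (lk G W p) v := mem_nn.2 ⟨hzl, hzv, hvz⟩
    have key := iso V G d (lk G W p) v x hl hvl hxn (by
      intro t ht hxt
      obtain ⟨htl, htv, hvt⟩ := mem_nn.1 ht
      obtain ⟨htW, hpt⟩ := mem_lk.1 htl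
      have htn : t ∈ nn G W v := mem_nn.2 ⟨htW, htv, hvt⟩
      rw [hnn] at htn
      simp only [Finset.mem_insert, Finset.mem_singleton] at htn
      rcases htn with rfl | rfl | rfl
      · exact hxt.ne rfl
      · exact hyp hpt.symm
      · exact hxz' hxt)
    rw [key, Finset.mem_singleton] at hzn
    exact hxz hzn.symm

end Pool.Agent.Helper39K9.FV
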