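import Pool.Agent.Helper39K9.FV.Emp


/-!
# RK1: full subcomplexes of two points
-/

set_option autoImplicit false

namespace Pool.Agent.Helper39K9.FV

open Pool.Agent.R782.Bal (SQ)
open Pool.Agent.W497.FS (NP)

theorem rk1 : S_SUS → S_RK1 := by
  classical
  intro sus V G W hW A hA
  have hW' : W.card = 2 ∧ ∀ x ∈ W, ∀ y ∈ W, ¬ G.Adj x y := hW
  obtain ⟨h2, hna⟩ := hW'
  have hle : A.card ≤ 2 := h2 ▸ Finset.card_le_card hA
  have hc : A.card = 0 ∨ A.card = 1 ∨ A.card = 2 := by omega
  rcases hc with h | h | h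
  · rw [Finset.card_eq_zero] at h
    rw [h]
    exact (emp V G).1
  · rw [Finset.card_eq_one] at h
    obtain ⟨a, ha⟩ := h
    rw [ha]
    exact (emp V G).2 a
  · rw [Finset.card_eq_two] at h
    obtain ⟨x, y, hxy, hAe⟩ := h
    have hx : x ∈ A := by rw [hAe]; simp
    have hy : y ∈ A := by rw [hAe]; simp
    refine SQ.up _ (sus ((A : Set V) : Type) (G.induce (A : Set V)) ⟨x, hx⟩ ⟨y, hy⟩ ?_ ?_ ?_)
    · intro h
      exact hxy (congrArg Subtype.val h)
    · intro h
      exact hna x (hA hx) y (hA hy) h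
    · rintro ⟨w, hw⟩ h1 h2
      exfalso
      have hw' : w = x ∨ w = y := by
        have hw2 : w ∈ A := hw
        rw [hAe] at hw2
        simpa using hw2
      rcases hw' with h | h
      · exact h1 (Subtype.ext h)
      · exact h2 (Subtype.ext h)

end Pool.Agent.Helper39K9.FV
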