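import Pool.Agent.Helper39K9.FV.Stm

/-!
# [SUS] suspensions
-/

set_option autoImplicit false

namespace Pool.Agent.Helper39K9.FV

open Pool.Agent.R782.Bal (SQ)
open Pool.Agent.W907.SG (susp)

/-- the map of the suspension -/
def susMap {U : Type} (x y : U) : {w : U | w ≠ x ∧ w ≠ y} ⊕ Bool → U
  | Sum.inl w => w.1
  | Sum.inr true => x
  | Sum.inr false => y

theorem susMap_bij {U : Type} {x y : U} (hxy : x ≠ y) : Function.Bijective (susMap x y) := by
  constructor
  · rintro (⟨a, ha⟩ | a) (⟨b, hb⟩ | b) h
    · have h' : a = b := h
      subst h'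
      rfl
    · cases b
      · exact absurd h ha.2
      · exact absurd h ha.1
    · cases a
      · exact absurd h.symm hb.2
      · exact absurd h.symm hb.1
    · cases a <;> cases b
      · rfl
      · exact absurd h.symm hxy
      · exact absurd h hxy
      · rfl
  · intro w
    by_cases h1 : w = x
    · exact ⟨Sum.inr true, h1.symm⟩
    · by_cases h2 : w = y
      · exact ⟨Sum.inr false, h2.symm⟩
      · exact ⟨Sum.inl ⟨w, h1, h2⟩, rfl⟩

/-- [SUS] -/
theorem sus : S_SUS := by
  intro U _ K x y hxy hadj hall
  have e : susp (K.induce {w : U | w ≠ x ∧ w ≠ y}) ≃g K :=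
    { toEquiv := Equiv.ofBijective (susMap x y) (susMap_bij hxy)
      map_rel_iff' := by
        rintro (⟨a, ha⟩ | a) (⟨b, hb⟩ | b)
        · exact Iff.rfl
        · cases b
          · exact iff_of_true (hall a ha.1 ha.2).2.symm trivial
          · exact iff_of_true (hall a ha.1 ha.2).1.symm trivial
        · cases a
          · exact iff_of_true (hall b hb.1 hb.2).2 trivial
          · exact iff_of_true (hall b hb.1 hb.2).1 trivial
        · cases a <;> cases b
          · exact iff_of_false (fun h => h.ne rfl) (fun h => h)
          · exact iff_of_false (fun h => hadj h.symm) (fun h => h)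
          · exact iff_of_false hadj (fun h => h)
          · exact iff_of_false (fun h => h.ne rfl) (fun h => h) }
  exact SQ.iso _ _ ⟨e⟩ (SQ.susp _)

end Pool.Agent.Helper39K9.FV
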