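import Pool.Agent.Helper39K9.FV.StmC

/-!
# [TYP] small faces of the link of `v` are seen by non-neighbours of `v`
-/

set_option autoImplicit false

namespace Pool.Agent.Helper39K9.FV

open Pool.Agent.W497.FS

/-- [TYP] -/
theorem typ : S_TYP := by
  intro V _ G d W v h hv
  refine ⟨fun p hp => ?_, fun p hp q hq hpq => ?_⟩
  · obtain ⟨hpW, hvp⟩ := mem_lk.1 hp
    obtain ⟨e, rfl, he⟩ := h.lk' hpW
    have hvl : v ∈ lk G W p := mem_lk.2 ⟨hv, hvp.symm⟩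
    obtain ⟨z, hz, hzv, hvz⟩ := he.exists_nonadj hvl
    obtain ⟨hzW, hpz⟩ := mem_lk.1 hz
    exact ⟨z, mem_nn.2 ⟨hzW, hzv, hvz⟩, hpz.symm⟩
  · obtain ⟨hpW, hvp⟩ := mem_lk.1 hp
    obtain ⟨hqW, hvq⟩ := mem_lk.1 hq
    obtain ⟨e, rfl, he⟩ := h.lk' hpW
    have hql : q ∈ lk G W p := mem_lk.2 ⟨hqW, hpq⟩
    obtain ⟨f, rfl, hf⟩ := he.lk' hql
    have hvl : v ∈ lk G (lk G W p) q := mem_lk.2 ⟨mem_lk.2 ⟨hv, hvp.symm⟩, hvq.symm⟩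
    obtain ⟨z, hz, hzv, hvz⟩ := hf.exists_nonadj hvl
    obtain ⟨hz1, hqz⟩ := mem_lk.1 hz
    obtain ⟨hzW, hpz⟩ := mem_lk.1 hz1
    exact ⟨z, mem_nn.2 ⟨hzW, hzv, hvz⟩, hpz.symm, hqz.symm⟩

end Pool.Agent.Helper39K9.FV
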