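import Pool.Agent.Helper39K9.FV.Vrt

/-!
# [VDL] deleting a vertex
-/

set_option autoImplicit false

namespace Pool.Agent.Helper39K9.FV

open Pool.Agent.R782.Bal (SQ)
open Pool.Agent.W497.FS (lk mem_lk)

/-- [VDL] -/
theorem vdl : S_VDL := by
  intro V _ G b W v hv h1 h2
  have hfin : Finite (W : Set V) := W.finite_toSet
  have key : SQ b ((G.induce (W : Set V)).induce {(⟨v, hv⟩ : (W : Set V))}ᶜ) := by
    refine SQ.vdel (G.induce (W : Set V)) ⟨v, hv⟩ h1 ?_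
    refine (QQ_ind G b W (lk G W v) _ Pool.Agent.W497.FS.lk_subset ?_).1 h2
    rintro ⟨x, hx⟩
    rw [mem_lk, SimpleGraph.mem_neighborSet]
    exact ⟨fun h => ⟨hx, h⟩, fun h => h.2⟩
  refine (QQ_ind G b W (W.erase v) _ (Finset.erase_subset _ _) ?_).2 key
  rintro ⟨x, hx⟩
  rw [Finset.mem_erase, Set.mem_compl_iff, Set.mem_singleton_iff, Subtype.mk.injEq]
  exact ⟨fun h => ⟨h, hx⟩, fun h => h.1⟩

end Pool.Agent.Helper39K9.FV
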