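import Pool.Agent.Helper39K9.FV.Asm3
import Pool.Agent.Helper39K9.FV.Emp
import Pool.Agent.Helper39K9.FV.Mon
import Pool.Agent.Helper39K9.FV.Vrt
import Pool.Agent.Helper39K9.FV.Vdl
import Pool.Agent.Helper39K9.FV.Sus
import Pool.Agent.Helper39K9.FV.Ct
import Pool.Agent.Helper39K9.FV.Rk1
import Pool.Agent.Helper39K9.FV.Evn
import Pool.Agent.Helper39K9.FV.Odd
import Pool.Agent.Helper39K9.FV.Typ
import Pool.Agent.Helper39K9.FV.Iso
import Pool.Agent.Helper39K9.FV.Pth
import Pool.Agent.Helper39K9.FV.Brg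

set_option autoImplicit false

namespace Pool.Agent.Helper39K9.FV

open Pool.Agent.W497.FS (comps)
open Pool.Agent.R782.Bal (SQ)

theorem lv : Lv where
  emp := emp
  mon := mon
  jon := jon
  sus := sus
  ct2 := ct2 sus
  ct3 := ct3 sus
  rk1 := rk1 sus
  evn := evn emp mon vrt
  odd := odd vdl
  typ := typ
  iso := iso
  pth := pth iso

/-- flag homology spheres with few vertices are in the class `SQ` -/
theorem main {n : ℕ} {V : Type} [Fintype V] [LinearOrder V] {G : SimpleGraph V}
    (hS : Pool.Agent.TH652.Above.HSph n G)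
    (h : 2 * Fintype.card V ≤ 5 * n + 4 ∨ ∀ C ∈ comps G Finset.univ, Small G C) :
    SQ (n / 2 + 1) G := by
  have h1 := main_qq lv (brg V G n hS) (by rw [Finset.card_univ]; exact h)
  have h2 : SQ (n / 2 + 1) (G.induce ((Finset.univ : Finset V) : Set V)) := h1
  refine SQ.iso _ _ ⟨?_⟩ h2
  rw [Finset.coe_univ]
  exact SimpleGraph.induceUnivIso G

/-- with less than `5 n / 2` vertices: a suspension -/
theorem main0 {n : ℕ} {V : Type} [Fintype V] [LinearOrder V] {G : SimpleGraph V}
    (hS : Pool.Agent.TH652.Above.HSph n G) (h : 2 * Fintype.card V < 5 * n) : SQ 0 G := by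
  have hex : ∃ C ∈ comps G Finset.univ, C.card = 2 := by
    by_contra hcon
    push Not at hcon
    have h1 := (ta lv (brg V G n hS) hcon).1
    rw [Finset.card_univ] at h1
    omega
  obtain ⟨C, hC, hc⟩ := hex
  have h2 : SQ 0 (G.induce ((Finset.univ : Finset V) : Set V)) := sz lv hC hc
  refine SQ.iso _ _ ⟨?_⟩ h2
  rw [Finset.coe_univ]
  exact SimpleGraph.induceUnivIso G

end Pool.Agent.Helper39K9.FV
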