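import Pool.Agent.Helper39K9.FV.StmL
import Pool.Agent.Helper39K9.FV.Cl

/-!
# Contraction of an edge preserves normal pseudomanifolds of every rank ([NPC])
-/

set_option autoImplicit false

namespace Pool.Agent.Helper39K9.FV.K

open Pool.Agent.W497.FS (NP SConn lk)
open Pool.Agent.R781.VS (con)

namespace NpcL

open ClL (mem_lk img path uni)

variable {V : Type} [DecidableEq V]

/-- isomorphic complexes -/
theorem npiso {G K : SimpleGraph V} : ∀ (r : ℕ) (A B : Finset V) (p : V → V),
    (∀ a ∈ A, p a ∈ B) → (∀ b ∈ B, ∃ a ∈ A, p a = b) →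
    (∀ a ∈ A, ∀ a' ∈ A, p a = p a' → a = a') →
    (∀ a ∈ A, ∀ a' ∈ A, (G.Adj a a' ↔ K.Adj (p a) (p a'))) → NP G r A → NP K r B := by
  intro r
  induction r with
  | zero =>
    intro A B p h1 h2 h3 h4 h
    have h' : A = ∅ := h
    have : B = ∅ := by
      rw [Finset.eq_empty_iff_forall_notMem]
      intro b hb
      obtain ⟨a, ha, _⟩ := h2 b hb
      rw [h'] at ha
      exact absurd ha (Finset.notMem_empty a)
    exact this
  | succ n ih =>
    cases n with
    | zero =>
      intro A B p h1 h2 h3 h4 h
      obtain ⟨hc, hn⟩ : A.card = 2 ∧ ∀ x ∈ A, ∀ y ∈ A, ¬ G.Adj x y := h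
      have hBA : B = A.image p := by
        ext b
        rw [Finset.mem_image]
        constructor
        · exact h2 b
        · rintro ⟨a, ha, rfl⟩
          exact h1 a ha
      have h5 : B.card = 2 := by
        rw [hBA, Finset.card_image_of_injOn, hc]
        intro a ha a' ha' haa
        exact h3 a ha a' ha' haa
      have h6 : ∀ x ∈ B, ∀ y ∈ B, ¬ K.Adj x y := by
        intro x hx y hy hxy
        obtain ⟨a, ha, rfl⟩ := h2 x hx
        obtain ⟨b, hb, rfl⟩ := h2 y hy
        exact hn a ha b hb ((h4 a ha b hb).2 hxy)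
      exact ⟨h5, h6⟩
    | succ d =>
      intro A B p h1 h2 h3 h4 h
      obtain ⟨⟨a0, ha0⟩, hcn, hl⟩ :
        A.Nonempty ∧ SConn G A ∧ ∀ v ∈ A, NP G (d + 1) (lk G A v) := h
      have h7 : ∀ v ∈ B, NP K (d + 1) (lk K B v) := by
        intro b hb
        obtain ⟨a, ha, rfl⟩ := h2 b hb
        refine ih (lk G A a) (lk K B (p a)) p ?_ ?_ ?_ ?_ (hl a ha)
        · intro x hx
          rw [mem_lk] at hx ⊢
          exact ⟨h1 x hx.1, (h4 a ha x hx.1).1 hx.2⟩
        · intro y hy
          rw [mem_lk] at hy
          obtain ⟨x, hx, rfl⟩ := h2 y hy.1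
          exact ⟨x, mem_lk.2 ⟨hx, (h4 a ha x hx).2 hy.2⟩, rfl⟩
        · intro x hx y hy hxy
          exact h3 x (mem_lk.1 hx).1 y (mem_lk.1 hy).1 hxy
        · intro x hx y hy
          exact h4 x (mem_lk.1 hx).1 y (mem_lk.1 hy).1
      exact ⟨⟨p a0, h1 a0 ha0⟩, img p h1 h2 (fun u hu w hw huw _ => (h4 u hu w hw).1 huw) hcn, h7⟩

/-- removal of a vertex with connected link -/
theorem del {G : SimpleGraph V} {C : Finset V} {t : V} (hC : SConn G C) (ht : t ∈ C)
    (hD : SConn G (lk G C t)) : SConn G (C.erase t) := by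
  classical
  intro T hT hne hnT
  by_contra hcon
  push Not at hcon
  have htT : t ∉ T := fun h => (Finset.mem_erase.1 (hT h)).1 rfl
  have hTC : T ⊆ C := fun x hx => (Finset.mem_erase.1 (hT hx)).2
  by_cases h1 : ((lk G C t).filter (fun x => x ∈ T)).Nonempty
  · by_cases h2 : (lk G C t).filter (fun x => x ∈ T) = lk G C t
    · have hNT : ∀ x ∈ lk G C t, x ∈ T := by
        intro x hx
        rw [← h2] at hx
        exact (Finset.mem_filter.1 hx).2
      have hA1 : ((C.erase t) \ T).Nonempty := by
        rw [Finset.sdiff_nonempty]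
        intro hh
        exact hnT (Finset.Subset.antisymm hT hh)
      have hA2 : (C.erase t) \ T ≠ C := by
        intro hh
        have := hh ▸ ht
        exact (Finset.mem_erase.1 (Finset.mem_sdiff.1 this).1).1 rfl
      have hA3 : (C.erase t) \ T ⊆ C := fun x hx =>
        (Finset.mem_erase.1 (Finset.mem_sdiff.1 hx).1).2
      obtain ⟨x, hx, y, hy, hyA, hxy⟩ := hC _ hA3 hA1 hA2
      have hx' := Finset.mem_sdiff.1 hx
      by_cases hyt : y = t
      · subst hyt
        exact hx'.2 (hNT x (mem_lk.2 ⟨hA3 hx, hxy.symm⟩))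
      · have hyT : y ∈ T := by
          by_contra hyT
          exact hyA (Finset.mem_sdiff.2 ⟨Finset.mem_erase.2 ⟨hyt, hy⟩, hyT⟩)
        exact hcon y hyT x hx'.1 hx'.2 hxy.symm
    · obtain ⟨x, hx, y, hy, hyT, hxy⟩ := hD _ (Finset.filter_subset _ _) h1 h2
      have hx' := Finset.mem_filter.1 hx
      have hy' := mem_lk.1 hy
      exact hcon x hx'.2 y (Finset.mem_erase.2 ⟨(G.ne_of_adj hy'.2).symm, hy'.1⟩)
        (fun h => hyT (Finset.mem_filter.2 ⟨hy, h⟩)) hxy
  · have h3 : T ≠ C := fun hh => htT (hh ▸ ht)
    obtain ⟨x, hx, y, hy, hyT, hxy⟩ := hC T hTC hne h3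
    by_cases hyt : y = t
    · subst hyt
      exact h1 ⟨x, Finset.mem_filter.2 ⟨mem_lk.2 ⟨hTC hx, hxy.symm⟩, hx⟩⟩
    · exact hcon x hx y (Finset.mem_erase.2 ⟨hyt, hy⟩) hyT hxy

/-- the links of the vertices other than `s` -/
theorem lnk {G : SimpleGraph V} {W : Finset V} {s t v : V} {r : ℕ}
    (ih : ∀ W : Finset V, NP G r W → s ∈ W → t ∈ W → G.Adj s t → NS G W s t →
      NP (con G s t) r (W.erase t))
    (hst : G.Adj s t) (hs : s ∈ W) (ht : t ∈ W) (hns : NS G W s t) (hv : v ∈ W) (hvt : v ≠ t)
    (hvs : v ≠ s) (h : NP G r (lk G W v)) :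
    NP (con G s t) r (lk (con G s t) (W.erase t) v) := by
  have hne : s ≠ t := G.ne_of_adj hst
  by_cases ha : G.Adj s v
  · by_cases hb : G.Adj t v
    · have heq : lk (con G s t) (W.erase t) v = (lk G W v).erase t := by
        ext x
        rw [mem_lk, Finset.mem_erase, Finset.mem_erase, mem_lk]
        constructor
        · rintro ⟨⟨hxt, hxW⟩, h1, h2, h3, h4⟩
          refine ⟨hxt, hxW, ?_⟩
          rcases h4 with h4 | ⟨h4, -⟩ | ⟨h4, -⟩
          · exact h4
          · exact absurd h4 hvs
          · rw [h4]; exact ha.symm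
        · rintro ⟨hxt, hxW, hx⟩
          exact ⟨⟨hxt, hxW⟩, G.ne_of_adj hx, hvt, hxt, Or.inl hx⟩
      rw [heq]
      refine ih _ h (mem_lk.2 ⟨hs, ha.symm⟩) (mem_lk.2 ⟨ht, hb.symm⟩) hst ?_
      intro p hp q hq
      exact hns p (mem_lk.1 hp).1 q (mem_lk.1 hq).1
    · refine npiso r (lk G W v) _ (fun u => u) ?_ ?_ (fun a _ a' _ h => h) ?_ h
      · intro x hx
        have hx' := mem_lk.1 hx
        have hxt : x ≠ t := by
          rintro rfl
          exact hb hx'.2.symm
        exact mem_lk.2 ⟨Finset.mem_erase.2 ⟨hxt, hx'.1⟩, G.ne_of_adj hx'.2, hvt, hxt, Or.inl hx'.2⟩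
      · intro x hx
        obtain ⟨hx1, h1, h2, h3, h4⟩ := mem_lk.1 hx
        refine ⟨x, mem_lk.2 ⟨(Finset.mem_erase.1 hx1).2, ?_⟩, rfl⟩
        rcases h4 with h4 | ⟨h4, -⟩ | ⟨-, h4⟩
        · exact h4
        · exact absurd h4 hvs
        · exact absurd h4 hb
      · intro x hx y hy
        have hx' := mem_lk.1 hx
        have hy' := mem_lk.1 hy
        have hxt : x ≠ t := by
          rintro rfl
          exact hb hx'.2.symm
        have hyt : y ≠ t := by
          rintro rfl
          exact hb hy'.2.symm
        constructor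
        · intro hxy
          exact ⟨G.ne_of_adj hxy, hxt, hyt, Or.inl hxy⟩
        · rintro ⟨h1, h2, h3, h4⟩
          rcases h4 with h4 | ⟨h4, h5⟩ | ⟨h4, h5⟩
          · exact h4
          · rw [h4]
            by_contra h6
            exact hns v hv y hy'.1 ha hb hvt h5 h6 (fun hh => h1 (h4.trans hh.symm)) hy'.2
          · rw [h4]
            by_contra h6
            exact hns v hv x hx'.1 ha hb hvt h5 (fun hh => h6 hh.symm) (fun hh => h1 (hh.trans h4.symm)) hx'.2
  · by_cases hb : G.Adj t v
    · refine npiso r (lk G W v) _ (fun u => if u = t then s else u) ?_ ?_ ?_ ?_ h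
      · intro x hx
        have hx' := mem_lk.1 hx
        by_cases hxt : x = t
        · rw [if_pos hxt]
          exact mem_lk.2 ⟨Finset.mem_erase.2 ⟨hne, hs⟩, hvs, hvt, hne, Or.inr (Or.inr ⟨rfl, hb⟩)⟩
        · rw [if_neg hxt]
          exact mem_lk.2 ⟨Finset.mem_erase.2 ⟨hxt, hx'.1⟩, G.ne_of_adj hx'.2, hvt, hxt,
            Or.inl hx'.2⟩
      · intro x hx
        obtain ⟨hx1, h1, h2, h3, h4⟩ := mem_lk.1 hx
        have hx1' := Finset.mem_erase.1 hx1
        rcases h4 with h4 | ⟨h4, -⟩ | ⟨h4, -⟩
        · exact ⟨x, mem_lk.2 ⟨hx1'.2, h4⟩, if_neg hx1'.1⟩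
        · exact absurd h4 hvs
        · exact ⟨t, mem_lk.2 ⟨ht, hb.symm⟩, by rw [if_pos rfl, h4]⟩
      · intro x hx y hy hxy
        have hx' := mem_lk.1 hx
        have hy' := mem_lk.1 hy
        have hxs : x ≠ s := by
          rintro rfl
          exact ha hx'.2.symm
        have hys : y ≠ s := by
          rintro rfl
          exact ha hy'.2.symm
        by_cases hxt : x = t
        · by_cases hyt : y = t
          · rw [hxt, hyt]
          · simp only [if_pos hxt, if_neg hyt] at hxy
            exact absurd hxy.symm hys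
        · by_cases hyt : y = t
          · simp only [if_neg hxt, if_pos hyt] at hxy
            exact absurd hxy hxs
          · simpa only [if_neg hxt, if_neg hyt] using hxy
      · intro x hx y hy
        have hx' := mem_lk.1 hx
        have hy' := mem_lk.1 hy
        have hxs : x ≠ s := by
          rintro rfl
          exact ha hx'.2.symm
        have hys : y ≠ s := by
          rintro rfl
          exact ha hy'.2.symm
        by_cases hxt : x = t
        · by_cases hyt : y = t
          · subst hxt
            subst hyt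
            exact ⟨fun h => absurd h (G.loopless.irrefl _), fun h => absurd rfl h.1⟩
          · simp only [if_pos hxt, if_neg hyt]
            subst hxt
            constructor
            · intro hxy
              exact ⟨hys.symm, hne, hyt, Or.inr (Or.inl ⟨rfl, hxy⟩)⟩
            · rintro ⟨h1, h2, h3, h4⟩
              rcases h4 with h4 | ⟨-, h4⟩ | ⟨h4, -⟩
              · by_contra h6
                exact hns y hy'.1 v hv h4 h6 hyt hb ha hvs hy'.2.symm
              · exact h4
              · exact absurd h4 hys
        · by_cases hyt : y = t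
          · simp only [if_neg hxt, if_pos hyt]
            subst hyt
            constructor
            · intro hxy
              exact ⟨hxs, hxt, hne, Or.inr (Or.inr ⟨rfl, hxy.symm⟩)⟩
            · rintro ⟨h1, h2, h3, h4⟩
              rcases h4 with h4 | ⟨h4, -⟩ | ⟨-, h4⟩
              · by_contra h6
                exact hns x hx'.1 v hv h4.symm (fun hh => h6 hh.symm) hxt hb ha hvs hx'.2.symm
              · exact absurd h4 hxs
              · exact h4.symm
          · simp only [if_neg hxt, if_neg hyt]
            constructor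
            · intro hxy
              exact ⟨G.ne_of_adj hxy, hxt, hyt, Or.inl hxy⟩
            · rintro ⟨h1, h2, h3, h4⟩
              rcases h4 with h4 | ⟨h4, -⟩ | ⟨h4, -⟩
              · exact h4
              · exact absurd h4 hxs
              · exact absurd h4 hys
    · refine npiso r (lk G W v) _ (fun u => u) ?_ ?_ (fun a _ a' _ h => h) ?_ h
      · intro x hx
        have hx' := mem_lk.1 hx
        have hxt : x ≠ t := by
          rintro rfl
          exact hb hx'.2.symm
        exact mem_lk.2 ⟨Finset.mem_erase.2 ⟨hxt, hx'.1⟩, G.ne_of_adj hx'.2, hvt, hxt, Or.inl hx'.2⟩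
      · intro x hx
        obtain ⟨hx1, h1, h2, h3, h4⟩ := mem_lk.1 hx
        refine ⟨x, mem_lk.2 ⟨(Finset.mem_erase.1 hx1).2, ?_⟩, rfl⟩
        rcases h4 with h4 | ⟨h4, -⟩ | ⟨-, h4⟩
        · exact h4
        · exact absurd h4 hvs
        · exact absurd h4 hb
      · intro x hx y hy
        have hx' := mem_lk.1 hx
        have hy' := mem_lk.1 hy
        have hxt : x ≠ t := by
          rintro rfl
          exact hb hx'.2.symm
        have hyt : y ≠ t := by
          rintro rfl
          exact hb hy'.2.symm
        have hxs : x ≠ s := by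
          rintro rfl
          exact ha hx'.2.symm
        have hys : y ≠ s := by
          rintro rfl
          exact ha hy'.2.symm
        constructor
        · intro hxy
          exact ⟨G.ne_of_adj hxy, hxt, hyt, Or.inl hxy⟩
        · rintro ⟨h1, h2, h3, h4⟩
          rcases h4 with h4 | ⟨h4, -⟩ | ⟨h4, -⟩
          · exact h4
          · exact absurd h4 hxs
          · exact absurd h4 hys

/-- the whole contraction is connected -/
theorem whole {G : SimpleGraph V} {W : Finset V} {s t : V} (hs : s ∈ W) (hst : G.Adj s t)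
    (hW : SConn G W) : SConn (con G s t) (W.erase t) := by
  have hne : s ≠ t := G.ne_of_adj hst
  refine img (G := G) (A := W) (fun u => if u = t then s else u) ?_ ?_ ?_ hW
  · intro u hu
    show (if u = t then s else u) ∈ W.erase t
    split_ifs with h
    · exact Finset.mem_erase.2 ⟨hne, hs⟩
    · exact Finset.mem_erase.2 ⟨h, hu⟩
  · intro x hx
    have hx' := Finset.mem_erase.1 hx
    exact ⟨x, hx'.2, if_neg hx'.1⟩
  · intro u _ w _ huw hn
    refine ⟨hn, ?_, ?_, ?_⟩
    · show (if u = t then s else u) ≠ t
      split_ifs with h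
      · exact hne
      · exact h
    · show (if w = t then s else w) ≠ t
      split_ifs with h
      · exact hne
      · exact h
    · show G.Adj (if u = t then s else u) (if w = t then s else w) ∨
        ((if u = t then s else u) = s ∧ G.Adj t (if w = t then s else w)) ∨
        ((if w = t then s else w) = s ∧ G.Adj t (if u = t then s else u))
      by_cases hu : u = t
      · by_cases hw : w = t
        · rw [hu, hw] at huw
          exact absurd huw (G.loopless.irrefl t)
        · rw [if_pos hu, if_neg hw]
          right; left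
          exact ⟨rfl, hu ▸ huw⟩
      · by_cases hw : w = t
        · rw [if_neg hu, if_pos hw]
          right; right
          exact ⟨rfl, (hw ▸ huw).symm⟩
        · rw [if_neg hu, if_neg hw]
          exact Or.inl huw

/-- the new link of `s` -/
theorem lks {G : SimpleGraph V} {W : Finset V} {s t : V} (hst : G.Adj s t) :
    lk (con G s t) (W.erase t) s = (lk G W s).erase t ∪ (lk G W t).erase s := by
  have hne : s ≠ t := G.ne_of_adj hst
  ext x
  rw [mem_lk, Finset.mem_union, Finset.mem_erase, Finset.mem_erase, Finset.mem_erase,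
    mem_lk, mem_lk]
  constructor
  · rintro ⟨⟨hxt, hxW⟩, h1, h2, h3, h4⟩
    rcases h4 with h | ⟨-, h⟩ | ⟨h, -⟩
    · exact Or.inl ⟨hxt, hxW, h⟩
    · exact Or.inr ⟨h1.symm, hxW, h⟩
    · exact absurd h.symm h1
  · rintro (⟨hxt, hxW, h⟩ | ⟨hxv, hxW, h⟩)
    · exact ⟨⟨hxt, hxW⟩, G.ne_of_adj h, hne, hxt, Or.inl h⟩
    · exact ⟨⟨(G.ne_of_adj h).symm, hxW⟩, hxv.symm, hne, (G.ne_of_adj h).symm,
        Or.inr (Or.inl ⟨rfl, h⟩)⟩

end NpcL

open ClL NpcL in
theorem npc : S_NPC := by
  intro V _ G r
  induction r with
  | zero =>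
    intro W s t hW hs
    have h' : W = ∅ := hW
    rw [h'] at hs
    exact absurd hs (Finset.notMem_empty s)
  | succ n ih =>
    cases n with
    | zero =>
      intro W s t hW hs ht hst
      exact absurd hst (hW.2 s hs t ht)
    | succ d =>
      intro W s t hW hs ht hst hns
      have hne : s ≠ t := G.ne_of_adj hst
      obtain ⟨-, hWc, hl⟩ : W.Nonempty ∧ SConn G W ∧ ∀ v ∈ W, NP G (d + 1) (lk G W v) := hW
      have hlv : ∀ v ∈ W.erase t, v ≠ s →
          NP (con G s t) (d + 1) (lk (con G s t) (W.erase t) v) := by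
        intro v hv hvs
        have hv' := Finset.mem_erase.1 hv
        exact lnk (fun U h1 h2 h3 h4 h5 => ih U s t h1 h2 h3 h4 h5) hst hs ht hns hv'.2 hv'.1 hvs
          (hl v hv'.2)
      have hls : NP (con G s t) (d + 1) (lk (con G s t) (W.erase t) s) := by
        have htC : t ∈ lk G W s := mem_lk.2 ⟨ht, hst⟩
        have hsC : s ∈ lk G W t := mem_lk.2 ⟨hs, hst.symm⟩
        cases d with
        | zero =>
          obtain ⟨hs1, hs2⟩ : (lk G W s).card = 2 ∧ ∀ x ∈ lk G W s, ∀ y ∈ lk G W s, ¬ G.Adj x y :=
            hl s hs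
          obtain ⟨ht1, ht2⟩ : (lk G W t).card = 2 ∧ ∀ x ∈ lk G W t, ∀ y ∈ lk G W t, ¬ G.Adj x y :=
            hl t ht
          have hA : ((lk G W s).erase t).card = 1 := by
            rw [Finset.card_erase_of_mem htC, hs1]
          have hB : ((lk G W t).erase s).card = 1 := by
            rw [Finset.card_erase_of_mem hsC, ht1]
          obtain ⟨a, haA⟩ := Finset.card_eq_one.1 hA
          obtain ⟨b, hbB⟩ := Finset.card_eq_one.1 hB
          have ha : a ∈ (lk G W s).erase t := by rw [haA]; exact Finset.mem_singleton_self a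
          have hb : b ∈ (lk G W t).erase s := by rw [hbB]; exact Finset.mem_singleton_self b
          have ha1 := Finset.mem_erase.1 ha
          have hb1 := Finset.mem_erase.1 hb
          have ha2 := mem_lk.1 ha1.2
          have hb2 := mem_lk.1 hb1.2
          have hta : ¬ G.Adj t a := hs2 t htC a ha1.2
          have hsb : ¬ G.Adj s b := ht2 s hsC b hb1.2
          have hab : a ≠ b := by
            rintro rfl
            exact hta hb2.2
          have hnab : ¬ G.Adj a b := hns a ha2.1 b hb2.1 ha2.2 hta ha1.1 hb2.2 hsb hb1.1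
          have hgoal : (lk (con G s t) (W.erase t) s).card = 2 ∧
              ∀ x ∈ lk (con G s t) (W.erase t) s, ∀ y ∈ lk (con G s t) (W.erase t) s,
                ¬ (con G s t).Adj x y := by
            rw [lks hst, haA, hbB]
            constructor
            · rw [Finset.card_union_of_disjoint (Finset.disjoint_singleton.2 hab)]
              simp
            · have has : a ≠ s := (G.ne_of_adj ha2.2).symm
              have hxs : ∀ x ∈ ({a} ∪ {b} : Finset V), x ≠ s := by
                intro x hx
                rcases Finset.mem_union.1 hx with h | h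
                · rw [Finset.mem_singleton.1 h]; exact has
                · rw [Finset.mem_singleton.1 h]; exact hb1.1
              intro x hx y hy hxy
              have hx' := hxs x hx
              have hy' := hxs y hy
              rcases hxy.2.2.2 with h4 | ⟨h4, -⟩ | ⟨h4, -⟩
              · rcases Finset.mem_union.1 hx with h | h <;> rcases Finset.mem_union.1 hy with h5 | h5 <;>
                  rw [Finset.mem_singleton.1 h, Finset.mem_singleton.1 h5] at h4
                · exact G.loopless.irrefl _ h4
                · exact hnab h4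
                · exact hnab h4.symm
                · exact G.loopless.irrefl _ h4
              · exact hx' h4
              · exact hy' h4
          exact hgoal
        | succ e =>
          obtain ⟨-, hs2, hs3⟩ : (lk G W s).Nonempty ∧ SConn G (lk G W s) ∧
            ∀ v ∈ lk G W s, NP G (e + 1) (lk G (lk G W s) v) := hl s hs
          obtain ⟨-, ht2, ht3⟩ : (lk G W t).Nonempty ∧ SConn G (lk G W t) ∧
            ∀ v ∈ lk G W t, NP G (e + 1) (lk G (lk G W t) v) := hl t ht
          have hone : ∀ (C : Finset V) (u : V), u ∈ C → SConn G C →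
              (∀ v ∈ C, NP G (e + 1) (lk G C v)) → (lk G C u).Nonempty ∧ SConn G (C.erase u) := by
            intro C u hu hC hCl
            cases e with
            | zero =>
              have h2 : ∀ w ∈ C, (lk G C w).card = 2 := fun w hw => (hCl w hw).1
              refine ⟨?_, path hC h2 hu⟩
              rw [← Finset.card_pos, h2 u hu]
              norm_num
            | succ f =>
              obtain ⟨h1, h2, -⟩ : (lk G C u).Nonempty ∧ SConn G (lk G C u) ∧
                ∀ v ∈ lk G C u, NP G (f + 1) (lk G (lk G C u) v) := hCl u hu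
              exact ⟨h1, del hC hu h2⟩
          obtain ⟨⟨a, ha⟩, hP1⟩ := hone (lk G W s) t htC hs2 hs3
          obtain ⟨-, hP2⟩ := hone (lk G W t) s hsC ht2 ht3
          have ha1 := mem_lk.1 ha
          have ha2 := mem_lk.1 ha1.1
          have haP1 : a ∈ (lk G W s).erase t :=
            Finset.mem_erase.2 ⟨(G.ne_of_adj ha1.2).symm, ha1.1⟩
          have haP2 : a ∈ (lk G W t).erase s :=
            Finset.mem_erase.2 ⟨(G.ne_of_adj ha2.2).symm, mem_lk.2 ⟨ha2.1, ha1.2⟩⟩
          have hU := uni hP1 hP2 haP1 haP2
          have hmem : ∀ x ∈ (lk G W s).erase t ∪ (lk G W t).erase s, x ≠ s ∧ x ≠ t ∧ x ∈ W := by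
            intro x hx
            rcases Finset.mem_union.1 hx with hx | hx
            · have h1 := Finset.mem_erase.1 hx
              exact ⟨(G.ne_of_adj (mem_lk.1 h1.2).2).symm, h1.1, (mem_lk.1 h1.2).1⟩
            · have h1 := Finset.mem_erase.1 hx
              exact ⟨h1.1, (G.ne_of_adj (mem_lk.1 h1.2).2).symm, (mem_lk.1 h1.2).1⟩
          have hcon : SConn (con G s t) (lk (con G s t) (W.erase t) s) := by
            rw [lks hst]
            refine img (G := G) (K := con G s t) (fun u => u) (fun u hu => hu)
              (fun x hx => ⟨x, hx, rfl⟩) ?_ hU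
            intro u hu w hw huw hn
            exact ⟨hn, (hmem u hu).2.1, (hmem w hw).2.1, Or.inl huw⟩
          have hnon : (lk (con G s t) (W.erase t) s).Nonempty := by
            rw [lks hst]
            exact ⟨a, Finset.mem_union_left _ haP1⟩
          refine ⟨hnon, hcon, ?_⟩
          intro w hw
          have hw' : w ≠ s ∧ w ≠ t ∧ w ∈ W := by
            apply hmem
            rw [← lks hst]
            exact hw
          obtain ⟨-, -, h5⟩ : (lk (con G s t) (W.erase t) w).Nonempty ∧
            SConn (con G s t) (lk (con G s t) (W.erase t) w) ∧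
            ∀ v ∈ lk (con G s t) (W.erase t) w,
              NP (con G s t) (e + 1) (lk (con G s t) (lk (con G s t) (W.erase t) w) v) :=
            hlv w (Finset.mem_erase.2 ⟨hw'.2.1, hw'.2.2⟩) hw'.1
          have hsw : (con G s t).Adj s w := (mem_lk.1 hw).2
          have h6 := h5 s (mem_lk.2 ⟨Finset.mem_erase.2 ⟨hne, hs⟩, hsw.symm⟩)
          have heq : lk (con G s t) (lk (con G s t) (W.erase t) s) w =
              lk (con G s t) (lk (con G s t) (W.erase t) w) s := by
            ext x
            rw [mem_lk, mem_lk, mem_lk, mem_lk]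
            tauto
          rw [heq]
          exact h6
      refine ⟨⟨s, Finset.mem_erase.2 ⟨hne, hs⟩⟩, whole hs hst hWc, ?_⟩
      intro v hv
      by_cases hvs : v = s
      · rw [hvs]
        exact hls
      · exact hlv v hv hvs

end Pool.Agent.Helper39K9.FV.K
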