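import Pool.Agent.Helper39K9.FV.Ce
import Pool.Agent.Helper39K9.FV.Cl

/-!
Contraction of an edge of a cycle of length at least five.
-/

set_option autoImplicit false

namespace Pool.Agent.Helper39K9.FV.K

open Pool.Agent.W497.FS (NP Prm SConn lk lkF nn cl comps Full Eul)
open Pool.Agent.R781.VS (con)

namespace Np2L

open CeL

variable {V : Type} {G : SimpleGraph V}

theorem np2e {W : Finset V} : NP G 2 W ↔ W.Nonempty ∧ SConn G W ∧ ∀ v ∈ W,
    (lk G W v).card = 2 ∧ ∀ x ∈ lk G W v, ∀ y ∈ lk G W v, ¬ G.Adj x y := Iff.rfl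

theorem ed2 [DecidableEq V] {W : Finset V} (hN : NP G 2 W) {v : V} (hv : v ∈ W) :
    Two (fun x => x ∈ W ∧ G.Adj v x) G.Adj := by
  obtain ⟨-, -, h⟩ := np2e.1 hN
  obtain ⟨h3, h4⟩ := h v hv
  obtain ⟨a, b, hab, hK⟩ := Finset.card_eq_two.1 h3
  refine ⟨a, b, hab, h4 a (by rw [hK]; simp) b (by rw [hK]; simp), fun x => ?_⟩
  have h5 : x ∈ lk G W v ↔ x = a ∨ x = b := by
    rw [hK]
    simp
  rw [← h5, CeL.mem_lk]

theorem k3 {W : Finset V} (hN : NP G 2 W) {v x y : V} (hv : v ∈ W) (hx : x ∈ W) (hy : y ∈ W)
    (h1 : G.Adj v x) (h2 : G.Adj v y) : ¬ G.Adj x y := by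
  obtain ⟨-, -, h⟩ := np2e.1 hN
  exact (h v hv).2 x (CeL.mem_lk.2 ⟨hx, h1⟩) y (CeL.mem_lk.2 ⟨hy, h2⟩)

theorem fin2 {s t : V} {W : Finset V} [DecidableEq V] {v : V}
    (h : Two (fun x => x ∈ W ∧ x ≠ t ∧ (con G s t).Adj v x) (con G s t).Adj) :
    (lk (con G s t) (W.erase t) v).card = 2 ∧ ∀ x ∈ lk (con G s t) (W.erase t) v,
      ∀ y ∈ lk (con G s t) (W.erase t) v, ¬ (con G s t).Adj x y := by
  obtain ⟨a, b, h1, h2, h3⟩ := h
  have hK : lk (con G s t) (W.erase t) v = {a, b} := by
    ext x
    rw [CeL.mem_lk, Finset.mem_erase, Finset.mem_insert, Finset.mem_singleton, ← h3 x]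
    tauto
  rw [hK]
  refine ⟨Finset.card_pair h1, ?_⟩
  intro x hx y hy hxy
  simp only [Finset.mem_insert, Finset.mem_singleton] at hx hy
  rcases hx with rfl | rfl <;> rcases hy with rfl | rfl
  · exact (con G s t).irrefl hxy
  · exact h2 hxy
  · exact h2 hxy.symm
  · exact (con G s t).irrefl hxy

end Np2L

open CeL Np2L in
theorem npc2 (V : Type) [DecidableEq V] (G : SimpleGraph V) (W : Finset V) (s t : V)
    (hN : NP G 2 W) (hs : s ∈ W) (ht : t ∈ W) (hst : G.Adj s t) (hNS : NS G W s t) :
    NP (con G s t) 2 (W.erase t) := by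
  obtain ⟨-, hWc, -⟩ := np2e.1 hN
  have hne : s ≠ t := hst.ne
  have hadj : ∀ u w : V, G.Adj u w → (if u = t then s else u) ≠ (if w = t then s else w) →
      (con G s t).Adj (if u = t then s else u) (if w = t then s else w) := by
    intro u w huw hn
    refine ⟨hn, ?_, ?_, ?_⟩
    · split_ifs with h
      · exact hne
      · exact h
    · split_ifs with h
      · exact hne
      · exact h
    · by_cases hu : u = t
      · by_cases hw : w = t
        · rw [hu, hw] at huw
          exact absurd huw (G.loopless.irrefl t)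
        · rw [if_pos hu, if_neg hw]
          right; left
          exact ⟨rfl, hu ▸ huw⟩
      · by_cases hw : w = t
        · rw [if_neg hu, if_pos hw]
          right; right
          exact ⟨rfl, (hw ▸ huw).symm⟩
        · rw [if_neg hu, if_neg hw]
          exact Or.inl huw
  refine np2e.2 ⟨⟨s, Finset.mem_erase.2 ⟨hne, hs⟩⟩, ?_, ?_⟩
  · refine ClL.img (G := G) (A := W) (fun u => if u = t then s else u) ?_ ?_
      (fun u _ w _ huw hn => hadj u w huw hn) hWc
    · intro u hu
      show (if u = t then s else u) ∈ W.erase t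
      split_ifs with h
      · exact Finset.mem_erase.2 ⟨hne, hs⟩
      · exact Finset.mem_erase.2 ⟨h, hu⟩
    · intro x hx
      have hx' := Finset.mem_erase.1 hx
      exact ⟨x, hx'.2, if_neg hx'.1⟩
  · intro v hv
    obtain ⟨hvt, hvW⟩ := Finset.mem_erase.1 hv
    apply fin2
    by_cases hvs : v = s
    · subst hvs
      obtain ⟨p, a1, a2, a3⟩ := two_mem gsym (ed2 hN hs) (y := t) ⟨ht, hst⟩
      obtain ⟨q, b1, b2, b3⟩ := two_mem gsym (ed2 hN ht) (y := v) ⟨hs, hst.symm⟩
      have hp := (a3 p).2 (Or.inr rfl)
      have hq := (b3 q).2 (Or.inr rfl)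
      have hpq : ¬ G.Adj p q := hNS p hp.1 q hq.1 hp.2 a2 a1.symm hq.2 b2 b1.symm
      refine ⟨p, q, ?_, ?_, fun x => ?_⟩
      · rintro rfl
        exact a2 hq.2
      · rw [adj1 hp.2.ne' b1.symm]
        rintro ⟨-, -, h⟩
        exact hpq h
      · constructor
        · rintro ⟨h1, h2, h3⟩
          have hxv : x ≠ v := by
            rintro rfl
            exact (con G x t).irrefl h3
          rcases ((adj2 hne hxv).1 h3).2 with h4 | h4
          · rcases (a3 x).1 ⟨h1, h4⟩ with h5 | h5
            · exact absurd h5 h2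
            · exact Or.inl h5
          · rcases (b3 x).1 ⟨h1, h4⟩ with h5 | h5
            · exact absurd h5 hxv
            · exact Or.inr h5
        · rintro (h1 | h1)
          · rw [h1]
            exact ⟨hp.1, a1.symm, (adj2 hne hp.2.ne').2 ⟨a1.symm, Or.inl hp.2⟩⟩
          · rw [h1]
            exact ⟨hq.1, hq.2.ne', (adj2 hne b1.symm).2 ⟨hq.2.ne', Or.inr hq.2⟩⟩
    · by_cases htv : G.Adj v t
      · obtain ⟨b, b1, b2, b3⟩ := two_mem gsym (ed2 hN hvW) (y := t) ⟨ht, htv⟩
        have hb := (b3 b).2 (Or.inr rfl)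
        have hsv : ¬ G.Adj s v := fun h => k3 hN hs hvW ht h hst htv
        have hbs : b ≠ s := by
          rintro rfl
          exact hsv hb.2.symm
        refine ⟨s, b, hbs.symm, ?_, fun x => ?_⟩
        · rw [adj2 hne hbs]
          rintro ⟨-, h4 | h4⟩
          · exact hNS b hb.1 v hvW h4 b2 b1.symm htv.symm hsv hvs hb.2.symm
          · exact b2 h4
        · by_cases hx : x = s
          · subst hx
            simp only [true_or, iff_true]
            exact ⟨hs, hne, (adj3 hne hvs).2 ⟨hvt, Or.inr htv.symm⟩⟩
          · show (x ∈ W ∧ x ≠ t ∧ (con G s t).Adj v x) ↔ _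
            rw [adj1 hvs hx]
            have h4 := b3 x
            constructor
            · rintro ⟨h5, h6, -, -, h7⟩
              rcases h4.1 ⟨h5, h7⟩ with h8 | h8
              · exact absurd h8 h6
              · exact Or.inr h8
            · rintro (h5 | h5)
              · exact absurd h5 hx
              · rw [h5]
                exact ⟨hb.1, b1.symm, hvt, b1.symm, hb.2⟩
      · by_cases hsv : G.Adj v s
        · obtain ⟨b, b1, b2, b3⟩ := two_mem gsym (ed2 hN hvW) (y := s) ⟨hs, hsv⟩
          have hb := (b3 b).2 (Or.inr rfl)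
          have hbt : b ≠ t := by
            rintro rfl
            exact htv hb.2
          refine ⟨s, b, b1, ?_, fun x => ?_⟩
          · rw [adj2 hne b1.symm]
            rintro ⟨-, h4 | h4⟩
            · exact b2 h4
            · exact hNS v hvW b hb.1 hsv.symm (fun h => htv h.symm) hvt h4 b2 b1.symm hb.2
          · by_cases hx : x = s
            · subst hx
              simp only [true_or, iff_true]
              exact ⟨hs, hne, (adj3 hne hvs).2 ⟨hvt, Or.inl hsv.symm⟩⟩
            · show (x ∈ W ∧ x ≠ t ∧ (con G s t).Adj v x) ↔ _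
              rw [adj1 hvs hx]
              have h4 := b3 x
              constructor
              · rintro ⟨h5, h6, -, -, h7⟩
                exact h4.1 ⟨h5, h7⟩
              · rintro (h5 | h5)
                · exact absurd h5 hx
                · rw [h5]
                  exact ⟨hb.1, hbt, hvt, hbt, hb.2⟩
        · obtain ⟨a, b, h1, h2, h3⟩ := ed2 hN hvW
          have ha := (h3 a).2 (Or.inl rfl)
          have hb := (h3 b).2 (Or.inr rfl)
          have has : a ≠ s := by rintro rfl; exact hsv ha.2
          have hbs : b ≠ s := by rintro rfl; exact hsv hb.2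
          have hat : a ≠ t := by rintro rfl; exact htv ha.2
          have hbt : b ≠ t := by rintro rfl; exact htv hb.2
          refine ⟨a, b, h1, ?_, fun x => ?_⟩
          · rw [adj1 has hbs]
            rintro ⟨-, -, h4⟩
            exact h2 h4
          · by_cases hx : x = s
            · subst hx
              constructor
              · rintro ⟨-, -, h4⟩
                rcases ((adj3 hne hvs).1 h4).2 with h5 | h5
                · exact absurd h5.symm hsv
                · exact absurd h5.symm htv
              · rintro (h5 | h5)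
                · exact absurd h5.symm has
                · exact absurd h5.symm hbs
            · show (x ∈ W ∧ x ≠ t ∧ (con G s t).Adj v x) ↔ _
              rw [adj1 hvs hx]
              have h4 := h3 x
              constructor
              · rintro ⟨h5, h6, -, -, h7⟩
                exact h4.1 ⟨h5, h7⟩
              · intro h5
                have h6 := h4.2 h5
                have h7 : x ≠ t := by
                  rcases h5 with h5 | h5
                  · rw [h5]; exact hat
                  · rw [h5]; exact hbt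
                exact ⟨h6.1, h7, hvt, h7, h6.2⟩

end Pool.Agent.Helper39K9.FV.K
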