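import Pool.Agent.Helper39K9.FV.Cl

/-!
# Contraction of an edge in all ranks: connectedness, transport of `NP`
-/

set_option autoImplicit false

namespace Pool.Agent.Helper39K9.FV.K

open Pool.Agent.W497.FS (NP SConn lk)
open Pool.Agent.R781.VS (con)

namespace NpA

open ClL

variable {V : Type} [DecidableEq V]

/-- the projection `t ↦ s` maps edges to edges or points -/
theorem adj_con {G : SimpleGraph V} {s t : V} (hst : G.Adj s t) (u w : V) (huw : G.Adj u w)
    (hn : (if u = t then s else u) ≠ (if w = t then s else w)) :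
    (con G s t).Adj (if u = t then s else u) (if w = t then s else w) := by
  have hne : s ≠ t := G.ne_of_adj hst
  refine ⟨hn, ?_, ?_, ?_⟩
  · split_ifs with h
    · exact hne
    · exact h
  · split_ifs with h
    · exact hne
    · exact h
  · by_cases hu : u = t
    · by_cases hw : w = t
      · rw [hu, hw] at huw
        exact absurd huw (G.loopless.irrefl t)
      · rw [if_pos hu, if_neg hw]
        right; left
        exact ⟨rfl, hu ▸ huw⟩
    · by_cases hw : w = t
      · rw [if_neg hu, if_pos hw]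
        right; right
        exact ⟨rfl, (hw ▸ huw).symm⟩
      · rw [if_neg hu, if_neg hw]
        exact Or.inl huw

/-- the whole contraction is connected, in every rank -/
theorem wcn {G : SimpleGraph V} {W : Finset V} {s t : V} (hW : SConn G W) (hs : s ∈ W)
    (hst : G.Adj s t) : SConn (con G s t) (W.erase t) := by
  have hne : s ≠ t := G.ne_of_adj hst
  refine img (G := G) (A := W) (fun u => if u = t then s else u) ?_ ?_
      (fun u _ w _ huw hn => adj_con hst u w huw hn) hW
  · intro u hu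
    show (if u = t then s else u) ∈ W.erase t
    split_ifs with h
    · exact Finset.mem_erase.2 ⟨hne, hs⟩
    · exact Finset.mem_erase.2 ⟨h, hu⟩
  · intro x hx
    have hx' := Finset.mem_erase.1 hx
    exact ⟨x, hx'.2, if_neg hx'.1⟩

/-- the link of `v ≠ s` in the contraction is the image of the old link under `t ↦ s` -/
theorem lk_img {G : SimpleGraph V} {W : Finset V} {s t v : V} (hs : s ∈ W) (ht : t ∈ W)
    (hst : G.Adj s t) (hvs : v ≠ s) (hvt : v ≠ t) :
    lk (con G s t) (W.erase t) v = (lk G W v).image (fun u => if u = t then s else u) := by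
  have hne : s ≠ t := G.ne_of_adj hst
  ext x
  rw [mem_lk, Finset.mem_image]
  constructor
  · rintro ⟨hx1, h1, h2, h3, h4⟩
    have hx' := Finset.mem_erase.1 hx1
    rcases h4 with h | ⟨h, -⟩ | ⟨h, h5⟩
    · exact ⟨x, mem_lk.2 ⟨hx'.2, h⟩, if_neg hx'.1⟩
    · exact absurd h hvs
    · exact ⟨t, mem_lk.2 ⟨ht, h5.symm⟩, by rw [if_pos rfl, h]⟩
  · rintro ⟨u, hu, rfl⟩
    have hu' := mem_lk.1 hu
    split_ifs with h
    · subst h
      exact ⟨Finset.mem_erase.2 ⟨hne, hs⟩, hvs, hvt, hne, Or.inr (Or.inr ⟨rfl, hu'.2.symm⟩)⟩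
    · exact ⟨Finset.mem_erase.2 ⟨h, hu'.1⟩, G.ne_of_adj hu'.2, hvt, h, Or.inl hu'.2⟩

/-- the links of the vertices `v ≠ s` are connected, in every rank -/
theorem lcn {G : SimpleGraph V} {W : Finset V} {s t v : V} (hs : s ∈ W) (ht : t ∈ W)
    (hst : G.Adj s t) (hvs : v ≠ s) (hvt : v ≠ t) (h : SConn G (lk G W v)) :
    SConn (con G s t) (lk (con G s t) (W.erase t) v) := by
  rw [lk_img hs ht hst hvs hvt]
  refine img (G := G) (A := lk G W v) (fun u => if u = t then s else u) ?_ ?_
    (fun u _ w _ huw hn => adj_con hst u w huw hn) h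
  · intro u hu
    exact Finset.mem_image_of_mem _ hu
  · intro x hx
    obtain ⟨u, hu, hux⟩ := Finset.mem_image.1 hx
    exact ⟨u, hu, hux⟩

/-- transport of `NP` along an isomorphism of the induced graphs -/
theorem np_iso {G K : SimpleGraph V} (p : V → V) : ∀ (r : ℕ) (A B : Finset V),
    (∀ u ∈ A, ∀ w ∈ A, p u = p w → u = w) → A.image p = B →
    (∀ u ∈ A, ∀ w ∈ A, (G.Adj u w ↔ K.Adj (p u) (p w))) → NP G r A → NP K r B := by
  intro r
  induction r using Nat.strong_induction_on with
  | _ r ih =>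
  intro A B hinj hAB hadj hA
  match r, ih, hA with
  | 0, _, hA =>
    have hA' : A = ∅ := hA
    show B = ∅
    rw [← hAB, hA', Finset.image_empty]
  | 1, _, hA =>
    have hA' : A.card = 2 ∧ ∀ x ∈ A, ∀ y ∈ A, ¬ G.Adj x y := hA
    show B.card = 2 ∧ ∀ x ∈ B, ∀ y ∈ B, ¬ K.Adj x y
    refine ⟨?_, ?_⟩
    · rw [← hAB, Finset.card_image_of_injOn (fun u hu w hw h => hinj u hu w hw h)]
      exact hA'.1
    · intro x hx y hy hxy
      rw [← hAB] at hx hy
      obtain ⟨u, hu, rfl⟩ := Finset.mem_image.1 hx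
      obtain ⟨w, hw, rfl⟩ := Finset.mem_image.1 hy
      exact hA'.2 u hu w hw ((hadj u hu w hw).2 hxy)
  | (d + 2), ih, hA =>
    have hA' : A.Nonempty ∧ SConn G A ∧ ∀ v ∈ A, NP G (d + 1) (lk G A v) := hA
    show B.Nonempty ∧ SConn K B ∧ ∀ v ∈ B, NP K (d + 1) (lk K B v)
    refine ⟨?_, ?_, ?_⟩
    · rw [← hAB]
      exact hA'.1.image p
    · refine img (G := G) (A := A) p ?_ ?_ (fun u hu w hw huw _ => (hadj u hu w hw).1 huw) hA'.2.1
      · intro u hu
        rw [← hAB]
        exact Finset.mem_image_of_mem _ hu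
      · intro x hx
        rw [← hAB] at hx
        obtain ⟨u, hu, hux⟩ := Finset.mem_image.1 hx
        exact ⟨u, hu, hux⟩
    · intro x hx
      rw [← hAB] at hx
      obtain ⟨v, hv, rfl⟩ := Finset.mem_image.1 hx
      refine ih (d + 1) (by omega) (lk G A v) _ ?_ ?_ ?_ (hA'.2.2 v hv)
      · intro u hu w hw h
        exact hinj u (mem_lk.1 hu).1 w (mem_lk.1 hw).1 h
      · ext y
        rw [Finset.mem_image, mem_lk]
        constructor
        · rintro ⟨u, hu, rfl⟩
          have hu' := mem_lk.1 hu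
          refine ⟨?_, (hadj v hv u hu'.1).1 hu'.2⟩
          rw [← hAB]
          exact Finset.mem_image_of_mem _ hu'.1
        · rintro ⟨hy, hvy⟩
          rw [← hAB] at hy
          obtain ⟨u, hu, rfl⟩ := Finset.mem_image.1 hy
          exact ⟨u, mem_lk.2 ⟨hu, (hadj v hv u hu).2 hvy⟩, rfl⟩
      · intro u hu w hw
        exact hadj u (mem_lk.1 hu).1 w (mem_lk.1 hw).1

end NpA

end Pool.Agent.Helper39K9.FV.K
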