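import Pool.Agent.Helper39K9.FV.StmL

set_option autoImplicit false

namespace Pool.Agent.Helper39K9.FV.K

open Pool.Agent.W497.FS (NP SConn lk mem_lk)
open Pool.Agent.R781.VS (con)

namespace NpcC

variable {V : Type} [DecidableEq V] {G : SimpleGraph V} {W M : Finset V} {s t : V}

/-- the image of a connected set under `t ↦ s` is connected in the contraction -/
theorem image (hst : s ≠ t) (h : SConn G M) :
    SConn (con G s t) (M.image (fun u => if u = t then s else u)) := by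
  intro T hT hne hTM
  obtain ⟨p, hp, q, hq, hq', hpq⟩ := h (M.filter (fun u => (if u = t then s else u) ∈ T))
    (Finset.filter_subset _ _) (by
      obtain ⟨x, hx⟩ := hne
      obtain ⟨u, hu, rfl⟩ := Finset.mem_image.1 (hT hx)
      exact ⟨u, Finset.mem_filter.2 ⟨hu, hx⟩⟩) (by
      intro he
      apply hTM
      refine Finset.Subset.antisymm hT fun x hx => ?_
      obtain ⟨u, hu, rfl⟩ := Finset.mem_image.1 hx
      have h1 : u ∈ M.filter (fun u => (if u = t then s else u) ∈ T) := by rw [he]; exact hu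
      exact (Finset.mem_filter.1 h1).2)
  have hp2 := (Finset.mem_filter.1 hp).2
  have hq2 : (if q = t then s else q) ∉ T := fun e => hq' (Finset.mem_filter.2 ⟨hq, e⟩)
  have hne2 : (if p = t then s else p) ≠ (if q = t then s else q) := fun e => hq2 (e ▸ hp2)
  refine ⟨_, hp2, _, Finset.mem_image_of_mem _ hq, hq2, ?_⟩
  show _ ∧ _ ∧ _ ∧ _
  by_cases h1 : p = t
  · by_cases h2 : q = t
    · exact absurd (h1.trans h2.symm) hpq.ne
    · rw [if_pos h1, if_neg h2] at *
      refine ⟨hne2, hst, h2, Or.inr (Or.inl ⟨rfl, h1 ▸ hpq⟩)⟩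
  · by_cases h2 : q = t
    · rw [if_neg h1, if_pos h2] at *
      refine ⟨hne2, h1, hst, Or.inr (Or.inr ⟨rfl, h2 ▸ hpq.symm⟩)⟩
    · rw [if_neg h1, if_neg h2] at *
      exact ⟨hne2, h1, h2, Or.inl hpq⟩

theorem image_eq (hs : s ∈ W) (hst : s ≠ t) :
    W.image (fun u => if u = t then s else u) = W.erase t := by
  ext x
  rw [Finset.mem_image, Finset.mem_erase]
  constructor
  · rintro ⟨u, hu, rfl⟩
    by_cases h : u = t
    · rw [if_pos h]; exact ⟨hst, hs⟩
    · rw [if_neg h]; exact ⟨h, hu⟩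
  · rintro ⟨h1, h2⟩
    exact ⟨x, h2, if_neg h1⟩

/-- the contraction is connected -/
theorem whole (h : SConn G W) (hs : s ∈ W) (hst : s ≠ t) : SConn (con G s t) (W.erase t) := by
  rw [← image_eq hs hst]
  exact image hst h

/-- a connected set remains connected without a vertex with a connected link -/
theorem erase_conn (h : SConn G M) (hl : SConn G (lk G M t)) : SConn G (M.erase t) := by
  intro T hT hne hTM
  by_cases ht : t ∈ M
  swap
  · rw [Finset.erase_eq_of_notMem ht] at *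
    exact h T hT hne hTM
  have hTM' : T ⊆ M := fun x hx => Finset.mem_of_mem_erase (hT hx)
  have htT : t ∉ T := fun e => (Finset.mem_erase.1 (hT e)).1 rfl
  by_cases h1 : ∃ x ∈ lk G M t, x ∈ T
  · by_cases h2 : ∃ x ∈ lk G M t, x ∉ T
    · obtain ⟨x, hx, hxT⟩ := h1
      obtain ⟨z, hz, hzT⟩ := h2
      obtain ⟨p, hp, q, hq, hq', hpq⟩ := hl ((lk G M t).filter (fun u => u ∈ T))
        (Finset.filter_subset _ _) ⟨x, Finset.mem_filter.2 ⟨hx, hxT⟩⟩ (by
          intro he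
          have h3 : z ∈ (lk G M t).filter (fun u => u ∈ T) := by rw [he]; exact hz
          exact hzT (Finset.mem_filter.1 h3).2)
      have hqT : q ∉ T := fun e => hq' (Finset.mem_filter.2 ⟨hq, e⟩)
      have hqm := mem_lk.1 hq
      exact ⟨p, (Finset.mem_filter.1 hp).2, q, Finset.mem_erase.2 ⟨hqm.2.ne', hqm.1⟩, hqT, hpq⟩
    · -- the link of `t` is contained in `T`
      have h2' : ∀ x ∈ lk G M t, x ∈ T := by
        intro x hx; by_contra hc; exact h2 ⟨x, hx, hc⟩
      obtain ⟨p, hp, q, hq, hq', hpq⟩ := h (insert t T)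
        (Finset.insert_subset ht hTM') ⟨t, Finset.mem_insert_self _ _⟩ (by
          intro he
          apply hTM
          rw [← he, Finset.erase_insert htT])
      rw [Finset.mem_insert] at hp hq'
      have hqt : q ≠ t := fun e => hq' (Or.inl e)
      have hqT : q ∉ T := fun e => hq' (Or.inr e)
      rcases hp with rfl | hp
      · exact absurd (h2' q (mem_lk.2 ⟨hq, hpq⟩)) hqT
      · exact ⟨p, hp, q, Finset.mem_erase.2 ⟨hqt, hq⟩, hqT, hpq⟩
  · obtain ⟨p, hp, q, hq, hq', hpq⟩ := h T hTM' hne (fun e => htT (e ▸ ht))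
    have hqt : q ≠ t := by
      rintro rfl
      exact h1 ⟨p, mem_lk.2 ⟨hTM' hp, hpq.symm⟩, hp⟩
    exact ⟨p, hp, q, Finset.mem_erase.2 ⟨hqt, hq⟩, hq', hpq⟩

/-- the union of two connected sets with a common vertex is connected -/
theorem union_conn {M₁ M₂ : Finset V} (h1 : SConn G M₁) (h2 : SConn G M₂) {y : V} (hy1 : y ∈ M₁)
    (hy2 : y ∈ M₂) : SConn G (M₁ ∪ M₂) := by
  have key : ∀ T ⊆ M₁ ∪ M₂, y ∈ T → T ≠ M₁ ∪ M₂ →
      ∃ a ∈ T, ∃ b ∈ M₁ ∪ M₂, b ∉ T ∧ G.Adj a b := by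
    intro T hT hyT hne
    have h3 : ∃ z ∈ M₁ ∪ M₂, z ∉ T := by
      by_contra hc
      push Not at hc
      exact hne (Finset.Subset.antisymm hT hc)
    obtain ⟨z, hz, hzT⟩ := h3
    have go : ∀ M : Finset V, M ⊆ M₁ ∪ M₂ → SConn G M → y ∈ M → z ∈ M →
        ∃ a ∈ T, ∃ b ∈ M₁ ∪ M₂, b ∉ T ∧ G.Adj a b := by
      intro M hM hc hyM hzM
      obtain ⟨p, hp, q, hq, hq', hpq⟩ := hc (M.filter (fun u => u ∈ T)) (Finset.filter_subset _ _)
        ⟨y, Finset.mem_filter.2 ⟨hyM, hyT⟩⟩ (by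
          intro he
          have h4 : z ∈ M.filter (fun u => u ∈ T) := by rw [he]; exact hzM
          exact hzT (Finset.mem_filter.1 h4).2)
      exact ⟨p, (Finset.mem_filter.1 hp).2, q, hM hq, fun e => hq' (Finset.mem_filter.2 ⟨hq, e⟩),
        hpq⟩
    rcases Finset.mem_union.1 hz with h4 | h4
    · exact go M₁ Finset.subset_union_left h1 hy1 h4
    · exact go M₂ Finset.subset_union_right h2 hy2 h4
  intro T hT hne hTM
  by_cases hyT : y ∈ T
  · exact key T hT hyT hTM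
  · obtain ⟨a, ha, b, hb, hb', hab⟩ := key ((M₁ ∪ M₂) \ T) Finset.sdiff_subset
      (Finset.mem_sdiff.2 ⟨Finset.mem_union_left _ hy1, hyT⟩) (by
        intro he
        obtain ⟨x, hx⟩ := hne
        have h1 : x ∈ (M₁ ∪ M₂) \ T := by rw [he]; exact hT hx
        exact (Finset.mem_sdiff.1 h1).2 hx)
    rw [Finset.mem_sdiff] at ha hb'
    exact ⟨b, by by_contra hc; exact hb' ⟨hb, hc⟩, a, ha.1, ha.2, hab.symm⟩

/-- the vertices of the link of `s` in the contraction -/
theorem link_eq (hst : s ≠ t) : lk (con G s t) (W.erase t) s =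
    (lk G W s).erase t ∪ (lk G W t).erase s := by
  ext x
  rw [mem_lk, Finset.mem_union, Finset.mem_erase, Finset.mem_erase, Finset.mem_erase, mem_lk,
    mem_lk]
  constructor
  · rintro ⟨⟨h1, h2⟩, h3, h4, h5, h6 | h6 | h6⟩
    · exact Or.inl ⟨h1, h2, h6⟩
    · exact Or.inr ⟨h3.symm, h2, h6.2⟩
    · exact absurd h6.1.symm h3
  · rintro (⟨h1, h2, h3⟩ | ⟨h1, h2, h3⟩)
    · exact ⟨⟨h1, h2⟩, h3.ne, hst, h1, Or.inl h3⟩
    · exact ⟨⟨h3.ne', h2⟩, fun e => h1 e.symm, hst, h3.ne', Or.inr (Or.inl ⟨rfl, h3⟩)⟩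

/-- a connected set without `s` and `t` remains connected in the contraction -/
theorem con_conn (ht : t ∉ M) (h : SConn G M) : SConn (con G s t) M := by
  intro T hT hne hTM
  obtain ⟨p, hp, q, hq, hq', hpq⟩ := h T hT hne hTM
  exact ⟨p, hp, q, hq, hq', hpq.ne, fun e => ht (e ▸ hT hp), fun e => ht (e ▸ hq), Or.inl hpq⟩

/-- the link of `s` in the contraction is connected, rank at least four -/
theorem link_s {r : ℕ} (h : NP G (r + 4) W) (hs : s ∈ W) (ht : t ∈ W) (hst : G.Adj s t) :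
    (lk (con G s t) (W.erase t) s).Nonempty ∧
      SConn (con G s t) (lk (con G s t) (W.erase t) s) := by
  have hNs : NP G (r + 3) (lk G W s) := h.2.2 s hs
  have hNt : NP G (r + 3) (lk G W t) := h.2.2 t ht
  have hts : t ∈ lk G W s := mem_lk.2 ⟨ht, hst⟩
  have hsL : s ∈ lk G W t := mem_lk.2 ⟨hs, hst.symm⟩
  have hNst : NP G (r + 2) (lk G (lk G W s) t) := hNs.2.2 t hts
  have hNts : NP G (r + 2) (lk G (lk G W t) s) := hNt.2.2 s hsL
  obtain ⟨y, hy⟩ := hNst.1
  have hy1 := mem_lk.1 hy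
  have hy2 := mem_lk.1 hy1.1
  have hyA : y ∈ (lk G W s).erase t := Finset.mem_erase.2 ⟨hy1.2.ne', hy1.1⟩
  have hyB : y ∈ (lk G W t).erase s :=
    Finset.mem_erase.2 ⟨hy2.2.ne', mem_lk.2 ⟨hy2.1, hy1.2⟩⟩
  rw [link_eq hst.ne]
  refine ⟨⟨y, Finset.mem_union_left _ hyA⟩, con_conn ?_ (union_conn
    (erase_conn hNs.2.1 hNst.2.1) (erase_conn hNt.2.1 hNts.2.1) hyA hyB)⟩
  rw [Finset.mem_union, Finset.mem_erase, Finset.mem_erase]
  rintro (h1 | h1)
  · exact h1.1 rfl
  · exact (mem_lk.1 h1.2).2.ne rfl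

end NpcC

end Pool.Agent.Helper39K9.FV.K
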