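import Pool.Agent.W497.FS.Formula2

/-!
# Flag homology spheres with few vertices: statements of the combinatorial parts
-/

set_option autoImplicit false

namespace Pool.Agent.Helper39K9.FV

open Pool.Agent.W497.FS (NP Prm lk lkF nn cl comps Full)

/-! ## Part 3: combinatorics of normal pseudomanifolds (no `SQ`) -/

/-- [TYP] for a face `F` with one or two vertices of the link of `v` there is a non-neighbour of `v`
adjacent to all of `F`: in `lkF G W F` (an `NP` containing `v`) the vertex `v` has a non-neighbour
(`NP.lkF`, `NP.nn_nonempty`) -/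
def S_TYP : Prop := ∀ (V : Type) [DecidableEq V] (G : SimpleGraph V) (d : ℕ) (W : Finset V) (v : V),
  NP G d W → v ∈ W →
  (∀ p ∈ lk G W v, ∃ z ∈ nn G W v, G.Adj z p) ∧
  ∀ p ∈ lk G W v, ∀ q ∈ lk G W v, G.Adj p q → ∃ z ∈ nn G W v, G.Adj z p ∧ G.Adj z q

/-- [ISO] a non-neighbour `x` of `v` which is not adjacent to any other non-neighbour of `v` is the
only one: `lk x ⊆ lk v`, hence they are equal (`W497.FS.closed_eq`), and `lk v ∪ {v, x}` is everything
(`closed_eq` again, or connectedness) -/
def S_ISO : Prop := ∀ (V : Type) [DecidableEq V] (G : SimpleGraph V) (d : ℕ) (W : Finset V) (v x : V),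
  NP G (d + 2) W → v ∈ W → x ∈ nn G W v → (∀ y ∈ nn G W v, ¬ G.Adj x y) → nn G W v = {x}

/-- [PTH] three non-neighbours `x`, `y`, `z` of `v`, where `x`, `z` are not adjacent: a neighbour `p`
of `v` which is adjacent to `x` and `z` is adjacent to `y` (ISO for the link of `p`, where the
non-neighbours of `v` would be `x` and `z`; the rank of the link of `p` is at least two, since it
contains the non-adjacent `x`, `v`, `z`) -/
def S_PTH : Prop := ∀ (V : Type) [DecidableEq V] (G : SimpleGraph V) (d : ℕ) (W : Finset V)
  (v x y z : V), NP G (d + 2) W → v ∈ W → nn G W v = {x, y, z} → x ≠ z → ¬ G.Adj x z →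
  ∀ p ∈ lk G W v, G.Adj x p → G.Adj z p → G.Adj y p

end Pool.Agent.Helper39K9.FV
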