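import Pool.Agent.Helper39K9.FV.Defs
import Pool.Agent.Helper39K9.FV.StmC

/-!
# Flag homology spheres with few vertices: statements of the parts

THEOREM (MP_984acc_gt): the Singer conjecture for right-angled Coxeter groups whose nerve is a flag
homology sphere of dimension `n - 1` with at most `(5 n + 4) / 2` vertices.

Conventions: `G` is a graph on `V`, `W` a finite set of vertices, `QQ b G W` says that
`G.induce W` is in the class `SQ b` (constructors in `Pool/Agent/R782/Bal/ClassDef.lean`); `NP`, `Prm`,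
`lk`, `lkF`, `nn`, `cl`, `comps`, `Full` are those of `Pool/Agent/W497/FS` (Defs, Basic, Tough, Formula2).
-/

set_option autoImplicit false

namespace Pool.Agent.Helper39K9.FV

open Pool.Agent.R782.Bal (SQ)
open Pool.Agent.W497.FS (NP Prm lk lkF nn cl comps Full)

/-! ## Part 1: the class `SQ` on full subcomplexes (isomorphisms of graphs) -/

/-- [EMP] the empty complex and a point: from the point (`AQ.point`, class `AQ 0`) by `AR.aq`, `BR.ar`,
`BR.full`, `SQ.br`, `SQ.iso` -/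
def S_EMP : Prop := ∀ (V : Type) (G : SimpleGraph V), QQ 1 G ∅ ∧ ∀ x : V, QQ 1 G {x}

/-- [VRT] adding a vertex: `SQ.vert` for `G.induce W` and isomorphisms -/
def S_VRT : Prop := ∀ (V : Type) [DecidableEq V] (G : SimpleGraph V) (b : ℕ) (W : Finset V) (v : V),
  v ∈ W → QQ b G (W.erase v) → QQ (b - 1) G (lk G W v) → QQ b G W

/-- [VDL] deleting a vertex: `SQ.vdel` for `G.induce W` and isomorphisms -/
def S_VDL : Prop := ∀ (V : Type) [DecidableEq V] (G : SimpleGraph V) (b : ℕ) (W : Finset V) (v : V),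
  v ∈ W → QQ b G W → QQ b G (lk G W v) → QQ b G (W.erase v)

/-- [JON] joins: `SQ.join` and an isomorphism `join (G.induce A) (G.induce B) ≃g G.induce (A ∪ B)` -/
def S_JON : Prop := ∀ (V : Type) [DecidableEq V] (G : SimpleGraph V) (a b : ℕ) (A B : Finset V),
  Full G A B → QQ a G A → QQ (b + 1) G B → QQ (a + b) G (A ∪ B)

/-- [SUS] suspensions: `SQ.susp` and an isomorphism `susp (K.induce {w | w ≠ x ∧ w ≠ y}) ≃g K` -/
def S_SUS : Prop := ∀ (U : Type) [Finite U] (K : SimpleGraph U) (x y : U),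
  x ≠ y → ¬ K.Adj x y → (∀ w : U, w ≠ x → w ≠ y → K.Adj x w ∧ K.Adj y w) → SQ 0 K

/-- [MON] `SQ.up` iterated -/
def S_MON : Prop := ∀ (V : Type) (G : SimpleGraph V) (a b : ℕ) (W : Finset V), a ≤ b → QQ a G W → QQ b G W

/-- [CT2] contraction of the two non-neighbours `x`, `y` of `v`: `SQ.split` for the edge `xy` of
`G.induce W`; the contracted graph (on `W - y`) is a suspension with the poles `v`, `x` (`SQ.susp`,
`SQ.up`). The last but one hypothesis gives `NoSq`. -/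
def S_CT2 : Prop := ∀ (V : Type) (G : SimpleGraph V) (b : ℕ) (W : Finset V) (v x y : V),
  v ∈ W → x ∈ W → y ∈ W → v ≠ x → v ≠ y → x ≠ y → ¬ G.Adj v x → ¬ G.Adj v y → G.Adj x y →
  (∀ w ∈ W, w ≠ v → w ≠ x → w ≠ y → G.Adj v w ∧ (G.Adj x w ∨ G.Adj y w)) →
  (∀ p ∈ W, ∀ q ∈ W, G.Adj v p → G.Adj v q → G.Adj p q →
    (G.Adj x p ∧ G.Adj x q) ∨ (G.Adj y p ∧ G.Adj y q)) →
  ∀ L : Finset V, (∀ w, w ∈ L ↔ w ∈ W ∧ G.Adj x w ∧ G.Adj y w) → QQ (b - 1) G L → QQ b G W

/-- [CT3] contraction of the three non-neighbours `x`, `y`, `z` of `v`: first the edge `yz`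
(`NoSq` is a hypothesis), `z` disappears, then the edge `xy` of the contracted graph (`NoSq` from the
hypothesis on the edges `pq`), `y` disappears; the result is a suspension with the poles `v`, `x`. -/
def S_CT3 : Prop := ∀ (V : Type) (G : SimpleGraph V) (b : ℕ) (W : Finset V) (v x y z : V),
  v ∈ W → x ∈ W → y ∈ W → z ∈ W → v ≠ x → v ≠ y → v ≠ z → x ≠ y → x ≠ z → y ≠ z →
  ¬ G.Adj v x → ¬ G.Adj v y → ¬ G.Adj v z → G.Adj x y → G.Adj y z →
  (∀ w ∈ W, w ≠ v → w ≠ x → w ≠ y → w ≠ z →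
    G.Adj v w ∧ (G.Adj x w ∨ G.Adj y w ∨ G.Adj z w)) →
  (∀ p ∈ W, ∀ q ∈ W, G.Adj v p → G.Adj v q → G.Adj p q →
    (G.Adj x p ∧ G.Adj x q) ∨ (G.Adj y p ∧ G.Adj y q) ∨ (G.Adj z p ∧ G.Adj z q)) →
  (∀ p ∈ W, ∀ q ∈ W, G.Adj y p → ¬ G.Adj z p → p ≠ z → G.Adj z q → ¬ G.Adj y q → q ≠ y →
    ¬ G.Adj p q) →
  ∀ L M : Finset V, (∀ w, w ∈ L ↔ w ∈ W ∧ G.Adj y w ∧ G.Adj z w) →
  (∀ w, w ∈ M ↔ w ∈ W ∧ G.Adj x w ∧ w ≠ y ∧ w ≠ z ∧ (G.Adj y w ∨ G.Adj z w)) →
  QQ (b - 1) G L → QQ (b - 1) G M → QQ b G W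

/-! ## Part 2: full subcomplexes of spheres -/

/-- [RK1] subsets of two non-adjacent points: empty or one point (EMP), two points (SUS and
`SQ.up`) -/
def S_RK1 : Prop := ∀ (V : Type) (G : SimpleGraph V) (W : Finset V), NP G 1 W →
  ∀ A ⊆ W, QQ 1 G A

/-- [EVN] induction on `A` with VRT (and EMP) -/
def S_EVN : Prop := ∀ (V : Type) [DecidableEq V] (G : SimpleGraph V) (b : ℕ) (W : Finset V),
  (∀ v ∈ W, ∀ A ⊆ lk G W v, QQ b G A) → ∀ A ⊆ W, QQ (b + 1) G A

/-- [ODD] induction on `W \ A` with VDL -/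
def S_ODD : Prop := ∀ (V : Type) [DecidableEq V] (G : SimpleGraph V) (b : ℕ) (W : Finset V),
  QQ b G W → (∀ v ∈ W, ∀ A ⊆ lk G W v, QQ b G A) → ∀ A ⊆ W, QQ b G A

/-! ## Part 4: assembly -/

/-- [R3] prime of rank three with at most nine vertices (`exists_small`, CT2, CT3) -/
def S_R3 : Prop := ∀ (V : Type) [DecidableEq V] (G : SimpleGraph V) (W : Finset V),
  NP G 3 W → Prm G W → W.card ≤ 9 → QQ 2 G W

/-- [D0] defect zero -/
def S_D0 : Prop := ∀ (V : Type) [DecidableEq V] (G : SimpleGraph V) (d : ℕ) (W : Finset V),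
  NP G d W → W.card + (comps G W).card ≤ 3 * d → QQ (d / 2 + 1) G W

/-- [R4] prime of rank four with at most twelve vertices -/
def S_R4 : Prop := ∀ (V : Type) [DecidableEq V] (G : SimpleGraph V) (W : Finset V),
  NP G 4 W → Prm G W → W.card ≤ 12 → QQ 3 G W

/-- [BRG] homology spheres are normal pseudomanifolds (compare `Pool/Agent/R703/CW/Link.lean`:
`exists_facet`, `hsph_link`) -/
def S_BRG : Prop := ∀ (V : Type) [Fintype V] [LinearOrder V] (G : SimpleGraph V) (n : ℕ),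
  Pool.Agent.TH652.Above.HSph n G → NP G n Finset.univ

end Pool.Agent.Helper39K9.FV
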