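import Pool.Agent.Helper39K9.FV.Stm

/-!
# All flag 2-spheres: statements of the leaves

GOAL (for MP_984acc_gt.FewVertices): every flag homology 2-sphere is in the class `SQ 2`, so in `Tame` the rank may
be `≤ 3` (instead of `≤ 2`) without any condition.  Induction on the number of vertices: contract an edge which is not
in an induced square; if there is none, then the sphere is the octahedron or it can be cut along an induced square.

`NP G 3 W`: the flag complex of `G` on `W` is a connected closed surface (see `npe`); `lk G W v` are the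
neighbours of `v` in `W`.
-/

set_option autoImplicit false

namespace Pool.Agent.Helper39K9.FV.K

open Pool.Agent.W497.FS (NP Prm SConn lk lkF nn cl comps Full Eul)
open Pool.Agent.R781.VS (con)

/-- sum of the degrees -/
noncomputable def dg {V : Type} (G : SimpleGraph V) (W : Finset V) : ℕ := ∑ v ∈ W, (lk G W v).card

/-- flag 2-spheres: closed surfaces with Euler characteristic two -/
def Sp {V : Type} (G : SimpleGraph V) (W : Finset V) : Prop := NP G 3 W ∧ dg G W + 12 = 6 * W.card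

/-- the edge `st` is not contained in an induced square of `W` -/
def NS {V : Type} (G : SimpleGraph V) (W : Finset V) (s t : V) : Prop :=
  ∀ p ∈ W, ∀ q ∈ W, G.Adj s p → ¬ G.Adj t p → p ≠ t → G.Adj t q → ¬ G.Adj s q → q ≠ s → ¬ G.Adj p q

theorem npe {V : Type} {G : SimpleGraph V} {W : Finset V} : NP G 3 W ↔
    W.Nonempty ∧ SConn G W ∧ ∀ v ∈ W, (lk G W v).Nonempty ∧ SConn G (lk G W v) ∧
      ∀ w ∈ lk G W v, (lk G (lk G W v) w).card = 2 ∧
        ∀ x ∈ lk G (lk G W v) w, ∀ y ∈ lk G (lk G W v) w, ¬ G.Adj x y := Iff.rfl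

/-- [EU] Euler characteristic in terms of the degrees: with `f_i` = number of cliques with `i` vertices,
`1 - f_1 + f_2 - f_3 = -1`, `2 f_2 = dg`, `3 f_3 = dg` (the link of `v` is a cycle with as many edges as vertices) -/
def S_EU : Prop := ∀ (V : Type) [DecidableEq V] (G : SimpleGraph V) (W : Finset V), NP G 3 W →
  ∑ σ ∈ cl G W, (-1 : ℤ) ^ σ.card = -1 → dg G W + 12 = 6 * W.card

/-- [HOM] the surface has Euler characteristic at most two, and if it is two, then every 1-cycle `z` modulo 2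
is a boundary. Linear maps over `ZMod 2`: `∂₁` on functions on the 2-cliques has rank `|W| - 1` (the kernel of the
transpose are the constants, as `W` is connected), `∂₂` on functions on the 3-cliques has a kernel of dimension one
(the constants: a chain in the kernel takes the same value on the two triangles of each edge, so it is constant
around each vertex, as the links are connected, and then everywhere); `range ∂₂ ≤ ker ∂₁`, compare dimensions;
`f_2 = dg / 2`, `f_3 = dg / 3` -/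
def S_HOM : Prop := ∀ (V : Type) [DecidableEq V] (G : SimpleGraph V) (W : Finset V), NP G 3 W →
  6 * W.card ≤ dg G W + 12 ∧
  (dg G W + 12 = 6 * W.card → ∀ z : Finset V → ZMod 2, (∀ v ∈ W, ∑ w ∈ lk G W v, z {v, w} = 0) →
    ∃ c : Finset V → ZMod 2, ∀ v ∈ W, ∀ w ∈ lk G W v, ∑ p ∈ lk G (lk G W v) w, c {v, w, p} = z {v, w})

/-- the induced square `abcd` cuts `W` into `X` and `Y` -/
structure Cut {V : Type} (G : SimpleGraph V) (W X Y : Finset V) (a b c d : V) : Prop where
  ha : a ∈ W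
  hb : b ∈ W
  hc : c ∈ W
  hd : d ∈ W
  ab : G.Adj a b
  bc : G.Adj b c
  cd : G.Adj c d
  da : G.Adj d a
  ac : ¬ G.Adj a c
  bd : ¬ G.Adj b d
  nac : a ≠ c
  nbd : b ≠ d
  un : ∀ x, (x ∈ X ∨ x ∈ Y) ↔ (x ∈ W ∧ x ≠ a ∧ x ≠ b ∧ x ≠ c ∧ x ≠ d)
  dj : Disjoint X Y
  no : ∀ x ∈ X, ∀ y ∈ Y, ¬ G.Adj x y
  xab : ∃ x ∈ X, G.Adj a x ∧ G.Adj b x
  xbc : ∃ x ∈ X, G.Adj b x ∧ G.Adj c x
  xcd : ∃ x ∈ X, G.Adj c x ∧ G.Adj d x
  xda : ∃ x ∈ X, G.Adj d x ∧ G.Adj a x
  yab : ∃ y ∈ Y, G.Adj a y ∧ G.Adj b y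
  ybc : ∃ y ∈ Y, G.Adj b y ∧ G.Adj c y
  ycd : ∃ y ∈ Y, G.Adj c y ∧ G.Adj d y
  yda : ∃ y ∈ Y, G.Adj d y ∧ G.Adj a y

/-- [JOR] `jor : S_HOM → S_JOR`: take `z = 1` on the four edges of the square and `z = 0` otherwise, `X` = the
vertices not in the square all of whose triangles have `c = 1`, `Y` = those all of whose triangles have `c = 0`
(around a vertex which is not in the square `c` is constant) -/
def S_JOR : Prop := ∀ (V : Type) [DecidableEq V] (G : SimpleGraph V) (W : Finset V), Sp G W →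
  ∀ a ∈ W, ∀ b ∈ W, ∀ c ∈ W, ∀ d ∈ W, G.Adj a b → G.Adj b c → G.Adj c d → G.Adj d a → ¬ G.Adj a c →
    ¬ G.Adj b d → a ≠ c → b ≠ d → ∃ X Y : Finset V, Cut G W X Y a b c d

/-- [CE] contraction of `st`: the edges of the contraction (cases: both ends `≠ s`; `sy` with `y` adjacent to
`s` only, to `t` only, to both) -/
def S_CE : Prop := ∀ (V : Type) [DecidableEq V] (G : SimpleGraph V) (W : Finset V) (s t : V),
  NP G 3 W → s ∈ W → t ∈ W → G.Adj s t → NS G W s t →
  ∀ v ∈ W.erase t, ∀ w ∈ lk (con G s t) (W.erase t) v,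
    (lk (con G s t) (lk (con G s t) (W.erase t) v) w).card = 2 ∧
      ∀ x ∈ lk (con G s t) (lk (con G s t) (W.erase t) v) w,
        ∀ y ∈ lk (con G s t) (lk (con G s t) (W.erase t) v) w, ¬ (con G s t).Adj x y

/-- [CL] contraction of `st`: the links and the whole complex are connected. For `v ≠ s` pull a set `T` back to
`{u ∈ lk v : (if u = t then s else u) ∈ T}`. For `v = s`: the two common neighbours `a`, `b` of `s` and `t`; if
`T` contains neither of them, look at `T ∩ lk s` in `lk s` (or `T ∩ lk t` in `lk t`); if it contains exactly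
one of them use that the number of the edges between `T` and its complement in the cycle `lk s` is even -/
def S_CL : Prop := ∀ (V : Type) [DecidableEq V] (G : SimpleGraph V) (W : Finset V) (s t : V),
  NP G 3 W → s ∈ W → t ∈ W → G.Adj s t → NS G W s t →
  (W.erase t).Nonempty ∧ SConn (con G s t) (W.erase t) ∧ ∀ v ∈ W.erase t,
    (lk (con G s t) (W.erase t) v).Nonempty ∧ SConn (con G s t) (lk (con G s t) (W.erase t) v)

/-- [CS] contraction of `st`: the degrees (the two common neighbours lose one, the new vertex has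
`deg s + deg t - 4`) -/
def S_CS : Prop := ∀ (V : Type) [DecidableEq V] (G : SimpleGraph V) (W : Finset V) (s t : V),
  NP G 3 W → s ∈ W → t ∈ W → G.Adj s t → NS G W s t → dg (con G s t) (W.erase t) + 6 = dg G W

/-- `G₁` is the graph `G` in which the new neighbours of `y` are `a`, `b`, `c`, `d` -/
def Cone {V : Type} (G G₁ : SimpleGraph V) (y a b c d : V) : Prop := ∀ u v, G₁.Adj u v ↔
  (u ≠ y ∧ v ≠ y ∧ G.Adj u v) ∨ (u = y ∧ (v = a ∨ v = b ∨ v = c ∨ v = d)) ∨
    (v = y ∧ (u = a ∨ u = b ∨ u = c ∨ u = d))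

/-- [CUN] cut along the square and cone off -/
def S_CUN : Prop := ∀ (V : Type) [DecidableEq V] (G G₁ : SimpleGraph V) (W X Y : Finset V) (a b c d y : V),
  NP G 3 W → Cut G W X Y a b c d → y ∈ Y → Cone G G₁ y a b c d → NP G₁ 3 (insert y (X ∪ {a, b, c, d}))

/-- [CUS] degrees -/
def S_CUS : Prop := ∀ (V : Type) [DecidableEq V] (G G₁ : SimpleGraph V) (W X Y : Finset V) (a b c d y : V),
  NP G 3 W → Cut G W X Y a b c d → y ∈ Y → Cone G G₁ y a b c d →
  dg G₁ (insert y (X ∪ {a, b, c, d})) =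
    ∑ v ∈ X, (lk G W v).card + ∑ q ∈ ({a, b, c, d} : Finset V), (lk G X q).card + 16

/-- [CUT] degrees -/
def S_CUT : Prop := ∀ (V : Type) [DecidableEq V] (G : SimpleGraph V) (W X Y : Finset V) (a b c d : V),
  NP G 3 W → Cut G W X Y a b c d →
  dg G W = ∑ v ∈ X, (lk G W v).card + ∑ v ∈ Y, (lk G W v).card +
    ∑ q ∈ ({a, b, c, d} : Finset V), (lk G X q).card + ∑ q ∈ ({a, b, c, d} : Finset V), (lk G Y q).card + 8

/-- [OCT] the octahedron: each of the links contains a 4-cycle, so it is equal to it (connected, all degrees two),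
so `{v, w, a, b, c, d}` is everything -/
def S_OCT : Prop := ∀ (V : Type) [DecidableEq V] (G : SimpleGraph V) (W : Finset V) (v w a b c d : V),
  NP G 3 W → v ∈ W → w ∈ W → a ∈ W → b ∈ W → c ∈ W → d ∈ W → G.Adj a b → G.Adj b c → G.Adj c d → G.Adj d a →
  a ≠ c → b ≠ d → v ≠ w → G.Adj v a → G.Adj v b → G.Adj v c → G.Adj v d → G.Adj w a → G.Adj w b → G.Adj w c →
  G.Adj w d → ∀ z ∈ W, z ≠ v → z ≠ w → G.Adj v z ∧ G.Adj w z

/-- [SPQ] `SQ.split` for full subcomplexes (compare `ct2` in `FV/Ct.lean`) -/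
def S_SPQ : Prop := ∀ (V : Type) [DecidableEq V] (G : SimpleGraph V) (b : ℕ) (W : Finset V) (s t : V),
  s ∈ W → t ∈ W → G.Adj s t → NS G W s t → QQ b (con G s t) (W.erase t) →
  (∀ L : Finset V, (∀ w, w ∈ L ↔ w ∈ W ∧ G.Adj s w ∧ G.Adj t w) → QQ (b - 1) G L) → QQ b G W

/-- [GLQ] `SQ.glue` for full subcomplexes -/
def S_GLQ : Prop := ∀ (V : Type) [DecidableEq V] (G : SimpleGraph V) (b : ℕ) (A B : Finset V),
  (∀ x ∈ A, x ∉ B → ∀ y ∈ B, y ∉ A → ¬ G.Adj x y) → QQ b G A → QQ b G B → QQ (b - 1) G (A ∩ B) →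
  QQ b G (A ∪ B)

/-- [CGR] the class depends only on the induced graph (`SQ.iso`) -/
def S_CGR : Prop := ∀ (V : Type) (G G₁ : SimpleGraph V) (b : ℕ) (W : Finset V),
  (∀ x ∈ W, ∀ y ∈ W, G.Adj x y ↔ G₁.Adj x y) → QQ b G W → QQ b G₁ W

/-- [EUL] links of Eulerian complexes (compare `Pool.Agent.W497.FS.sum_sup`, `Eul.left`) -/
def S_EUL : Prop := ∀ (V : Type) [DecidableEq V] (G : SimpleGraph V) (d : ℕ) (W F : Finset V),
  NP G d W → Eul G d W → F ∈ cl G W → Eul G (d - F.card) (lkF G W F)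

end Pool.Agent.Helper39K9.FV.K
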