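import Pool.Agent.Helper39K9.FV.StmK

/-!
# Contraction of edges in all ranks: statements
-/

set_option autoImplicit false

namespace Pool.Agent.Helper39K9.FV.K

open Pool.Agent.W497.FS (NP Prm SConn lk lkF nn cl comps Full Eul)
open Pool.Agent.R781.VS (con)

/-- [NPC] contraction of an edge `st` which is not in an induced square preserves normal pseudomanifolds of every rank.
Induction on `r` (generalize `W`); `r = 3` is `ce`, `cl_` with `npe`; `r = 0, 1` are impossible (there is an edge),
`r = 2` is a cycle (direct). Step, `r ≥ 4`, links in `W.erase t` of the contraction: (i) `v ≠ s` not adjacent to both: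
the link is the old one (if `v` is adjacent to `s`) or the image of the old one under `t ↦ s` (if adjacent to
`t`; no vertex of `lk v` is adjacent to exactly one of `s`, `t` in a way that matters, by `NS`); (ii) `v` adjacent to
both: the link is the contraction of `st` in `lk v` (`NS` is inherited), use induction; (iii) `v = s`: the links of
the vertices `w` in the new link are the links of `s` in the new links of `w`, known from (i), (ii); connected: each
`x` in `lk s - t` has a path to `lk t` in it, and paths through `t` in `lk s` can be replaced, as the link of
`st` is connected (rank `r - 2 ≥ 2`) -/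
def S_NPC : Prop := ∀ (V : Type) [DecidableEq V] (G : SimpleGraph V) (r : ℕ) (W : Finset V) (s t : V),
  NP G r W → s ∈ W → t ∈ W → G.Adj s t → NS G W s t → NP (con G s t) r (W.erase t)

/-- [EUC] the same for Eulerian complexes. `Eul G (d+1) W` iff the sum of `(-1)^|σ|` over `cl G W` is `(-1)^(d+1)` and
all vertex links are Eulerian of rank `d` (`W497.FS.Eul.lkF_rank`, `eul_iff`, `sum_sup`). The cliques of the
contraction: those of `W - s - t`, and `s` with a clique of `lk s - t` or of `lk t - s` (by `NS`), so the
sum changes by `x (1 + x) F(lk st)` at `x = -1`, that is by `0`; the links as in NPC (for `v = s` apply the count to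
`σ ∋ s` directly) -/
def S_EUC : Prop := ∀ (V : Type) [DecidableEq V] (G : SimpleGraph V) (r : ℕ) (W : Finset V) (s t : V),
  Eul G r W → s ∈ W → t ∈ W → G.Adj s t → NS G W s t → Eul (con G s t) r (W.erase t)

end Pool.Agent.Helper39K9.FV.K
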