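import Pool.Agent.Helper39K9.FV.Ind
import Pool.Agent.Helper39K9.FV.TmDef
import Pool.Agent.R703.CW.Eul

set_option autoImplicit false

namespace Pool.Agent.Helper39K9.FV.K

open Pool.Agent.W497.FS (NP Prm lk lkF nn cl comps Full Eul)
open Pool.Agent.W497
open Pool.Agent.R782.Bal (SQ BR)

section

variable {V : Type} [DecidableEq V] {G : SimpleGraph V}

theorem eul_empty {d : ℕ} {W : Finset V} (h : Eul G d W) :
    ∑ σ ∈ cl G W, (-1 : ℤ) ^ σ.card = (-1) ^ d := by
  have h1 := h ∅ FS.empty_mem_cl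
  rw [← h1]
  refine Finset.sum_congr ?_ fun _ _ => rfl
  ext σ
  simp

theorem tame_qq (l : Lv) (vrt : S_VRT) (eu : S_EU)
    (hind : ∀ (G : SimpleGraph V) (W : Finset V), Sp G W → QQ 2 G W) {r : ℕ} {A : Finset V}
    (h : Tame G r A) : NP G r A → Eul G r A → QQ (r / 2 + 1) G A := by
  induction h with
  | low r A hr =>
    intro hN hE
    rcases (show r = 0 ∨ r = 1 ∨ r = 2 ∨ r = 3 by omega) with rfl | rfl | rfl | rfl
    · have h0 : A = ∅ := hN
      rw [h0]
      exact (l.emp V G).1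
    · exact l.rk1 V G A hN A (Finset.Subset.refl _)
    · exact r2 l hN A (Finset.Subset.refl _)
    · refine hind G A ⟨hN, eu V G A hN ?_⟩
      rw [eul_empty hE]
      norm_num
  | few r A hc => exact fun hN _ => main_qq l hN (Or.inl hc)
  | prime r A hc hp =>
    intro hN _
    obtain ⟨e, rfl⟩ : ∃ e, r = e + 1 := ⟨r - 1, by omega⟩
    exact prime l hN ⟨hN.nonempty, hp⟩ (Or.inr (Or.inl hc))
  | susp r A x y hx hy hxy hn h =>
    exact fun _ _ => l.mon V G 0 _ A (Nat.zero_le _) (susp_qq l hx hy hxy hn h)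
  | join r s A B C hC hAB hrA hsB _ _ ih1 ih2 =>
    intro hN hE
    obtain rfl : C = A ∪ B := by
      ext x
      rw [hC, Finset.mem_union]
    obtain ⟨d₁, d₂, hd, hA, hB⟩ := NP.split hAB hN
    obtain ⟨F, hF, hFc, rfl⟩ := hrA
    obtain ⟨F', hF', hFc', rfl⟩ := hsB
    have k1 := hA.card_le (mem_cl_iff.2 ⟨hF, hFc⟩)
    have k2 := hB.card_le (mem_cl_iff.2 ⟨hF', hFc'⟩)
    obtain rfl : F.card = d₁ := by omega
    obtain rfl : F'.card = d₂ := by omega
    exact l.mon V G _ _ _ (by omega) (l.jon V G _ _ A B hAB (ih1 hA (Eul.left hAB hB hE))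
      (ih2 hB (Eul.right hAB hA hE)))
  | loc r A B hr hB _ ih =>
    intro hN hE
    obtain ⟨m, hm⟩ := hr
    rcases m with _ | k
    · obtain rfl : r = 0 := by omega
      have h0 : A = ∅ := hN
      rw [h0]
      exact (l.emp V G).1
    · obtain rfl : r = 2 * k + 2 := by omega
      have e : (2 * k + 2) / 2 + 1 = k + 2 := by omega
      rw [e]
      refine herq2 l vrt hN (B := B) (fun T hT hc => ?_) (fun F hF ho hFB => ?_) _
        (Finset.Subset.refl _)
      · have := hB T hT hc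
        omega
      · obtain ⟨h2, h3⟩ := mem_cl_iff.1 hF
        obtain ⟨e', he', hNP, -⟩ := hN.lkF hF
        obtain rfl : e' = 2 * k + 2 - F.card := by omega
        refine ih F h2 h3 ho hFB (lkF G A F) (fun x => FS.mem_lkF) hNP ?_
        exact hE.lkF_rank hF (by omega)

end

/-- homology spheres are Eulerian -/
theorem eulH {n : ℕ} {V : Type} [Fintype V] [LinearOrder V] {G : SimpleGraph V}
    (hS : Pool.Agent.TH652.Above.HSph n G) : Eul G n Finset.univ := by
  have h := (Pool.Agent.R703.CW.flagEul_of_hsph hS)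
  exact h.eul

end Pool.Agent.Helper39K9.FV.K
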