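import Mathlib

/-!
# Tame flag complexes
-/

set_option autoImplicit false

namespace Pool.Agent.Helper39K9.FV.K

/-- the contraction of the edge `st` to `s`: the vertex `t` is removed (it becomes isolated), and its
neighbours become neighbours of `s` -/
def contract {V : Type} (G : SimpleGraph V) (s t : V) : SimpleGraph V where
  Adj x y := x ≠ y ∧ x ≠ t ∧ y ≠ t ∧ (G.Adj x y ∨ (x = s ∧ G.Adj t y) ∨ (y = s ∧ G.Adj t x))
  symm := ⟨by
    rintro x y ⟨h1, h2, h3, h4⟩
    refine ⟨h1.symm, h3, h2, ?_⟩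
    rcases h4 with h | h | h
    · exact Or.inl h.symm
    · exact Or.inr (Or.inr h)
    · exact Or.inr (Or.inl h)⟩
  loopless := ⟨fun x h => h.1 rfl⟩

/-- A class of full subcomplexes `A` of the flag complexes of graphs `G`; `r` stands for the rank of `A` (the
dimension plus one). -/
inductive Tame {V : Type} : SimpleGraph V → ℕ → Finset V → Prop
  /-- rank at most three (all 2-spheres, circles, ...) -/
  | low (G : SimpleGraph V) (r : ℕ) (A : Finset V) : r ≤ 3 → Tame G r A
  /-- at most `(5 r + 4) / 2` vertices -/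
  | few (G : SimpleGraph V) (r : ℕ) (A : Finset V) : 2 * A.card ≤ 5 * r + 4 → Tame G r A
  /-- at most `3 r - 1` vertices, not a join (the complement of the graph is connected) -/
  | prime (G : SimpleGraph V) (r : ℕ) (A : Finset V) : A.card + 1 ≤ 3 * r →
      (∀ D ⊆ A, D.Nonempty → D ≠ A → ∃ a ∈ D, ∃ b ∈ A, b ∉ D ∧ ¬ G.Adj a b) → Tame G r A
  /-- suspensions, with the poles `x` and `y` -/
  | susp (G : SimpleGraph V) (r : ℕ) (A : Finset V) (x y : V) : x ∈ A → y ∈ A → x ≠ y → ¬ G.Adj x y →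
      (∀ w ∈ A, w ≠ x → w ≠ y → G.Adj x w ∧ G.Adj y w) → Tame G r A
  /-- joins of tame complexes `A` of rank `r` and `B` of rank `s` -/
  | join (G : SimpleGraph V) (r s : ℕ) (A B C : Finset V) : (∀ x, x ∈ C ↔ x ∈ A ∨ x ∈ B) →
      (∀ a ∈ A, ∀ b ∈ B, G.Adj a b) →
      (∃ F ⊆ A, G.IsClique (F : Set V) ∧ F.card = r) → (∃ F ⊆ B, G.IsClique (F : Set V) ∧ F.card = s) →
      Tame G r A → Tame G s B → Tame G (r + s) C
  /-- vertex splittings: the edge `st` is not contained in an induced square, the contraction of `st` (on the set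
  `B = A - t`) and the link `L` of `st` in `A` are tame -/
  | split (G : SimpleGraph V) (r : ℕ) (A B : Finset V) (s t : V) : s ∈ A → t ∈ A → G.Adj s t →
      (∀ p ∈ A, ∀ q ∈ A, G.Adj s p → ¬ G.Adj t p → p ≠ t → G.Adj t q → ¬ G.Adj s q → q ≠ s → ¬ G.Adj p q) →
      (∀ x, x ∈ B ↔ x ∈ A ∧ x ≠ t) → Tame (contract G s t) r B →
      (∀ L : Finset V, (∀ w, w ∈ L ↔ w ∈ A ∧ G.Adj s w ∧ G.Adj t w) → Tame G (r - 2) L) → Tame G r A
  /-- even rank `r`: all simplices in the set `B` (of exceptional vertices) have at most `r / 2` vertices, and the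
  link `L` in `A` of every simplex `F` of `A` with an odd number of vertices, which is not contained in `B`, is tame -/
  | loc (G : SimpleGraph V) (r : ℕ) (A B : Finset V) : Even r →
      (∀ T ⊆ B, G.IsClique (T : Set V) → 2 * T.card ≤ r) →
      (∀ F ⊆ A, G.IsClique (F : Set V) → Odd F.card → ¬ F ⊆ B →
        ∀ L : Finset V, (∀ x, x ∈ L ↔ x ∈ A ∧ ∀ y ∈ F, G.Adj y x) → Tame G (r - F.card) L) → Tame G r A

end Pool.Agent.Helper39K9.FV.K
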