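import Pool.Agent.Helper39K9.FV.Ind
import Pool.Agent.Helper39K9.FV.TsDef
import Pool.Agent.Helper39K9.FV.StmL
import Pool.Agent.R703.CW.Eul

set_option autoImplicit false

namespace Pool.Agent.Helper39K9.FV.K

open Pool.Agent.W497.FS (NP Prm lk lkF nn cl comps Full Eul)
open Pool.Agent.W497
open Pool.Agent.R782.Bal (SQ BR)
open Pool.Agent.R781.VS (con)

section

variable {V : Type} [DecidableEq V] {G : SimpleGraph V}

theorem contract_eq (G : SimpleGraph V) (s t : V) : contract G s t = con G s t := rfl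

theorem eul_empty' {d : ℕ} {W : Finset V} (h : Eul G d W) :
    ∑ σ ∈ cl G W, (-1 : ℤ) ^ σ.card = (-1) ^ d := by
  have h1 := h ∅ FS.empty_mem_cl
  rw [← h1]
  refine Finset.sum_congr ?_ fun _ _ => rfl
  ext σ
  simp

theorem tame_qqs (l : Lv) (vrt : S_VRT) (eu : S_EU) (spq : S_SPQ) (npc : S_NPC) (euc : S_EUC)
    (hind : ∀ (G : SimpleGraph V) (W : Finset V), Sp G W → QQ 2 G W) {r : ℕ} {A : Finset V}
    (h : Tame G r A) : NP G r A → Eul G r A → QQ (r / 2 + 1) G A := by
  induction h with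
  | low G r A hr =>
    intro hN hE
    rcases (show r = 0 ∨ r = 1 ∨ r = 2 ∨ r = 3 by omega) with rfl | rfl | rfl | rfl
    · have h0 : A = ∅ := hN
      rw [h0]
      exact (l.emp V G).1
    · exact l.rk1 V G A hN A (Finset.Subset.refl _)
    · exact r2 l hN A (Finset.Subset.refl _)
    · refine hind G A ⟨hN, eu V G A hN ?_⟩
      rw [eul_empty' hE]
      norm_num
  | few G r A hc => exact fun hN _ => main_qq l hN (Or.inl hc)
  | prime G r A hc hp =>
    intro hN _
    obtain ⟨e, rfl⟩ : ∃ e, r = e + 1 := ⟨r - 1, by omega⟩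
    exact prime l hN ⟨hN.nonempty, hp⟩ (Or.inr (Or.inl hc))
  | susp G r A x y hx hy hxy hn h =>
    exact fun _ _ => l.mon V G 0 _ A (Nat.zero_le _) (susp_qq l hx hy hxy hn h)
  | join G r s A B C hC hAB hrA hsB _ _ ih1 ih2 =>
    intro hN hE
    obtain rfl : C = A ∪ B := by
      ext x
      rw [hC, Finset.mem_union]
    obtain ⟨d₁, d₂, hd, hA, hB⟩ := NP.split hAB hN
    obtain ⟨F, hF, hFc, rfl⟩ := hrA
    obtain ⟨F', hF', hFc', rfl⟩ := hsB
    have k1 := hA.card_le (mem_cl_iff.2 ⟨hF, hFc⟩)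
    have k2 := hB.card_le (mem_cl_iff.2 ⟨hF', hFc'⟩)
    obtain rfl : F.card = d₁ := by omega
    obtain rfl : F'.card = d₂ := by omega
    exact l.mon V G _ _ _ (by omega) (l.jon V G _ _ A B hAB (ih1 hA (Eul.left hAB hB hE))
      (ih2 hB (Eul.right hAB hA hE)))
  | split G r A B s t hs ht hst hNS hB _ _ ih1 ih2 =>
    intro hN hE
    obtain rfl : B = A.erase t := by
      ext x
      rw [hB, Finset.mem_erase, and_comm]
    have hp := pair_cl hs ht hst
    have hc : ({s, t} : Finset V).card = 2 := Finset.card_pair hst.ne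
    have hr := hN.card_le hp
    rw [hc] at hr
    refine spq V G _ A s t hs ht hst hNS (ih1 (npc V G r A s t hN hs ht hst hNS)
      (euc V G r A s t hE hs ht hst hNS)) fun L hL => ?_
    obtain ⟨e', he', hNP, -⟩ := hN.lkF hp
    rw [hc] at he'
    obtain rfl : e' = r - 2 := by omega
    have hL' : L = lkF G A {s, t} := by
      ext w
      rw [hL, FS.mem_lkF_pair]
    have h1 := ih2 L hL (by rw [hL']; exact hNP)
      (by rw [hL']; exact hE.lkF_rank hp (by rw [hc]; omega))
    have e : (r - 2) / 2 + 1 = r / 2 + 1 - 1 := by omega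
    rwa [e] at h1
  | loc G r A B hr hB _ ih =>
    intro hN hE
    obtain ⟨m, hm⟩ := hr
    rcases m with _ | k
    · obtain rfl : r = 0 := by omega
      have h0 : A = ∅ := hN
      rw [h0]
      exact (l.emp V G).1
    · obtain rfl : r = 2 * k + 2 := by omega
      have e : (2 * k + 2) / 2 + 1 = k + 2 := by omega
      rw [e]
      refine herq2 l vrt hN (B := B) (fun T hT hc => ?_) (fun F hF ho hFB => ?_) _
        (Finset.Subset.refl _)
      · have := hB T hT hc
        omega
      · obtain ⟨h2, h3⟩ := mem_cl_iff.1 hF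
        obtain ⟨e', he', hNP, -⟩ := hN.lkF hF
        obtain rfl : e' = 2 * k + 2 - F.card := by omega
        exact ih F h2 h3 ho hFB (lkF G A F) (fun x => FS.mem_lkF) hNP (hE.lkF_rank hF (by omega))

end

/-- homology spheres are Eulerian -/
theorem eulH' {n : ℕ} {V : Type} [Fintype V] [LinearOrder V] {G : SimpleGraph V}
    (hS : Pool.Agent.TH652.Above.HSph n G) : Eul G n Finset.univ :=
  (Pool.Agent.R703.CW.flagEul_of_hsph hS).eul

end Pool.Agent.Helper39K9.FV.K
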